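import Pool.Agent.Lib.HC.L.Defs

/-!
# HC+: elliptic curves with complex multiplication are of CM type; products (helper47)
-/

set_option autoImplicit false

noncomputable section

namespace HC

namespace CmAux

open NumberField

/-- three elements of a lattice of rank 2 are linearly dependent -/
theorem dep (E : AV) (h1 : Module.finrank ℂ E.V = 1) (u v w : E.V) (hu : u ∈ E.L) (hv : v ∈ E.L)
    (hw : w ∈ E.L) : ∃ a b c : ℤ, (a ≠ 0 ∨ b ≠ 0 ∨ c ≠ 0) ∧ a • u + b • v + c • w = 0 := by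
  by_contra hcon
  push Not at hcon
  have hrk : Module.finrank ℤ E.L = 2 := by
    rw [ZLattice.rank ℝ E.L, finrank_real_of_complex, h1]
  have hfin : Module.Finite ℤ E.L := ZLattice.module_finite ℝ E.L
  have hli : LinearIndependent ℤ ![(⟨u, hu⟩ : E.L), ⟨v, hv⟩, ⟨w, hw⟩] := by
    rw [Fintype.linearIndependent_iff]
    intro g hg
    rw [Fin.sum_univ_three] at hg
    have h2 := congrArg (Subtype.val) hg
    have h3 : g 0 • u + g 1 • v + g 2 • w = 0 := h2
    by_contra hne
    push Not at hne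
    obtain ⟨i, hi⟩ := hne
    refine hcon (g 0) (g 1) (g 2) ?_ h3
    fin_cases i
    · exact Or.inl hi
    · exact Or.inr (Or.inl hi)
    · exact Or.inr (Or.inr hi)
  have := hli.fintype_card_le_finrank
  rw [hrk, Fintype.card_fin] at this
  omega

/-- a vector with a multiple in the lattice is a combination of `v₀` and `z v₀` with rational
coefficients -/
theorem comb (E : AV) (h1 : Module.finrank ℂ E.V = 1) {z : ℂ} (hz : z.im ≠ 0) {v₀ : E.V}
    (h0 : v₀ ≠ 0) (hv₀ : v₀ ∈ E.L) {N : ℕ} (hN : N ≠ 0) (hNz : N • (z • v₀) ∈ E.L) {x : ℂ} {M : ℕ}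
    (hM : M ≠ 0) (hx : M • (x • v₀) ∈ E.L) : ∃ p q : ℚ, x = (p : ℂ) + (q : ℂ) * z := by
  obtain ⟨a, b, c, habc, h⟩ := dep E h1 v₀ (N • (z • v₀)) (M • (x • v₀)) hv₀ hNz hx
  have h2 : ((a : ℂ) + (b : ℂ) * ((N : ℂ) * z) + (c : ℂ) * ((M : ℂ) * x)) • v₀ = 0 := by
    rw [← h, add_smul, add_smul, mul_smul, mul_smul, mul_smul, mul_smul, Int.cast_smul_eq_zsmul,
      Int.cast_smul_eq_zsmul, Int.cast_smul_eq_zsmul, Nat.cast_smul_eq_nsmul,
      Nat.cast_smul_eq_nsmul]
  have h3 : (a : ℂ) + (b : ℂ) * ((N : ℂ) * z) + (c : ℂ) * ((M : ℂ) * x) = 0 :=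
    (smul_eq_zero.1 h2).resolve_right h0
  have hNC : (N : ℂ) ≠ 0 := Nat.cast_ne_zero.2 hN
  have hMC : (M : ℂ) ≠ 0 := Nat.cast_ne_zero.2 hM
  have hc : c ≠ 0 := by
    intro hc
    rw [hc, Int.cast_zero, zero_mul, add_zero] at h3
    have h4 := congrArg Complex.im h3
    simp only [Complex.add_im, Complex.intCast_im, Complex.mul_im, Complex.intCast_re,
      Complex.natCast_re, Complex.natCast_im, zero_mul, add_zero, zero_add, Complex.zero_im,
      Complex.mul_re] at h4
    have hb : (b : ℝ) = 0 := by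
      rcases mul_eq_zero.1 h4 with h5 | h5
      · exact h5
      · rcases mul_eq_zero.1 h5 with h6 | h6
        · exact absurd (Nat.cast_eq_zero.1 h6) hN
        · exact absurd h6 hz
    have hb' : b = 0 := by exact_mod_cast hb
    rw [hb', Int.cast_zero, zero_mul, add_zero] at h3
    have ha' : a = 0 := by exact_mod_cast h3
    rcases habc with h5 | h5 | h5
    · exact h5 ha'
    · exact h5 hb'
    · exact h5 hc
  have hcC : (c : ℂ) ≠ 0 := Int.cast_ne_zero.2 hc
  refine ⟨-(a : ℚ) / ((c : ℚ) * M), -((b : ℚ) * N) / ((c : ℚ) * M), ?_⟩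
  push_cast
  field_simp
  linear_combination h3

/-- the images of the generator under the embeddings -/
theorem roots {z t : ℂ} {p q : ℚ} (hz : z * z = (p : ℂ) + (q : ℂ) * z)
    (ht : t * t = (p : ℂ) + (q : ℂ) * t) : t = z ∨ t = (q : ℂ) - z := by
  have : (t - z) * (t - ((q : ℂ) - z)) = 0 := by linear_combination ht - hz
  rcases mul_eq_zero.1 this with h | h
  · exact Or.inl (sub_eq_zero.1 h)
  · exact Or.inr (sub_eq_zero.1 h)

theorem conj_root {z : ℂ} (hz0 : z.im ≠ 0) {p q : ℚ} (hz : z * z = (p : ℂ) + (q : ℂ) * z) :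
    (starRingEnd ℂ) z = (q : ℂ) - z := by
  have h : (starRingEnd ℂ) z * (starRingEnd ℂ) z = (p : ℂ) + (q : ℂ) * (starRingEnd ℂ) z := by
    have := congrArg (starRingEnd ℂ) hz
    rw [map_mul, map_add, map_mul, map_ratCast, map_ratCast] at this
    exact this
  rcases roots hz h with h1 | h1
  · exact absurd (Complex.conj_eq_iff_im.1 h1) hz0
  · exact h1

end CmAux

open CmAux NumberField in
/-- an elliptic curve with a rational endomorphism that is not real is of CM type -/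
theorem isCM_curve (E : AV) (h1 : Module.finrank ℂ E.V = 1) (z : ℂ) (hz : z.im ≠ 0)
    (hr : ∀ v ∈ E.L, ∃ N : ℕ, N ≠ 0 ∧ N • (z • v) ∈ E.L) : IsCM E := by
  classical
  -- a nonzero lattice vector
  obtain ⟨v₀, hv₀, h0⟩ : ∃ v₀ ∈ E.L, v₀ ≠ 0 := by
    by_contra hcon
    push Not at hcon
    have h2 := (inferInstance : IsZLattice ℝ E.L).span_top
    have h3 : Submodule.span ℝ (E.L : Set E.V) = ⊥ := by
      rw [Submodule.span_eq_bot]
      exact hcon
    rw [h3] at h2
    have h4 : Module.finrank ℝ E.V = 0 := by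
      rw [← finrank_top ℝ E.V, ← h2, finrank_bot]
    rw [finrank_real_of_complex, h1] at h4
    omega
  obtain ⟨N, hN, hNz⟩ := hr v₀ hv₀
  -- the quadratic equation
  obtain ⟨p, q, hpq⟩ : ∃ p q : ℚ, z * z = (p : ℂ) + (q : ℂ) * z := by
    obtain ⟨N', hN', hN'z⟩ := hr _ hNz
    refine comb E h1 hz h0 hv₀ hN hNz (M := N' * N) (mul_ne_zero hN' hN) ?_
    have e : (N' * N) • ((z * z) • v₀) = N' • (z • (N • (z • v₀))) := by
      rw [mul_smul z z, mul_smul N' N, smul_comm N z]
    rw [e]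
    exact hN'z
  -- the field
  let K : IntermediateField ℚ ℂ := IntermediateField.adjoin ℚ {z}
  let g : K := IntermediateField.AdjoinSimple.gen ℚ z
  have hg : (g : ℂ) = z := IntermediateField.AdjoinSimple.coe_gen ℚ z
  have hmon : (Polynomial.X ^ 2 - (Polynomial.C q * Polynomial.X + Polynomial.C p) :
      Polynomial ℚ).Monic := Polynomial.monic_X_pow_sub Polynomial.degree_linear_lt
  have hint : IsIntegral ℚ z := by
    refine ⟨Polynomial.X ^ 2 - (Polynomial.C q * Polynomial.X + Polynomial.C p), hmon, ?_⟩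
    · simp only [Polynomial.eval₂_sub, Polynomial.eval₂_pow, Polynomial.eval₂_X,
        Polynomial.eval₂_add, Polynomial.eval₂_mul, Polynomial.eval₂_C, eq_ratCast]
      linear_combination hpq
  have hfd : FiniteDimensional ℚ K := IntermediateField.adjoin.finiteDimensional hint
  have hnf : NumberField K := ⟨⟩
  have hrk : Module.finrank ℚ K = 2 := by
    rw [IntermediateField.adjoin.finrank hint]
    refine le_antisymm ?_ ?_
    · have h5 := minpoly.min ℚ z hmon (by
        simp only [map_sub, map_pow, Polynomial.aeval_X, map_add, map_mul, Polynomial.aeval_C,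
          eq_ratCast]
        linear_combination hpq)
      have h6 := Polynomial.natDegree_le_natDegree h5
      refine h6.trans ?_
      refine (Polynomial.natDegree_sub_le _ _).trans ?_
      refine max_le ?_ ?_
      · rw [Polynomial.natDegree_X_pow]
      · exact (Polynomial.natDegree_linear_le).trans one_le_two
    · rw [minpoly.two_le_natDegree_iff hint]
      rintro ⟨r, hr⟩
      apply hz
      rw [← hr]
      simp
  -- embeddings are determined by the image of the generator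
  have hext : ∀ φ ψ : K →+* ℂ, φ g = ψ g → φ = ψ := by
    intro φ ψ h
    have h7 : (φ.toRatAlgHom : K →ₐ[ℚ] ℂ) = ψ.toRatAlgHom := by
      refine IntermediateField.algHom_ext_of_eq_adjoin ℚ rfl ?_
      intro x hx
      have hx' : x = z := hx
      subst hx'
      exact h
    have h8 := congrArg (fun f : K →ₐ[ℚ] ℂ => (f : K →+* ℂ)) h7
    exact RingHom.ext fun x => DFunLike.congr_fun h8 x
  have hroot : ∀ φ : K →+* ℂ, φ g * φ g = (p : ℂ) + (q : ℂ) * φ g := by
    intro φ
    have h9 : g * g = (p : K) + (q : K) * g := by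
      apply Subtype.ext
      push_cast
      rw [hg]
      exact hpq
    have := congrArg φ h9
    rwa [map_mul, map_add, map_mul, map_ratCast, map_ratCast] at this
  let inc : K →+* ℂ := (K.val : K →ₐ[ℚ] ℂ).toRingHom
  have hinc : inc g = z := hg
  have hcj := conj_root hz hpq
  have hconj : ∀ φ : K →+* ℂ, (ComplexEmbedding.conjugate φ) g = (starRingEnd ℂ) (φ g) :=
    fun φ => rfl
  have htc : IsTotallyComplex K := by
    refine ⟨fun w => ?_⟩
    rw [InfinitePlace.isComplex_iff]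
    intro hreal
    have h10 : (starRingEnd ℂ) (w.embedding g) = w.embedding g :=
      DFunLike.congr_fun hreal g
    have h11 := Complex.conj_eq_iff_im.1 h10
    rcases roots hpq (hroot w.embedding) with h12 | h12
    · rw [h12] at h11
      exact hz h11
    · rw [h12, Complex.sub_im, Complex.ratCast_im, zero_sub, neg_eq_zero] at h11
      exact hz h11
  have hqe : Algebra.IsQuadraticExtension ℚ K := ⟨hrk⟩
  have hcm : IsCMField K := IsCMField.ofCMExtension ℚ K
  refine ⟨1, fun _ => K, fun _ => inferInstance, fun _ => hnf, fun _ => hcm, fun _ => {inc}, ?_, ?_⟩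
  · intro _ φ
    constructor
    · intro h h'
      have h' : ComplexEmbedding.conjugate φ = inc := h'
      have h : φ = inc := h
      have h13 := hconj φ
      rw [h', h, hinc] at h13
      exact hz (Complex.conj_eq_iff_im.1 h13.symm)
    · intro h
      change φ = inc
      rcases roots hpq (hroot φ) with h12 | h12
      · exact hext _ _ (h12.trans hinc.symm)
      · exfalso
        apply h
        change ComplexEmbedding.conjugate φ = inc
        refine hext _ _ ?_
        rw [hconj, h12, hinc, map_sub, map_ratCast, hcj]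
        ring
  · -- the isomorphism
    let e0 : ℂ →ₗ[ℂ] E.V := LinearMap.toSpanSingleton ℂ E.V v₀
    have he0 : Function.Bijective e0 := by
      refine ⟨?_, ?_⟩
      · rw [injective_iff_map_eq_zero]
        intro a ha
        exact (smul_eq_zero.1 ha).resolve_right h0
      · intro v
        obtain ⟨c, hc⟩ := exists_smul_eq_of_finrank_eq_one h1 h0 v
        exact ⟨c, hc⟩
    let e1 : ℂ ≃ₗ[ℂ] E.V := LinearEquiv.ofBijective e0 he0
    let I := (i : Fin 1) × (({inc} : Set (K →+* ℂ)) : Type)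
    have hU : Unique I :=
      { default := ⟨0, ⟨inc, rfl⟩⟩
        uniq := by
          rintro ⟨i, ⟨φ, hφ⟩⟩
          have hi : i = 0 := Subsingleton.elim _ _
          have hφ' : φ = inc := hφ
          subst hi hφ'
          rfl }
    refine ⟨e1.symm ≪≫ₗ (LinearEquiv.funUnique I ℂ ℂ).symm, ?_⟩
    intro v hv
    obtain ⟨c, hc⟩ := he0.2 v
    have hc' : c • v₀ = v := hc
    obtain ⟨p', q', h14⟩ := comb E h1 hz h0 hv₀ hN hNz (M := 1) one_ne_zero
      (x := c) (by rw [one_smul, hc']; exact hv)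
    refine ⟨fun _ => (p' : K) + (q' : K) * g, ?_⟩
    rintro i ⟨φ, hφ⟩
    have hφ' : φ = inc := hφ
    change e1.symm v = φ ((p' : K) + (q' : K) * g)
    rw [hφ', map_add, map_mul, map_ratCast, map_ratCast, hinc, ← h14, LinearEquiv.symm_apply_eq]
    exact hc.symm

/-! ### Products -/

/-- a CM field with a CM type -/
structure CMD where
  E : Type
  [f : Field E]
  [nf : NumberField E]
  [cm : NumberField.IsCMField E]
  Φ : Set (E →+* ℂ)
  h : IsType Φ

attribute [instance] CMD.f CMD.nf CMD.cm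

/-- `IsCM` with an arbitrary index type -/
def IsCMI (T : AV) (I : Type) : Prop :=
  ∃ D : I → CMD, ∃ ψ : T.V ≃ₗ[ℂ] ((s : (i : I) × (D i).Φ) → ℂ), ∀ v ∈ T.L, ∃ y : ∀ i, (D i).E,
    ∀ (i : I) (φ : (D i).Φ), ψ v ⟨i, φ⟩ = φ.1 (y i)

theorem isCM_of_isCMI {T : AV} {I : Type} [Fintype I] (h : IsCMI T I) : IsCM T := by
  classical
  obtain ⟨D, ψ, hψ⟩ := h
  let e : Fin (Fintype.card I) ≃ I := (Fintype.equivFin I).symm
  refine ⟨Fintype.card I, fun i => (D (e i)).E, fun i => inferInstance, fun i => inferInstance,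
    fun i => inferInstance, fun i => (D (e i)).Φ, fun i => (D (e i)).h,
    ψ ≪≫ₗ LinearEquiv.funCongrLeft ℂ ℂ (Equiv.sigmaCongrLeft (β := fun i => (D i).Φ) e), ?_⟩
  intro v hv
  obtain ⟨y, hy⟩ := hψ v hv
  exact ⟨fun i => y (e i), fun i φ => hy (e i) φ⟩

theorem isCMI_of_isCM {T : AV} (h : IsCM T) : ∃ n : ℕ, IsCMI T (Fin n) := by
  obtain ⟨n, E, f, nf, cm, Φ, hΦ, ψ, hψ⟩ := h
  exact ⟨n, fun i => { E := E i, f := f i, nf := nf i, cm := cm i, Φ := Φ i, h := hΦ i }, ψ, hψ⟩

/-- a product of abelian varieties of CM type is of CM type -/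
theorem isCM_prod {A B T : AV} (hA : IsCM A) (hB : IsCM B) (hT : IsProd T A B) : IsCM T := by
  classical
  obtain ⟨n, D, ψ, hψ⟩ := isCMI_of_isCM hA
  obtain ⟨m, D', ψ', hψ'⟩ := isCMI_of_isCM hB
  obtain ⟨θ, hθ⟩ := hT
  refine isCM_of_isCMI (I := Fin n ⊕ Fin m) ⟨Sum.elim D D', θ ≪≫ₗ (ψ.prodCongr ψ') ≪≫ₗ
    (LinearEquiv.sumArrowLequivProdArrow _ _ ℂ ℂ).symm ≪≫ₗ
    LinearEquiv.funCongrLeft ℂ ℂ (Equiv.sumSigmaDistrib (fun i => (Sum.elim D D' i).Φ)), ?_⟩
  intro v hv
  obtain ⟨N, hN, h1, h2⟩ := hθ v hv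
  obtain ⟨y, hy⟩ := hψ _ h1
  obtain ⟨y', hy'⟩ := hψ' _ h2
  have hNC : (N : ℂ) ≠ 0 := Nat.cast_ne_zero.2 hN
  have key : ∀ a b : ℂ, N • a = b → a = (N : ℂ)⁻¹ * b := by
    intro a b h
    rw [← h, nsmul_eq_mul, ← mul_assoc, inv_mul_cancel₀ hNC, one_mul]
  refine ⟨fun i => Sum.rec (motive := fun i => (Sum.elim D D' i).E)
    (fun i => (N : (D i).E)⁻¹ * y i) (fun i => (N : (D' i).E)⁻¹ * y' i) i, ?_⟩
  rintro (i | i) φ
  · have h3 := hy i φ
    rw [map_nsmul] at h3
    have h4 := key _ _ h3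
    have h5 : ∀ f : (D i).E →+* ℂ, f ((N : (D i).E)⁻¹ * y i) = (N : ℂ)⁻¹ * f (y i) := fun f => by
      rw [map_mul, map_inv₀, map_natCast]
    exact h4.trans (h5 φ.1).symm
  · have h3 := hy' i φ
    rw [map_nsmul] at h3
    have h4 := key _ _ h3
    have h5 : ∀ f : (D' i).E →+* ℂ, f ((N : (D' i).E)⁻¹ * y' i) = (N : ℂ)⁻¹ * f (y' i) := fun f => by
      rw [map_mul, map_inv₀, map_natCast]
    exact h4.trans (h5 φ.1).symm

/-- an abelian variety isogenous to one of CM type is of CM type -/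
theorem isCM_isog {T T' : AV} (h : IsCM T')
    (hT : ∃ ψ : T.V ≃ₗ[ℂ] T'.V, ∀ v ∈ T.L, ∃ N : ℕ, N ≠ 0 ∧ N • ψ v ∈ T'.L) : IsCM T := by
  classical
  obtain ⟨n, D, ψ, hψ⟩ := isCMI_of_isCM h
  obtain ⟨θ, hθ⟩ := hT
  refine isCM_of_isCMI (I := Fin n) ⟨D, θ ≪≫ₗ ψ, ?_⟩
  intro v hv
  obtain ⟨N, hN, h1⟩ := hθ v hv
  obtain ⟨y, hy⟩ := hψ _ h1
  have hNC : (N : ℂ) ≠ 0 := Nat.cast_ne_zero.2 hN
  refine ⟨fun i => (N : (D i).E)⁻¹ * y i, fun i φ => ?_⟩
  have h3 := hy i φ
  rw [map_nsmul] at h3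
  change N • ψ (θ v) ⟨i, φ⟩ = φ.1 (y i) at h3
  change ψ (θ v) ⟨i, φ⟩ = _
  rw [map_mul, map_inv₀, map_natCast, ← h3, nsmul_eq_mul, ← mul_assoc, inv_mul_cancel₀ hNC, one_mul]

end HC
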