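import Pool.Agent.Lib.HC.L.E.Cm
import Pool.Agent.Lib.HC.P.Wtl

/-!
# HC+: detection of abelian varieties of CM type (helper47)
-/

set_option autoImplicit false

noncomputable section

namespace HC

namespace DetAux

variable {B : AV} {K : Type} [Field K]

theorem a_ratCast (a : K →+* Module.End ℂ B.V) (N : ℕ) (y : K) (v : B.V) :
    a ((N : K) * y) v = N • a y v := by
  rw [map_mul, map_natCast, Module.End.mul_apply, ← nsmul_one]
  rfl

theorem a_int (a : K →+* Module.End ℂ B.V) (n : ℤ) (y : K) (v : B.V) :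
    a ((n : K) * y) v = n • a y v := by
  rw [map_mul, map_intCast, Module.End.mul_apply, ← zsmul_one]
  rfl

/-- the orbit map of a nonzero vector is injective -/
theorem inj (a : K →+* Module.End ℂ B.V) {v₀ : B.V} (h0 : v₀ ≠ 0) {y : K} (h : a y v₀ = 0) :
    y = 0 := by
  by_contra hy
  apply h0
  have h1 : a (y⁻¹ * y) v₀ = 0 := by
    rw [map_mul, Module.End.mul_apply, h, map_zero]
  rwa [inv_mul_cancel₀ hy, map_one, Module.End.one_apply] at h1

/-- every lattice vector is in the orbit -/
theorem surj [NumberField K] (a : K →+* Module.End ℂ B.V)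
    (ha : ∀ k, RatEnd B ((a k).restrictScalars ℝ)) (hd : Module.finrank ℚ K = 2 * Module.finrank ℂ B.V)
    {v₀ : B.V} (hv₀ : v₀ ∈ B.L) (h0 : v₀ ≠ 0) {l : B.V} (hl : l ∈ B.L) : ∃ y : K, a y v₀ = l := by
  classical
  by_contra hcon
  push Not at hcon
  have hr : ∀ k : K, ∃ N : ℕ, N ≠ 0 ∧ N • a k v₀ ∈ B.L := fun k => ha k v₀ hv₀
  let b := Module.finBasis ℚ K
  choose N hN hNL using hr
  let w : Option (Fin (Module.finrank ℚ K)) → B.L := fun o =>
    o.elim ⟨l, hl⟩ fun k => ⟨N (b k) • a (b k) v₀, hNL (b k)⟩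
  have hw : LinearIndependent ℤ w := by
    rw [Fintype.linearIndependent_iff]
    intro g hg
    rw [Fintype.sum_option] at hg
    have h1 := congrArg Subtype.val hg
    have h2 : g none • l + ∑ k, g (some k) • (N (b k) • a (b k) v₀) = 0 := by
      have e : ((∑ k, g (some k) • w (some k) : B.L) : B.V) =
          ∑ k, g (some k) • (N (b k) • a (b k) v₀) := by
        rw [AddSubmonoidClass.coe_finsetSum]
        rfl
      rw [← e]
      exact h1
    let s : K := ∑ k, ((g (some k) : K) * ((N (b k) : K) * b k))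
    have h3 : a s v₀ = ∑ k, g (some k) • (N (b k) • a (b k) v₀) := by
      simp only [s]
      rw [map_sum, LinearMap.sum_apply]
      refine Finset.sum_congr rfl fun k _ => ?_
      rw [a_int, a_ratCast]
    rw [← h3] at h2
    have hg0 : g none = 0 := by
      by_contra hne
      have hneK : (g none : K) ≠ 0 := Int.cast_ne_zero.2 hne
      refine hcon (-((g none : K)⁻¹ * s)) ?_
      have h4 : g none • a (-((g none : K)⁻¹ * s)) v₀ = g none • l := by
        rw [← a_int, mul_neg, mul_inv_cancel_left₀ hneK, map_neg, LinearMap.neg_apply]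
        exact (eq_neg_of_add_eq_zero_left h2).symm
      rw [← Int.cast_smul_eq_zsmul ℂ, ← Int.cast_smul_eq_zsmul ℂ] at h4
      exact smul_right_injective B.V (Int.cast_ne_zero.2 hne) h4
    rw [hg0, zero_smul, zero_add] at h2
    have h5 : s = 0 := inj a h0 h2
    have h6 : ∀ k, ((g (some k) : ℚ) * (N (b k) : ℚ)) = 0 := by
      have h7 := b.linearIndependent
      rw [Fintype.linearIndependent_iff] at h7
      refine h7 _ ?_
      rw [← h5]
      refine Finset.sum_congr rfl fun k _ => ?_
      rw [Rat.smul_def]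
      push_cast
      ring
    intro o
    rcases o with _ | k
    · exact hg0
    · have h8 := h6 k
      rcases mul_eq_zero.1 h8 with h9 | h9
      · exact_mod_cast h9
      · exact absurd (by exact_mod_cast h9) (hN (b k))
  have hfin : Module.Finite ℤ B.L := ZLattice.module_finite ℝ B.L
  have h10 := hw.fintype_card_le_finrank
  rw [Fintype.card_option, Fintype.card_fin, ZLattice.rank ℝ B.L, finrank_real_of_complex, hd] at h10
  omega

end DetAux

open DetAux Fund NumberField in
/-- **detection of CM type**: a CM field of degree `2 dim B` acts on `B` -/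
theorem isCM_det (B : AV) (K : Type) [Field K] [NumberField K] [NumberField.IsCMField K]
    (a : K →+* Module.End ℂ B.V) (ha : ∀ k, RatEnd B ((a k).restrictScalars ℝ))
    (hd : Module.finrank ℚ K = 2 * Module.finrank ℂ B.V) : IsCM B := by
  classical
  have hpos : 0 < Module.finrank ℂ B.V := by
    have := Module.finrank_pos (R := ℚ) (M := K)
    omega
  -- a nonzero lattice vector
  obtain ⟨v₀, hv₀, h0⟩ : ∃ v₀ ∈ B.L, v₀ ≠ 0 := by
    by_contra hcon
    push Not at hcon
    have h2 := (inferInstance : IsZLattice ℝ B.L).span_top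
    have h3 : Submodule.span ℝ (B.L : Set B.V) = ⊥ := by
      rw [Submodule.span_eq_bot]
      exact hcon
    rw [h3] at h2
    have h4 : Module.finrank ℝ B.V = 0 := by
      rw [← finrank_top ℝ B.V, ← h2, finrank_bot]
    rw [finrank_real_of_complex] at h4
    omega
  have hs := fun (l : B.V) (hl : l ∈ B.L) => surj a ha hd hv₀ h0 hl
  -- the generators
  have hy : ∀ i : Ix B, ∃ y : K, a y v₀ = (bZ B i : B.V) := fun i => hs _ (bZ B i).2
  choose y hy using hy
  have hbR : ∀ i, bR B i = (bZ B i : B.V) := fun i =>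
    Module.Basis.ofZLatticeBasis_apply ℝ B.L (bZ B) i
  let Ψ : (K →+* ℂ) → (B.V →ₗ[ℝ] ℂ) := fun φ => (bR B).constr ℝ fun i => φ (y i)
  have hΨb : ∀ φ i, Ψ φ (bR B i) = φ (y i) := fun φ i => (bR B).constr_basis ℝ _ i
  -- the key property
  have kp : ∀ (φ : K →+* ℂ) (x : K), Ψ φ (a x v₀) = φ x := by
    intro φ x
    obtain ⟨N, hN, hNL⟩ := ha x v₀ hv₀
    have hNL : N • a x v₀ ∈ B.L := hNL
    have hNC : (N : ℂ) ≠ 0 := Nat.cast_ne_zero.2 hN
    obtain ⟨c, h1⟩ : ∃ c : Ix B → ℤ, N • a x v₀ = ∑ i, c i • (bZ B i : B.V) := by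
      refine ⟨fun i => (bZ B).repr ⟨_, hNL⟩ i, ?_⟩
      have h2 := congrArg Subtype.val ((bZ B).sum_repr ⟨_, hNL⟩)
      rw [AddSubmonoidClass.coe_finsetSum] at h2
      exact h2.symm
    have h3 : (N : K) * x = ∑ i, (c i : K) * y i := by
      rw [← sub_eq_zero]
      refine inj a h0 ?_
      rw [map_sub, LinearMap.sub_apply, a_ratCast, map_sum, LinearMap.sum_apply, h1, sub_eq_zero]
      refine Finset.sum_congr rfl fun i _ => ?_
      rw [a_int, hy]
    have h4 : Ψ φ (N • a x v₀) = (N : ℂ) * φ x := by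
      rw [h1, map_sum]
      have h5 := congrArg φ h3
      rw [map_mul, map_natCast, map_sum] at h5
      rw [h5]
      refine Finset.sum_congr rfl fun i _ => ?_
      rw [map_zsmul, ← hbR, hΨb, map_mul, map_intCast, zsmul_eq_mul]
    rw [map_nsmul, nsmul_eq_mul] at h4
    exact mul_left_cancel₀ hNC h4
  have hone : ∀ φ : K →+* ℂ, Ψ φ v₀ = 1 := by
    intro φ
    have := kp φ 1
    rwa [map_one, map_one, Module.End.one_apply] at this
  have kp2 : ∀ (φ : K →+* ℂ) (x : K) (v : B.V), Ψ φ (a x v) = φ x * Ψ φ v := by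
    intro φ x v
    have : (Ψ φ ∘ₗ ((a x).restrictScalars ℝ)) = (LinearMap.mulLeft ℝ (φ x)) ∘ₗ Ψ φ := by
      refine (bR B).ext fun i => ?_
      rw [LinearMap.comp_apply, LinearMap.comp_apply, hΨb, hbR, ← hy i]
      change Ψ φ (a x (a (y i) v₀)) = φ x * φ (y i)
      rw [← Module.End.mul_apply, ← map_mul, kp, map_mul]
    exact DFunLike.congr_fun this v
  have kp3 : ∀ (φ : K →+* ℂ) (v : B.V), Ψ φ (Complex.I • v) = Ψ φ (Complex.I • v₀) * Ψ φ v := by
    intro φ v
    have : (Ψ φ ∘ₗ (mulI B)) = (LinearMap.mulLeft ℝ (Ψ φ (Complex.I • v₀))) ∘ₗ Ψ φ := by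
      refine (bR B).ext fun i => ?_
      rw [LinearMap.comp_apply, LinearMap.comp_apply, hΨb, hbR, ← hy i]
      change Ψ φ (Complex.I • (a (y i) v₀)) = Ψ φ (Complex.I • v₀) * φ (y i)
      rw [← map_smul, kp2, mul_comm]
    exact DFunLike.congr_fun this v
  have hsq : ∀ φ : K →+* ℂ, Ψ φ (Complex.I • v₀) = Complex.I ∨ Ψ φ (Complex.I • v₀) = -Complex.I := by
    intro φ
    have h1 := kp3 φ (Complex.I • v₀)
    rw [smul_smul, Complex.I_mul_I, neg_one_smul, map_neg, hone] at h1
    have h2 : (Ψ φ (Complex.I • v₀) - Complex.I) * (Ψ φ (Complex.I • v₀) + Complex.I) = 0 := by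
      linear_combination (-1 : ℂ) * h1 - Complex.I_mul_I
    rcases mul_eq_zero.1 h2 with h3 | h3
    · exact Or.inl (sub_eq_zero.1 h3)
    · exact Or.inr (eq_neg_of_add_eq_zero_left h3)
  have hconj : ∀ (φ : K →+* ℂ) (v : B.V),
      Ψ (ComplexEmbedding.conjugate φ) v = (starRingEnd ℂ) (Ψ φ v) := by
    intro φ v
    have : Ψ (ComplexEmbedding.conjugate φ) = (Complex.conjAe.toLinearMap : ℂ →ₗ[ℝ] ℂ) ∘ₗ Ψ φ := by
      refine (bR B).ext fun i => ?_
      rw [LinearMap.comp_apply, hΨb, hΨb]
      rfl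
    exact DFunLike.congr_fun this v
  have hII : Complex.I ≠ -Complex.I := by
    intro h
    have := congrArg Complex.im h
    norm_num at this
  let Φ : Set (K →+* ℂ) := {φ | Ψ φ (Complex.I • v₀) = Complex.I}
  have hΦ : IsType Φ := by
    intro φ
    change Ψ φ (Complex.I • v₀) = Complex.I ↔ ¬ Ψ (ComplexEmbedding.conjugate φ) (Complex.I • v₀) = Complex.I
    rw [hconj]
    rcases hsq φ with h | h
    · rw [h, Complex.conj_I]
      exact ⟨fun _ h' => hII h'.symm, fun _ => rfl⟩
    · rw [h, map_neg, Complex.conj_I, neg_neg]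
      exact ⟨fun h' => absurd h'.symm hII, fun h' => absurd rfl h'⟩
  -- the map
  let ψ : B.V →ₗ[ℂ] ((s : (_ : Unit) × Φ) → ℂ) :=
    { toFun := fun v s => Ψ s.2.1 v
      map_add' := fun v w => by
        funext s
        exact map_add _ _ _
      map_smul' := fun c v => by
        funext s
        have h1 : Ψ s.2.1 (Complex.I • v) = Complex.I * Ψ s.2.1 v := by
          rw [kp3, s.2.2]
        have h2 : c • v = c.re • v + c.im • (Complex.I • v) := by
          conv_lhs => rw [← Complex.re_add_im c]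
          rw [add_smul, mul_smul, Complex.coe_smul, Complex.coe_smul]
        change Ψ s.2.1 (c • v) = c * Ψ s.2.1 v
        rw [h2, map_add, map_smul, map_smul, h1, Complex.real_smul, Complex.real_smul]
        conv_rhs => rw [← Complex.re_add_im c]
        ring }
  have hψv : ∀ x : K, ψ (a x v₀) = fun s => s.2.1 x := by
    intro x
    funext s
    exact kp s.2.1 x
  have hcard : Fintype.card ((_ : Unit) × Φ) = Module.finrank ℂ B.V := by
    have h1 : Fintype.card (K →+* ℂ) = 2 * Module.finrank ℂ B.V := by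
      rw [← hd]
      exact Embeddings.card K ℂ
    have h2 : Fintype.card Φ = Fintype.card {φ : K →+* ℂ // φ ∉ Φ} := by
      refine Fintype.card_congr ⟨fun φ => ⟨ComplexEmbedding.conjugate φ.1, (hΦ φ.1).1 φ.2⟩,
        fun φ => ⟨ComplexEmbedding.conjugate φ.1, ?_⟩, ?_, ?_⟩
      · by_contra hc
        apply φ.2
        exact (hΦ φ.1).2 hc
      · intro φ
        exact Subtype.ext (star_star φ.1)
      · intro φ
        exact Subtype.ext (star_star φ.1)
    have h3 := Fintype.card_subtype_compl (fun φ : K →+* ℂ => φ ∈ Φ)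
    have h4 : Fintype.card {φ : K →+* ℂ // φ ∈ Φ} ≤ Fintype.card (K →+* ℂ) :=
      Fintype.card_subtype_le _
    have h5 : Fintype.card Φ = Fintype.card {φ : K →+* ℂ // φ ∈ Φ} := rfl
    rw [Fintype.card_sigma, Finset.univ_unique, Finset.sum_singleton]
    omega
  have hsur : Function.Surjective ψ := by
    rw [← LinearMap.range_eq_top]
    by_contra hne
    obtain ⟨f, hf0, hf⟩ := Submodule.exists_le_ker_of_lt_top _ (lt_top_iff_ne_top.2 hne)
    have h1 : ∀ x : K, ∑ s : (_ : Unit) × Φ, f (Pi.single s 1) * s.2.1 x = 0 := by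
      intro x
      have h2 : f (ψ (a x v₀)) = 0 := hf ⟨_, rfl⟩
      rw [hψv, LinearMap.pi_apply_eq_sum_univ f] at h2
      rw [← h2]
      refine Finset.sum_congr rfl fun s _ => ?_
      rw [smul_eq_mul, mul_comm]
      congr 2
      funext t
      by_cases hst : s = t
      · subst hst
        simp
      · rw [if_neg hst, Pi.single_eq_of_ne (Ne.symm hst)]
    have h3 : LinearIndependent ℂ (fun s : (_ : Unit) × Φ =>
        ((s.2.1 : K →* ℂ) : K → ℂ)) := by
      refine (linearIndependent_monoidHom K ℂ).comp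
        (fun s : (_ : Unit) × Φ => (s.2.1 : K →* ℂ)) ?_
      rintro ⟨⟨⟩, s⟩ ⟨⟨⟩, t⟩ hst
      have h4 : (s.1 : K →* ℂ) = (t.1 : K →* ℂ) := hst
      have h5 : s = t := Subtype.ext (RingHom.ext fun x => DFunLike.congr_fun h4 x)
      rw [h5]
    rw [Fintype.linearIndependent_iff] at h3
    have h6 := h3 (fun s => f (Pi.single s 1)) (by
      funext x
      rw [Finset.sum_apply]
      exact h1 x)
    apply hf0
    refine LinearMap.pi_ext' fun s => ?_
    refine LinearMap.ext_ring ?_
    exact h6 s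
  have hinj : Function.Injective ψ := by
    have h1 : Module.finrank ℂ B.V = Module.finrank ℂ ((s : (_ : Unit) × Φ) → ℂ) := by
      rw [Module.finrank_fintype_fun_eq_card, hcard]
    exact (LinearMap.injective_iff_surjective_of_finrank_eq_finrank h1).2 hsur
  refine isCM_of_isCMI (I := Unit) ⟨fun _ => { E := K, Φ := Φ, h := hΦ },
    LinearEquiv.ofBijective ψ ⟨hinj, hsur⟩, ?_⟩
  intro v hv
  obtain ⟨x, hx⟩ := hs v hv
  refine ⟨fun _ => x, fun i φ => ?_⟩
  rw [← hx]
  exact kp φ.1 x

open NumberField in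
/-- every complex embedding of a totally real field comes from a real embedding -/
theorem real_emb {F : Type} [Field F] [NumberField F] [IsTotallyReal F] (φ : F →+* ℂ) :
    ∃ σ : F →+* ℝ, ∀ x, φ x = σ x := by
  have h := IsTotallyReal.isReal (InfinitePlace.mk φ)
  rw [InfinitePlace.isReal_mk_iff] at h
  exact ⟨h.embedding, fun x => (h.coe_embedding_apply x).symm⟩

open NumberField in
/-- **detection of CM type**: real multiplication by `F` of degree `dim B` and a rational
endomorphism `X` with totally negative square in `F` -/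
theorem isCM_detF (B : AV) (F : Type) [Field F] [NumberField F] [IsTotallyReal F]
    (ι : F →+* Module.End ℂ B.V) (hF : Module.finrank ℚ F = Module.finrank ℂ B.V)
    (hι : ∀ x : F, RatEnd B ((ι x).restrictScalars ℝ)) (X : Module.End ℂ B.V)
    (hX : RatEnd B (X.restrictScalars ℝ)) (hcomm : ∀ y : F, X * ι y = ι y * X) (x : F)
    (hxX : X * X = ι x) (hneg : ∀ σ : F →+* ℝ, σ x < 0) : IsCM B := by
  have hfact : Fact (∀ r : F, r ^ 2 ≠ x + 0 * r) := by
    refine ⟨fun r hr => ?_⟩
    obtain ⟨φ⟩ := (inferInstance : Nonempty (F →+* ℂ))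
    obtain ⟨σ, -⟩ := real_emb φ
    have h1 := hneg σ
    rw [zero_mul, add_zero] at hr
    rw [← hr, map_pow] at h1
    exact absurd h1 (not_lt.2 (sq_nonneg _))
  let K := QuadraticAlgebra F x 0
  have hfdK : FiniteDimensional ℚ K := FiniteDimensional.trans ℚ F K
  have hnf : NumberField K := ⟨⟩
  have hq : Algebra.IsQuadraticExtension F K := ⟨QuadraticAlgebra.finrank_eq_two x 0⟩
  have htc : IsTotallyComplex K := by
    refine ⟨fun w => ?_⟩
    rw [InfinitePlace.isComplex_iff]
    intro hreal
    obtain ⟨σ, hσ⟩ := real_emb (w.embedding.comp (algebraMap F K))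
    have h1 := hneg σ
    have h2 : (⟨0, 1⟩ : K) * ⟨0, 1⟩ = algebraMap F K x := by
      have e : algebraMap F K x = (⟨x, 0⟩ : K) := rfl
      rw [e]
      ext
      · simp
      · simp
    have h3 := congrArg w.embedding h2
    rw [map_mul] at h3
    have h4 : w.embedding (algebraMap F K x) = (σ x : ℂ) := hσ x
    rw [h4] at h3
    have h5 : (starRingEnd ℂ) (w.embedding ⟨0, 1⟩) = w.embedding ⟨0, 1⟩ :=
      DFunLike.congr_fun hreal _
    obtain ⟨r, hr⟩ := Complex.conj_eq_iff_real.1 h5
    rw [hr] at h3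
    have h6 : r * r = σ x := by exact_mod_cast h3
    nlinarith [mul_self_nonneg r]
  have hcm : IsCMField K := IsCMField.ofCMExtension F K
  let a : K →+* Module.End ℂ B.V :=
    { toFun := fun k => ι k.re + ι k.im * X
      map_one' := by
        change ι (1 : K).re + ι (1 : K).im * X = 1
        rw [QuadraticAlgebra.re_one, QuadraticAlgebra.im_one, map_one, map_zero, zero_mul, add_zero]
      map_zero' := by
        change ι (0 : K).re + ι (0 : K).im * X = 0
        rw [QuadraticAlgebra.re_zero, QuadraticAlgebra.im_zero, map_zero, zero_mul, add_zero]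
      map_add' := fun k l => by
        rw [QuadraticAlgebra.re_add, QuadraticAlgebra.im_add, map_add, map_add, add_mul]
        abel
      map_mul' := fun k l => by
        rw [QuadraticAlgebra.re_mul, QuadraticAlgebra.im_mul]
        simp only [zero_mul, add_zero, map_add, map_mul]
        have h1 : (ι k.im * X) * (ι l.im * X) = ι k.im * ι l.im * ι x := by
          rw [mul_assoc, ← mul_assoc X, hcomm, mul_assoc (ι l.im), hxX, mul_assoc]
        have h2 : ι k.im * X * ι l.re = ι k.im * ι l.re * X := by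
          rw [mul_assoc, hcomm, mul_assoc]
        have h3 : ι x * ι k.im * ι l.im = ι k.im * ι l.im * ι x := by
          rw [← map_mul, ← map_mul, ← map_mul, ← map_mul]
          congr 1
          ring
        have h4 : (ι k.re + ι k.im * X) * (ι l.re + ι l.im * X) = ι k.re * ι l.re +
            ι k.re * (ι l.im * X) + (ι k.im * X * ι l.re + ι k.im * X * (ι l.im * X)) := by
          rw [add_mul, mul_add, mul_add]
        rw [h4, h1, h2, h3, add_mul (ι k.re * ι l.im), mul_assoc (ι k.re) (ι l.im)]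
        abel }
  refine isCM_det B K a ?_ ?_
  · intro k v hv
    obtain ⟨N, hN, h1⟩ := hι k.re v hv
    obtain ⟨M, hM, h2⟩ := hX v hv
    obtain ⟨M', hM', h3⟩ := hι k.im _ h2
    refine ⟨N * (M' * M), mul_ne_zero hN (mul_ne_zero hM' hM), ?_⟩
    have h1 : N • ι k.re v ∈ B.L := h1
    have h3 : M' • ι k.im (M • X v) ∈ B.L := h3
    have e : (N * (M' * M)) • ((a k).restrictScalars ℝ) v =
        (M' * M) • (N • ι k.re v) + N • (M' • ι k.im (M • X v)) := by
      change (N * (M' * M)) • (ι k.re v + ι k.im (X v)) = _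
      rw [map_nsmul, smul_add, mul_comm N, mul_smul (M' * M) N, mul_comm (M' * M) N, mul_smul N,
        mul_smul M' M (ι k.im (X v))]
    rw [e]
    exact B.L.add_mem (B.L.smul_of_tower_mem _ h1) (B.L.smul_of_tower_mem _ h3)
  · rw [← Module.finrank_mul_finrank ℚ F K, hF, QuadraticAlgebra.finrank_eq_two, mul_comm]

end HC
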