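import Pool.Agent.Lib.HC.L.E.Spec
import Pool.Agent.Lib.HC.L.E.Cm
import Pool.Agent.Lib.HC.L.E.Det

/-!
# HC+, PART 3: `S_CMK`, `S_CMP` (helper47)
-/

set_option autoImplicit false

noncomputable section

namespace HC

namespace E

theorem tCMK : S_CMK := fun B K _ _ _ ρ h1 h2 => isCM_det B K ρ h2 h1

theorem tCMP : S_CMP := fun _ _ _ h1 h2 h3 => isCM_prod h1 h2 h3

end E

end HC
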