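import Pool.Agent.Lib.HC.L.E.Spec

/-!
# PROJECT HC+, PART 3: the Casimir formula (helper45)

`fierz`: `der (rk z x) (der (rk w y) c) + der (rk w x) (der (rk z y) c) =
  y z • der (rk w x) c + y w • der (rk z x) c`.
-/

set_option autoImplicit false

noncomputable section

namespace HC

namespace E

namespace Cas2

variable {W : Type} [AddCommGroup W] [Module ℂ W] {m : ℕ}

theorem rk_mul (z w : W) (x y : Module.Dual ℂ W) : rk w y * rk z x = y z • rk w x := by
  ext a
  simp only [Module.End.mul_apply, rk_apply, map_smul, LinearMap.smul_apply, smul_smul, mul_comm]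

/-- The double sum changes sign if the two vectors are exchanged. -/
theorem dbl (c : W [⋀^Fin m]→ₗ[ℂ] ℂ) (z w : W) (x y : Module.Dual ℂ W) (a : Fin m → W) :
    ∑ p, ∑ q ∈ Finset.univ.erase p,
      c (Function.update (Function.update a p (rk z x (a p))) q (rk w y (a q))) =
    -∑ p, ∑ q ∈ Finset.univ.erase p,
      c (Function.update (Function.update a p (rk w x (a p))) q (rk z y (a q))) := by
  rw [← Finset.sum_neg_distrib]
  refine Finset.sum_congr rfl fun p _ => ?_
  rw [← Finset.sum_neg_distrib]
  refine Finset.sum_congr rfl fun q hq => ?_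
  have hpq : q ≠ p := (Finset.mem_erase.1 hq).1
  have key : ∀ u v : W, c (Function.update (Function.update a p (x (a p) • u)) q (y (a q) • v)) =
      x (a p) * y (a q) * c (Function.update (Function.update a p u) q v) := by
    intro u v
    rw [c.map_update_smul, Function.update_comm hpq.symm, c.map_update_smul,
      Function.update_comm hpq, smul_eq_mul, smul_eq_mul]
    ring
  rw [rk_apply, rk_apply, rk_apply, rk_apply, key, key]
  have h3 : Function.update (Function.update a p z) q w =
      (Function.update (Function.update a p w) q z) ∘ (Equiv.swap p q) := by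
    funext r
    by_cases hrp : r = p
    · subst hrp
      rw [Function.comp_apply, Equiv.swap_apply_left, Function.update_self,
        Function.update_of_ne hpq.symm, Function.update_self]
    · by_cases hrq : r = q
      · subst hrq
        rw [Function.comp_apply, Equiv.swap_apply_right, Function.update_self,
          Function.update_of_ne hpq.symm, Function.update_self]
      · rw [Function.comp_apply, Equiv.swap_apply_of_ne_of_ne hrp hrq,
          Function.update_of_ne hrq, Function.update_of_ne hrp, Function.update_of_ne hrq,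
          Function.update_of_ne hrp]
  rw [h3, c.map_swap _ hpq.symm, mul_neg]

/-- Fierz identity. -/
theorem fierz (hD : S_Der) (c : W [⋀^Fin m]→ₗ[ℂ] ℂ) (z w : W) (x y : Module.Dual ℂ W) :
    der (rk z x) (der (rk w y) c) = y z • der (rk w x) c + y w • der (rk z x) c -
      der (rk w x) (der (rk z y) c) := by
  obtain ⟨-, -, -, hc4, hc5, -⟩ := hD
  ext a
  rw [AlternatingMap.sub_apply, AlternatingMap.add_apply, hc4, hc4, dbl, rk_mul, rk_mul,
    (hc5 W m (rk w x) 0 (y z) c c).2.1, (hc5 W m (rk z x) 0 (y w) c c).2.1]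
  ring

end Cas2

open Cas2

theorem tCas : S_Cas := by
  classical
  intro hD W _ _ ι κ _ _ b K k m c ν he hA hB
  have hfz := fun z w x y => fierz (m := m) hD c z w x y
  obtain ⟨hc1, hc2, -, -, hc5, hc6⟩ := hD
  have hadd : ∀ (n : ℕ) (X Y : Module.End ℂ W) (d : W [⋀^Fin n]→ₗ[ℂ] ℂ),
    der (X + Y) d = der X d + der Y d := fun n X Y d => (hc5 W n X Y 0 d d).1
  have hsm : ∀ (n : ℕ) (r : ℂ) (X : Module.End ℂ W) (d : W [⋀^Fin n]→ₗ[ℂ] ℂ),
    der (r • X) d = r • der X d := fun n r X d => (hc5 W n X X r d d).2.1
  have hadd' : ∀ (n : ℕ) (X : Module.End ℂ W) (d e : W [⋀^Fin n]→ₗ[ℂ] ℂ),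
    der X (d + e) = der X d + der X e := fun n X d e => (hc5 W n X X 0 d e).2.2.1
  have hsm' : ∀ (n : ℕ) (r : ℂ) (X : Module.End ℂ W) (d : W [⋀^Fin n]→ₗ[ℂ] ℂ),
    der X (r • d) = r • der X d := fun n r X d => (hc5 W n X X r d d).2.2.2
  let D : Module.End ℂ W →ₗ[ℂ] (W [⋀^Fin m]→ₗ[ℂ] ℂ) →ₗ[ℂ] (W [⋀^Fin m]→ₗ[ℂ] ℂ) :=
    LinearMap.mk₂ ℂ der (fun X Y d => hadd m X Y d) (fun r X d => hsm m r X d)
      (fun X d e => hadd' m X d e) (fun r X d => hsm' m r X d)
  have hDd : ∀ X d, der X d = D X d := fun X d => rfl
  have key : ∀ (x y : Module.Dual ℂ W) (z w : W), ((wdl x (wdl y c)).curryLeft z).curryLeft w =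
      (x z * y w - y z * x w) • c - x z • der (rk w y) c + y z • der (rk w x) c -
        y w • der (rk z x) c + der (rk w y) (der (rk z x) c) := by
    intro x y z w
    have h1 : (wdl x (wdl y c)).curryLeft z =
        x z • wdl y c - y z • wdl x c - wdl y (der (rk z x) c) := by
      rw [hc1, hc2]
      have h2 : y ∘ₗ rk z x = y z • x := by
        ext a
        simp only [LinearMap.comp_apply, rk_apply, map_smul, LinearMap.smul_apply, smul_eq_mul,
          mul_comm]
      rw [h2, (hc6 W m x 0 (y z) c c).2.1]
      abel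
    rw [h1]
    have h3 : (x z • wdl y c - y z • wdl x c - wdl y (der (rk z x) c)).curryLeft w =
        x z • (wdl y c).curryLeft w - y z • (wdl x c).curryLeft w -
          (wdl y (der (rk z x) c)).curryLeft w := by
      ext a
      simp only [AlternatingMap.curryLeft_apply_apply, AlternatingMap.sub_apply,
        AlternatingMap.smul_apply]
    rw [h3, hc1, hc1, hc1]
    simp only [smul_sub, smul_smul, sub_smul]
    abel
  set S : Finset ι := Finset.univ.filter fun i => K i = k with hS
  have hsum : ∀ {M : Type} [AddCommMonoid M] (F : ι → M),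
      (∑ i, if K i = k then F i else 0) = ∑ i ∈ S, F i := by
    intro M _ F
    rw [hS, Finset.sum_filter]
  have hL : (∑ i, ∑ j, if K i = k ∧ K j = k then cE b i j (wE b i j c) else 0) =
      ∑ i ∈ S, ∑ j ∈ S, cE b i j (wE b i j c) := by
    rw [← hsum]
    refine Finset.sum_congr rfl fun i _ => ?_
    by_cases hi : K i = k
    · simp only [hi, true_and, if_true]
      rw [hsum]
    · simp only [hi, false_and, if_false, Finset.sum_const_zero]
  rw [hL]
  let A : ι → Module.End ℂ W := fun i => rk (b (i, false)) (b.coord (i, false))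
  let B : ι → Module.End ℂ W := fun i => rk (b (i, true)) (b.coord (i, true))
  let E : ι → Module.End ℂ W := fun i => rk (b (i, true)) (b.coord (i, false))
  let F : ι → Module.End ℂ W := fun i => rk (b (i, false)) (b.coord (i, true))
  have hx : ∀ i j (s t : Bool), b.coord (i, s) (b (j, t)) = if i = j ∧ s = t then (1 : ℂ) else 0 := by
    intro i j s t
    rw [Module.Basis.coord_apply, b.repr_self, Finsupp.single_apply]
    refine if_congr ?_ rfl rfl
    rw [Prod.mk.injEq, eq_comm (a := j), eq_comm (a := t)]
  have hG : ∀ i j, ((wE b i j c).curryLeft (b (i, false))).curryLeft (b (j, true)) =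
      c - D (B j) c - D (A i) c + D (B j) (D (A i) c) + (if i = j then c - D (A i) c else 0) -
        D (F i) (D (E j) c) := by
    intro i j
    have h1 : ((wE b i j c).curryLeft (b (i, false))).curryLeft (b (j, true)) =
        ((wdl (b.coord (i, false)) (wdl (b.coord (j, true)) c)).curryLeft
          (b (i, false))).curryLeft (b (j, true)) +
        ((wdl (b.coord (j, false)) (wdl (b.coord (i, true)) c)).curryLeft
          (b (i, false))).curryLeft (b (j, true)) := by
      ext a
      simp only [wE, AlternatingMap.curryLeft_apply_apply, AlternatingMap.add_apply]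
    rw [h1, key, key, hfz (b (j, true)) (b (i, false)) (b.coord (i, true)) (b.coord (j, false))]
    simp only [hx]
    by_cases hij : i = j
    · subst hij
      simp only [hDd, A, B, E, F]
      simp
      abel
    · have hji : ¬ j = i := fun h => hij h.symm
      simp only [hDd, A, B, E, F]
      simp [hij, hji]
      abel
  have hwE : ∀ i j, wE b j i c = wE b i j c := fun i j => add_comm _ _
  have hcE : ∀ i j, cE b i j (wE b i j c) =
      ((wE b i j c).curryLeft (b (i, false))).curryLeft (b (j, true)) +
      ((wE b j i c).curryLeft (b (j, false))).curryLeft (b (i, true)) := by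
    intro i j
    rw [hwE i j]
    rfl
  have hA' : ∑ i ∈ S, D (A i) c = ν • c := by
    rw [← hA, hDd, nA, hsum, map_sum, LinearMap.sum_apply]
  have hB' : ∑ i ∈ S, D (B i) c = ν • c := by
    rw [← hB, hDd, nB, hsum, map_sum, LinearMap.sum_apply]
  have hE' : ∑ i ∈ S, D (E i) c = 0 := by
    rw [← he, hDd, eK, hsum, map_sum, LinearMap.sum_apply]
  have hBA : ∑ i ∈ S, ∑ j ∈ S, D (B j) (D (A i) c) = (ν * ν) • c := by
    rw [Finset.sum_comm]
    have h1 : ∀ j ∈ S, ∑ i ∈ S, D (B j) (D (A i) c) = ν • D (B j) c := by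
      intro j _
      rw [← map_sum, hA', map_smul]
    rw [Finset.sum_congr rfl h1, ← Finset.smul_sum, hB', smul_smul]
  have hFE : ∑ i ∈ S, ∑ j ∈ S, D (F i) (D (E j) c) = 0 := by
    refine Finset.sum_eq_zero fun i _ => ?_
    rw [← map_sum, hE', map_zero]
  have hdl : ∑ i ∈ S, ∑ j ∈ S, (if i = j then c - D (A i) c else 0) =
      ((S.card : ℂ) - ν) • c := by
    have h1 : ∀ i ∈ S, ∑ j ∈ S, (if i = j then c - D (A i) c else 0) = c - D (A i) c := by
      intro i hi
      rw [Finset.sum_ite_eq, if_pos hi]
    rw [Finset.sum_congr rfl h1, Finset.sum_sub_distrib, hA', Finset.sum_const, sub_smul,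
      Nat.cast_smul_eq_nsmul]
  have hGs : ∑ i ∈ S, ∑ j ∈ S,
      ((wE b i j c).curryLeft (b (i, false))).curryLeft (b (j, true)) =
      (((S.card : ℂ) - ν) * ((S.card : ℂ) - ν + 1)) • c := by
    simp only [hG, Finset.sum_add_distrib, Finset.sum_sub_distrib, hBA, hFE, hdl, hB',
      Finset.sum_const, ← Nat.cast_smul_eq_nsmul ℂ, ← Finset.smul_sum, hA', smul_smul]
    rw [sub_zero, ← sub_smul, ← sub_smul, ← add_smul, ← add_smul]
    congr 1
    ring
  simp only [hcE, Finset.sum_add_distrib]
  rw [Finset.sum_comm (f := fun i j =>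
    ((wE b j i c).curryLeft (b (j, false))).curryLeft (b (i, true)))]
  rw [hGs, ← add_smul]
  congr 1
  ring

end E

end HC
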