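import Pool.Agent.Lib.HC.L.E.Spec

/-!
# PROJECT HC+, PART 3: from real operators to `e_k`, `f_k`, `n_k` (helper81)
-/

set_option autoImplicit false

open scoped ComplexConjugate

noncomputable section

namespace HC

namespace E

namespace Cx_aux

variable {W : Type} [AddCommGroup W] [Module ℂ W] {ι κ : Type}

lemma sum_rk_apply [Fintype ι] (b : Module.Basis (ι × Bool) ℂ W) (K : ι → κ) [DecidableEq κ]
    (k : κ) (p q p' : Bool) (j : ι) :
    (∑ i, if K i = k then rk (b (i, q)) (b.coord (i, p)) else 0 : Module.End ℂ W) (b (j, p')) =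
      if p' = p then (if K j = k then b (j, q) else 0) else 0 := by
  classical
  rw [LinearMap.sum_apply, Finset.sum_eq_single j]
  · by_cases hk : K j = k
    · rw [if_pos hk, if_pos hk, rk_apply, Module.Basis.coord_apply, Module.Basis.repr_self,
        Finsupp.single_apply]
      by_cases hp : p' = p
      · subst hp
        rw [if_pos rfl, if_pos rfl, one_smul]
      · rw [if_neg hp, if_neg (fun h => hp (congrArg Prod.snd h)), zero_smul]
    · rw [if_neg hk, if_neg hk, LinearMap.zero_apply]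
      split_ifs <;> rfl
  · intro i _ hij
    by_cases hk : K i = k
    · rw [if_pos hk, rk_apply, Module.Basis.coord_apply, Module.Basis.repr_self,
        Finsupp.single_apply, if_neg (fun h => hij (congrArg Prod.fst h).symm), zero_smul]
    · rw [if_neg hk, LinearMap.zero_apply]
  · intro h
    exact absurd (Finset.mem_univ j) h

variable {T : AV}

/-- The composition with `X`. -/
def cmpX (X : Module.End ℝ T.V) : Module.End ℂ (T.V →ₗ[ℝ] ℂ) where
  toFun a := a ∘ₗ X
  map_add' _ _ := rfl
  map_smul' _ _ := rfl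

lemma cmpX_apply (X : Module.End ℝ T.V) (a : T.V →ₗ[ℝ] ℂ) (v : T.V) :
    cmpX X a v = a (X v) := rfl

lemma der_cmpX {m : ℕ} (X : Module.End ℝ T.V) (c : Hlg T m) (h : ∀ f, lieAct X c f = 0) :
    der (cmpX X) c = 0 := by
  ext f
  rw [der_apply]
  exact h f

end Cx_aux

open Cx_aux

theorem tCx : S_Cx := by
  intro hDer hOp T ι κ _ _ _ ψ K b hb0 hb1 m c hc k
  obtain ⟨-, -, -, -, hlin, -⟩ := hDer
  obtain ⟨-, -, hex⟩ := hOp
  -- the operator with parameters `a`, `r`
  have hX : ∀ (a : κ → ℝ) (r : κ → ℂ), ∃ A : Module.End ℂ (T.V →ₗ[ℝ] ℂ), der A c = 0 ∧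
      (∀ j, A (b (j, false)) = ((a (K j) : ℂ) * Complex.I) • b (j, false) +
        r (K j) • b (j, true)) ∧
      ∀ j, A (b (j, true)) = (-((a (K j) : ℂ) * Complex.I)) • b (j, true) +
        conj (r (K j)) • b (j, false) := by
    intro a r
    obtain ⟨X, hX⟩ := hex T ι ψ (fun i => a (K i)) (fun i => r (K i))
    refine ⟨cmpX X, der_cmpX X c (hc X a r hX), fun j => ?_, fun j => ?_⟩
    · ext v
      rw [cmpX_apply, hb0, hX v j, LinearMap.add_apply, LinearMap.smul_apply,
        LinearMap.smul_apply, hb0, hb1, smul_eq_mul, smul_eq_mul]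
    · ext v
      rw [cmpX_apply, hb1, hX v j, LinearMap.add_apply, LinearMap.smul_apply,
        LinearMap.smul_apply, hb0, hb1, smul_eq_mul, smul_eq_mul, map_add, map_mul, map_mul,
        map_mul, Complex.conj_ofReal, Complex.conj_I, Complex.conj_conj]
      ring
  have hder_add : ∀ (A B : Module.End ℂ (T.V →ₗ[ℝ] ℂ)), der (A + B) c = der A c + der B c :=
    fun A B => (hlin (T.V →ₗ[ℝ] ℂ) m A B 0 c c).1
  have hder_smul : ∀ (r : ℂ) (A : Module.End ℂ (T.V →ₗ[ℝ] ℂ)), der (r • A) c = r • der A c :=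
    fun r A => (hlin (T.V →ₗ[ℝ] ℂ) m A A r c c).2.1
  obtain ⟨A1, h1, h1a, h1b⟩ := hX (fun _ => 0) (fun k' => if k' = k then 1 else 0)
  obtain ⟨A2, h2, h2a, h2b⟩ := hX (fun _ => 0) (fun k' => if k' = k then Complex.I else 0)
  obtain ⟨A3, h3, h3a, h3b⟩ := hX (fun k' => if k' = k then 1 else 0) (fun _ => 0)
  have e1 : A1 = eK b K k + fK b K k := by
    refine b.ext fun s => ?_
    obtain ⟨j, ε⟩ := s
    rw [LinearMap.add_apply, eK, fK, sum_rk_apply, sum_rk_apply]
    cases ε
    · rw [h1a]
      by_cases hk : K j = k <;> simp [hk]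
    · rw [h1b]
      by_cases hk : K j = k <;> simp [hk]
  have e2 : A2 = Complex.I • eK b K k + (-Complex.I) • fK b K k := by
    refine b.ext fun s => ?_
    obtain ⟨j, ε⟩ := s
    rw [LinearMap.add_apply, LinearMap.smul_apply, LinearMap.smul_apply, eK, fK, sum_rk_apply,
      sum_rk_apply]
    cases ε
    · rw [h2a]
      by_cases hk : K j = k <;> simp [hk]
    · rw [h2b]
      by_cases hk : K j = k <;> simp [hk]
  have e3 : A3 = Complex.I • nA b K k + (-Complex.I) • nB b K k := by
    refine b.ext fun s => ?_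
    obtain ⟨j, ε⟩ := s
    rw [LinearMap.add_apply, LinearMap.smul_apply, LinearMap.smul_apply, nA, nB, sum_rk_apply,
      sum_rk_apply]
    cases ε
    · rw [h3a]
      by_cases hk : K j = k <;> simp [hk]
    · rw [h3b]
      by_cases hk : K j = k <;> simp [hk]
  rw [e1, hder_add] at h1
  rw [e2, hder_add, hder_smul, hder_smul] at h2
  rw [e3, hder_add, hder_smul, hder_smul] at h3
  have hI : Complex.I ≠ 0 := Complex.I_ne_zero
  have h4 : der (eK b K k) c = der (fK b K k) c := by
    rw [neg_smul, ← sub_eq_add_neg, ← smul_sub] at h2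
    exact sub_eq_zero.1 ((smul_eq_zero.1 h2).resolve_left hI)
  have h5 : der (nA b K k) c = der (nB b K k) c := by
    rw [neg_smul, ← sub_eq_add_neg, ← smul_sub] at h3
    exact sub_eq_zero.1 ((smul_eq_zero.1 h3).resolve_left hI)
  have h6 : der (fK b K k) c = 0 := by
    rw [h4, ← two_smul ℂ] at h1
    exact (smul_eq_zero.1 h1).resolve_left two_ne_zero
  exact ⟨h4.trans h6, h6, h5⟩

end E

end HC
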