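import Pool.Agent.Lib.HC.L.E.Spec

/-!
PROJECT HC+, part 3, S_Dec (helper41): decomposition into block degrees.
-/

set_option autoImplicit false

noncomputable section

namespace HC

namespace E

namespace Dec_aux

variable {W : Type} [AddCommGroup W] [Module ℂ W] {ι κ : Type} [Fintype ι] [DecidableEq κ]
  (b : Module.Basis (ι × Bool) ℂ W) (K : ι → κ)

/-- `b (i, x) ↦ b (i, y)` in the block `k`. -/
def opr (x y : Bool) (k : κ) : Module.End ℂ W :=
  ∑ i, if K i = k then rk (b (i, y)) (b.coord (i, x)) else 0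

/-- The projection on the block `k`. -/
def Pk (k : κ) : Module.End ℂ W := nA b K k + nB b K k

lemma opr_b (x y z : Bool) (k : κ) (j : ι) :
    opr b K x y k (b (j, z)) = if z = x ∧ K j = k then b (j, y) else 0 := by
  classical
  unfold opr
  rw [LinearMap.sum_apply, Finset.sum_eq_single j]
  · by_cases h : K j = k
    · rw [if_pos h, rk_apply, Module.Basis.coord_apply, Module.Basis.repr_self]
      by_cases hz : z = x
      · rw [hz, Finsupp.single_eq_same, one_smul, if_pos ⟨rfl, h⟩]
      · rw [Finsupp.single_apply, if_neg, zero_smul, if_neg]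
        · rintro ⟨h1, -⟩
          exact hz h1
        · intro h1
          exact hz (congrArg Prod.snd h1)
    · rw [if_neg h, if_neg (fun h1 => h h1.2)]
      rfl
  · intro i _ hi
    split_ifs with h
    · rw [rk_apply, Module.Basis.coord_apply, Module.Basis.repr_self, Finsupp.single_apply,
        if_neg, zero_smul]
      intro h1
      exact hi (congrArg Prod.fst h1).symm
    · rfl
  · intro h
    exact absurd (Finset.mem_univ j) h

lemma Pk_b (k : κ) (j : ι) (z : Bool) :
    Pk b K k (b (j, z)) = if K j = k then b (j, z) else 0 := by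
  show opr b K false false k (b (j, z)) + opr b K true true k (b (j, z)) = _
  rw [opr_b, opr_b]
  cases z
  · by_cases h : K j = k
    · simp [h]
    · simp [h]
  · by_cases h : K j = k
    · simp [h]
    · simp [h]

lemma Pk_opr (x y : Bool) (k k' : κ) (w : W) :
    Pk b K k' (opr b K x y k w) = opr b K x y k (Pk b K k' w) := by
  have h : Pk b K k' ∘ₗ opr b K x y k = opr b K x y k ∘ₗ Pk b K k' := by
    refine b.ext fun ⟨j, z⟩ => ?_
    rw [LinearMap.comp_apply, LinearMap.comp_apply, opr_b, Pk_b]
    split_ifs with h1 h2 h2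
    · rw [Pk_b, if_pos h2, opr_b, if_pos h1]
    · rw [Pk_b, if_neg h2, map_zero]
    · rw [map_zero, opr_b, if_neg h1]
    · rw [map_zero, map_zero]
  exact LinearMap.congr_fun h w

lemma Pk_Pk (k k' : κ) (w : W) : Pk b K k (Pk b K k' w) = if k = k' then Pk b K k w else 0 := by
  have h : Pk b K k ∘ₗ Pk b K k' = if k = k' then Pk b K k else 0 := by
    refine b.ext fun ⟨j, z⟩ => ?_
    rw [LinearMap.comp_apply, Pk_b]
    by_cases h1 : K j = k'
    · rw [if_pos h1, Pk_b]
      by_cases h2 : k = k'
      · rw [if_pos h2, Pk_b]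
      · rw [if_neg h2, if_neg (fun h3 => h2 (h3.symm.trans h1))]
        rfl
    · rw [if_neg h1, map_zero]
      by_cases h2 : k = k'
      · rw [if_pos h2, Pk_b, if_neg (fun h3 => h1 (h3.trans h2))]
      · rw [if_neg h2]
        rfl
  have h2 := LinearMap.congr_fun h w
  rw [LinearMap.comp_apply] at h2
  rw [h2]
  split_ifs
  · rfl
  · rfl

lemma sum_Pk [Fintype κ] (w : W) : ∑ k, Pk b K k w = w := by
  have h : ∑ k, Pk b K k = LinearMap.id := by
    refine b.ext fun ⟨j, z⟩ => ?_
    rw [LinearMap.sum_apply, LinearMap.id_apply, Finset.sum_eq_single (K j)]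
    · rw [Pk_b, if_pos rfl]
    · intro k _ hk
      rw [Pk_b, if_neg (Ne.symm hk)]
    · intro h
      exact absurd (Finset.mem_univ _) h
  have h2 := LinearMap.congr_fun h w
  rwa [LinearMap.sum_apply, LinearMap.id_apply] at h2

/-- The type of a function `Fin m → κ`. -/
def ty {m : ℕ} (s : Fin m → κ) (k : κ) : ℕ := (Finset.univ.filter fun p => s p = k).card

lemma ty_perm {m : ℕ} (s : Fin m → κ) (σ : Equiv.Perm (Fin m)) : ty (s ∘ σ) = ty s := by
  funext k
  unfold ty
  refine Finset.card_bij (fun p _ => σ p) (fun p hp => ?_) (fun p _ q _ h => σ.injective h)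
    fun q hq => ?_
  · rw [Finset.mem_filter] at hp ⊢
    exact ⟨Finset.mem_univ _, hp.2⟩
  · rw [Finset.mem_filter] at hq
    refine ⟨σ.symm q, ?_, σ.apply_symm_apply q⟩
    rw [Finset.mem_filter]
    refine ⟨Finset.mem_univ _, ?_⟩
    show s (σ (σ.symm q)) = k
    rw [σ.apply_symm_apply]
    exact hq.2

lemma sum_ty [Fintype κ] {m : ℕ} (s : Fin m → κ) : ∑ k, ty s k = m := by
  have h := Finset.card_eq_sum_card_fiberwise (f := s) (s := Finset.univ)
    (t := (Finset.univ : Finset κ)) (fun i _ => Finset.mem_univ _)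
  rw [Finset.card_univ, Fintype.card_fin] at h
  exact h.symm

variable [Fintype κ] {m : ℕ}

/-- The component of `c` of the block degree `δ`. -/
def cmp (c : W [⋀^Fin m]→ₗ[ℂ] ℂ) (δ : κ → ℕ) : W [⋀^Fin m]→ₗ[ℂ] ℂ where
  toMultilinearMap := ∑ s ∈ Finset.univ.filter fun s : Fin m → κ => ty s = δ,
    c.toMultilinearMap.compLinearMap fun p => Pk b K (s p)
  map_eq_zero_of_eq' := by
    intro a i j ha hij
    have key : ∀ s : Fin m → κ, (c.toMultilinearMap.compLinearMap fun p => Pk b K (s p)) a =
        c fun p => Pk b K (s p) (a p) := fun s => rfl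
    show (∑ s ∈ Finset.univ.filter fun s : Fin m → κ => ty s = δ,
      c.toMultilinearMap.compLinearMap fun p => Pk b K (s p)) a = 0
    rw [sum_apply, Finset.sum_congr rfl fun s _ => key s]
    let σ : Equiv.Perm (Fin m) := Equiv.swap i j
    have h1 : ∀ s : Fin m → κ, (c fun p => Pk b K (s p) (a p)) =
        - c fun p => Pk b K ((s ∘ σ) p) (a p) := by
      intro s
      have h2 : (fun p => Pk b K ((s ∘ σ) p) (a p)) = (fun p => Pk b K (s p) (a p)) ∘ σ := by
        funext p
        show Pk b K (s (σ p)) (a p) = Pk b K (s (σ p)) (a (σ p))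
        congr 1
        show a p = a (Equiv.swap i j p)
        by_cases h3 : p = i
        · rw [h3, Equiv.swap_apply_left, ha]
        · by_cases h4 : p = j
          · rw [h4, Equiv.swap_apply_right, ha]
          · rw [Equiv.swap_apply_of_ne_of_ne h3 h4]
      rw [h2, c.map_swap _ hij, neg_neg]
    have h2 : (∑ s ∈ Finset.univ.filter fun s : Fin m → κ => ty s = δ,
        c fun p => Pk b K (s p) (a p)) =
        -∑ s ∈ Finset.univ.filter fun s : Fin m → κ => ty s = δ,
          c fun p => Pk b K (s p) (a p) := by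
      conv_lhs => rw [Finset.sum_congr rfl fun s _ => h1 s]
      rw [Finset.sum_neg_distrib]
      congr 1
      refine Finset.sum_bij (fun s _ => s ∘ σ) (fun s hs => ?_) (fun s _ t _ h => ?_)
        (fun t ht => ?_) fun s _ => rfl
      · rw [Finset.mem_filter] at hs ⊢
        exact ⟨Finset.mem_univ _, (ty_perm s σ).trans hs.2⟩
      · funext p
        have h3 := congrFun h (σ.symm p)
        simpa using h3
      · rw [Finset.mem_filter] at ht
        refine ⟨t ∘ σ.symm, ?_, ?_⟩
        · rw [Finset.mem_filter]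
          exact ⟨Finset.mem_univ _, (ty_perm t σ.symm).trans ht.2⟩
        · funext p
          show t (σ.symm (σ p)) = t p
          rw [σ.symm_apply_apply]
    exact self_eq_neg.1 h2

lemma cmp_apply (c : W [⋀^Fin m]→ₗ[ℂ] ℂ) (δ : κ → ℕ) (a : Fin m → W) :
    cmp b K c δ a = ∑ s ∈ Finset.univ.filter fun s : Fin m → κ => ty s = δ,
      c fun p => Pk b K (s p) (a p) := by
  show (∑ s ∈ Finset.univ.filter fun s : Fin m → κ => ty s = δ,
      c.toMultilinearMap.compLinearMap fun p => Pk b K (s p)) a = _
  rw [sum_apply]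
  rfl

lemma cmp_zero (δ : κ → ℕ) : cmp b K (0 : W [⋀^Fin m]→ₗ[ℂ] ℂ) δ = 0 := by
  ext a
  rw [cmp_apply]
  exact Finset.sum_eq_zero fun s _ => rfl

lemma update_P (s : Fin m → κ) (a : Fin m → W) (q : Fin m) (w : W) :
    (fun p => Pk b K (s p) (Function.update a q w p)) =
      Function.update (fun p => Pk b K (s p) (a p)) q (Pk b K (s q) w) := by
  funext p
  by_cases h : p = q
  · subst h
    rw [Function.update_self, Function.update_self]
  · rw [Function.update_of_ne h, Function.update_of_ne h]

/-- Block preserving endomorphisms. -/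
lemma der_cmp (Y : Module.End ℂ W) (hY : ∀ k w, Pk b K k (Y w) = Y (Pk b K k w))
    (c : W [⋀^Fin m]→ₗ[ℂ] ℂ) (δ : κ → ℕ) : der Y (cmp b K c δ) = cmp b K (der Y c) δ := by
  ext a
  rw [der_apply, cmp_apply]
  have h1 : ∀ q : Fin m, cmp b K c δ (Function.update a q (Y (a q))) =
      ∑ s ∈ Finset.univ.filter fun s : Fin m → κ => ty s = δ,
        c (Function.update (fun p => Pk b K (s p) (a p)) q (Y (Pk b K (s q) (a q)))) := by
    intro q
    rw [cmp_apply]
    refine Finset.sum_congr rfl fun s _ => ?_
    rw [update_P, hY]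
  rw [Finset.sum_congr rfl fun q _ => h1 q, Finset.sum_comm]
  refine Finset.sum_congr rfl fun s _ => ?_
  rw [der_apply]

lemma der_Pk_cmp (k : κ) (c : W [⋀^Fin m]→ₗ[ℂ] ℂ) (δ : κ → ℕ) :
    der (Pk b K k) (cmp b K c δ) = (δ k : ℂ) • cmp b K c δ := by
  ext a
  rw [der_apply, AlternatingMap.smul_apply, cmp_apply, Finset.smul_sum]
  have h1 : ∀ q : Fin m, cmp b K c δ (Function.update a q (Pk b K k (a q))) =
      ∑ s ∈ Finset.univ.filter fun s : Fin m → κ => ty s = δ,
        if s q = k then c (fun p => Pk b K (s p) (a p)) else 0 := by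
    intro q
    rw [cmp_apply]
    refine Finset.sum_congr rfl fun s _ => ?_
    rw [update_P, Pk_Pk]
    split_ifs with h
    · have h2 : Function.update (fun p => Pk b K (s p) (a p)) q (Pk b K (s q) (a q)) =
          fun p => Pk b K (s p) (a p) := Function.update_eq_self q _
      rw [h2]
    · exact c.map_update_zero _ _
  rw [Finset.sum_congr rfl fun q _ => h1 q, Finset.sum_comm]
  refine Finset.sum_congr rfl fun s hs => ?_
  rw [Finset.mem_filter] at hs
  rw [← hs.2, ← Finset.sum_filter, Finset.sum_const, nsmul_eq_mul, smul_eq_mul]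
  rfl

lemma alt_sum_apply {τ : Type} (s : Finset τ) (f : τ → W [⋀^Fin m]→ₗ[ℂ] ℂ) (a : Fin m → W) :
    (∑ i ∈ s, f i) a = ∑ i ∈ s, f i a := by
  classical
  induction s using Finset.induction_on with
  | empty => rfl
  | insert i s hi ih =>
    rw [Finset.sum_insert hi, Finset.sum_insert hi, ← ih]
    rfl

lemma sum_cmp (c : W [⋀^Fin m]→ₗ[ℂ] ℂ) :
    c = ∑ δ ∈ (Finset.univ : Finset (Fin m → κ)).image ty, cmp b K c δ := by
  ext a
  rw [alt_sum_apply]
  have h1 : c a = ∑ s : Fin m → κ, c fun p => Pk b K (s p) (a p) := by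
    have h2 := c.toMultilinearMap.map_sum (fun (p : Fin m) (k : κ) => Pk b K k (a p))
    have h3 : (fun p => ∑ k, Pk b K k (a p)) = a := funext fun p => sum_Pk b K (a p)
    rw [h3] at h2
    exact h2
  rw [h1, Finset.sum_congr rfl fun δ _ => cmp_apply b K c δ a]
  exact (Finset.sum_fiberwise_of_maps_to (fun s _ => Finset.mem_image_of_mem ty
    (Finset.mem_univ s)) _).symm

end Dec_aux

open Dec_aux in
/-- Decomposition into block degrees. -/
theorem tDec : S_Dec := by
  intro hDer W _ _ ι κ _ _ _ b K m c hc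
  obtain ⟨-, -, -, -, hlin, -⟩ := hDer
  let D : Finset (κ → ℕ) := (Finset.univ : Finset (Fin m → κ)).image ty
  let e : D ≃ Fin D.card := D.equivFin
  have hP : ∀ (x y : Bool) (k k' : κ) (w : W),
      Pk b K k' (opr b K x y k w) = opr b K x y k (Pk b K k' w) := Pk_opr b K
  refine ⟨D.card, fun l => cmp b K c (e.symm l).1, fun l => (e.symm l).1, ?_, fun l => ?_⟩
  · have h1 := sum_cmp b K c
    rw [← Finset.sum_coe_sort] at h1
    rw [Equiv.sum_comp e.symm fun x : D => cmp b K c x.1]
    exact h1
  · refine ⟨fun k => ⟨?_, ?_, ?_⟩, ?_, fun k => ?_⟩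
    · show der (opr b K false true k) _ = 0
      rw [der_cmp b K _ (fun k' w => hP false true k k' w)]
      have h1 : der (opr b K false true k) c = 0 := (hc k).1
      rw [h1, cmp_zero]
    · show der (opr b K true false k) _ = 0
      rw [der_cmp b K _ (fun k' w => hP true false k k' w)]
      have h1 : der (opr b K true false k) c = 0 := (hc k).2.1
      rw [h1, cmp_zero]
    · show der (opr b K false false k) _ = der (opr b K true true k) _
      rw [der_cmp b K _ (fun k' w => hP false false k k' w),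
        der_cmp b K _ (fun k' w => hP true true k k' w)]
      have h1 : der (opr b K false false k) c = der (opr b K true true k) c := (hc k).2.2
      rw [h1]
    · obtain ⟨s, -, hs⟩ := Finset.mem_image.1 (e.symm l).2
      show ∑ k, (e.symm l).1 k = m
      rw [← hs, sum_ty]
    · have h1 := der_Pk_cmp b K k c (e.symm l).1
      rw [← (hlin W m (nA b K k) (nB b K k) 0 (cmp b K c (e.symm l).1) 0).1]
      exact h1

end E

end HC
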