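import Pool.Agent.Lib.HC.L.E.Spec

/-!
# PROJECT HC+, PART 3: calculus of `der`, `wdl`, `curryLeft` (helper15)
-/

set_option autoImplicit false

noncomputable section

namespace HC

namespace E

section

variable {W : Type} [AddCommGroup W] [Module ℂ W] {m : ℕ}

/-- A value on a tuple with an entry removed and a new one in front. -/
theorem map_cons_removeNth (c : W [⋀^Fin (m + 1)]→ₗ[ℂ] ℂ) (z : W) (a : Fin (m + 1) → W)
    (q : Fin (m + 1)) :
    (-1) ^ (q : ℕ) • c (Fin.cons z (q.removeNth a)) = c (Function.update a q z) := by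
  rw [← Fin.insertNth_removeNth, c.map_insertNth]
  rfl

/-- Contraction of a wedge product. -/
theorem wdl_curryLeft (c : W [⋀^Fin m]→ₗ[ℂ] ℂ) (x : Module.Dual ℂ W) (z : W) :
    (wdl x c).curryLeft z = x z • c - der (rk z x) c := by
  refine AlternatingMap.ext fun a => ?_
  rw [AlternatingMap.sub_apply, AlternatingMap.smul_apply, der_apply,
    AlternatingMap.curryLeft_apply_apply, wdl_apply, Fin.sum_univ_succ, sub_eq_add_neg]
  have h0 : (-1) ^ ((0 : Fin (m + 1)) : ℕ) • (x ((Matrix.vecCons z a : Fin (m + 1) → W) 0) *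
      c ((0 : Fin (m + 1)).removeNth (Matrix.vecCons z a : Fin (m + 1) → W))) = x z • c a := by
    rw [Fin.val_zero, pow_zero, one_smul, Matrix.cons_val_zero, smul_eq_mul, Fin.removeNth_zero]
    rfl
  rw [h0]
  congr 1
  rw [← Finset.sum_neg_distrib]
  refine Finset.sum_congr rfl fun q _ => ?_
  cases m with
  | zero => exact q.elim0
  | succ m =>
    have h1 : (q.succ).removeNth (Matrix.vecCons z a : Fin (m + 2) → W) =
        Fin.cons z (q.removeNth a) := by
      funext j
      refine Fin.cases ?_ (fun i => ?_) j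
      · rfl
      · show (Matrix.vecCons z a : Fin (m + 2) → W) (q.succ.succAbove i.succ) = _
        rw [Fin.succ_succAbove_succ]
        rfl
    rw [h1, rk_apply, c.map_update_smul, Fin.val_succ, pow_succ, ← map_cons_removeNth,
      smul_eq_mul]
    have h2 : (Matrix.vecCons z a : Fin (m + 2) → W) q.succ = a q := rfl
    rw [h2, mul_smul, neg_one_smul, smul_neg, mul_smul_comm]

/-- `der X` is a derivation. -/
theorem der_wdl (c : W [⋀^Fin m]→ₗ[ℂ] ℂ) (x : Module.Dual ℂ W) (X : Module.End ℂ W) :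
    der X (wdl x c) = wdl (x ∘ₗ X) c + wdl x (der X c) := by
  refine AlternatingMap.ext fun a => ?_
  rw [AlternatingMap.add_apply, der_apply, wdl_apply, wdl_apply, ← Finset.sum_add_distrib,
    Finset.sum_congr rfl fun p _ => wdl_apply x c _, Finset.sum_comm]
  refine Finset.sum_congr rfl fun q _ => ?_
  rw [← Finset.smul_sum, ← smul_add, Fin.sum_univ_succAbove _ q]
  congr 1
  rw [Function.update_self, Fin.removeNth_update, der_apply, Finset.mul_sum]
  congr 1
  refine Finset.sum_congr rfl fun p _ => ?_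
  rw [Function.update_of_ne (Fin.succAbove_ne q p).symm, Fin.removeNth_update_succAbove]
  rfl

theorem wdl_add_left (x y : Module.Dual ℂ W) (c : W [⋀^Fin m]→ₗ[ℂ] ℂ) :
    wdl (x + y) c = wdl x c + wdl y c := by
  refine AlternatingMap.ext fun a => ?_
  rw [AlternatingMap.add_apply, wdl_apply, wdl_apply, wdl_apply, ← Finset.sum_add_distrib]
  refine Finset.sum_congr rfl fun p _ => ?_
  rw [← smul_add, LinearMap.add_apply, add_mul]

theorem wdl_smul_left (x : Module.Dual ℂ W) (r : ℂ) (c : W [⋀^Fin m]→ₗ[ℂ] ℂ) :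
    wdl (r • x) c = r • wdl x c := by
  refine AlternatingMap.ext fun a => ?_
  rw [AlternatingMap.smul_apply, wdl_apply, wdl_apply, Finset.smul_sum]
  refine Finset.sum_congr rfl fun p _ => ?_
  rw [LinearMap.smul_apply, smul_eq_mul, mul_assoc, smul_eq_mul, mul_smul_comm]

theorem wdl_add_right (x : Module.Dual ℂ W) (c d : W [⋀^Fin m]→ₗ[ℂ] ℂ) :
    wdl x (c + d) = wdl x c + wdl x d := by
  refine AlternatingMap.ext fun a => ?_
  rw [AlternatingMap.add_apply, wdl_apply, wdl_apply, wdl_apply, ← Finset.sum_add_distrib]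
  refine Finset.sum_congr rfl fun p _ => ?_
  rw [← smul_add, AlternatingMap.add_apply, mul_add]

theorem wdl_smul_right (x : Module.Dual ℂ W) (r : ℂ) (c : W [⋀^Fin m]→ₗ[ℂ] ℂ) :
    wdl x (r • c) = r • wdl x c := by
  refine AlternatingMap.ext fun a => ?_
  rw [AlternatingMap.smul_apply, wdl_apply, wdl_apply, Finset.smul_sum]
  refine Finset.sum_congr rfl fun p _ => ?_
  rw [AlternatingMap.smul_apply, smul_eq_mul, mul_left_comm, smul_eq_mul, mul_smul_comm]

theorem wdl_zero_right (x : Module.Dual ℂ W) : wdl x (0 : W [⋀^Fin m]→ₗ[ℂ] ℂ) = 0 := by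
  have h := wdl_smul_right x 0 (0 : W [⋀^Fin m]→ₗ[ℂ] ℂ)
  rwa [zero_smul, zero_smul] at h

theorem wdl_zero_left (c : W [⋀^Fin m]→ₗ[ℂ] ℂ) : wdl (0 : Module.Dual ℂ W) c = 0 := by
  have h := wdl_smul_left (0 : Module.Dual ℂ W) 0 c
  rwa [zero_smul, zero_smul] at h

theorem wdl_neg_right (x : Module.Dual ℂ W) (c : W [⋀^Fin m]→ₗ[ℂ] ℂ) :
    wdl x (-c) = -wdl x c := by
  have h := wdl_smul_right x (-1) c
  rwa [neg_one_smul, neg_one_smul] at h

/-- Antisymmetry. -/
theorem wdl_anti (c : W [⋀^Fin m]→ₗ[ℂ] ℂ) (x y : Module.Dual ℂ W) :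
    wdl x (wdl y c) = -wdl y (wdl x c) := by
  let f : W →ₗ[ℂ] W →ₗ[ℂ] W [⋀^Fin m]→ₗ[ℂ] ℂ := x.smulRight (y.smulRight c) +
    y.smulRight (x.smulRight c)
  have hf : ∀ u v, f u v = f v u := by
    intro u v
    show x u • (y v • c) + y u • (x v • c) = x v • (y u • c) + y v • (x u • c)
    rw [smul_comm (x u), smul_comm (y u), add_comm]
  have h := AlternatingMap.alternatizeUncurryFin_alternatizeUncurryFinLM_comp_of_symmetric hf
  have h1 : (AlternatingMap.alternatizeUncurryFinLM ∘ₗ f :
      W →ₗ[ℂ] W [⋀^Fin (m + 1)]→ₗ[ℂ] ℂ) = x.smulRight (wdl y c) + y.smulRight (wdl x c) := by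
    refine LinearMap.ext fun u => ?_
    show AlternatingMap.alternatizeUncurryFin (x u • y.smulRight c + y u • x.smulRight c) =
      x u • wdl y c + y u • wdl x c
    rw [AlternatingMap.alternatizeUncurryFin_add, AlternatingMap.alternatizeUncurryFin_smul,
      AlternatingMap.alternatizeUncurryFin_smul]
    rfl
  rw [h1, AlternatingMap.alternatizeUncurryFin_add] at h
  exact eq_neg_of_add_eq_zero_left h

/-- The composition of two derivations. -/
theorem der_der (c : W [⋀^Fin m]→ₗ[ℂ] ℂ) (X Y : Module.End ℂ W) (a : Fin m → W) :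
    der X (der Y c) a = der (Y * X) c a +
      ∑ p, ∑ q ∈ Finset.univ.erase p,
        c (Function.update (Function.update a p (X (a p))) q (Y (a q))) := by
  rw [der_apply, der_apply, ← Finset.sum_add_distrib]
  refine Finset.sum_congr rfl fun p _ => ?_
  rw [der_apply, ← Finset.add_sum_erase _ _ (Finset.mem_univ p), Function.update_self,
    Function.update_idem]
  congr 1
  refine Finset.sum_congr rfl fun q hq => ?_
  rw [Function.update_of_ne (Finset.mem_erase.1 hq).1]

theorem der_add_left (X Y : Module.End ℂ W) (c : W [⋀^Fin m]→ₗ[ℂ] ℂ) :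
    der (X + Y) c = der X c + der Y c := by
  refine AlternatingMap.ext fun a => ?_
  rw [AlternatingMap.add_apply, der_apply, der_apply, der_apply, ← Finset.sum_add_distrib]
  refine Finset.sum_congr rfl fun p _ => ?_
  rw [LinearMap.add_apply, c.map_update_add]

theorem der_smul_left (X : Module.End ℂ W) (r : ℂ) (c : W [⋀^Fin m]→ₗ[ℂ] ℂ) :
    der (r • X) c = r • der X c := by
  refine AlternatingMap.ext fun a => ?_
  rw [AlternatingMap.smul_apply, der_apply, der_apply, Finset.smul_sum]
  refine Finset.sum_congr rfl fun p _ => ?_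
  rw [LinearMap.smul_apply, c.map_update_smul]

theorem der_add_right (X : Module.End ℂ W) (c d : W [⋀^Fin m]→ₗ[ℂ] ℂ) :
    der X (c + d) = der X c + der X d := by
  refine AlternatingMap.ext fun a => ?_
  rw [AlternatingMap.add_apply, der_apply, der_apply, der_apply, ← Finset.sum_add_distrib]
  rfl

theorem der_smul_right (X : Module.End ℂ W) (r : ℂ) (c : W [⋀^Fin m]→ₗ[ℂ] ℂ) :
    der X (r • c) = r • der X c := by
  refine AlternatingMap.ext fun a => ?_
  rw [AlternatingMap.smul_apply, der_apply, der_apply, Finset.smul_sum]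
  rfl

theorem der_zero_right (X : Module.End ℂ W) : der X (0 : W [⋀^Fin m]→ₗ[ℂ] ℂ) = 0 := by
  have h := der_smul_right X 0 (0 : W [⋀^Fin m]→ₗ[ℂ] ℂ)
  rwa [zero_smul, zero_smul] at h

theorem der_zero_left (c : W [⋀^Fin m]→ₗ[ℂ] ℂ) : der (0 : Module.End ℂ W) c = 0 := by
  have h := der_smul_left (0 : Module.End ℂ W) 0 c
  rwa [zero_smul, zero_smul] at h

/-- `der` of a finite sum of endomorphisms. -/
theorem der_sum_left {α : Type} (s : Finset α) (X : α → Module.End ℂ W)
    (c : W [⋀^Fin m]→ₗ[ℂ] ℂ) : der (∑ i ∈ s, X i) c = ∑ i ∈ s, der (X i) c := by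
  classical
  induction s using Finset.induction_on with
  | empty => rw [Finset.sum_empty, Finset.sum_empty, der_zero_left]
  | insert i s hi ih => rw [Finset.sum_insert hi, Finset.sum_insert hi, der_add_left, ih]

/-- `der` of a finite sum of forms. -/
theorem der_sum_right {α : Type} (s : Finset α) (X : Module.End ℂ W)
    (c : α → W [⋀^Fin m]→ₗ[ℂ] ℂ) : der X (∑ i ∈ s, c i) = ∑ i ∈ s, der X (c i) := by
  classical
  induction s using Finset.induction_on with
  | empty => rw [Finset.sum_empty, Finset.sum_empty, der_zero_right]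
  | insert i s hi ih => rw [Finset.sum_insert hi, Finset.sum_insert hi, der_add_right, ih]

end

theorem tDer : S_Der :=
  ⟨fun _ _ _ _ c x z => wdl_curryLeft c x z, fun _ _ _ _ c x X => der_wdl c x X,
    fun _ _ _ _ c x y => wdl_anti c x y, fun _ _ _ _ c X Y a => der_der c X Y a,
    fun _ _ _ _ X Y r c d => ⟨der_add_left X Y c, der_smul_left X r c, der_add_right X c d,
      der_smul_right X r c⟩,
    fun _ _ _ _ x y r c d => ⟨wdl_add_left x y c, wdl_smul_left x r c, wdl_add_right x c d,
      wdl_smul_right x r c⟩⟩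

end E

end HC
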