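import Pool.Agent.Lib.HC.L.E.Spec
import Pool.Agent.Lib.HC.W.CapI

/-!
# PROJECT HC+, part 3: `S_Div` (helper38)
-/

set_option autoImplicit false

noncomputable section

namespace HC
namespace E

/-- Contraction with a 2-form killed by `h`. -/
theorem tDiv : S_Div := by
  intro T h hR hJ r p q hk m c hc
  refine W.cap_inv h hR hJ p q (fun X hX u v => ?_) hc
  rw [W.bil_apply, W.bil_apply, ← Finset.sum_add_distrib]
  exact hk X hX u v

end E
end HC
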