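import Pool.Agent.Lib.HC.L.E.Spec
import Pool.Agent.Lib.HC.B.Sub

/-!
PROJECT HC+, part 3, S_Dn (helper41): downward induction.
-/

set_option autoImplicit false

open scoped ComplexConjugate

noncomputable section

namespace HC

namespace E

namespace Dn_aux

/-- The number of the coordinates is the dimension. -/
lemma card_eq {T : AV} {ι : Type} [Fintype ι]
    (b : Module.Basis (ι × Bool) ℂ (T.V →ₗ[ℝ] ℂ)) :
    Fintype.card ι = Module.finrank ℂ T.V := by
  have h1 := Module.finrank_eq_card_basis b
  rw [Fintype.card_prod, Fintype.card_bool] at h1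
  have h2 : Module.finrank ℂ (T.V →ₗ[ℝ] ℂ) = Module.finrank ℝ T.V * Module.finrank ℂ ℂ :=
    Module.finrank_linearMap ℝ ℂ T.V ℂ
  rw [Module.finrank_self, mul_one, finrank_real_of_complex] at h2
  omega

lemma exists_block {ι κ : Type} [Fintype ι] [Fintype κ] [DecidableEq κ] (K : ι → κ) (δ : κ → ℕ)
    (h : ∑ k, δ k < 2 * Fintype.card ι) :
    ∃ k, δ k < 2 * (Finset.univ.filter fun i => K i = k).card := by
  by_contra hc
  push Not at hc
  have h1 : ∑ k, 2 * (Finset.univ.filter fun i => K i = k).card ≤ ∑ k, δ k :=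
    Finset.sum_le_sum fun k _ => hc k
  rw [← Finset.mul_sum] at h1
  have h2 : ∑ k, (Finset.univ.filter fun i => K i = k).card = Fintype.card ι := by
    have h3 := Finset.card_eq_sum_card_fiberwise (f := K) (s := Finset.univ)
      (t := (Finset.univ : Finset κ)) (fun i _ => Finset.mem_univ _)
    rw [Finset.card_univ] at h3
    exact h3.symm
  rw [h2] at h1
  omega

end Dn_aux

open Dn_aux in
/-- Downward induction. -/
theorem tDn : S_Dn := by
  intro hDer hInvW hCas hDec hTop T ι κ _ _ _ K b hcE
  have key : ∀ (N m : ℕ), 2 * Module.finrank ℂ T.V ≤ m + N → ∀ c : Hlg T m, Inv b K c →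
      Alg T m c := by
    intro N
    induction N with
    | zero => exact fun m hm c _ => hTop T m c hm
    | succ N ih =>
      intro m hm c hc
      by_cases h0 : 2 * Module.finrank ℂ T.V ≤ m
      · exact hTop T m c h0
      obtain ⟨n, d, δ, rfl, hd⟩ := hDec hDer (T.V →ₗ[ℝ] ℂ) ι κ b K m c hc
      refine Alg.sum fun l _ => ?_
      obtain ⟨hl, hδ, hs⟩ := hd l
      obtain ⟨k, hk⟩ := exists_block K (δ l) (by
        rw [hδ, card_eq b]
        omega)
      -- the eigenvalues
      have e1 : der (nA b K k) (d l) = ((δ l k : ℂ) / 2) • d l := by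
        have h1 := hs k
        rw [← (hl k).2.2, ← two_smul ℂ] at h1
        rw [div_eq_inv_mul, mul_smul, ← h1, smul_smul, inv_mul_cancel₀ two_ne_zero, one_smul]
      have e2 : der (nB b K k) (d l) = ((δ l k : ℂ) / 2) • d l := by
        rw [← (hl k).2.2, e1]
      have h1 := hCas hDer (T.V →ₗ[ℝ] ℂ) ι κ b K k m (d l) ((δ l k : ℂ) / 2) (hl k).1 e1 e2
      have h2 : Alg T m (∑ i, ∑ j, if K i = k ∧ K j = k then cE b i j (wE b i j (d l)) else 0) := by
        refine Alg.sum fun i _ => Alg.sum fun j _ => ?_
        split_ifs with hij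
        · have hK : K i = K j := hij.1.trans hij.2.symm
          refine hcE i j hK m _ (ih (m + 2) (by omega) _ ?_)
          exact hInvW hDer (T.V →ₗ[ℝ] ℂ) ι κ b K i j hK m (d l) hl
        · exact Alg.zero
      rw [h1] at h2
      refine Alg.of_smul ?_ h2
      -- the factor
      have h3 : ((δ l k : ℝ) / 2) < ((Finset.univ.filter fun i => K i = k).card : ℝ) := by
        have h4 : (δ l k : ℝ) < 2 * ((Finset.univ.filter fun i => K i = k).card : ℝ) := by
          exact_mod_cast hk
        linarith
      have h5 : (2 * (((Finset.univ.filter fun i => K i = k).card : ℝ) - (δ l k : ℝ) / 2) *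
          (((Finset.univ.filter fun i => K i = k).card : ℝ) - (δ l k : ℝ) / 2 + 1)) ≠ 0 := by
        have h6 : 0 < ((Finset.univ.filter fun i => K i = k).card : ℝ) - (δ l k : ℝ) / 2 := by
          linarith
        positivity
      have h7 : (2 * (((Finset.univ.filter fun i => K i = k).card : ℂ) - (δ l k : ℂ) / 2) *
          (((Finset.univ.filter fun i => K i = k).card : ℂ) - (δ l k : ℂ) / 2 + 1)) =
          ((2 * (((Finset.univ.filter fun i => K i = k).card : ℝ) - (δ l k : ℝ) / 2) *
          (((Finset.univ.filter fun i => K i = k).card : ℝ) - (δ l k : ℝ) / 2 + 1) : ℝ) : ℂ) := by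
        push_cast
        ring
      rw [h7]
      exact_mod_cast h5
  exact fun m c hc => key (2 * Module.finrank ℂ T.V) m (by omega) c hc

end E

end HC
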