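import Pool.Agent.Lib.HC.L.E.Spec
import Pool.Agent.Lib.HC.L.B

/-!
# PROJECT HC+, part 3: `S_Flat`

* `pFlat`: two `ℚ`-subspaces of a rational space: `span_ℝ P ∩ span_ℝ P' = span_ℝ (P ∩ P')`.
* `flatE`, `E.tFlat`: the same for additive groups of rational endomorphisms of an abelian variety.
* `qcl`: the `ℚ`-span of a set of endomorphisms, `qcl_rat`, `qcl_comm`, `qcl_qsmul`.
* `ssh_of`: in the proof of `SSH B` one may assume that `h` is contained in a given `ℚ`-Lie
  algebra of rational endomorphisms whose real span contains `i`, and that it is a `ℚ`-Lie algebra.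
-/

set_option autoImplicit false

noncomputable section

namespace HC

namespace Flat

variable {V : Type} [AddCommGroup V] [Module ℝ V] {ι : Type} [Fintype ι]

/-- A Hamel basis. -/
def H : Module.Basis (Module.Basis.ofVectorSpaceIndex ℚ ℝ) ℚ ℝ := Module.Basis.ofVectorSpace ℚ ℝ

/-- The coefficient map. -/
def phi (b : Module.Basis ι ℝ V) (s : Module.Basis.ofVectorSpaceIndex ℚ ℝ) (v : V) : V :=
  ∑ i, ((H.repr (b.repr v i) s : ℚ) : ℝ) • b i

theorem phi_add (b : Module.Basis ι ℝ V) (s : Module.Basis.ofVectorSpaceIndex ℚ ℝ) (v w : V) :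
    phi b s (v + w) = phi b s v + phi b s w := by
  simp only [phi, map_add, Finsupp.add_apply, Rat.cast_add, add_smul, Finset.sum_add_distrib]

theorem phi_zero (b : Module.Basis ι ℝ V) (s : Module.Basis.ofVectorSpaceIndex ℚ ℝ) :
    phi b s 0 = 0 := by
  simp [phi]

theorem phi_smul (b : Module.Basis ι ℝ V) (s : Module.Basis.ofVectorSpaceIndex ℚ ℝ) (r : ℝ)
    (p : V) (hp : ∀ i, ∃ q : ℚ, b.repr p i = q) :
    phi b s (r • p) = ((H.repr r s : ℚ) : ℝ) • p := by
  choose q hq using hp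
  have h1 : p = ∑ i, (q i : ℝ) • b i := by
    conv_lhs => rw [← b.sum_repr p]
    exact Finset.sum_congr rfl fun i _ => by rw [hq]
  have h2 : phi b s (r • p) = ∑ i, (((q i) * H.repr r s : ℚ) : ℝ) • b i := by
    refine Finset.sum_congr rfl fun i _ => ?_
    have h3 : b.repr (r • p) i = (q i) • r := by
      rw [map_smul, Finsupp.smul_apply, hq, smul_eq_mul, Rat.smul_def, mul_comm]
    rw [h3, map_smul, Finsupp.smul_apply, smul_eq_mul]
  rw [h2]
  conv_rhs => rw [h1, Finset.smul_sum]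
  refine Finset.sum_congr rfl fun i _ => ?_
  rw [smul_smul, Rat.cast_mul, mul_comm]

theorem phi_mem (b : Module.Basis ι ℝ V) (P : AddSubgroup V)
    (h1 : ∀ x ∈ P, ∀ q : ℚ, (q : ℝ) • x ∈ P) (h2 : ∀ x ∈ P, ∀ i, ∃ q : ℚ, b.repr x i = q)
    (x : V) (hx : x ∈ Submodule.span ℝ (P : Set V)) (s : Module.Basis.ofVectorSpaceIndex ℚ ℝ) :
    phi b s x ∈ P := by
  have key : ∀ r : ℝ, phi b s (r • x) ∈ P := by
    induction hx using Submodule.span_induction with
    | mem x hx =>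
      intro r
      rw [phi_smul b s r x (h2 x hx)]
      exact h1 x hx _
    | zero =>
      intro r
      rw [smul_zero, phi_zero]
      exact P.zero_mem
    | add x y _ _ ihx ihy =>
      intro r
      rw [smul_add, phi_add]
      exact P.add_mem (ihx r) (ihy r)
    | smul a x _ ih =>
      intro r
      rw [smul_smul]
      exact ih _
  simpa using key 1

theorem sum_phi (b : Module.Basis ι ℝ V) (x : V) :
    ∃ S : Finset (Module.Basis.ofVectorSpaceIndex ℚ ℝ), x = ∑ s ∈ S, H s • phi b s x := by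
  classical
  refine ⟨Finset.univ.biUnion fun i => (H.repr (b.repr x i)).support, ?_⟩
  set S := Finset.univ.biUnion fun i => (H.repr (b.repr x i)).support with hS
  have h1 : ∀ i, b.repr x i = ∑ s ∈ S, H s * ((H.repr (b.repr x i) s : ℚ) : ℝ) := by
    intro i
    have h2 : b.repr x i = ∑ s ∈ (H.repr (b.repr x i)).support, (H.repr (b.repr x i) s) • H s := by
      conv_lhs => rw [← H.linearCombination_repr (b.repr x i)]
      rfl
    conv_lhs => rw [h2]
    rw [Finset.sum_subset (Finset.subset_biUnion_of_mem (fun i => (H.repr (b.repr x i)).support)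
      (Finset.mem_univ i))]
    · exact Finset.sum_congr rfl fun s _ => by rw [Rat.smul_def, mul_comm]
    · intro s _ hs
      rw [Finsupp.notMem_support_iff.1 hs, zero_smul]
  conv_lhs => rw [← b.sum_repr x]
  simp only [phi, Finset.smul_sum]
  rw [Finset.sum_comm]
  refine Finset.sum_congr rfl fun i _ => ?_
  conv_lhs => rw [h1 i]
  rw [Finset.sum_smul]
  exact Finset.sum_congr rfl fun s _ => by rw [smul_smul]

end Flat

/-- **Flat.** -/
theorem pFlat (V : Type) [AddCommGroup V] [Module ℝ V] (ι : Type) [Fintype ι]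
    (b : Module.Basis ι ℝ V) (P P' : AddSubgroup V) (h1 : ∀ x ∈ P, ∀ q : ℚ, (q : ℝ) • x ∈ P)
    (h1' : ∀ x ∈ P', ∀ q : ℚ, (q : ℝ) • x ∈ P') (h2 : ∀ x ∈ P, ∀ i, ∃ q : ℚ, b.repr x i = q)
    (h2' : ∀ x ∈ P', ∀ i, ∃ q : ℚ, b.repr x i = q) (x : V)
    (hx : x ∈ Submodule.span ℝ (P : Set V)) (hx' : x ∈ Submodule.span ℝ (P' : Set V)) :
    x ∈ Submodule.span ℝ ((P ⊓ P' : AddSubgroup V) : Set V) := by
  obtain ⟨S, hS⟩ := Flat.sum_phi b x
  rw [hS]
  refine Submodule.sum_mem _ fun s _ => Submodule.smul_mem _ _ (Submodule.subset_span ?_)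
  exact ⟨Flat.phi_mem b P h1 h2 x hx s, Flat.phi_mem b P' h1' h2' x hx' s⟩

/-- A real basis of `B.V` which is a basis of the lattice. -/
theorem exists_lat_basis' (T : AV) : ∃ (ι : Type) (_ : Fintype ι) (b : Module.Basis ι ℝ T.V),
    (∀ i, b i ∈ T.L) ∧ ∀ v ∈ T.L, ∀ i, ∃ n : ℤ, b.repr v i = n := by
  have : Module.Free ℤ T.L := ZLattice.module_free ℝ T.L
  have : Module.Finite ℤ T.L := ZLattice.module_finite ℝ T.L
  let B := Module.Free.chooseBasis ℤ T.L
  let ι := Module.Free.ChooseBasisIndex ℤ T.L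
  refine ⟨Fin (Fintype.card ι), inferInstance,
    (B.ofZLatticeBasis ℝ T.L).reindex (Fintype.equivFin ι), fun i => ?_, fun v hv i => ?_⟩
  · rw [Module.Basis.reindex_apply, Module.Basis.ofZLatticeBasis_apply]
    exact (B _).2
  · refine ⟨(B.repr ⟨v, hv⟩ ((Fintype.equivFin ι).symm i) : ℤ), ?_⟩
    have h := B.ofZLatticeBasis_repr_apply ℝ T.L ⟨v, hv⟩ ((Fintype.equivFin ι).symm i)
    rw [Module.Basis.repr_reindex_apply]
    exact h

/-- **Flat** for rational endomorphisms. -/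
theorem flatE (B : AV) (P P' : AddSubgroup (Module.End ℝ B.V)) (hP : ∀ X ∈ P, RatEnd B X)
    (hP' : ∀ X ∈ P', RatEnd B X) (hq : ∀ X ∈ P, ∀ q : ℚ, (q : ℝ) • X ∈ P)
    (hq' : ∀ X ∈ P', ∀ q : ℚ, (q : ℝ) • X ∈ P') (J : Module.End ℝ B.V)
    (hJ : J ∈ Submodule.span ℝ (P : Set (Module.End ℝ B.V)))
    (hJ' : J ∈ Submodule.span ℝ (P' : Set (Module.End ℝ B.V))) :
    J ∈ Submodule.span ℝ ((P ⊓ P' : AddSubgroup (Module.End ℝ B.V)) :
      Set (Module.End ℝ B.V)) := by
  classical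
  obtain ⟨ι, _, b, hb1, hb2⟩ := exists_lat_basis' B
  have key : ∀ X : Module.End ℝ B.V, RatEnd B X → ∀ i, ∃ q : ℚ, (b.linearMap b).repr X i = q := by
    intro X hX i
    obtain ⟨N, hN, h1⟩ := hX (b i.2) (hb1 i.2)
    obtain ⟨n, hn⟩ := hb2 _ h1 i.1
    refine ⟨n / N, ?_⟩
    have h3 : (b.linearMap b).repr X i = b.repr (X (b i.2)) i.1 := by
      have : (b.linearMap b).repr X i = LinearMap.toMatrix b b X i.1 i.2 := by
        simp [Module.Basis.linearMap, Matrix.stdBasis]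
      rw [this, LinearMap.toMatrix_apply]
    have hN' : (N : ℝ) ≠ 0 := Nat.cast_ne_zero.2 hN
    rw [h3]
    rw [← Nat.cast_smul_eq_nsmul ℝ N, map_smul, Finsupp.smul_apply, smul_eq_mul] at hn
    push_cast
    rw [eq_div_iff hN', mul_comm, hn]
  exact pFlat _ _ (b.linearMap b) P P' hq hq' (fun X hX => key X (hP X hX))
    (fun X hX => key X (hP' X hX)) J hJ hJ'

section qcl

variable {B : AV}

/-- The `ℚ`-span. -/
def qcl (h : Set (Module.End ℝ B.V)) : AddSubgroup (Module.End ℝ B.V) :=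
  AddSubgroup.closure {Z | ∃ Y ∈ h, ∃ q : ℚ, Z = (q : ℝ) • Y}

theorem subset_qcl (h : Set (Module.End ℝ B.V)) : ∀ X ∈ h, X ∈ qcl h := fun X hX =>
  AddSubgroup.subset_closure ⟨X, hX, 1, by simp⟩

theorem qcl_qsmul {h : Set (Module.End ℝ B.V)} : ∀ X ∈ qcl h, ∀ q : ℚ, (q : ℝ) • X ∈ qcl h := by
  intro X hX q
  induction hX using AddSubgroup.closure_induction with
  | mem x hx =>
    obtain ⟨Y, hY, r, rfl⟩ := hx
    exact AddSubgroup.subset_closure ⟨Y, hY, q * r, by rw [smul_smul, Rat.cast_mul]⟩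
  | zero => rw [smul_zero]; exact AddSubgroup.zero_mem _
  | add x y _ _ ihx ihy => rw [smul_add]; exact AddSubgroup.add_mem _ ihx ihy
  | neg x _ ih => rw [smul_neg]; exact AddSubgroup.neg_mem _ ih

theorem qcl_rat {h : Set (Module.End ℝ B.V)} (hh : ∀ X ∈ h, RatEnd B X) :
    ∀ X ∈ qcl h, RatEnd B X := by
  intro X hX
  induction hX using AddSubgroup.closure_induction with
  | mem x hx =>
    obtain ⟨Y, hY, r, rfl⟩ := hx
    exact (hh Y hY).qsmul r
  | zero => exact RatEnd.zero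
  | add x y _ _ ihx ihy => exact ihx.add ihy
  | neg x _ ih => exact ih.neg

/-- Commutators of elements of the `ℚ`-span. -/
theorem qcl_comm_span {h : Set (Module.End ℝ B.V)} : ∀ X ∈ qcl h, ∀ Y ∈ qcl h,
    X * Y - Y * X ∈ Submodule.span ℝ {Z : Module.End ℝ B.V |
      ∃ X ∈ h, ∃ Y ∈ h, Z = X * Y - Y * X} := by
  intro X hX Y hY
  induction hX using AddSubgroup.closure_induction with
  | mem x hx =>
    obtain ⟨X', hX', r, rfl⟩ := hx
    induction hY using AddSubgroup.closure_induction with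
    | mem y hy =>
      obtain ⟨Y', hY', t, rfl⟩ := hy
      have h1 : ((r : ℝ) • X') * ((t : ℝ) • Y') - ((t : ℝ) • Y') * ((r : ℝ) • X') =
          ((r : ℝ) * (t : ℝ)) • (X' * Y' - Y' * X') := by
        rw [smul_mul_smul_comm, smul_mul_smul_comm, smul_sub, mul_comm (t : ℝ)]
      rw [h1]
      exact Submodule.smul_mem _ _ (Submodule.subset_span ⟨X', hX', Y', hY', rfl⟩)
    | zero => rw [mul_zero, zero_mul, sub_zero]; exact Submodule.zero_mem _
    | add y z _ _ ihy ihz =>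
      rw [mul_add, add_mul, add_sub_add_comm]
      exact Submodule.add_mem _ ihy ihz
    | neg y _ ih =>
      rw [mul_neg, neg_mul, neg_sub_neg, ← neg_sub]
      exact Submodule.neg_mem _ ih
  | zero => rw [mul_zero, zero_mul, sub_zero]; exact Submodule.zero_mem _
  | add y z _ _ ihy ihz =>
    rw [mul_add, add_mul, add_sub_add_comm]
    exact Submodule.add_mem _ ihy ihz
  | neg y _ ih =>
    rw [mul_neg, neg_mul, neg_sub_neg, ← neg_sub]
    exact Submodule.neg_mem _ ih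

/-- The `ℚ`-span is closed under commutators. -/
theorem qcl_comm {h : Set (Module.End ℝ B.V)} (hc : ∀ X ∈ h, ∀ Y ∈ h, X * Y - Y * X ∈ h) :
    ∀ X ∈ qcl h, ∀ Y ∈ qcl h, X * Y - Y * X ∈ qcl h := by
  intro X hX Y hY
  induction hX using AddSubgroup.closure_induction with
  | mem x hx =>
    obtain ⟨X', hX', r, rfl⟩ := hx
    induction hY using AddSubgroup.closure_induction with
    | mem y hy =>
      obtain ⟨Y', hY', t, rfl⟩ := hy
      have h1 : ((r : ℝ) • X') * ((t : ℝ) • Y') - ((t : ℝ) • Y') * ((r : ℝ) • X') =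
          ((r * t : ℚ) : ℝ) • (X' * Y' - Y' * X') := by
        rw [smul_mul_smul_comm, smul_mul_smul_comm, smul_sub, mul_comm (t : ℝ), Rat.cast_mul]
      rw [h1]
      exact AddSubgroup.subset_closure ⟨_, hc X' hX' Y' hY', r * t, rfl⟩
    | zero => rw [mul_zero, zero_mul, sub_zero]; exact AddSubgroup.zero_mem _
    | add y z _ _ ihy ihz =>
      rw [mul_add, add_mul, add_sub_add_comm]
      exact AddSubgroup.add_mem _ ihy ihz
    | neg y _ ih =>
      rw [mul_neg, neg_mul, neg_sub_neg, ← neg_sub]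
      exact AddSubgroup.neg_mem _ ih
  | zero => rw [mul_zero, zero_mul, sub_zero]; exact AddSubgroup.zero_mem _
  | add y z _ _ ihy ihz =>
    rw [mul_add, add_mul, add_sub_add_comm]
    exact AddSubgroup.add_mem _ ihy ihz
  | neg y _ ih =>
    rw [mul_neg, neg_mul, neg_sub_neg, ← neg_sub]
    exact AddSubgroup.neg_mem _ ih

end qcl

/-- **Reduction for `SSH`.** One may assume that `h` is a `ℚ`-Lie algebra contained in a given
`ℚ`-Lie algebra `s` of rational endomorphisms whose real span contains `i`. -/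
theorem ssh_of (B : AV) (s : AddSubgroup (Module.End ℝ B.V)) (hs : ∀ X ∈ s, RatEnd B X)
    (hq : ∀ X ∈ s, ∀ q : ℚ, (q : ℝ) • X ∈ s) (hc : ∀ X ∈ s, ∀ Y ∈ s, X * Y - Y * X ∈ s)
    (hJ : mulI B ∈ Submodule.span ℝ (s : Set (Module.End ℝ B.V)))
    (H : ∀ h : AddSubgroup (Module.End ℝ B.V), h ≤ s → (∀ X ∈ h, ∀ q : ℚ, (q : ℝ) • X ∈ h) →
      (∀ X ∈ h, ∀ Y ∈ h, X * Y - Y * X ∈ h) →
      mulI B ∈ Submodule.span ℝ (h : Set (Module.End ℝ B.V)) →
      mulI B ∈ Submodule.span ℝ {Z | ∃ X ∈ h, ∃ Y ∈ h, Z = X * Y - Y * X}) : SSH B := by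
  intro h hr hcom hJh
  have h1 : mulI B ∈ Submodule.span ℝ (qcl h : Set (Module.End ℝ B.V)) :=
    Submodule.span_mono (fun X hX => subset_qcl h X hX) hJh
  have h2 := flatE B (qcl h) s (qcl_rat hr) hs qcl_qsmul hq (mulI B) h1 hJ
  have h3 := H (qcl h ⊓ s) inf_le_right (fun X hX q => ⟨qcl_qsmul X hX.1 q, hq X hX.2 q⟩)
    (fun X hX Y hY => ⟨qcl_comm hcom X hX.1 Y hY.1, hc X hX.2 Y hY.2⟩) h2
  refine Submodule.span_le.2 ?_ h3
  rintro Z ⟨X, hX, Y, hY, rfl⟩
  exact qcl_comm_span X hX.1 Y hY.1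

namespace E

/-- A `ℚ`-subspace as an additive subgroup. -/
def IsQSp.grp {B : AV} {h : Set (Module.End ℝ B.V)} (H : IsQSp h) :
    AddSubgroup (Module.End ℝ B.V) where
  carrier := h
  zero_mem' := H.zero
  add_mem' := fun {X Y} hX hY => H.add X hX Y hY
  neg_mem' := fun {X} hX => by
    have h1 := H.smul (-1) X hX
    rw [Rat.cast_neg, Rat.cast_one, neg_smul, one_smul] at h1
    exact h1

/-- `S_Flat`. -/
theorem tFlat : S_Flat := by
  intro B h s J hh hs h1 h2 hJ hJ'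
  exact flatE B h1.grp h2.grp hh hs (fun X hX q => h1.smul q X hX) (fun X hX q => h2.smul q X hX)
    J hJ hJ'

/-- The `ℚ`-span of a Lie algebra is a `ℚ`-Lie algebra. -/
theorem qcl_isQLie {B : AV} {h : Set (Module.End ℝ B.V)}
    (hc : ∀ X ∈ h, ∀ Y ∈ h, X * Y - Y * X ∈ h) : IsQLie (qcl h : Set (Module.End ℝ B.V)) where
  zero := AddSubgroup.zero_mem _
  add := fun _ hX _ hY => AddSubgroup.add_mem _ hX hY
  smul := fun q X hX => qcl_qsmul X hX q
  br := qcl_comm hc

end E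

end HC
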