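import Pool.Agent.Lib.HC.L.E.Spec

/-!
# PROJECT HC+, PART 3: products of good abelian varieties are good (helper39)

`tG2 : S_G2`. Coordinates `ι ⊕ ι'`, `s = {(X, Y) | X ∈ s_A, Y ∈ s_B}`; `resA Z = fst ∘ Z ∘ inl` maps
a `ℚ`-Lie algebra `h ⊆ s` to a `ℚ`-Lie algebra in `s_A`.
-/

set_option autoImplicit false

open scoped ComplexConjugate

noncomputable section

namespace HC

namespace E

namespace G2

variable {A B T : AV}

/-- `Z` is the block diagonal endomorphism `(X, Y)`. -/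
def Blk (φ : T.V ≃ₗ[ℂ] A.V × B.V) (Z : Module.End ℝ T.V) (X : Module.End ℝ A.V)
    (Y : Module.End ℝ B.V) : Prop := ∀ v, φ (Z v) = (X (φ v).1, Y (φ v).2)

/-- `φ` is real linear. -/
theorem phi_smul (φ : T.V ≃ₗ[ℂ] A.V × B.V) (r : ℝ) (v : T.V) : φ (r • v) = r • φ v :=
  (φ.restrictScalars ℝ).map_smul r v

theorem phis_smul (φ : T.V ≃ₗ[ℂ] A.V × B.V) (r : ℝ) (v : A.V × B.V) :
    φ.symm (r • v) = r • φ.symm v :=
  (φ.restrictScalars ℝ).symm.map_smul r v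

/-- The block diagonal endomorphism. -/
def dg (φ : T.V ≃ₗ[ℂ] A.V × B.V) (X : Module.End ℝ A.V) (Y : Module.End ℝ B.V) :
    Module.End ℝ T.V where
  toFun v := φ.symm (X (φ v).1, Y (φ v).2)
  map_add' v w := by
    rw [map_add, Prod.fst_add, Prod.snd_add, map_add, map_add, ← Prod.mk_add_mk, map_add]
  map_smul' r v := by
    rw [phi_smul, Prod.smul_fst, Prod.smul_snd, map_smul, map_smul, ← Prod.smul_mk, phis_smul,
      RingHom.id_apply]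

theorem blk_dg (φ : T.V ≃ₗ[ℂ] A.V × B.V) (X : Module.End ℝ A.V) (Y : Module.End ℝ B.V) :
    Blk φ (dg φ X Y) X Y := fun _ => φ.apply_symm_apply _

theorem blk_unique (φ : T.V ≃ₗ[ℂ] A.V × B.V) {Z Z' : Module.End ℝ T.V} {X : Module.End ℝ A.V}
    {Y : Module.End ℝ B.V} (h : Blk φ Z X Y) (h' : Blk φ Z' X Y) : Z = Z' := by
  apply LinearMap.ext
  intro v
  apply φ.injective
  rw [h v, h' v]

theorem blk_zero (φ : T.V ≃ₗ[ℂ] A.V × B.V) : Blk φ 0 0 0 := by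
  intro v
  rw [LinearMap.zero_apply, map_zero]
  rfl

theorem blk_add (φ : T.V ≃ₗ[ℂ] A.V × B.V) {Z Z' : Module.End ℝ T.V} {X X' : Module.End ℝ A.V}
    {Y Y' : Module.End ℝ B.V} (h : Blk φ Z X Y) (h' : Blk φ Z' X' Y') :
    Blk φ (Z + Z') (X + X') (Y + Y') := by
  intro v
  rw [LinearMap.add_apply, map_add, h v, h' v]
  rfl

theorem blk_smul (φ : T.V ≃ₗ[ℂ] A.V × B.V) {Z : Module.End ℝ T.V} {X : Module.End ℝ A.V}
    {Y : Module.End ℝ B.V} (r : ℝ) (h : Blk φ Z X Y) : Blk φ (r • Z) (r • X) (r • Y) := by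
  intro v
  rw [LinearMap.smul_apply, phi_smul, h v]
  rfl

theorem blk_br (φ : T.V ≃ₗ[ℂ] A.V × B.V) {Z Z' : Module.End ℝ T.V} {X X' : Module.End ℝ A.V}
    {Y Y' : Module.End ℝ B.V} (h : Blk φ Z X Y) (h' : Blk φ Z' X' Y') :
    Blk φ (Z * Z' - Z' * Z) (X * X' - X' * X) (Y * Y' - Y' * Y) := by
  intro v
  rw [LinearMap.sub_apply, map_sub, Module.End.mul_apply, Module.End.mul_apply, h, h', h', h]
  rfl

theorem blk_mulI (φ : T.V ≃ₗ[ℂ] A.V × B.V) : Blk φ (mulI T) (mulI A) (mulI B) := by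
  intro v
  exact φ.map_smul Complex.I v

/-- The set of the block diagonal `(X, Y)`. -/
def sT (φ : T.V ≃ₗ[ℂ] A.V × B.V) (sA : Set (Module.End ℝ A.V)) (sB : Set (Module.End ℝ B.V)) :
    Set (Module.End ℝ T.V) := {Z | ∃ X ∈ sA, ∃ Y ∈ sB, Blk φ Z X Y}

/-- `X ↦ (X, 0)`. -/
def extA (φ : T.V ≃ₗ[ℂ] A.V × B.V) : Module.End ℝ A.V →ₗ[ℝ] Module.End ℝ T.V where
  toFun X := dg φ X 0
  map_add' X X' := by
    apply blk_unique φ (blk_dg φ _ _)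
    have h := blk_add φ (blk_dg φ X 0) (blk_dg φ X' (0 : Module.End ℝ B.V))
    rwa [add_zero] at h
  map_smul' r X := by
    apply blk_unique φ (blk_dg φ _ _)
    have h := blk_smul φ r (blk_dg φ X (0 : Module.End ℝ B.V))
    rwa [smul_zero] at h

/-- `Y ↦ (0, Y)`. -/
def extB (φ : T.V ≃ₗ[ℂ] A.V × B.V) : Module.End ℝ B.V →ₗ[ℝ] Module.End ℝ T.V where
  toFun Y := dg φ 0 Y
  map_add' Y Y' := by
    apply blk_unique φ (blk_dg φ _ _)
    have h := blk_add φ (blk_dg φ 0 Y) (blk_dg φ (0 : Module.End ℝ A.V) Y')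
    rwa [add_zero] at h
  map_smul' r Y := by
    apply blk_unique φ (blk_dg φ _ _)
    have h := blk_smul φ r (blk_dg φ (0 : Module.End ℝ A.V) Y)
    rwa [smul_zero] at h

/-- `mulI T` is in the real span. -/
theorem J_mem (φ : T.V ≃ₗ[ℂ] A.V × B.V) {sA : Set (Module.End ℝ A.V)}
    {sB : Set (Module.End ℝ B.V)} (hA : IsQSp sA) (hB : IsQSp sB)
    (hJA : mulI A ∈ Submodule.span ℝ sA) (hJB : mulI B ∈ Submodule.span ℝ sB) :
    mulI T ∈ Submodule.span ℝ (sT φ sA sB) := by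
  have h1 : mulI T = extA φ (mulI A) + extB φ (mulI B) := by
    apply blk_unique φ (blk_mulI φ)
    have h := blk_add φ (blk_dg φ (mulI A) (0 : Module.End ℝ B.V))
      (blk_dg φ (0 : Module.End ℝ A.V) (mulI B))
    rwa [add_zero, zero_add] at h
  have h2 : Submodule.map (extA φ) (Submodule.span ℝ sA) ≤ Submodule.span ℝ (sT φ sA sB) := by
    rw [Submodule.map_span, Submodule.span_le]
    rintro _ ⟨X, hX, rfl⟩
    exact Submodule.subset_span ⟨X, hX, 0, hB.zero, blk_dg φ X 0⟩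
  have h3 : Submodule.map (extB φ) (Submodule.span ℝ sB) ≤ Submodule.span ℝ (sT φ sA sB) := by
    rw [Submodule.map_span, Submodule.span_le]
    rintro _ ⟨Y, hY, rfl⟩
    exact Submodule.subset_span ⟨0, hA.zero, Y, hY, blk_dg φ 0 Y⟩
  rw [h1]
  exact Submodule.add_mem _ (h2 (Submodule.mem_map_of_mem hJA))
    (h3 (Submodule.mem_map_of_mem hJB))

/-- The block diagonal endomorphisms are a `ℚ`-Lie algebra. -/
theorem sT_lie (φ : T.V ≃ₗ[ℂ] A.V × B.V) {sA : Set (Module.End ℝ A.V)}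
    {sB : Set (Module.End ℝ B.V)} (hA : IsQLie sA) (hB : IsQLie sB) : IsQLie (sT φ sA sB) where
  zero := ⟨0, hA.zero, 0, hB.zero, blk_zero φ⟩
  add := by
    rintro Z ⟨X, hX, Y, hY, hZ⟩ Z' ⟨X', hX', Y', hY', hZ'⟩
    exact ⟨X + X', hA.add X hX X' hX', Y + Y', hB.add Y hY Y' hY', blk_add φ hZ hZ'⟩
  smul := by
    rintro q Z ⟨X, hX, Y, hY, hZ⟩
    exact ⟨(q : ℝ) • X, hA.smul q X hX, (q : ℝ) • Y, hB.smul q Y hY, blk_smul φ _ hZ⟩
  br := by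
    rintro Z ⟨X, hX, Y, hY, hZ⟩ Z' ⟨X', hX', Y', hY', hZ'⟩
    exact ⟨_, hA.br X hX X' hX', _, hB.br Y hY Y' hY', blk_br φ hZ hZ'⟩

/-- The first block of `Z`. -/
def resA (φ : T.V ≃ₗ[ℂ] A.V × B.V) : Module.End ℝ T.V →ₗ[ℝ] Module.End ℝ A.V where
  toFun Z :=
    { toFun := fun a => (φ (Z (φ.symm (a, 0)))).1
      map_add' := by
        intro a a'
        have h : ((a + a', 0) : A.V × B.V) = (a, 0) + (a', 0) := by
          rw [Prod.mk_add_mk, add_zero]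
        rw [h, map_add, map_add, map_add, Prod.fst_add]
      map_smul' := by
        intro r a
        have h : ((r • a, 0) : A.V × B.V) = r • ((a, 0) : A.V × B.V) := by
          rw [Prod.smul_mk, smul_zero]
        rw [h, phis_smul, map_smul, phi_smul, Prod.smul_fst, RingHom.id_apply] }
  map_add' Z Z' := by
    apply LinearMap.ext
    intro a
    change (φ (Z (φ.symm (a, 0)) + Z' (φ.symm (a, 0)))).1 = _
    rw [map_add]
    rfl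
  map_smul' r Z := by
    apply LinearMap.ext
    intro a
    change (φ (r • Z (φ.symm (a, 0)))).1 = _
    rw [phi_smul]
    rfl

/-- The second block of `Z`. -/
def resB (φ : T.V ≃ₗ[ℂ] A.V × B.V) : Module.End ℝ T.V →ₗ[ℝ] Module.End ℝ B.V where
  toFun Z :=
    { toFun := fun a => (φ (Z (φ.symm (0, a)))).2
      map_add' := by
        intro a a'
        have h : ((0, a + a') : A.V × B.V) = (0, a) + (0, a') := by
          rw [Prod.mk_add_mk, add_zero]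
        rw [h, map_add, map_add, map_add, Prod.snd_add]
      map_smul' := by
        intro r a
        have h : ((0, r • a) : A.V × B.V) = r • ((0, a) : A.V × B.V) := by
          rw [Prod.smul_mk, smul_zero]
        rw [h, phis_smul, map_smul, phi_smul, Prod.smul_snd, RingHom.id_apply] }
  map_add' Z Z' := by
    apply LinearMap.ext
    intro a
    change (φ (Z (φ.symm (0, a)) + Z' (φ.symm (0, a)))).2 = _
    rw [map_add]
    rfl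
  map_smul' r Z := by
    apply LinearMap.ext
    intro a
    change (φ (r • Z (φ.symm (0, a)))).2 = _
    rw [phi_smul]
    rfl

theorem resA_blk (φ : T.V ≃ₗ[ℂ] A.V × B.V) {Z : Module.End ℝ T.V} {X : Module.End ℝ A.V}
    {Y : Module.End ℝ B.V} (h : Blk φ Z X Y) : resA φ Z = X := by
  apply LinearMap.ext
  intro a
  change (φ (Z (φ.symm (a, 0)))).1 = X a
  rw [h, LinearEquiv.apply_symm_apply]

theorem resB_blk (φ : T.V ≃ₗ[ℂ] A.V × B.V) {Z : Module.End ℝ T.V} {X : Module.End ℝ A.V}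
    {Y : Module.End ℝ B.V} (h : Blk φ Z X Y) : resB φ Z = Y := by
  apply LinearMap.ext
  intro a
  change (φ (Z (φ.symm (0, a)))).2 = Y a
  rw [h, LinearEquiv.apply_symm_apply]

/-- The image of a `ℚ`-Lie algebra of block diagonal endomorphisms under `resA`. -/
theorem resA_lie (φ : T.V ≃ₗ[ℂ] A.V × B.V) {sA : Set (Module.End ℝ A.V)}
    {sB : Set (Module.End ℝ B.V)} {h : Set (Module.End ℝ T.V)} (hs : h ⊆ sT φ sA sB)
    (hh : IsQLie h) : IsQLie (resA φ '' h) where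
  zero := ⟨0, hh.zero, map_zero _⟩
  add := by
    rintro _ ⟨Z, hZ, rfl⟩ _ ⟨Z', hZ', rfl⟩
    exact ⟨Z + Z', hh.add Z hZ Z' hZ', map_add _ _ _⟩
  smul := by
    rintro q _ ⟨Z, hZ, rfl⟩
    exact ⟨(q : ℝ) • Z, hh.smul q Z hZ, map_smul _ _ _⟩
  br := by
    rintro _ ⟨Z, hZ, rfl⟩ _ ⟨Z', hZ', rfl⟩
    obtain ⟨X, _, Y, _, h1⟩ := hs hZ
    obtain ⟨X', _, Y', _, h2⟩ := hs hZ'
    refine ⟨_, hh.br Z hZ Z' hZ', ?_⟩
    rw [resA_blk φ h1, resA_blk φ h2, resA_blk φ (blk_br φ h1 h2)]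

theorem resB_lie (φ : T.V ≃ₗ[ℂ] A.V × B.V) {sA : Set (Module.End ℝ A.V)}
    {sB : Set (Module.End ℝ B.V)} {h : Set (Module.End ℝ T.V)} (hs : h ⊆ sT φ sA sB)
    (hh : IsQLie h) : IsQLie (resB φ '' h) where
  zero := ⟨0, hh.zero, map_zero _⟩
  add := by
    rintro _ ⟨Z, hZ, rfl⟩ _ ⟨Z', hZ', rfl⟩
    exact ⟨Z + Z', hh.add Z hZ Z' hZ', map_add _ _ _⟩
  smul := by
    rintro q _ ⟨Z, hZ, rfl⟩
    exact ⟨(q : ℝ) • Z, hh.smul q Z hZ, map_smul _ _ _⟩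
  br := by
    rintro _ ⟨Z, hZ, rfl⟩ _ ⟨Z', hZ', rfl⟩
    obtain ⟨X, _, Y, _, h1⟩ := hs hZ
    obtain ⟨X', _, Y', _, h2⟩ := hs hZ'
    refine ⟨_, hh.br Z hZ Z' hZ', ?_⟩
    rw [resB_blk φ h1, resB_blk φ h2, resB_blk φ (blk_br φ h1 h2)]

/-- The coordinates `ι ⊕ ι'`. -/
def psi (φ : T.V ≃ₗ[ℂ] A.V × B.V) {ι ι' : Type} (ψA : A.V ≃ₗ[ℂ] (ι → ℂ))
    (ψB : B.V ≃ₗ[ℂ] (ι' → ℂ)) : T.V ≃ₗ[ℂ] (ι ⊕ ι' → ℂ) :=
  φ.trans ((ψA.prodCongr ψB).trans (LinearEquiv.sumArrowLequivProdArrow ι ι' ℂ ℂ).symm)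

theorem psi_inl (φ : T.V ≃ₗ[ℂ] A.V × B.V) {ι ι' : Type} (ψA : A.V ≃ₗ[ℂ] (ι → ℂ))
    (ψB : B.V ≃ₗ[ℂ] (ι' → ℂ)) (v : T.V) (i : ι) :
    psi φ ψA ψB v (Sum.inl i) = ψA (φ v).1 i := rfl

theorem psi_inr (φ : T.V ≃ₗ[ℂ] A.V × B.V) {ι ι' : Type} (ψA : A.V ≃ₗ[ℂ] (ι → ℂ))
    (ψB : B.V ≃ₗ[ℂ] (ι' → ℂ)) (v : T.V) (i : ι') :
    psi φ ψA ψB v (Sum.inr i) = ψB (φ v).2 i := rfl

theorem op_blk (φ : T.V ≃ₗ[ℂ] A.V × B.V) {ι ι' : Type} (ψA : A.V ≃ₗ[ℂ] (ι → ℂ))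
    (ψB : B.V ≃ₗ[ℂ] (ι' → ℂ)) {Z : Module.End ℝ T.V} {X : Module.End ℝ A.V}
    {Y : Module.End ℝ B.V} {α : ι → ℝ} {β : ι → ℂ} {α' : ι' → ℝ} {β' : ι' → ℂ}
    (h : Blk φ Z X Y) (hX : IsOp ψA X α β) (hY : IsOp ψB Y α' β') :
    IsOp (psi φ ψA ψB) Z (Sum.elim α α') (Sum.elim β β') := by
  intro v i
  cases i with
  | inl i =>
    rw [psi_inl, psi_inl, h v]
    exact hX (φ v).1 i
  | inr i =>
    rw [psi_inr, psi_inr, h v]
    exact hY (φ v).2 i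

/-- Multiples of multiples. -/
theorem nsmul_mem_of (L : AV) {v : L.V} {N K : ℕ} (h : N • v ∈ L.L) (hK : N ∣ K) :
    K • v ∈ L.L := by
  obtain ⟨r, rfl⟩ := hK
  rw [mul_comm, mul_nsmul']
  exact L.L.smul_of_tower_mem r h

/-- The rational endomorphisms. -/
theorem sT_rat (hI : S_IsoInv) (P : Pd A B) (φ : T.V ≃ₗ[ℂ] A.V × B.V)
    (hφ : ∀ v ∈ T.L, ∃ N : ℕ, N ≠ 0 ∧ N • (φ v).1 ∈ A.L ∧ N • (φ v).2 ∈ B.L)
    {Z : Module.End ℝ T.V} {X : Module.End ℝ A.V} {Y : Module.End ℝ B.V}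
    (hX : RatEnd A X) (hY : RatEnd B Y) (h : Blk φ Z X Y) : RatEnd T Z := by
  have h0 : ∀ v ∈ P.T.L, ∃ N : ℕ, N ≠ 0 ∧ N • (φ.trans P.ψ.symm).symm v ∈ T.L := by
    apply hI T P.T (φ.trans P.ψ.symm)
    intro v hv
    obtain ⟨N, hN, h1, h2⟩ := hφ v hv
    refine ⟨N, hN, (P.lat _).2 ?_⟩
    rw [map_nsmul, LinearEquiv.trans_apply, LinearEquiv.apply_symm_apply]
    exact ⟨h1, h2⟩
  intro v hv
  obtain ⟨N, hN, h1, h2⟩ := hφ v hv
  obtain ⟨N1, hN1, h3⟩ := hX _ h1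
  obtain ⟨N2, hN2, h4⟩ := hY _ h2
  have h5 : (N * N1 * N2) • X (φ v).1 ∈ A.L := by
    rw [map_nsmul, smul_smul] at h3
    exact nsmul_mem_of A h3 ⟨N2, by ring⟩
  have h6 : (N * N1 * N2) • Y (φ v).2 ∈ B.L := by
    rw [map_nsmul, smul_smul] at h4
    exact nsmul_mem_of B h4 ⟨N1, by ring⟩
  have h7 : P.ψ.symm ((N * N1 * N2) • φ (Z v)) ∈ P.T.L := by
    rw [P.lat, LinearEquiv.apply_symm_apply, h v]
    exact ⟨h5, h6⟩
  obtain ⟨M, hM, h8⟩ := h0 _ h7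
  refine ⟨M * (N * N1 * N2), mul_ne_zero hM (mul_ne_zero (mul_ne_zero hN hN1) hN2), ?_⟩
  have h9 : (φ.trans P.ψ.symm).symm (P.ψ.symm ((N * N1 * N2) • φ (Z v))) =
      (N * N1 * N2) • Z v := by
    rw [LinearEquiv.symm_apply_eq, LinearEquiv.trans_apply, map_nsmul φ]
  rw [h9, smul_smul] at h8
  exact h8

end G2

open G2 in
/-- Products of good abelian varieties are good. -/
theorem tG2 : S_G2 := by
  rintro h0 hI A B T ⟨ι, _, ⟨gA⟩⟩ ⟨ι', _, ⟨gB⟩⟩ ⟨φ, hφ⟩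
  obtain ⟨P⟩ := h0 A B
  refine ⟨ι ⊕ ι', inferInstance, ⟨{
    ψ := psi φ gA.ψ gB.ψ
    s := sT φ gA.s gB.s
    lie := sT_lie φ gA.lie gB.lie
    rat := ?_
    op := ?_
    J := J_mem φ gA.lie.toIsQSp gB.lie.toIsQSp gA.J gB.J
    big := ?_ }⟩⟩
  · rintro Z ⟨X, hX, Y, hY, h⟩
    exact sT_rat hI P φ hφ (gA.rat X hX) (gB.rat Y hY) h
  · rintro Z ⟨X, hX, Y, hY, h⟩
    obtain ⟨α, β, h1⟩ := gA.op X hX
    obtain ⟨α', β', h2⟩ := gB.op Y hY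
    exact ⟨_, _, op_blk φ gA.ψ gB.ψ h h1 h2⟩
  · intro h hs hh hJ i
    cases i with
    | inl i =>
      have h1 : resA φ '' h ⊆ gA.s := by
        rintro _ ⟨Z, hZ, rfl⟩
        obtain ⟨X, hX, Y, _, h1⟩ := hs hZ
        rw [resA_blk φ h1]
        exact hX
      have h2 : mulI A ∈ Submodule.span ℝ (resA φ '' h) := by
        rw [← Submodule.map_span, ← resA_blk φ (blk_mulI φ)]
        exact Submodule.mem_map_of_mem hJ
      obtain ⟨_, ⟨Z, hZ, rfl⟩, α, β, h3, h4⟩ := gA.big _ h1 (resA_lie φ hs hh) h2 i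
      obtain ⟨X, hX, Y, hY, h5⟩ := hs hZ
      obtain ⟨α', β', h6⟩ := gB.op Y hY
      rw [resA_blk φ h5] at h3
      exact ⟨Z, hZ, _, _, op_blk φ gA.ψ gB.ψ h5 h3 h6, h4⟩
    | inr i =>
      have h1 : resB φ '' h ⊆ gB.s := by
        rintro _ ⟨Z, hZ, rfl⟩
        obtain ⟨X, _, Y, hY, h1⟩ := hs hZ
        rw [resB_blk φ h1]
        exact hY
      have h2 : mulI B ∈ Submodule.span ℝ (resB φ '' h) := by
        rw [← Submodule.map_span, ← resB_blk φ (blk_mulI φ)]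
        exact Submodule.mem_map_of_mem hJ
      obtain ⟨_, ⟨Z, hZ, rfl⟩, α, β, h3, h4⟩ := gB.big _ h1 (resB_lie φ hs hh) h2 i
      obtain ⟨X, hX, Y, hY, h5⟩ := hs hZ
      obtain ⟨α', β', h6⟩ := gA.op X hX
      rw [resB_blk φ h5] at h3
      exact ⟨Z, hZ, _, _, op_blk φ gA.ψ gB.ψ h5 h6 h3, h4⟩

end E

end HC
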