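import Pool.Agent.Lib.HC.L.E.Spec
import Pool.Agent.Lib.HC.L.B

/-!
# PROJECT HC+, part 3: `S_G3`, a good abelian variety has a perfect Hodge Lie algebra (helper38)
-/

set_option autoImplicit false

open scoped ComplexConjugate

noncomputable section

namespace HC
namespace E

namespace G3

variable {B : AV}

/-- The commutators of the elements of a span. -/
theorem br_mem_span {h : Set (Module.End ℝ B.V)} {X Y : Module.End ℝ B.V}
    (hX : X ∈ Submodule.span ℝ h) (hY : Y ∈ Submodule.span ℝ h) :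
    X * Y - Y * X ∈ Submodule.span ℝ {Z | ∃ X ∈ h, ∃ Y ∈ h, Z = X * Y - Y * X} := by
  set S := Submodule.span ℝ {Z : Module.End ℝ B.V | ∃ X ∈ h, ∃ Y ∈ h, Z = X * Y - Y * X}
  induction hX using Submodule.span_induction with
  | mem X hX =>
    induction hY using Submodule.span_induction with
    | mem Y hY => exact Submodule.subset_span ⟨X, hX, Y, hY, rfl⟩
    | zero => rw [mul_zero, zero_mul, sub_zero]; exact S.zero_mem
    | add Y Z _ _ h1 h2 =>
      have e : X * (Y + Z) - (Y + Z) * X = (X * Y - Y * X) + (X * Z - Z * X) := by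
        rw [mul_add, add_mul]; abel
      rw [e]
      exact S.add_mem h1 h2
    | smul a Y _ h1 =>
      have e : X * (a • Y) - (a • Y) * X = a • (X * Y - Y * X) := by
        rw [mul_smul_comm, smul_mul_assoc, smul_sub]
      rw [e]
      exact S.smul_mem a h1
  | zero => rw [mul_zero, zero_mul, sub_zero]; exact S.zero_mem
  | add X Z _ _ h1 h2 =>
    have e : (X + Z) * Y - Y * (X + Z) = (X * Y - Y * X) + (Z * Y - Y * Z) := by
      rw [mul_add, add_mul]; abel
    rw [e]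
    exact S.add_mem h1 h2
  | smul a X _ h1 =>
    have e : (a • X) * Y - Y * (a • X) = a • (X * Y - Y * X) := by
      rw [mul_smul_comm, smul_mul_assoc, smul_sub]
    rw [e]
    exact S.smul_mem a h1

/-- The rational span. -/
def Q (h : Set (Module.End ℝ B.V)) : Set (Module.End ℝ B.V) :=
  (AddSubgroup.closure {Z | ∃ Y ∈ h, ∃ q : ℚ, Z = (q : ℝ) • Y} : AddSubgroup _)

theorem sub_Q (h : Set (Module.End ℝ B.V)) : h ⊆ Q h := fun X hX =>
  AddSubgroup.subset_closure ⟨X, hX, 1, by rw [Rat.cast_one, one_smul]⟩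

theorem Q_smul {h : Set (Module.End ℝ B.V)} (q : ℚ) {X : Module.End ℝ B.V} (hX : X ∈ Q h) :
    (q : ℝ) • X ∈ Q h := by
  change (q : ℝ) • X ∈ AddSubgroup.closure _
  change X ∈ AddSubgroup.closure _ at hX
  induction hX using AddSubgroup.closure_induction with
  | mem X hX =>
    obtain ⟨Y, hY, r, rfl⟩ := hX
    exact AddSubgroup.subset_closure ⟨Y, hY, q * r, by rw [Rat.cast_mul, mul_smul]⟩
  | zero => rw [smul_zero]; exact AddSubgroup.zero_mem _
  | add X Y _ _ h1 h2 => rw [smul_add]; exact AddSubgroup.add_mem _ h1 h2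
  | neg X _ h1 => rw [smul_neg]; exact AddSubgroup.neg_mem _ h1

theorem Q_br {h : Set (Module.End ℝ B.V)} (hh : ∀ X ∈ h, ∀ Y ∈ h, X * Y - Y * X ∈ h)
    {X Y : Module.End ℝ B.V} (hX : X ∈ Q h) (hY : Y ∈ Q h) : X * Y - Y * X ∈ Q h := by
  change _ ∈ AddSubgroup.closure _
  change X ∈ AddSubgroup.closure _ at hX
  change Y ∈ AddSubgroup.closure _ at hY
  induction hX using AddSubgroup.closure_induction with
  | mem X hX =>
    obtain ⟨X, hX, q, rfl⟩ := hX
    induction hY using AddSubgroup.closure_induction with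
    | mem Y hY =>
      obtain ⟨Y, hY, r, rfl⟩ := hY
      refine AddSubgroup.subset_closure ⟨X * Y - Y * X, hh X hX Y hY, q * r, ?_⟩
      rw [Rat.cast_mul]
      simp only [mul_smul_comm, smul_mul_assoc]
      module
    | zero => rw [mul_zero, zero_mul, sub_zero]; exact AddSubgroup.zero_mem _
    | add Y Z _ _ h1 h2 =>
      have e : (q : ℝ) • X * (Y + Z) - (Y + Z) * (q : ℝ) • X =
          ((q : ℝ) • X * Y - Y * (q : ℝ) • X) + ((q : ℝ) • X * Z - Z * (q : ℝ) • X) := by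
        rw [mul_add, add_mul]; abel
      rw [e]
      exact AddSubgroup.add_mem _ h1 h2
    | neg Y _ h1 =>
      have e : (q : ℝ) • X * (-Y) - (-Y) * (q : ℝ) • X =
          -((q : ℝ) • X * Y - Y * (q : ℝ) • X) := by
        rw [mul_neg, neg_mul]; abel
      rw [e]
      exact AddSubgroup.neg_mem _ h1
  | zero => rw [mul_zero, zero_mul, sub_zero]; exact AddSubgroup.zero_mem _
  | add X Z _ _ h1 h2 =>
    have e : (X + Z) * Y - Y * (X + Z) = (X * Y - Y * X) + (Z * Y - Y * Z) := by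
      rw [mul_add, add_mul]; abel
    rw [e]
    exact AddSubgroup.add_mem _ h1 h2
  | neg X _ h1 =>
    have e : (-X) * Y - Y * (-X) = -(X * Y - Y * X) := by
      rw [mul_neg, neg_mul]; abel
    rw [e]
    exact AddSubgroup.neg_mem _ h1

theorem Q_lie {h : Set (Module.End ℝ B.V)} (hh : ∀ X ∈ h, ∀ Y ∈ h, X * Y - Y * X ∈ h) :
    IsQLie (Q h) where
  zero := AddSubgroup.zero_mem _
  add _ hX _ hY := AddSubgroup.add_mem _ hX hY
  smul q _ hX := Q_smul q hX
  br _ hX _ hY := Q_br hh hX hY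

theorem Q_rat {h : Set (Module.End ℝ B.V)} (hh : ∀ X ∈ h, RatEnd B X) {X : Module.End ℝ B.V}
    (hX : X ∈ Q h) : RatEnd B X := by
  change X ∈ AddSubgroup.closure _ at hX
  induction hX using AddSubgroup.closure_induction with
  | mem X hX =>
    obtain ⟨Y, hY, r, rfl⟩ := hX
    exact (hh Y hY).qsmul r
  | zero => exact RatEnd.zero
  | add X Y _ _ h1 h2 => exact h1.add h2
  | neg X _ h1 => exact h1.neg

theorem Q_span {h : Set (Module.End ℝ B.V)} {X : Module.End ℝ B.V} (hX : X ∈ Q h) :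
    X ∈ Submodule.span ℝ h := by
  change X ∈ AddSubgroup.closure _ at hX
  induction hX using AddSubgroup.closure_induction with
  | mem X hX =>
    obtain ⟨Y, hY, r, rfl⟩ := hX
    exact Submodule.smul_mem _ _ (Submodule.subset_span hY)
  | zero => exact Submodule.zero_mem _
  | add X Y _ _ h1 h2 => exact Submodule.add_mem _ h1 h2
  | neg X _ h1 => exact Submodule.neg_mem _ h1

/-- The pairs `(α, β)` of the elements of a real subspace. -/
def prs {ι : Type} (hOp : S_Op) (ψ : B.V ≃ₗ[ℂ] (ι → ℂ)) (S : Submodule ℝ (Module.End ℝ B.V)) :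
    Submodule ℝ ((ι → ℝ) × (ι → ℂ)) where
  carrier := {x | ∃ X ∈ S, IsOp ψ X x.1 x.2}
  zero_mem' := ⟨0, S.zero_mem, fun v i => by simp⟩
  add_mem' := by
    rintro x y ⟨X, hX, h1⟩ ⟨Y, hY, h2⟩
    exact ⟨X + Y, S.add_mem hX hY, (hOp.1 B ι ψ X Y _ _ _ _ h1 h2).1⟩
  smul_mem' := by
    rintro r x ⟨X, hX, h1⟩
    exact ⟨r • X, S.smul_mem r hX, (hOp.1 B ι ψ X X _ _ _ _ h1 h1).2.1 r⟩

end G3

open G3 in
/-- A good abelian variety has a perfect Hodge Lie algebra. -/
theorem tG3 : S_G3 := by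
  rintro hST hOp hFlat B ⟨ι, _, ⟨C⟩⟩ h hR hbr hJ
  have hQJ : mulI B ∈ Submodule.span ℝ (Q h) := Submodule.span_mono (sub_Q h) hJ
  have h0J : mulI B ∈ Submodule.span ℝ (Q h ∩ C.s) :=
    hFlat B (Q h) C.s (mulI B) (fun X hX => Q_rat hR hX) C.rat (Q_lie hbr).toIsQSp C.lie.toIsQSp
      hQJ C.J
  have hlie : IsQLie (Q h ∩ C.s) :=
    { zero := ⟨(Q_lie hbr).zero, C.lie.zero⟩
      add := fun X hX Y hY => ⟨(Q_lie hbr).add X hX.1 Y hY.1, C.lie.add X hX.2 Y hY.2⟩
      smul := fun q X hX => ⟨(Q_lie hbr).smul q X hX.1, C.lie.smul q X hX.2⟩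
      br := fun X hX Y hY => ⟨(Q_lie hbr).br X hX.1 Y hY.1, C.lie.br X hX.2 Y hY.2⟩ }
  have hbig := C.big _ Set.inter_subset_right hlie h0J
  let S : Submodule ℝ (Module.End ℝ B.V) := Submodule.span ℝ (Q h ∩ C.s)
  obtain ⟨κ, _, K, ω, hω, hg⟩ := hST ι (prs hOp C.ψ S) (by
      rintro x ⟨X, hX, h1⟩ y ⟨Y, hY, h2⟩
      refine ⟨X * Y - Y * X, ?_, (hOp.1 B ι C.ψ X Y _ _ _ _ h1 h2).2.2.1⟩
      refine Submodule.span_le.2 ?_ (br_mem_span hX hY)
      rintro Z ⟨X, hX, Y, hY, rfl⟩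
      exact Submodule.subset_span (hlie.br X hX Y hY))
    ⟨mulI B, h0J, hOp.2.1 B ι C.ψ⟩
    (fun i => by
      obtain ⟨X, hX, α, β, h1, h2⟩ := hbig i
      exact ⟨(α, β), ⟨X, Submodule.subset_span hX, h1⟩, h2⟩)
  obtain ⟨X, hX, h1⟩ := (hg (fun _ => 0, fun i => ω i)).2 ⟨fun _ => 0, fun _ => 1, by simp⟩
  obtain ⟨Y, hY, h2⟩ := (hg (fun _ => 0, fun i => Complex.I * ω i)).2
    ⟨fun _ => 0, fun _ => Complex.I, rfl⟩
  have h3 := (hOp.1 B ι C.ψ X Y _ _ _ _ h1 h2).2.2.1
  have h4 := (hOp.1 B ι C.ψ (mulI B) (mulI B) _ _ _ _ (hOp.2.1 B ι C.ψ)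
    (hOp.2.1 B ι C.ψ)).2.1 (-2)
  have h5 : X * Y - Y * X = (-2 : ℝ) • mulI B := by
    refine ((hOp.1 B ι C.ψ _ _ _ _ _ _ h3 h4).2.2.2).2 ⟨?_, ?_⟩
    · funext i
      have hn : ω i * conj (ω i) = 1 := by
        rw [Complex.mul_conj, Complex.normSq_eq_norm_sq, hω i]
        norm_num
      have e : ω i * conj (Complex.I * ω i) = -Complex.I := by
        rw [map_mul, Complex.conj_I]
        linear_combination (-Complex.I) * hn
      change 2 * (ω i * conj (Complex.I * ω i)).im = (-2 : ℝ) * 1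
      rw [e]
      simp
    · funext i
      simp [brk]
  have h6 : mulI B = (-(1 / 2) : ℝ) • (X * Y - Y * X) := by
    rw [h5, smul_smul]
    norm_num
  rw [h6]
  refine Submodule.smul_mem _ _ (br_mem_span ?_ ?_)
  · refine Submodule.span_le.2 ?_ hX
    exact fun Z hZ => Q_span hZ.1
  · refine Submodule.span_le.2 ?_ hY
    exact fun Z hZ => Q_span hZ.1

end E
end HC
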