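import Pool.Agent.Lib.HC.L.E.G4W

/-!
# PROJECT HC+, PART 3: G4 from the modules (helper12)

`tG4 : S_G4`: good abelian varieties satisfy the Hodge conjecture.
-/

set_option autoImplicit false

open scoped ComplexConjugate

noncomputable section

namespace HC

namespace E

variable {B : AV} {ι : Type}

/-- The pairs `(α, β)` of the elements of the real span of `h`. -/
def prs (hop : S_Op) (ψ : B.V ≃ₗ[ℂ] (ι → ℂ)) (h : Set (Module.End ℝ B.V)) :
    Submodule ℝ ((ι → ℝ) × (ι → ℂ)) where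
  carrier := {x | ∃ X ∈ Submodule.span ℝ h, IsOp ψ X x.1 x.2}
  zero_mem' := ⟨0, Submodule.zero_mem _, fun v i => by simp⟩
  add_mem' := by
    rintro x y ⟨X, hX, h1⟩ ⟨Y, hY, h2⟩
    exact ⟨X + Y, Submodule.add_mem _ hX hY, (hop.1 B ι ψ X Y _ _ _ _ h1 h2).1⟩
  smul_mem' := by
    rintro r x ⟨X, hX, h1⟩
    exact ⟨r • X, Submodule.smul_mem _ _ hX, (hop.1 B ι ψ X X _ _ _ _ h1 h1).2.1 r⟩

/-- The real span of a Lie algebra is closed under commutators. -/
theorem span_br {h : Set (Module.End ℝ B.V)} (hq : ∀ X ∈ h, ∀ Y ∈ h, X * Y - Y * X ∈ h)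
    {X Y : Module.End ℝ B.V} (hX : X ∈ Submodule.span ℝ h) (hY : Y ∈ Submodule.span ℝ h) :
    X * Y - Y * X ∈ Submodule.span ℝ h := by
  refine Submodule.span_induction (p := fun X _ => X * Y - Y * X ∈ Submodule.span ℝ h)
    (fun X hX => ?_) ?_ (fun X X' _ _ h1 h2 => ?_) (fun r X _ h1 => ?_) hX
  · refine Submodule.span_induction (p := fun Y _ => X * Y - Y * X ∈ Submodule.span ℝ h)
      (fun Y hY => Submodule.subset_span (hq X hX Y hY)) ?_ (fun Y Y' _ _ h1 h2 => ?_)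
      (fun r Y _ h1 => ?_) hY
    · rw [mul_zero, zero_mul, sub_zero]
      exact Submodule.zero_mem _
    · have h3 : X * (Y + Y') - (Y + Y') * X = (X * Y - Y * X) + (X * Y' - Y' * X) := by
        rw [mul_add, add_mul]
        abel
      rw [h3]
      exact Submodule.add_mem _ h1 h2
    · rw [mul_smul_comm, smul_mul_assoc, ← smul_sub]
      exact Submodule.smul_mem _ _ h1
  · rw [mul_zero, zero_mul, sub_zero]
    exact Submodule.zero_mem _
  · have h3 : (X + X') * Y - Y * (X + X') = (X * Y - Y * X) + (X' * Y - Y * X') := by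
      rw [mul_add, add_mul]
      abel
    rw [h3]
    exact Submodule.add_mem _ h1 h2
  · rw [mul_smul_comm, smul_mul_assoc, ← smul_sub]
    exact Submodule.smul_mem _ _ h1

theorem span_kil {m : ℕ} {c : Hlg B m} {h : Set (Module.End ℝ B.V)}
    (hq : ∀ X ∈ h, ∀ a, lieAct X c a = 0) {X : Module.End ℝ B.V}
    (hX : X ∈ Submodule.span ℝ h) : ∀ a, lieAct X c a = 0 := by
  refine Submodule.span_induction (p := fun X _ => ∀ a, lieAct X c a = 0) hq ?_
    (fun X X' _ _ h1 h2 a => ?_) (fun r X _ h1 a => ?_) hX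
  · intro a
    have h := lieAct_smul 0 (0 : Module.End ℝ B.V) c a
    rw [zero_smul, Complex.ofReal_zero, zero_mul] at h
    exact h
  · rw [lieAct_add, h1, h2, add_zero]
  · rw [lieAct_smul, h1, mul_zero]

theorem tG4 : S_G4 := by
  classical
  intro _ _ _ hST hop hrot hbs hcx hder hinv hcas hdec htop hdiv hdn
  rintro B ⟨ι, _, ⟨G⟩⟩ m c hc
  have hs : G.kil c ⊆ G.s := fun X hX => hX.1
  have hlie := G.kil_lie c
  have hJ := G.kil_J hc
  obtain ⟨κ, _, K, ω, hω, hg⟩ := hST ι (prs hop G.ψ (G.kil c))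
    (by
      rintro x ⟨X, hX, h1⟩ y ⟨Y, hY, h2⟩
      exact ⟨X * Y - Y * X, span_br hlie.br hX hY, (hop.1 B ι G.ψ X Y _ _ _ _ h1 h2).2.2.1⟩)
    ⟨mulI B, hJ, hop.2.1 B ι G.ψ⟩
    (fun i => by
      obtain ⟨X, hX, α, β, h1, h2⟩ := G.big (G.kil c) hs hlie hJ i
      exact ⟨(α, β), ⟨X, Submodule.subset_span hX, h1⟩, h2⟩)
  obtain ⟨ψ', hψ'⟩ := hrot B ι G.ψ ω hω
  obtain ⟨b, hb1, hb2⟩ := hbs B ι ψ'
  have hInv : Inv b K c := by
    refine hcx hder hop B ι κ ψ' K b hb1 hb2 m c fun X a r hX => ?_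
    obtain ⟨Y, hY, h1⟩ := (hg (fun i => a (K i), fun i => r (K i) * ω i)).2 ⟨a, r, rfl⟩
    have h2 : IsOp G.ψ X (fun i => a (K i)) (fun i => r (K i) * ω i) :=
      (hψ' X (fun i => a (K i)) fun i => r (K i)).2 hX
    have h3 : X = Y := (hop.1 B ι G.ψ X Y _ _ _ _ h2 h1).2.2.2.2 ⟨rfl, rfl⟩
    rw [h3]
    exact span_kil (fun X hX => hX.2) hY
  refine hdn hder hinv hcas hdec htop B ι κ K b ?_ m c hInv
  intro i j hij m c' hc'
  have h4 : cE b i j c' = cap (r := 2) ![b (i, false), b (j, false)]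
      ![b (j, true), b (i, true)] c' := by
    rw [cap, Fin.sum_univ_two]
    rfl
  rw [h4]
  refine hdiv B (G.kil c) (fun X hX => G.rat X hX.1) hJ 2 _ _ ?_ m c' hc'
  intro X hX u v
  obtain ⟨α, β, h5⟩ := G.op X hX.1
  obtain ⟨a, r, h6⟩ := (hg (α, β)).1 ⟨X, Submodule.subset_span hX, h5⟩
  have h7 : α = fun i => a (K i) := congrArg Prod.fst h6
  have h8 : β = fun i => r (K i) * ω i := congrArg Prod.snd h6
  rw [h7, h8] at h5
  have h9 : IsOp ψ' X (fun i => a (K i)) fun i => r (K i) := (hψ' X _ _).1 h5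
  rw [Fin.sum_univ_two]
  simp only [Matrix.cons_val_zero, Matrix.cons_val_one, hb1, hb2]
  rw [h9 u i, h9 v i, h9 u j, h9 v j]
  simp only [hij, map_add, map_mul, Complex.conj_I, Complex.conj_ofReal, Complex.conj_conj]
  ring

end E

end HC
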