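import Pool.Agent.Lib.HC.L.E.Spec

/-!
# PROJECT HC+, PART 3: wedge products with invariant 2-forms (helper15)
-/

set_option autoImplicit false
set_option linter.unusedSimpArgs false

noncomputable section

namespace HC

namespace E

/-- A coordinate composed with a block operator. -/
theorem coord_comp_blk {W : Type} [AddCommGroup W] [Module ℂ W] {ι κ : Type} [Fintype ι]
    [DecidableEq κ] (b : Module.Basis (ι × Bool) ℂ W) (K : ι → κ) (k : κ) (s t u : Bool) (j : ι) :
    b.coord (j, u) ∘ₗ (∑ i, if K i = k then rk (b (i, s)) (b.coord (i, t)) else 0) =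
      if K j = k ∧ s = u then b.coord (j, t) else 0 := by
  refine LinearMap.ext fun a => ?_
  rw [LinearMap.comp_apply, LinearMap.sum_apply, map_sum, Finset.sum_eq_single j]
  · by_cases hk : K j = k
    · rw [if_pos hk, rk_apply, map_smul, Module.Basis.coord_apply, Module.Basis.coord_apply,
        Module.Basis.repr_self]
      by_cases hs : s = u
      · rw [if_pos ⟨hk, hs⟩, hs, Finsupp.single_eq_same, smul_eq_mul, mul_one,
          Module.Basis.coord_apply]
      · rw [if_neg fun h => hs h.2, Finsupp.single_eq_of_ne, smul_zero, LinearMap.zero_apply]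
        intro h
        exact hs (Prod.mk.inj h).2.symm
    · rw [if_neg hk, if_neg fun h => hk h.1, LinearMap.zero_apply, map_zero,
        LinearMap.zero_apply]
  · intro i _ hi
    by_cases hk : K i = k
    · rw [if_pos hk, rk_apply, map_smul, Module.Basis.coord_apply, Module.Basis.coord_apply,
        Module.Basis.repr_self, Finsupp.single_eq_of_ne, smul_zero]
      intro h
      exact hi (Prod.mk.inj h).1.symm
    · rw [if_neg hk, LinearMap.zero_apply, map_zero]
  · intro h
    exact absurd (Finset.mem_univ j) h

/-- `wE` preserves invariants. -/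
theorem tInvW : S_InvW := by
  rintro ⟨-, hD, hA, -, hL, hM⟩ W _ _ ι κ _ _ b K i j hij m c hc k
  have zl : ∀ (m : ℕ) (d : W [⋀^Fin m]→ₗ[ℂ] ℂ), wdl (0 : Module.Dual ℂ W) d = 0 := by
    intro m d
    have h := (hM W m 0 0 0 d d).2.1
    rwa [zero_smul, zero_smul] at h
  have zr : ∀ (m : ℕ) (x : Module.Dual ℂ W), wdl x (0 : W [⋀^Fin m]→ₗ[ℂ] ℂ) = 0 := by
    intro m x
    have h := (hM W m x x 0 0 0).2.2.2
    rwa [zero_smul, zero_smul] at h
  have key : ∀ (X : Module.End ℂ W) (x y : Module.Dual ℂ W),
      der X (wdl x (wdl y c)) = wdl (x ∘ₗ X) (wdl y c) +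
        (wdl x (wdl (y ∘ₗ X) c) + wdl x (wdl y (der X c))) := by
    intro X x y
    rw [hD, hD, (hM W _ x x 0 _ _).2.2.1]
  have key2 : ∀ X : Module.End ℂ W, der X (wE b i j c) =
      (wdl (b.coord (i, false) ∘ₗ X) (wdl (b.coord (j, true)) c) +
        (wdl (b.coord (i, false)) (wdl (b.coord (j, true) ∘ₗ X) c) +
          wdl (b.coord (i, false)) (wdl (b.coord (j, true)) (der X c)))) +
      (wdl (b.coord (j, false) ∘ₗ X) (wdl (b.coord (i, true)) c) +
        (wdl (b.coord (j, false)) (wdl (b.coord (i, true) ∘ₗ X) c) +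
          wdl (b.coord (j, false)) (wdl (b.coord (i, true)) (der X c)))) := by
    intro X
    rw [wE, (hL W _ X X 0 _ _).2.2.1, key, key]
  obtain ⟨h1, h2, h3⟩ := hc k
  have eT : ∀ (P : Prop) [Decidable P], (P ∧ true = false) = False := fun P _ => by simp
  have eF : ∀ (P : Prop) [Decidable P], (P ∧ false = true) = False := fun P _ => by simp
  by_cases hk : K j = k
  · have hk' : K i = k := hij.trans hk
    refine ⟨?_, ?_, ?_⟩
    · rw [key2, h1, eK]
      simp only [coord_comp_blk, hk, hk', eT, eF, true_and, if_true, if_false, zl, zr, zero_add,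
        add_zero]
      rw [hA, neg_add_cancel]
    · rw [key2, h2, fK]
      simp only [coord_comp_blk, hk, hk', eT, eF, true_and, if_true, if_false, zl, zr, zero_add,
        add_zero]
      rw [hA, neg_add_cancel]
    · rw [key2, key2, h3]
      unfold nA nB
      simp only [coord_comp_blk, hk, hk', eT, eF, true_and, if_true, if_false, zl, zr, zero_add,
        add_zero]
  · have hk' : ¬ K i = k := fun h => hk (hij.symm.trans h)
    refine ⟨?_, ?_, ?_⟩
    · rw [key2, h1, eK]
      simp only [coord_comp_blk, hk, hk', false_and, if_false, zl, zr, zero_add, add_zero]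
    · rw [key2, h2, fK]
      simp only [coord_comp_blk, hk, hk', false_and, if_false, zl, zr, zero_add, add_zero]
    · rw [key2, key2, h3]
      unfold nA nB
      simp only [coord_comp_blk, hk, hk', false_and, if_false, zl, zr, zero_add, add_zero]

end E

end HC
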