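import Pool.Agent.Lib.HC.L.E.Spec
import Pool.Agent.Lib.HC.L.Lf

/-!
# PROJECT HC+, PART 3: the inverse of an isogeny (helper39)
-/

set_option autoImplicit false

noncomputable section

namespace HC

namespace E

/-- The inverse of an isogeny. -/
theorem tIsoInv : S_IsoInv := by
  intro T T' ψ hψ v hv
  obtain ⟨N, hN0, hN⟩ := LfAux.unif ψ.toLinearMap hψ
  have hNC : (N : ℂ) ≠ 0 := Nat.cast_ne_zero.2 hN0
  let f : T.V ≃ₗ[ℂ] T'.V := ψ.trans (LinearEquiv.smulOfNeZero ℂ T'.V (N : ℂ) hNC)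
  have hfa : ∀ v, f v = (N : ℂ) • ψ v := fun v => rfl
  have hf : ∀ v ∈ T.L, f v ∈ T'.L := by
    intro v hv
    rw [hfa, Nat.cast_smul_eq_nsmul]
    exact hN v hv
  obtain ⟨M, hM0, hM⟩ := LfAux.inv f hf
  obtain ⟨w, hw, hfw⟩ := hM v hv
  refine ⟨M, hM0, ?_⟩
  have h1 : M • ψ.symm v = N • w := by
    rw [← map_nsmul, ← hfw, hfa, Nat.cast_smul_eq_nsmul, map_nsmul, LinearEquiv.symm_apply_apply]
  rw [h1]
  exact T.L.smul_of_tower_mem N hw

end E

end HC
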