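import Pool.Agent.Lib.HC.L.E.Spec

/-!
# PROJECT HC+, PART 3: coordinatewise operators (`S_Op`)
-/

set_option autoImplicit false

open scoped ComplexConjugate

noncomputable section

namespace HC

namespace E

namespace OpAux

variable {B : AV} {ι : Type} {ψ : B.V ≃ₗ[ℂ] (ι → ℂ)}

theorem op_ext {X Y : Module.End ℝ B.V} {α : ι → ℝ} {β : ι → ℂ} (hX : IsOp ψ X α β)
    (hY : IsOp ψ Y α β) : X = Y := by
  refine LinearMap.ext fun v => ψ.injective (funext fun i => ?_)
  rw [hX v i, hY v i]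

theorem op_uniq {X : Module.End ℝ B.V} {α α' : ι → ℝ} {β β' : ι → ℂ} (hX : IsOp ψ X α β)
    (hX' : IsOp ψ X α' β') : α = α' ∧ β = β' := by
  have key : ∀ (z : ℂ) (i : ι), α i * Complex.I * z + β i * conj z =
      α' i * Complex.I * z + β' i * conj z := by
    intro z i
    have h1 := hX (ψ.symm fun _ => z) i
    have h2 := hX' (ψ.symm fun _ => z) i
    rw [LinearEquiv.apply_symm_apply] at h1 h2
    rw [← h1, ← h2]
  have h1 : ∀ i, (α i : ℂ) * Complex.I = α' i * Complex.I ∧ β i = β' i := by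
    intro i
    have e1 := key 1 i
    have e2 := key Complex.I i
    rw [map_one, mul_one, mul_one, mul_one, mul_one] at e1
    rw [Complex.conj_I, mul_assoc, mul_assoc, Complex.I_mul_I] at e2
    have hI : Complex.I * Complex.I = -1 := Complex.I_mul_I
    constructor
    · linear_combination (1 / 2 : ℂ) * e1 - (Complex.I / 2) * e2 -
        ((β i - β' i) / 2) * hI
    · linear_combination (1 / 2 : ℂ) * e1 + (Complex.I / 2) * e2 +
        ((β i - β' i) / 2) * hI
  refine ⟨funext fun i => ?_, funext fun i => (h1 i).2⟩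
  exact_mod_cast mul_right_cancel₀ Complex.I_ne_zero (h1 i).1

theorem op_add {X Y : Module.End ℝ B.V} {α α' : ι → ℝ} {β β' : ι → ℂ} (hX : IsOp ψ X α β)
    (hY : IsOp ψ Y α' β') : IsOp ψ (X + Y) (α + α') (β + β') := by
  intro v i
  rw [LinearMap.add_apply, map_add, Pi.add_apply, hX v i, hY v i, Pi.add_apply, Pi.add_apply,
    Complex.ofReal_add]
  ring

theorem op_smul {X : Module.End ℝ B.V} {α : ι → ℝ} {β : ι → ℂ} (hX : IsOp ψ X α β) (r : ℝ) :
    IsOp ψ (r • X) (r • α) (r • β) := by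
  intro v i
  have h1 : ψ ((r • X) v) i = (r : ℂ) * ψ (X v) i := by
    rw [LinearMap.smul_apply, ← Complex.coe_smul r (X v), map_smul, Pi.smul_apply, smul_eq_mul]
  rw [h1, hX v i, Pi.smul_apply, Pi.smul_apply, smul_eq_mul, Complex.ofReal_mul,
    Complex.real_smul]
  ring

theorem op_br {X Y : Module.End ℝ B.V} {α α' : ι → ℝ} {β β' : ι → ℂ} (hX : IsOp ψ X α β)
    (hY : IsOp ψ Y α' β') :
    IsOp ψ (X * Y - Y * X) (brk (α, β) (α', β')).1 (brk (α, β) (α', β')).2 := by
  intro v i
  have h1 : (X * Y - Y * X) v = X (Y v) - Y (X v) := rfl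
  have h2 : β i * conj (β' i) - conj (β i) * β' i =
      2 * ((β i * conj (β' i)).im : ℂ) * Complex.I := by
    have h3 : conj (β i) * β' i = conj (β i * conj (β' i)) := by
      rw [map_mul, Complex.conj_conj]
    rw [h3, Complex.sub_conj]
    push_cast
    ring
  have h4 : (((brk (α, β) (α', β')).1 i : ℝ) : ℂ) = 2 * ((β i * conj (β' i)).im : ℂ) := by
    simp only [brk]
    push_cast
    ring
  have h5 : (brk (α, β) (α', β')).2 i =
    2 * Complex.I * (α i * β' i - α' i * β i) := rfl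
  rw [h1, map_sub, Pi.sub_apply, hX (Y v) i, hY (X v) i, hX v i, hY v i, h4, h5]
  simp only [map_add, map_mul, Complex.conj_ofReal, Complex.conj_I, Complex.conj_conj]
  linear_combination (ψ v i) * h2

theorem op_mulI : IsOp ψ (mulI B) (fun _ => 1) (fun _ => 0) := by
  intro v i
  have h1 : ψ (mulI B v) i = Complex.I * ψ v i := by
    have h2 : mulI B v = Complex.I • v := rfl
    rw [h2, map_smul, Pi.smul_apply, smul_eq_mul]
  rw [h1]
  simp

theorem op_exists (ψ : B.V ≃ₗ[ℂ] (ι → ℂ)) (α : ι → ℝ) (β : ι → ℂ) : ∃ X, IsOp ψ X α β := by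
  let Z : (ι → ℂ) →ₗ[ℝ] (ι → ℂ) :=
    { toFun := fun z i => α i * Complex.I * z i + β i * conj (z i)
      map_add' := fun z w => by
        funext i
        simp only [Pi.add_apply, map_add]
        ring
      map_smul' := fun r z => by
        funext i
        simp only [Pi.smul_apply, Complex.real_smul, map_mul, Complex.conj_ofReal,
          RingHom.id_apply]
        ring }
  refine ⟨(ψ.symm.toLinearMap.restrictScalars ℝ) ∘ₗ Z ∘ₗ (ψ.toLinearMap.restrictScalars ℝ), ?_⟩
  intro v i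
  have h1 : ((ψ.symm.toLinearMap.restrictScalars ℝ) ∘ₗ Z ∘ₗ (ψ.toLinearMap.restrictScalars ℝ)) v =
      ψ.symm (Z (ψ v)) := rfl
  rw [h1, LinearEquiv.apply_symm_apply]
  rfl

end OpAux

open OpAux in
/-- Operators: sums, multiples, products; uniqueness; `mulI = (1, 0)`. -/
theorem tOp : S_Op := by
  refine ⟨fun B ι ψ X Y α α' β β' hX hY => ⟨op_add hX hY, op_smul hX, op_br hX hY, ?_⟩,
    fun B ι ψ => op_mulI, fun B ι ψ α β => op_exists ψ α β⟩
  constructor
  · rintro rfl
    exact op_uniq hX hY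
  · rintro ⟨rfl, rfl⟩
    exact op_ext hX hY

end E

end HC
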