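import Pool.Agent.Lib.HC.L.E.Spec

/-!
# PROJECT HC+, PART 3: the abelian variety 0, regrouping (helper6)
-/

set_option autoImplicit false

noncomputable section

namespace HC
namespace E

/-- The abelian variety of dimension 0. -/
def nul : AV where
  V := PUnit
  L := ⊤
  latt := ⟨Subsingleton.elim _ _⟩
  pol := ⟨0, fun _ _ _ _ => ⟨0, by simp⟩, fun _ _ => by simp, fun _ _ => by simp,
    fun v hv => absurd (Subsingleton.elim v 0) hv⟩

instance : Subsingleton nul.V := inferInstanceAs (Subsingleton PUnit)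

instance : Unique nul.V := inferInstanceAs (Unique PUnit)

/-- The coordinates of 0. -/
def nulψ : nul.V ≃ₗ[ℂ] (Empty → ℂ) where
  toFun _ := 0
  invFun _ := 0
  map_add' _ _ := Subsingleton.elim _ _
  map_smul' _ _ := Subsingleton.elim _ _
  left_inv _ := Subsingleton.elim _ _
  right_inv _ := Subsingleton.elim _ _

theorem nul_good : Good nul :=
  ⟨Empty, inferInstance, ⟨{
    ψ := nulψ
    s := Set.univ
    lie := ⟨⟨trivial, fun _ _ _ _ => trivial, fun _ _ _ => trivial⟩, fun _ _ _ _ => trivial⟩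
    rat := fun X _ v _ => ⟨1, one_ne_zero, trivial⟩
    op := fun X _ => ⟨0, 0, fun _ i => i.elim⟩
    J := Submodule.subset_span trivial
    big := fun _ _ _ _ i => i.elim }⟩⟩

theorem tNul : S_Nul := by
  refine ⟨nul, ?_, nul_good, fun T => ⟨(LinearEquiv.prodUnique : (T.V × nul.V) ≃ₗ[ℂ] T.V).symm,
    fun v hv => ⟨1, one_ne_zero, ?_, trivial⟩⟩⟩
  · exact Module.finrank_zero_of_subsingleton
  · rw [one_smul]
    exact hv

/-- `T` is isogenous to `(A × G) × B_1 × … × B_n`. -/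
def IsProdG (T A G : AV) {n : ℕ} (B : Fin n → AV) : Prop :=
  ∃ ψ : T.V ≃ₗ[ℂ] (A.V × G.V) × (∀ i, (B i).V), ∀ v ∈ T.L, ∃ N : ℕ, N ≠ 0 ∧
    N • (ψ v).1.1 ∈ A.L ∧ N • (ψ v).1.2 ∈ G.L ∧ ∀ i, N • (ψ v).2 i ∈ (B i).L

/-- Rearrangement. -/
def rearr (X Y Z W : Type) [AddCommGroup X] [AddCommGroup Y] [AddCommGroup Z] [AddCommGroup W]
    [Module ℂ X] [Module ℂ Y] [Module ℂ Z] [Module ℂ W] :
    ((X × Y) × (Z × W)) ≃ₗ[ℂ] (((X × Z) × Y) × W) where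
  toFun p := (((p.1.1, p.2.1), p.1.2), p.2.2)
  invFun p := ((p.1.1.1, p.1.2), (p.1.1.2, p.2))
  map_add' _ _ := rfl
  map_smul' _ _ := rfl
  left_inv _ := rfl
  right_inv _ := rfl

/-- Rearrangement. -/
def rearr' (X Y Z W : Type) [AddCommGroup X] [AddCommGroup Y] [AddCommGroup Z] [AddCommGroup W]
    [Module ℂ X] [Module ℂ Y] [Module ℂ Z] [Module ℂ W] :
    ((X × Y) × (Z × W)) ≃ₗ[ℂ] ((X × (Y × Z)) × W) where
  toFun p := ((p.1.1, (p.1.2, p.2.1)), p.2.2)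
  invFun p := ((p.1.1, p.1.2.1), (p.1.2.2, p.2))
  map_add' _ _ := rfl
  map_smul' _ _ := rfl
  left_inv _ := rfl
  right_inv _ := rfl

theorem Pd.isProd {A B : AV} (P : Pd A B) : IsProd P.T A B :=
  ⟨P.ψ, fun v hv => ⟨1, one_ne_zero, by rw [one_smul]; exact ((P.lat v).1 hv).1, by
    rw [one_smul]; exact ((P.lat v).1 hv).2⟩⟩

theorem reg (h0 : S_L0) (hP : S_CMP) (hG : ∀ A B T : AV, Good A → Good B → IsProd T A B → Good T)
    (h1 : ∀ B : AV, IsRM B → ¬ IsCM B → Good B) : ∀ (n : ℕ) (A G T : AV) (B : Fin n → AV),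
    IsCM A → Good G → (∀ i, IsRM (B i)) → IsProdG T A G B →
      ∃ A' B' : AV, IsCM A' ∧ Good B' ∧ IsProd T A' B' := by
  intro n
  induction n with
  | zero =>
    intro A G T B hA hg _ ⟨ψ, hψ⟩
    refine ⟨A, G, hA, hg, ψ ≪≫ₗ LinearEquiv.prodUnique, fun v hv => ?_⟩
    obtain ⟨N, hN, h2, h3, _⟩ := hψ v hv
    exact ⟨N, hN, h2, h3⟩
  | succ n ih =>
    intro A G T B hA hg hB ⟨ψ, hψ⟩
    let c : ((B 0).V × (∀ i : Fin n, (B i.succ).V)) ≃ₗ[ℂ] (∀ i : Fin (n + 1), (B i).V) :=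
      Fin.consLinearEquiv ℂ fun i => (B i).V
    have hc1 : ∀ w, (c.symm w).1 = w 0 := fun w => rfl
    have hc2 : ∀ w i, (c.symm w).2 i = w i.succ := fun w i => rfl
    by_cases hcm : IsCM (B 0)
    · obtain ⟨P⟩ := h0 A (B 0)
      refine ih P.T G T (fun i => B i.succ) (hP A (B 0) P.T hA hcm (Pd.isProd P)) hg
        (fun i => hB i.succ) ⟨ψ ≪≫ₗ (LinearEquiv.prodCongr (LinearEquiv.refl ℂ _) c.symm) ≪≫ₗ
          rearr _ _ _ _ ≪≫ₗ (LinearEquiv.prodCongr (LinearEquiv.prodCongr P.ψ.symm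
            (LinearEquiv.refl ℂ _)) (LinearEquiv.refl ℂ _)), fun v hv => ?_⟩
      obtain ⟨N, hN, h2, h3, h4⟩ := hψ v hv
      refine ⟨N, hN, ?_, h3, fun i => h4 i.succ⟩
      show N • P.ψ.symm ((ψ v).1.1, (ψ v).2 0) ∈ P.T.L
      rw [P.lat, map_nsmul, LinearEquiv.apply_symm_apply]
      exact ⟨h2, h4 0⟩
    · obtain ⟨P⟩ := h0 G (B 0)
      refine ih A P.T T (fun i => B i.succ) hA
        (hG G (B 0) P.T hg (h1 (B 0) (hB 0) hcm) (Pd.isProd P))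
        (fun i => hB i.succ) ⟨ψ ≪≫ₗ (LinearEquiv.prodCongr (LinearEquiv.refl ℂ _) c.symm) ≪≫ₗ
          rearr' _ _ _ _ ≪≫ₗ (LinearEquiv.prodCongr (LinearEquiv.prodCongr (LinearEquiv.refl ℂ _)
            P.ψ.symm) (LinearEquiv.refl ℂ _)), fun v hv => ?_⟩
      obtain ⟨N, hN, h2, h3, h4⟩ := hψ v hv
      refine ⟨N, hN, h2, ?_, fun i => h4 i.succ⟩
      show N • P.ψ.symm ((ψ v).1.2, (ψ v).2 0) ∈ P.T.L
      rw [P.lat, map_nsmul, LinearEquiv.apply_symm_apply]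
      exact ⟨h3, h4 0⟩

theorem tReg : S_Reg := by
  intro h0 hP hG hN h1 A T n B hA hB ⟨ψ, hψ⟩
  obtain ⟨Z, _, hZ, hTZ⟩ := hN
  obtain ⟨θ, hθ⟩ := hTZ A
  refine reg h0 hP hG h1 n A Z T B hA hZ hB
    ⟨ψ ≪≫ₗ LinearEquiv.prodCongr θ (LinearEquiv.refl ℂ _), fun v hv => ?_⟩
  obtain ⟨N, hN, h2, h3⟩ := hψ v hv
  obtain ⟨M, hM, h4, h5⟩ := hθ _ h2
  refine ⟨M * N, Nat.mul_ne_zero hM hN, ?_, ?_, fun i => ?_⟩
  · have e : (M * N) • (θ (ψ v).1).1 = M • (θ (N • (ψ v).1)).1 := by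
      rw [map_nsmul, Prod.smul_fst, mul_smul]
    show (M * N) • (θ (ψ v).1).1 ∈ A.L
    rw [e]
    exact h4
  · have e : (M * N) • (θ (ψ v).1).2 = M • (θ (N • (ψ v).1)).2 := by
      rw [map_nsmul, Prod.smul_snd, mul_smul]
    show (M * N) • (θ (ψ v).1).2 ∈ Z.L
    rw [e]
    exact h5
  · show (M * N) • (ψ v).2 i ∈ (B i).L
    rw [mul_smul]
    exact (B i).L.smul_of_tower_mem M (h3 i)

end E
end HC
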