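import Pool.Agent.Lib.HC.L.E.Spec

/-!
# PROJECT HC+, PART 3: rotation of the coordinates (`S_Rot`)
-/

set_option autoImplicit false

open scoped ComplexConjugate

noncomputable section

namespace HC

namespace E

namespace RotAux

/-- A square root of `ω̄`, `|ω| = 1`. -/
theorem exists_mu {ω : ℂ} (h : ‖ω‖ = 1) : ∃ μ : ℂ, μ ≠ 0 ∧ ω * μ = conj μ := by
  obtain ⟨μ, hμ⟩ := IsAlgClosed.exists_pow_nat_eq (conj ω) (n := 2) (by norm_num)
  have hn : ‖μ‖ = 1 := by
    have h1 : ‖μ‖ ^ 2 = 1 := by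
      rw [← norm_pow, hμ, RCLike.norm_conj, h]
    nlinarith [norm_nonneg μ, sq_nonneg (‖μ‖ - 1)]
  have h0 : μ ≠ 0 := by
    intro h2
    rw [h2, norm_zero] at hn
    exact zero_ne_one hn
  refine ⟨μ, h0, mul_right_cancel₀ h0 ?_⟩
  have h1 : ω * conj ω = 1 := by
    rw [Complex.mul_conj, Complex.normSq_eq_norm_sq, h]
    norm_num
  have h2 : conj μ * μ = 1 := by
    rw [mul_comm, Complex.mul_conj, Complex.normSq_eq_norm_sq, hn]
    norm_num
  rw [h2, mul_assoc, ← pow_two, hμ, h1]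

end RotAux

open RotAux in
/-- Rotation of the coordinates. -/
theorem tRot : S_Rot := by
  intro B ι ψ ω hω
  choose μ h0 hμ using fun i => exists_mu (hω i)
  let e : (ι → ℂ) ≃ₗ[ℂ] (ι → ℂ) :=
    LinearEquiv.piCongrRight fun i => LinearEquiv.smulOfNeZero ℂ ℂ (μ i) (h0 i)
  refine ⟨ψ.trans e, fun X α β => ?_⟩
  have he : ∀ v i, (ψ.trans e) v i = μ i * ψ v i := fun v i => rfl
  have key : ∀ v i, ((ψ.trans e) (X v) i = α i * Complex.I * (ψ.trans e) v i +
      β i * conj ((ψ.trans e) v i)) ↔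
      ψ (X v) i = α i * Complex.I * ψ v i + β i * ω i * conj (ψ v i) := by
    intro v i
    rw [he, he, map_mul, ← hμ i]
    constructor
    · intro h
      refine mul_left_cancel₀ (h0 i) ?_
      rw [h]
      ring
    · intro h
      rw [h]
      ring
  exact ⟨fun h v i => (key v i).2 (h v i), fun h v i => (key v i).1 (h v i)⟩

end E

end HC
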