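import Pool.Agent.Lib.HC.L.E.Spec

/-!
# PROJECT HC+, part 3: the structure theorem (helper18)
-/

set_option autoImplicit false

open scoped ComplexConjugate

noncomputable section

namespace HC

namespace E

theorem tST : S_ST := by
  classical
  intro ι _ g hbr h1 hne
  -- brackets
  have hz : ∀ (α : ι → ℝ) (β : ι → ℂ), (α, β) ∈ g → ((fun _ => 0, fun i => 2 * Complex.I * β i) : (ι → ℝ) × (ι → ℂ)) ∈ g := by
    intro α β h
    have h2 := hbr _ h1 _ h
    have h3 : brk ((fun _ => 1, fun _ => 0) : (ι → ℝ) × (ι → ℂ)) (α, β) = (fun _ => 0, fun i => 2 * Complex.I * β i) := by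
      unfold brk
      refine Prod.ext ?_ ?_
      · funext i
        simp
      · funext i
        simp
    rwa [h3] at h2
  have hI0 : ∀ (α : ι → ℝ) (β : ι → ℂ), (α, β) ∈ g → ((fun _ => 0, fun i => Complex.I * β i) : (ι → ℝ) × (ι → ℂ)) ∈ g := by
    intro α β h
    have h2 := g.smul_mem (1 / 2 : ℝ) (hz α β h)
    have h3 : (1 / 2 : ℝ) • ((fun _ => 0, fun i => 2 * Complex.I * β i) : (ι → ℝ) × (ι → ℂ)) =
        (fun _ => 0, fun i => Complex.I * β i) := by
      refine Prod.ext ?_ ?_
      · funext i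
        simp
      · funext i
        show (1 / 2 : ℝ) • (2 * Complex.I * β i) = Complex.I * β i
        rw [Complex.real_smul]
        push_cast
        ring
    rwa [h3] at h2
  have hn : ∀ (α : ι → ℝ) (β : ι → ℂ), (α, β) ∈ g → ((fun _ => 0, β) : (ι → ℝ) × (ι → ℂ)) ∈ g := by
    intro α β h
    have h2 := g.neg_mem (hI0 _ _ (hI0 α β h))
    have h3 : -((fun _ => 0, fun i => Complex.I * (Complex.I * β i)) : (ι → ℝ) × (ι → ℂ)) = (fun _ => 0, β) := by
      refine Prod.ext ?_ ?_
      · funext i
        simp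
      · funext i
        show -(Complex.I * (Complex.I * β i)) = β i
        rw [← mul_assoc, Complex.I_mul_I]
        ring
    rwa [h3] at h2
  have ha : ∀ (α : ι → ℝ) (β : ι → ℂ), (α, β) ∈ g → ((α, fun _ => 0) : (ι → ℝ) × (ι → ℂ)) ∈ g := by
    intro α β h
    have h2 := g.sub_mem h (hn α β h)
    have h3 : ((α, β) : (ι → ℝ) × (ι → ℂ)) - (fun _ => 0, β) = (α, fun _ => 0) := by
      refine Prod.ext ?_ ?_
      · funext i
        show α i - 0 = α i
        ring
      · funext i
        show β i - β i = 0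
        ring
    rwa [h3] at h2
  -- `g₁` as a complex subspace
  let g1 : Submodule ℂ (ι → ℂ) :=
    { carrier := {β | ((fun _ => 0, β) : (ι → ℝ) × (ι → ℂ)) ∈ g}
      zero_mem' := g.zero_mem
      add_mem' := by
        intro β β' hβ hβ'
        have h2 := g.add_mem hβ hβ'
        have h3 : ((fun _ => 0, β) : (ι → ℝ) × (ι → ℂ)) + (fun _ => 0, β') = (fun _ => 0, β + β') := by
          refine Prod.ext ?_ rfl
          funext i
          show (0 : ℝ) + 0 = 0
          ring
        rwa [h3] at h2
      smul_mem' := by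
        intro c β hβ
        have h2 := g.add_mem (g.smul_mem c.re hβ) (g.smul_mem c.im (hI0 _ _ hβ))
        have h3 : c.re • ((fun _ => 0, β) : (ι → ℝ) × (ι → ℂ)) + c.im • (fun _ => 0, fun i => Complex.I * β i) =
            (fun _ => 0, c • β) := by
          refine Prod.ext ?_ ?_
          · funext i
            show c.re * 0 + c.im * 0 = (0 : ℝ)
            ring
          · funext i
            show c.re • β i + c.im • (Complex.I * β i) = c * β i
            rw [Complex.real_smul, Complex.real_smul]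
            conv_rhs => rw [← Complex.re_add_im c]
            ring
        rwa [h3] at h2 }
  have hg1 : ∀ β, β ∈ g1 ↔ ((fun _ => 0, β) : (ι → ℝ) × (ι → ℂ)) ∈ g := fun β => Iff.rfl
  let g0 : Submodule ℝ (ι → ℝ) :=
    { carrier := {α | ((α, fun _ => 0) : (ι → ℝ) × (ι → ℂ)) ∈ g}
      zero_mem' := g.zero_mem
      add_mem' := by
        intro β β' hβ hβ'
        have h2 := g.add_mem hβ hβ'
        have h3 : ((β, fun _ => 0) : (ι → ℝ) × (ι → ℂ)) + (β', fun _ => 0) = (β + β', fun _ => 0) := by
          refine Prod.ext rfl ?_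
          funext i
          show (0 : ℂ) + 0 = 0
          ring
        rwa [h3] at h2
      smul_mem' := by
        intro c β hβ
        have h2 := g.smul_mem c hβ
        have h3 : c • ((β, fun _ => 0) : (ι → ℝ) × (ι → ℂ)) = (c • β, fun _ => 0) := by
          refine Prod.ext rfl ?_
          funext i
          show c • (0 : ℂ) = 0
          rw [smul_zero]
        rwa [h3] at h2 }
  have hg0 : ∀ α, α ∈ g0 ↔ ((α, fun _ => 0) : (ι → ℝ) × (ι → ℂ)) ∈ g := fun α => Iff.rfl
  have hg : ∀ α β, (α, β) ∈ g ↔ α ∈ g0 ∧ β ∈ g1 := by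
    intro α β
    constructor
    · intro h
      exact ⟨ha α β h, hn α β h⟩
    · rintro ⟨h2, h3⟩
      have h4 := g.add_mem h2 h3
      have h5 : ((α, fun _ => 0) : (ι → ℝ) × (ι → ℂ)) + (fun _ => 0, β) = (α, β) := by
        refine Prod.ext ?_ ?_
        · funext i
          show α i + 0 = α i
          ring
        · funext i
          show 0 + β i = β i
          ring
      rwa [h5] at h4
  -- products
  have h01 : ∀ α ∈ g0, ∀ β ∈ g1, (fun i => (α i : ℂ) * β i) ∈ g1 := by
    intro α hα β hβ
    have h2 := hbr _ hα _ hβ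
    have h3 : brk ((α, fun _ => 0) : (ι → ℝ) × (ι → ℂ)) (fun _ => 0, β) =
        (fun _ => 0, (2 * Complex.I) • fun i => (α i : ℂ) * β i) := by
      unfold brk
      refine Prod.ext ?_ ?_
      · funext i
        simp
      · funext i
        simp
    rw [h3] at h2
    have h4 : ((2 * Complex.I) • fun i => (α i : ℂ) * β i) ∈ g1 := h2
    exact (g1.smul_mem_iff (by simp)).1 h4
  have h11 : ∀ β ∈ g1, ∀ β' ∈ g1, (fun i => (β i * conj (β' i)).im) ∈ g0 := by
    intro β hβ β' hβ'
    have h2 := hbr _ hβ _ hβ'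
    have h3 : brk ((fun _ => 0, β) : (ι → ℝ) × (ι → ℂ)) (fun _ => 0, β') =
        ((2 : ℝ) • fun i => (β i * conj (β' i)).im, fun _ => 0) := by
      unfold brk
      refine Prod.ext ?_ ?_
      · funext i
        simp
      · funext i
        simp
    rw [h3] at h2
    have h4 : ((2 : ℝ) • fun i => (β i * conj (β' i)).im) ∈ g0 := h2
    exact (g0.smul_mem_iff (by norm_num)).1 h4
  have h11' : ∀ β ∈ g1, ∀ β' ∈ g1, (fun i => (β i * conj (β' i)).re) ∈ g0 := by
    intro β hβ β' hβ'
    have h2 := h11 (Complex.I • β) (g1.smul_mem _ hβ) β' hβ'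
    have h3 : (fun i => ((Complex.I • β) i * conj (β' i)).im) = fun i => (β i * conj (β' i)).re := by
      funext i
      show (Complex.I * β i * conj (β' i)).im = _
      rw [mul_assoc, Complex.I_mul_im]
    rwa [h3] at h2
  -- a nowhere vanishing element
  obtain ⟨β, hβ, hβ0⟩ := Module.Dual.exists_forall_mem_ne_zero_of_forall_exists g1
    (fun i => (LinearMap.proj i : (ι → ℂ) →ₗ[ℂ] ℂ)) (fun i => by
      obtain ⟨x, hx, hxi⟩ := hne i
      exact ⟨x.2, hn x.1 x.2 hx, hxi⟩)
  have hβ0' : ∀ i, β i ≠ 0 := hβ0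
  set r : ι → ℝ := fun i => Complex.normSq (β i) with hr
  have hrr : ∀ i, (β i * conj (β i)).re = r i := by
    intro i
    rw [Complex.mul_conj, Complex.ofReal_re]
  have hrpos : ∀ i, 0 < r i := fun i => Complex.normSq_pos.2 (hβ0' i)
  -- multiplication by `r`
  have hrα : ∀ α ∈ g0, (fun i => r i * α i) ∈ g0 := by
    intro α hα
    have h2 := h11' _ (h01 α hα β hβ) β hβ
    have h3 : (fun i => ((α i : ℂ) * β i * conj (β i)).re) = fun i => r i * α i := by
      funext i
      rw [mul_assoc, Complex.re_ofReal_mul, hrr, mul_comm]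
    rwa [h3] at h2
  have hrsur : ∀ α ∈ g0, ∃ α' ∈ g0, ∀ i, r i * α' i = α i := by
    let L : g0 →ₗ[ℝ] g0 :=
      { toFun := fun α => ⟨fun i => r i * α.1 i, hrα α.1 α.2⟩
        map_add' := fun x y => by
          apply Subtype.ext
          funext i
          show r i * (x.1 i + y.1 i) = r i * x.1 i + r i * y.1 i
          ring
        map_smul' := fun q x => by
          apply Subtype.ext
          funext i
          show r i * (q * x.1 i) = q * (r i * x.1 i)
          ring }
    have hinj : Function.Injective L := by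
      intro x y hxy
      apply Subtype.ext
      funext i
      have h2 : r i * x.1 i = r i * y.1 i := congrFun (congrArg Subtype.val hxy) i
      exact mul_left_cancel₀ (hrpos i).ne' h2
    have hsur := LinearMap.surjective_of_injective hinj
    intro α hα
    obtain ⟨x, hx⟩ := hsur ⟨α, hα⟩
    exact ⟨x.1, x.2, fun i => congrFun (congrArg Subtype.val hx) i⟩
  -- `g₀` is an algebra
  have hmul : ∀ α ∈ g0, ∀ α' ∈ g0, α * α' ∈ g0 := by
    intro α hα α' hα'
    obtain ⟨α2, hα2, h2⟩ := hrsur α' hα'
    have h3 := h11' _ (h01 α hα _ (h01 α2 hα2 β hβ)) β hβ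
    have h4 : (fun i => ((α i : ℂ) * ((α2 i : ℂ) * β i) * conj (β i)).re) = α * α' := by
      funext i
      show ((α i : ℂ) * ((α2 i : ℂ) * β i) * conj (β i)).re = α i * α' i
      have h5 : (α i : ℂ) * ((α2 i : ℂ) * β i) * conj (β i) = ((α i * α2 i : ℝ) : ℂ) * (β i * conj (β i)) := by
        push_cast
        ring
      rw [h5, Complex.re_ofReal_mul, hrr, ← h2 i]
      ring
    rwa [h4] at h3
  have hone : (1 : ι → ℝ) ∈ g0 := h1
  -- classes
  let S : Setoid ι :=
    { r := fun i j => ∀ α ∈ g0, α i = α j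
      iseqv := ⟨fun i α _ => rfl, fun h α hα => (h α hα).symm, fun h h' α hα => (h α hα).trans (h' α hα)⟩ }
  let κ : Type := Quotient S
  haveI : Finite κ := Quotient.finite S
  let K : ι → κ := fun i => Quotient.mk S i
  have hK : ∀ i j, K i = K j ↔ ∀ α ∈ g0, α i = α j := fun i j => Quotient.eq
  -- indicators
  have hind : ∀ i, ∃ e ∈ g0, ∀ j, e j = if K j = K i then 1 else 0 := by
    intro i
    have hsep : ∀ j, ∃ e ∈ g0, e i = 1 ∧ (K j ≠ K i → e j = 0) := by
      intro j
      by_cases hj : K j = K i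
      · exact ⟨1, hone, rfl, fun h => absurd hj h⟩
      · have h2 : ¬ ∀ α ∈ g0, α j = α i := fun h => hj ((hK j i).2 h)
        push Not at h2
        obtain ⟨α, hα, hne'⟩ := h2
        refine ⟨(α i - α j)⁻¹ • (α - α j • 1), g0.smul_mem _ (g0.sub_mem hα (g0.smul_mem _ hone)), ?_, fun _ => ?_⟩
        · show (α i - α j)⁻¹ * (α i - α j * 1) = 1
          rw [mul_one]
          exact inv_mul_cancel₀ (sub_ne_zero.2 (Ne.symm hne'))
        · show (α i - α j)⁻¹ * (α j - α j * 1) = 0
          rw [mul_one, sub_self, mul_zero]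
    choose e he hei hej using hsep
    have hprod : ∀ s : Finset ι, (∏ j ∈ s, e j) ∈ g0 := by
      intro s
      induction s using Finset.induction_on with
      | empty => rw [Finset.prod_empty]; exact hone
      | insert a s has ih =>
        rw [Finset.prod_insert has]
        exact hmul _ (he a) _ ih
    refine ⟨∏ j, e j, hprod Finset.univ, fun j => ?_⟩
    by_cases hj : K j = K i
    · rw [if_pos hj, (hK j i).1 hj _ (hprod Finset.univ), Finset.prod_apply]
      exact Finset.prod_eq_one fun k _ => hei k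
    · rw [if_neg hj, Finset.prod_apply]
      exact Finset.prod_eq_zero (Finset.mem_univ j) (hej j hj)
  haveI : Fintype κ := Fintype.ofFinite κ
  have hcomp : ∀ a : κ → ℝ, (fun i => a (K i)) ∈ g0 := by
    intro a
    choose e he hei using hind
    have h2 : (fun i => a (K i)) = ∑ k : κ, a k • e (Quotient.out k) := by
      funext i
      rw [Finset.sum_apply, Finset.sum_eq_single (K i)]
      · show a (K i) = a (K i) * e (Quotient.out (K i)) i
        rw [hei, if_pos (Quotient.out_eq (K i)).symm, mul_one]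
      · intro k _ hk
        show a k * e (Quotient.out k) i = 0
        rw [hei, if_neg, mul_zero]
        intro h
        apply hk
        rw [h]
        exact (Quotient.out_eq k).symm
      · intro h
        exact absurd (Finset.mem_univ _) h
    rw [h2]
    exact Submodule.sum_mem _ fun k _ => g0.smul_mem _ (he _)
  have hcls : ∀ α ∈ g0, ∃ a : κ → ℝ, α = fun i => a (K i) := by
    intro α hα
    refine ⟨fun k => α (Quotient.out k), ?_⟩
    funext i
    exact (hK i _).1 (Quotient.out_eq (K i)).symm α hα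
  -- `ω`
  have hr0 : r ∈ g0 := by
    have h2 := hrα 1 hone
    have h3 : (fun i => r i * (1 : ι → ℝ) i) = r := by
      funext i
      show r i * 1 = r i
      rw [mul_one]
    rwa [h3] at h2
  obtain ⟨ρ, hρ⟩ := hcls r hr0
  have hs0 : (fun i => (Real.sqrt (r i))⁻¹) ∈ g0 := by
    have h2 := hcomp (fun k => (Real.sqrt (ρ k))⁻¹)
    have h3 : (fun i => (Real.sqrt (r i))⁻¹) = fun i => (Real.sqrt (ρ (K i)))⁻¹ := by
      funext i
      rw [congrFun hρ i]
    rwa [h3]
  set ω : ι → ℂ := fun i => (((Real.sqrt (r i))⁻¹ : ℝ) : ℂ) * β i with hω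
  have hω1 : ω ∈ g1 := h01 _ hs0 β hβ
  have hωn : ∀ i, ω i * conj (ω i) = 1 := by
    intro i
    rw [Complex.mul_conj, hω]
    simp only
    rw [Complex.normSq_mul, Complex.normSq_ofReal, ← mul_inv, Real.mul_self_sqrt (hrpos i).le]
    show (((r i)⁻¹ * r i : ℝ) : ℂ) = 1
    rw [inv_mul_cancel₀ (hrpos i).ne', Complex.ofReal_one]
  refine ⟨κ, inferInstance, K, ω, fun i => ?_, fun x => ?_⟩
  · have h2 := hωn i
    rw [Complex.mul_conj, Complex.normSq_eq_norm_sq] at h2
    have h3 : ‖ω i‖ ^ 2 = 1 := by exact_mod_cast h2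
    exact (pow_eq_one_iff_of_nonneg (norm_nonneg _) (by norm_num)).1 h3
  · constructor
    · intro hx
      obtain ⟨hx0, hx1⟩ := (hg x.1 x.2).1 hx
      obtain ⟨a, haa⟩ := hcls x.1 hx0
      obtain ⟨u, hu⟩ := hcls _ (h11' x.2 hx1 ω hω1)
      obtain ⟨w, hw⟩ := hcls _ (h11 x.2 hx1 ω hω1)
      refine ⟨a, fun k => (u k : ℂ) + (w k : ℂ) * Complex.I, Prod.ext haa ?_⟩
      funext i
      show x.2 i = ((u (K i) : ℂ) + (w (K i) : ℂ) * Complex.I) * ω i
      have h2 : (x.2 i * conj (ω i)).re = u (K i) := congrFun hu i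
      have h3 : (x.2 i * conj (ω i)).im = w (K i) := congrFun hw i
      rw [← h2, ← h3, Complex.re_add_im, mul_assoc, mul_comm (conj (ω i)), hωn, mul_one]
    · rintro ⟨a, c, rfl⟩
      refine (hg _ _).2 ⟨hcomp a, ?_⟩
      have h2 := h01 _ (hcomp fun k => (c k).re) ω hω1
      have h3 := h01 _ (hcomp fun k => (c k).im) ω hω1
      have h4 := g1.add_mem h2 (g1.smul_mem Complex.I h3)
      have h5 : ((fun i => (((c (K i)).re : ℝ) : ℂ) * ω i) + Complex.I • fun i => (((c (K i)).im : ℝ) : ℂ) * ω i) =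
          fun i => c (K i) * ω i := by
        funext i
        show (((c (K i)).re : ℝ) : ℂ) * ω i + Complex.I * ((((c (K i)).im : ℝ) : ℂ) * ω i) = c (K i) * ω i
        conv_rhs => rw [← Complex.re_add_im (c (K i))]
        ring
      rwa [h5] at h4

end E

end HC
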