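import Pool.Agent.Lib.HC.L.E.Spec
import Pool.Agent.Lib.HC.P.Wtl

/-!
# PROJECT HC+, PART 3: degrees at least `2 dim T` (helper58)
-/

set_option autoImplicit false

noncomputable section

namespace HC

namespace E

namespace Top

open Fund

/-- The frame is a real basis. -/
theorem frame_zero (T : AV) (A : T.V →ₗ[ℝ] ℂ) (h : ∀ j, A (ec T (frame (dm T) j)) = 0) : A = 0 := by
  have h1 : ∀ l : Fin (dm T), A (ec T (Pi.single l 1)) = 0 := by
    intro l
    have e := h ⟨2 * l.1, by have := l.2; omega⟩
    have e2 : frame (dm T) ⟨2 * l.1, by have := l.2; omega⟩ = Pi.single l 1 := by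
      unfold frame
      rw [if_pos (by show 2 * l.1 % 2 = 0; omega)]
      congr 1
      exact Fin.ext (by show 2 * l.1 / 2 = l.1; omega)
    rwa [e2] at e
  have h2 : ∀ l : Fin (dm T), A (ec T (Pi.single l Complex.I)) = 0 := by
    intro l
    have e := h ⟨2 * l.1 + 1, by have := l.2; omega⟩
    have e2 : frame (dm T) ⟨2 * l.1 + 1, by have := l.2; omega⟩ = Pi.single l Complex.I := by
      unfold frame
      rw [if_neg (by show ¬ (2 * l.1 + 1) % 2 = 0; omega)]
      congr 1
      exact Fin.ext (by show (2 * l.1 + 1) / 2 = l.1; omega)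
    rwa [e2] at e
  have h3 : ∀ z : Fin (dm T) → ℂ, A (ec T z) = 0 := by
    intro z
    have ez : z = ∑ l, ((z l).re • (Pi.single l (1 : ℂ) : Fin (dm T) → ℂ) +
        (z l).im • (Pi.single l Complex.I : Fin (dm T) → ℂ)) := by
      funext k
      rw [Finset.sum_apply, Finset.sum_eq_single k]
      · simp
      · intro l _ hl
        simp [Pi.single_apply, hl.symm]
      · intro h
        exact absurd (Finset.mem_univ k) h
    set B : (Fin (dm T) → ℂ) →ₗ[ℝ] ℂ :=
      A ∘ₗ ((ec T).toLinearEquiv.toLinearMap.restrictScalars ℝ) with hB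
    change B z = 0
    rw [ez, map_sum]
    refine Finset.sum_eq_zero fun l _ => ?_
    rw [map_add, map_smul, map_smul]
    have e1 : B (Pi.single l 1) = 0 := h1 l
    have e2 : B (Pi.single l Complex.I) = 0 := h2 l
    rw [e1, e2, smul_zero, smul_zero, add_zero]
  ext v
  have := h3 ((ec T).symm v)
  rwa [ContinuousLinearEquiv.apply_symm_apply] at this

theorem finrank_W (T : AV) : Module.finrank ℂ (T.V →ₗ[ℝ] ℂ) = 2 * dm T := by
  rw [Module.finrank_linearMap, Module.finrank_self, mul_one, finrank_real_of_complex]
  rfl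

end Top

open Fund Top in
/-- **Degrees at least `2 dim T` are algebraic.** -/
theorem tTop : S_Top := by
  intro T m c hm
  have hW := finrank_W T
  have hm' : 2 * dm T ≤ m := hm
  rcases hm'.eq_or_lt with h | h
  · subst h
    let e : Module.Basis (Fin (2 * dm T)) ℂ (T.V →ₗ[ℝ] ℂ) := Module.finBasisOfFinrankEq ℂ _ hW
    set F : Hlg T (2 * dm T) := dcl T fun j => ec T (frame (dm T) j) with hF
    have h1 : F e ≠ 0 := by
      rw [hF, dcl_apply]
      intro hdet
      obtain ⟨x, hx, hx0⟩ := Matrix.exists_vecMul_eq_zero_iff.2 hdet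
      have hA : (∑ i, x i • e i) = 0 := by
        refine frame_zero T _ fun j => ?_
        have h2 := congrFun hx0 j
        rw [LinearMap.sum_apply]
        exact h2
      exact hx (funext (Fintype.linearIndependent_iff.1 e.linearIndependent x hA))
    have h2 : c = (c e / F e) • F := by
      have h3 := AlternatingMap.eq_smul_basis_det e c
      have h4 := AlternatingMap.eq_smul_basis_det e F
      have h5 : (c e / F e) • F = (c e / F e) • (F e • e.det) := congrArg _ h4
      rw [h5, smul_smul, div_mul_cancel₀ _ h1, ← h3]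
    rw [h2]
    exact Alg.smul _ (fund_class T)
  · have h1 : c = 0 := by
      ext a
      refine c.map_linearDependent a fun h2 => ?_
      have h3 := h2.fintype_card_le_finrank
      rw [hW, Fintype.card_fin] at h3
      omega
    rw [h1]
    exact Alg.zero

end E

end HC
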