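import Pool.Agent.Lib.HC.L.Defs

/-!
# PROJECT HC+, part 3: coordinates for real multiplication (helper28)

`F` totally real, acting on `B` by rational endomorphisms, `[F : ℚ] = dim B`. There are coordinates
`ψ v σ`, `σ : F →+* ℝ`, and `t σ ∉ ℝ` such that `F` acts by `σ x` on the coordinate `σ` and
`L ⊗ ℚ = {(σ x + σ y * t σ) : x, y ∈ F}` (`rmc`).
-/

set_option autoImplicit false
set_option linter.unusedSectionVars false

noncomputable section

namespace HC

namespace RMc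

open NumberField

/-- The real embeddings of a totally real field are its complex embeddings. -/
def embR (F : Type) [Field F] [NumberField F] [IsTotallyReal F] : (F →+* ℝ) ≃ (F →+* ℂ) where
  toFun σ := Complex.ofRealHom.comp σ
  invFun φ := (IsTotallyReal.complexEmbedding_isReal φ).embedding
  left_inv σ := by
    ext x
    apply Complex.ofReal_injective
    exact ComplexEmbedding.IsReal.coe_embedding_apply _ x
  right_inv φ := by
    ext x
    exact ComplexEmbedding.IsReal.coe_embedding_apply _ x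

theorem card_emb (F : Type) [Field F] [NumberField F] [IsTotallyReal F] :
    Fintype.card (F →+* ℝ) = Module.finrank ℚ F := by
  rw [Fintype.card_congr (embR F), Embeddings.card F ℂ]

/-- A basis indexed by the embeddings. -/
def wb (F : Type) [Field F] [NumberField F] [IsTotallyReal F] :
    Module.Basis (F →+* ℝ) ℚ F :=
  (Module.finBasis ℚ F).reindex (Fintype.equivOfCardEq (by
    rw [card_emb, Fintype.card_fin]))

/-- The matrix `σ (w τ)`. -/
def Mx (F : Type) [Field F] [NumberField F] [IsTotallyReal F] :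
    Matrix (F →+* ℝ) (F →+* ℝ) ℝ := fun σ τ => σ (wb F τ)

variable {F : Type} [Field F] [NumberField F] [IsTotallyReal F]

theorem rat_sum (q : (F →+* ℝ) → ℚ) (σ : F →+* ℝ) :
    σ (∑ τ, q τ • wb F τ) = ∑ τ, (q τ : ℝ) * Mx F σ τ := by
  rw [map_sum]
  refine Finset.sum_congr rfl fun τ _ => ?_
  rw [Rat.smul_def, map_mul, map_ratCast]
  rfl

open Classical in
theorem isUnit_Mx : IsUnit (Mx F) := by
  rw [← Matrix.vecMul_injective_iff_isUnit]
  intro v v' h
  have h1 : ∀ τ, ∑ σ, (v σ - v' σ) * σ (wb F τ) = 0 := by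
    intro τ
    have h2 := congrFun h τ
    simp only [Matrix.vecMul, dotProduct, Mx] at h2
    simp only [sub_mul, Finset.sum_sub_distrib, h2, sub_self]
  have h3 : ∑ σ : F →+* ℝ, (v σ - v' σ) • (fun x => σ x : F → ℝ) = 0 := by
    funext x
    rw [Finset.sum_apply, Pi.zero_apply]
    simp only [Pi.smul_apply, smul_eq_mul]
    rw [← (wb F).sum_repr x]
    simp only [rat_sum, Finset.mul_sum]
    rw [Finset.sum_comm]
    refine Finset.sum_eq_zero fun τ _ => ?_
    have h4 := h1 τ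
    simp only [Mx]
    have h5 : ∀ σ : F →+* ℝ, (v σ - v' σ) * ((((wb F).repr x) τ : ℝ) * σ (wb F τ)) =
        (((wb F).repr x) τ : ℝ) * ((v σ - v' σ) * σ (wb F τ)) := fun σ => by ring
    simp only [h5]
    rw [← Finset.mul_sum, h4, mul_zero]
  have hli : LinearIndependent ℝ (fun σ : F →+* ℝ => (fun x => σ x : F → ℝ)) := by
    have h6 := linearIndependent_monoidHom F ℝ
    have h7 : Function.Injective (fun σ : F →+* ℝ => (σ : F →* ℝ)) := by
      intro σ τ hst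
      ext x
      exact DFunLike.congr_fun hst x
    exact h6.comp _ h7
  funext σ
  have h8 := (Fintype.linearIndependent_iff.1 hli) _ h3 σ
  exact sub_eq_zero.1 h8

variable {B : AV} (ι : F →+* Module.End ℂ B.V)

theorem iota_rat (q : ℚ) (x : F) : ι (q • x) = (q : ℂ) • ι x := by
  let _ : Algebra ℚ (Module.End ℂ B.V) := Algebra.compHom _ (algebraMap ℚ ℂ)
  have h := ι.map_rat_algebraMap q
  rw [Algebra.smul_def, map_mul, h]
  have h2 : (algebraMap ℚ (Module.End ℂ B.V)) q = algebraMap ℂ (Module.End ℂ B.V) (q : ℂ) := rfl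
  rw [h2, ← Algebra.smul_def]

open Classical in
/-- The idempotent `P σ`. -/
def P (σ : F →+* ℝ) : Module.End ℂ B.V := ∑ τ, (((Mx F)⁻¹ τ σ : ℝ) : ℂ) • ι (wb F τ)

open Classical in
theorem M_mul_inv (ρ σ : F →+* ℝ) : ∑ τ, Mx F ρ τ * (Mx F)⁻¹ τ σ = if ρ = σ then 1 else 0 := by
  have h := Matrix.mul_nonsing_inv (Mx F) ((Matrix.isUnit_iff_isUnit_det _).1 isUnit_Mx)
  have h2 := congrFun (congrFun h ρ) σ
  rw [Matrix.mul_apply, Matrix.one_apply] at h2
  exact h2

open Classical in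
theorem inv_mul_M (ρ σ : F →+* ℝ) : ∑ τ, (Mx F)⁻¹ ρ τ * Mx F τ σ = if ρ = σ then 1 else 0 := by
  have h := Matrix.nonsing_inv_mul (Mx F) ((Matrix.isUnit_iff_isUnit_det _).1 isUnit_Mx)
  have h2 := congrFun (congrFun h ρ) σ
  rw [Matrix.mul_apply, Matrix.one_apply] at h2
  exact h2

theorem iota_w (τ : F →+* ℝ) : ι (wb F τ) = ∑ σ : F →+* ℝ, ((σ (wb F τ) : ℝ) : ℂ) • P ι σ := by
  classical
  simp only [P, Finset.smul_sum, smul_smul]
  rw [Finset.sum_comm]
  have h : ∀ ρ : F →+* ℝ, ∑ σ : F →+* ℝ, (((σ (wb F τ) : ℝ) : ℂ) * (((Mx F)⁻¹ ρ σ : ℝ) : ℂ)) •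
      ι (wb F ρ) = (if ρ = τ then (1 : ℂ) else 0) • ι (wb F ρ) := by
    intro ρ
    rw [← Finset.sum_smul]
    congr 1
    have h1 := inv_mul_M (F := F) ρ τ
    have h2 : ∑ σ : F →+* ℝ, (((σ (wb F τ) : ℝ) : ℂ) * (((Mx F)⁻¹ ρ σ : ℝ) : ℂ)) =
        ((∑ σ, (Mx F)⁻¹ ρ σ * Mx F σ τ : ℝ) : ℂ) := by
      push_cast
      refine Finset.sum_congr rfl fun σ _ => ?_
      rw [mul_comm]
      rfl
    rw [h2, h1]
    split_ifs <;> simp
  simp only [h, ite_smul, one_smul, zero_smul]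
  rw [Finset.sum_ite_eq' Finset.univ τ, if_pos (Finset.mem_univ τ)]

theorem iota_eq (x : F) : ι x = ∑ σ : F →+* ℝ, ((σ x : ℝ) : ℂ) • P ι σ := by
  classical
  conv_lhs => rw [← (wb F).sum_repr x]
  rw [map_sum]
  have h : ∀ τ, ι (((wb F).repr x) τ • wb F τ) =
      ∑ σ : F →+* ℝ, ((((wb F).repr x) τ : ℂ) * ((σ (wb F τ) : ℝ) : ℂ)) • P ι σ := by
    intro τ
    rw [iota_rat, iota_w, Finset.smul_sum]
    simp only [smul_smul]
  simp only [h]
  rw [Finset.sum_comm]
  refine Finset.sum_congr rfl fun σ _ => ?_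
  rw [← Finset.sum_smul]
  congr 1
  conv_rhs => rw [← (wb F).sum_repr x, rat_sum]
  push_cast
  rfl

theorem iota_mul_P (x : F) (τ : F →+* ℝ) : ι x * P ι τ = ((τ x : ℝ) : ℂ) • P ι τ := by
  classical
  have h1 : ι x * P ι τ = ∑ ρ, (((Mx F)⁻¹ ρ τ : ℝ) : ℂ) • ι (x * wb F ρ) := by
    conv_lhs => rw [P]
    rw [Finset.mul_sum]
    refine Finset.sum_congr rfl fun ρ _ => ?_
    rw [mul_smul_comm, map_mul]
  rw [h1]
  have h2 : ∀ ρ, (((Mx F)⁻¹ ρ τ : ℝ) : ℂ) • ι (x * wb F ρ) =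
      ∑ σ : F →+* ℝ, ((((Mx F)⁻¹ ρ τ : ℝ) : ℂ) * ((σ (x * wb F ρ) : ℝ) : ℂ)) • P ι σ := by
    intro ρ
    rw [iota_eq ι (x * wb F ρ), Finset.smul_sum]
    simp only [smul_smul]
  simp only [h2]
  rw [Finset.sum_comm]
  have h3 : ∀ σ : F →+* ℝ, ∑ ρ, ((((Mx F)⁻¹ ρ τ : ℝ) : ℂ) * ((σ (x * wb F ρ) : ℝ) : ℂ)) • P ι σ =
      (if σ = τ then ((σ x : ℝ) : ℂ) else 0) • P ι σ := by
    intro σ
    rw [← Finset.sum_smul]
    congr 1
    have h4 := M_mul_inv (F := F) σ τ
    have h5 : ∑ ρ, ((((Mx F)⁻¹ ρ τ : ℝ) : ℂ) * ((σ (x * wb F ρ) : ℝ) : ℂ)) =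
        ((σ x * ∑ ρ, Mx F σ ρ * (Mx F)⁻¹ ρ τ : ℝ) : ℂ) := by
      rw [Finset.mul_sum]
      push_cast
      refine Finset.sum_congr rfl fun ρ _ => ?_
      rw [map_mul]
      push_cast
      simp only [Mx]
      ring
    rw [h5, h4]
    split_ifs <;> simp
  simp only [h3, ite_smul, zero_smul]
  rw [Finset.sum_ite_eq' Finset.univ τ, if_pos (Finset.mem_univ τ)]

open Classical in
theorem P_mul_P (σ τ : F →+* ℝ) : P ι σ * P ι τ = if σ = τ then P ι σ else 0 := by
  have h1 : P ι σ * P ι τ = ∑ ρ, ((((Mx F)⁻¹ ρ σ : ℝ) : ℂ) * ((τ (wb F ρ) : ℝ) : ℂ)) • P ι τ := by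
    conv_lhs => rw [P]
    rw [Finset.sum_mul]
    refine Finset.sum_congr rfl fun ρ _ => ?_
    rw [smul_mul_assoc, iota_mul_P, smul_smul]
  rw [h1, ← Finset.sum_smul]
  have h4 := M_mul_inv (F := F) τ σ
  have h5 : ∑ ρ, ((((Mx F)⁻¹ ρ σ : ℝ) : ℂ) * ((τ (wb F ρ) : ℝ) : ℂ)) =
      ((∑ ρ, Mx F τ ρ * (Mx F)⁻¹ ρ σ : ℝ) : ℂ) := by
    push_cast
    refine Finset.sum_congr rfl fun ρ _ => ?_
    rw [mul_comm]
    rfl
  rw [h5, h4]
  by_cases h : σ = τ
  · subst h
    simp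
  · rw [if_neg h, if_neg (fun h' => h h'.symm)]
    simp

theorem sum_P : ∑ σ, P ι σ = 1 := by
  have h := iota_eq ι 1
  rw [map_one] at h
  rw [h]
  simp

theorem P_mul_iota (x : F) (τ : F →+* ℝ) : P ι τ * ι x = ((τ x : ℝ) : ℂ) • P ι τ := by
  rw [← iota_mul_P, P, Finset.sum_mul, Finset.mul_sum]
  refine Finset.sum_congr rfl fun ρ _ => ?_
  rw [smul_mul_assoc, mul_smul_comm, ← map_mul, ← map_mul, mul_comm]

/-- `L ⊗ ℚ` is generated over `F` by two vectors. -/
theorem two_gen (hr : ∀ x, RatEnd B ((ι x).restrictScalars ℝ))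
    (hd : Module.finrank ℚ F = Module.finrank ℂ B.V) :
    ∃ u₁ u₂ : B.V, (∃ N : ℕ, N ≠ 0 ∧ N • u₁ ∈ B.L) ∧ (∃ N : ℕ, N ≠ 0 ∧ N • u₂ ∈ B.L) ∧
      ∀ v ∈ B.L, ∃ x y : F, v = ι x u₁ + ι y u₂ := by
  classical
  have hfin : Module.Finite ℤ B.L := ZLattice.module_finite ℝ B.L
  have hfree : Module.Free ℤ B.L := ZLattice.module_free ℝ B.L
  let b := Module.Free.chooseBasis ℤ B.L
  have hcard : Fintype.card (Module.Free.ChooseBasisIndex ℤ B.L) = 2 * Module.finrank ℚ F := by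
    rw [← Module.finrank_eq_card_chooseBasisIndex, ZLattice.rank ℝ B.L, finrank_real_of_complex, hd]
  let mF : Module F B.V := Module.compHom B.V ι
  have sF : ∀ (x : F) (v : B.V), x • v = ι x v := fun _ _ => rfl
  let mQ : Module ℚ B.V := Module.compHom B.V (algebraMap ℚ F)
  have sQ : ∀ (q : ℚ) (v : B.V), q • v = (algebraMap ℚ F q) • v := fun _ _ => rfl
  have tow : IsScalarTower ℚ F B.V := ⟨fun q x v => by
    rw [sQ, Algebra.smul_def, mul_smul]⟩
  let U : Submodule F B.V :=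
    { carrier := {v | ∃ N : ℕ, N ≠ 0 ∧ N • v ∈ B.L}
      zero_mem' := ⟨1, one_ne_zero, by rw [smul_zero]; exact B.L.zero_mem⟩
      add_mem' := by
        rintro u v ⟨N, hN, hu⟩ ⟨M, hM, hv⟩
        refine ⟨N * M, mul_ne_zero hN hM, ?_⟩
        rw [smul_add]
        refine B.L.add_mem ?_ ?_
        · rw [mul_comm, mul_smul]
          exact B.L.nsmul_mem hu M
        · rw [mul_smul]
          exact B.L.nsmul_mem hv N
      smul_mem' := by
        rintro x v ⟨N, hN, hv⟩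
        obtain ⟨M, hM, h⟩ := hr x _ hv
        refine ⟨M * N, mul_ne_zero hM hN, ?_⟩
        rw [mul_smul, sF]
        have e : ((ι x).restrictScalars ℝ) (N • v) = N • ι x v := by
          show ι x (N • v) = _
          rw [map_nsmul]
        rw [← e]
        exact h }
  have hnq : ∀ (N : ℕ) (v : B.V), (N : ℚ) • v = N • v := fun N v => Nat.cast_smul_eq_nsmul ℚ N v
  -- `U` is spanned over `ℚ` by the basis of the lattice
  have hspan : U.restrictScalars ℚ = Submodule.span ℚ (Set.range fun j => ((b j : B.L) : B.V)) := by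
    apply le_antisymm
    · rintro v ⟨N, hN, hv⟩
      have h1 : N • v ∈ Submodule.span ℚ (Set.range fun j => ((b j : B.L) : B.V)) := by
        have h2 := congrArg (Subtype.val) (b.sum_repr ⟨N • v, hv⟩)
        rw [Submodule.coe_sum] at h2
        have h2' : N • v = ∑ j, ((b.repr ⟨N • v, hv⟩ j • b j : B.L) : B.V) := h2.symm
        rw [h2']
        refine Submodule.sum_mem _ fun j _ => ?_
        have h3 : ((b.repr ⟨N • v, hv⟩ j • b j : B.L) : B.V) =
            (((b.repr ⟨N • v, hv⟩ j : ℤ) : ℚ)) • ((b j : B.L) : B.V) := by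
          rw [Int.cast_smul_eq_zsmul]
          rfl
        rw [h3]
        exact Submodule.smul_mem _ _ (Submodule.subset_span ⟨j, rfl⟩)
      have h4 : v = ((N : ℚ)⁻¹) • (N • v) := by
        rw [← hnq, smul_smul, inv_mul_cancel₀ (Nat.cast_ne_zero.2 hN), one_smul]
      rw [h4]
      exact Submodule.smul_mem _ _ h1
    · rw [Submodule.span_le]
      rintro _ ⟨j, rfl⟩
      refine ⟨1, one_ne_zero, ?_⟩
      rw [one_smul]
      exact (b j).2
  have hfinQ : Module.Finite ℚ U := by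
    have : Module.Finite ℚ (U.restrictScalars ℚ) := by
      rw [hspan]
      exact Module.Finite.span_of_finite ℚ (Set.finite_range _)
    exact this
  have hle : Module.finrank ℚ U ≤ 2 * Module.finrank ℚ F := by
    have h1 : Module.finrank ℚ (U.restrictScalars ℚ) ≤ 2 * Module.finrank ℚ F := by
      rw [hspan, ← hcard]
      exact finrank_range_le_card (R := ℚ) fun j => ((b j : B.L) : B.V)
    exact h1
  have hfinF : Module.Finite F U := Module.Finite.of_restrictScalars_finite ℚ F U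
  have hmul := Module.finrank_mul_finrank ℚ F U
  have hpos : 0 < Module.finrank ℚ F := Module.finrank_pos
  have hle2 : Module.finrank F U ≤ 2 := by
    by_contra h
    have h1 : Module.finrank ℚ F * 3 ≤ Module.finrank ℚ F * Module.finrank F U :=
      Nat.mul_le_mul_left _ (by omega)
    omega
  have hLU : ∀ v ∈ B.L, v ∈ U := fun v hv => ⟨1, one_ne_zero, by rw [one_smul]; exact hv⟩
  have h0 : ∃ N : ℕ, N ≠ 0 ∧ N • (0 : B.V) ∈ B.L :=
    ⟨1, one_ne_zero, by rw [smul_zero]; exact B.L.zero_mem⟩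
  have hd' : Module.finrank F U = 0 ∨ Module.finrank F U = 1 ∨ Module.finrank F U = 2 := by omega
  rcases hd' with h | h | h
  · let w := Module.finBasisOfFinrankEq F U h
    refine ⟨0, 0, h0, h0, fun v hv => ⟨0, 0, ?_⟩⟩
    have h1 := congrArg (Subtype.val) (w.sum_repr ⟨v, hLU v hv⟩)
    rw [Submodule.coe_sum, Fin.sum_univ_zero] at h1
    show v = ι 0 0 + ι 0 0
    rw [map_zero ι, LinearMap.zero_apply, add_zero]
    exact h1.symm
  · let w := Module.finBasisOfFinrankEq F U h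
    refine ⟨(w 0 : U), 0, (w 0).2, h0, fun v hv => ⟨w.repr ⟨v, hLU v hv⟩ 0, 0, ?_⟩⟩
    have h1 := congrArg (Subtype.val) (w.sum_repr ⟨v, hLU v hv⟩)
    rw [Submodule.coe_sum, Fin.sum_univ_one] at h1
    show v = ι _ _ + ι 0 0
    rw [map_zero ι, LinearMap.zero_apply, add_zero]
    exact h1.symm
  · let w := Module.finBasisOfFinrankEq F U h
    refine ⟨(w 0 : U), (w 1 : U), (w 0).2, (w 1).2, fun v hv => ⟨w.repr ⟨v, hLU v hv⟩ 0,
      w.repr ⟨v, hLU v hv⟩ 1, ?_⟩⟩
    have h1 := congrArg (Subtype.val) (w.sum_repr ⟨v, hLU v hv⟩)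
    rw [Submodule.coe_sum, Fin.sum_univ_two] at h1
    exact h1.symm

/-- The normal form. -/
theorem rmc (hr : ∀ x, RatEnd B ((ι x).restrictScalars ℝ))
    (hd : Module.finrank ℚ F = Module.finrank ℂ B.V) :
    ∃ (ψ : B.V ≃ₗ[ℂ] ((F →+* ℝ) → ℂ)) (t : (F →+* ℝ) → ℂ), (∀ σ, (t σ).im ≠ 0) ∧
      (∀ x v σ, ψ (ι x v) σ = ((σ x : ℝ) : ℂ) * ψ v σ) ∧
      (∀ v ∈ B.L, ∃ x y : F, ∀ σ, ψ v σ = ((σ x : ℝ) : ℂ) + ((σ y : ℝ) : ℂ) * t σ) ∧
      ∀ (x y : F) (v : B.V), (∀ σ, ψ v σ = ((σ x : ℝ) : ℂ) + ((σ y : ℝ) : ℂ) * t σ) →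
        ∃ N : ℕ, N ≠ 0 ∧ N • v ∈ B.L := by
  classical
  obtain ⟨u₁, u₂, hu₁, hu₂, hL⟩ := two_gen ι hr hd
  have hcard : Fintype.card (F →+* ℝ) = Module.finrank ℂ B.V := by rw [card_emb, hd]
  have hPP : ∀ (σ τ : F →+* ℝ) (v : B.V), P ι σ (P ι τ v) = if σ = τ then P ι σ v else 0 := by
    intro σ τ v
    have h := LinearMap.congr_fun (P_mul_P ι σ τ) v
    rw [Module.End.mul_apply] at h
    rw [h]
    split_ifs <;> rfl
  have hι : ∀ (x : F) (v : B.V), ι x v = ∑ σ : F →+* ℝ, ((σ x : ℝ) : ℂ) • P ι σ v := by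
    intro x v
    have h := LinearMap.congr_fun (iota_eq ι x) v
    rw [LinearMap.sum_apply] at h
    exact h
  have hPι : ∀ (x : F) (σ : F →+* ℝ) (v : B.V), P ι σ (ι x v) = ((σ x : ℝ) : ℂ) • P ι σ v :=
    fun x σ v => LinearMap.congr_fun (P_mul_iota ι x σ) v
  have h1P : ∀ v : B.V, ∑ σ, P ι σ v = v := by
    intro v
    have h := LinearMap.congr_fun (sum_P ι) v
    rw [LinearMap.sum_apply] at h
    exact h
  -- the real isomorphism
  let f : ((F →+* ℝ) → ℝ) × ((F →+* ℝ) → ℝ) →ₗ[ℝ] B.V :=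
    { toFun := fun p => ∑ σ, (p.1 σ • P ι σ u₁ + p.2 σ • P ι σ u₂)
      map_add' := by
        intro p q
        rw [← Finset.sum_add_distrib]
        refine Finset.sum_congr rfl fun σ _ => ?_
        simp only [Prod.fst_add, Prod.snd_add, Pi.add_apply, add_smul]
        abel
      map_smul' := by
        intro r p
        rw [RingHom.id_apply, Finset.smul_sum]
        refine Finset.sum_congr rfl fun σ _ => ?_
        simp only [Prod.smul_fst, Prod.smul_snd, Pi.smul_apply, smul_eq_mul, mul_smul, smul_add] }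
  have hf : ∀ p, f p = ∑ σ, (p.1 σ • P ι σ u₁ + p.2 σ • P ι σ u₂) := fun _ => rfl
  have hfx : ∀ x y : F, f (fun σ => σ x, fun σ => σ y) = ι x u₁ + ι y u₂ := by
    intro x y
    rw [hf, hι, hι, ← Finset.sum_add_distrib]
    refine Finset.sum_congr rfl fun σ _ => ?_
    simp only [Complex.coe_smul]
  have hsurj : Function.Surjective f := by
    rw [← LinearMap.range_eq_top, eq_top_iff]
    have h1 : Submodule.span ℝ (B.L : Set B.V) = ⊤ := IsZLattice.span_top
    rw [← h1, Submodule.span_le]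
    intro v hv
    obtain ⟨x, y, h⟩ := hL v hv
    exact ⟨(fun σ => σ x, fun σ => σ y), by rw [hfx, h]⟩
  have hinj : Function.Injective f := by
    rw [LinearMap.injective_iff_surjective_of_finrank_eq_finrank]
    · exact hsurj
    · rw [Module.finrank_prod, Module.finrank_fintype_fun_eq_card, hcard, finrank_real_of_complex,
        two_mul]
  -- the basis vectors
  have he : ∀ σ, P ι σ u₁ ≠ 0 := by
    intro σ h
    have h1 : f (Pi.single σ 1, 0) = 0 := by
      rw [hf]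
      refine Finset.sum_eq_zero fun τ _ => ?_
      simp only [Pi.zero_apply, zero_smul, add_zero]
      by_cases hτ : τ = σ
      · subst hτ
        rw [h, smul_zero]
      · rw [Pi.single_eq_of_ne hτ, zero_smul]
    have h2 := hinj (h1.trans (map_zero f).symm)
    have h3 := congrFun (congrArg Prod.fst h2) σ
    simp at h3
  let g : ((F →+* ℝ) → ℂ) →ₗ[ℂ] B.V :=
    { toFun := fun c => ∑ σ, c σ • P ι σ u₁
      map_add' := by
        intro c d
        simp only [Pi.add_apply, add_smul, Finset.sum_add_distrib]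
      map_smul' := by
        intro r c
        rw [RingHom.id_apply, Finset.smul_sum]
        simp only [Pi.smul_apply, smul_eq_mul, mul_smul] }
  have hg : ∀ c, g c = ∑ σ, c σ • P ι σ u₁ := fun _ => rfl
  have hPg : ∀ c τ, P ι τ (g c) = c τ • P ι τ u₁ := by
    intro c τ
    rw [hg, map_sum, Finset.sum_eq_single τ]
    · rw [map_smul, hPP, if_pos rfl]
    · intro σ _ hσ
      rw [map_smul, hPP, if_neg (fun h => hσ h.symm), smul_zero]
    · intro h
      exact absurd (Finset.mem_univ τ) h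
  have hginj : Function.Injective g := by
    rw [injective_iff_map_eq_zero]
    intro c hc
    funext τ
    have h := hPg c τ
    rw [hc, map_zero] at h
    exact (smul_eq_zero.1 h.symm).resolve_right (he τ)
  let e := LinearMap.linearEquivOfInjective g hginj (by
    rw [Module.finrank_fintype_fun_eq_card, hcard])
  have heg : ∀ c, e c = g c := fun c => rfl
  let ψ : B.V ≃ₗ[ℂ] ((F →+* ℝ) → ℂ) := e.symm
  have hgψ : ∀ v, g (ψ v) = v := by
    intro v
    rw [← heg]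
    exact e.apply_symm_apply v
  have hψg : ∀ c, ψ (g c) = c := by
    intro c
    rw [← heg]
    exact e.symm_apply_apply c
  have hPψ : ∀ v τ, P ι τ v = ψ v τ • P ι τ u₁ := by
    intro v τ
    have h := hPg (ψ v) τ
    rw [hgψ] at h
    exact h
  have hψι : ∀ x v σ, ψ (ι x v) σ = ((σ x : ℝ) : ℂ) * ψ v σ := by
    intro x v σ
    have h1 := hPψ (ι x v) σ
    rw [hPι, hPψ v σ, smul_smul] at h1
    exact (smul_left_injective ℂ (he σ) h1).symm
  have hψ1 : ∀ σ, ψ u₁ σ = 1 := by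
    intro σ
    have h1 : g (fun _ => 1) = u₁ := by
      rw [hg]
      simp only [one_smul]
      exact h1P u₁
    rw [← h1, hψg]
  have hψxy : ∀ (x y : F) σ, ψ (ι x u₁ + ι y u₂) σ =
      ((σ x : ℝ) : ℂ) + ((σ y : ℝ) : ℂ) * ψ u₂ σ := by
    intro x y σ
    rw [map_add, Pi.add_apply, hψι, hψι, hψ1, mul_one]
  refine ⟨ψ, ψ u₂, ?_, hψι, ?_, ?_⟩
  · intro σ him
    have h1 : P ι σ u₂ = (ψ u₂ σ).re • P ι σ u₁ := by
      have h2 := hPψ u₂ σ
      have h3 : ψ u₂ σ = (((ψ u₂ σ).re : ℝ) : ℂ) := by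
        apply Complex.ext
        · rw [Complex.ofReal_re]
        · rw [Complex.ofReal_im, him]
      rw [h3, Complex.coe_smul] at h2
      exact h2
    have h2 : f (Pi.single σ (ψ u₂ σ).re, Pi.single σ (-1)) = 0 := by
      rw [hf]
      refine Finset.sum_eq_zero fun τ _ => ?_
      by_cases hτ : τ = σ
      · subst hτ
        simp only [Pi.single_eq_same]
        rw [← h1, neg_smul, one_smul, add_neg_cancel]
      · simp only [Pi.single_eq_of_ne hτ, zero_smul, add_zero]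
    have h3 := hinj (h2.trans (map_zero f).symm)
    have h4 := congrFun (congrArg Prod.snd h3) σ
    simp at h4
  · intro v hv
    obtain ⟨x, y, h⟩ := hL v hv
    exact ⟨x, y, fun σ => by rw [h, hψxy]⟩
  · intro x y v h
    have h1 : v = ι x u₁ + ι y u₂ := by
      apply ψ.injective
      funext σ
      rw [h, hψxy]
    obtain ⟨N₁, hN₁, h₁⟩ := hu₁
    obtain ⟨N₂, hN₂, h₂⟩ := hu₂
    obtain ⟨M₁, hM₁, h₁'⟩ := hr x _ h₁
    obtain ⟨M₂, hM₂, h₂'⟩ := hr y _ h₂
    have e₁ : ((ι x).restrictScalars ℝ) (N₁ • u₁) = N₁ • ι x u₁ := by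
      show ι x (N₁ • u₁) = _
      rw [map_nsmul]
    have e₂ : ((ι y).restrictScalars ℝ) (N₂ • u₂) = N₂ • ι y u₂ := by
      show ι y (N₂ • u₂) = _
      rw [map_nsmul]
    rw [e₁, ← mul_smul] at h₁'
    rw [e₂, ← mul_smul] at h₂'
    refine ⟨(M₁ * N₁) * (M₂ * N₂), mul_ne_zero (mul_ne_zero hM₁ hN₁) (mul_ne_zero hM₂ hN₂), ?_⟩
    rw [h1, smul_add]
    refine B.L.add_mem ?_ ?_
    · rw [mul_comm, mul_smul]
      exact B.L.nsmul_mem h₁' _
    · rw [mul_smul]
      exact B.L.nsmul_mem h₂' _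

end RMc

/-- The normal form of an abelian variety with real multiplication. -/
def S_RMc : Prop :=
  ∀ (B : AV) (F : Type) [Field F] [NumberField F] [NumberField.IsTotallyReal F]
    (ι : F →+* Module.End ℂ B.V), Module.finrank ℚ F = Module.finrank ℂ B.V →
    (∀ x, RatEnd B ((ι x).restrictScalars ℝ)) →
    ∃ (ψ : B.V ≃ₗ[ℂ] ((F →+* ℝ) → ℂ)) (t : (F →+* ℝ) → ℂ), (∀ σ, (t σ).im ≠ 0) ∧
      (∀ x v σ, ψ (ι x v) σ = ((σ x : ℝ) : ℂ) * ψ v σ) ∧
      (∀ v ∈ B.L, ∃ x y : F, ∀ σ, ψ v σ = ((σ x : ℝ) : ℂ) + ((σ y : ℝ) : ℂ) * t σ) ∧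
      ∀ (x y : F) (v : B.V), (∀ σ, ψ v σ = ((σ x : ℝ) : ℂ) + ((σ y : ℝ) : ℂ) * t σ) →
        ∃ N : ℕ, N ≠ 0 ∧ N • v ∈ B.L

theorem tRMc : S_RMc := fun _ _ _ _ _ ι hd hr => RMc.rmc ι hr hd

end HC
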