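import Pool.Agent.Lib.HC.L.E.Bas

/-!
# PROJECT HC+, PART 3: specification (helper12)

Real multiplication without Goursat. In suitable complex coordinates `ψ : B.V ≃ ℂ^ι` the
relevant rational endomorphisms act coordinatewise by `z ↦ α_i I z + β_i z̄` (`α_i` real, `β_i`
complex; this is `sl₂(ℝ)` at every `i`, and `mulI = (1, 0)`).

Every module: `theorem tXyz : (S_.. →) S_Xyz`, file `HC/L/E/Xyz.lean`, import only Spec (and what
you name). Proofs in the docstrings.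
-/

set_option autoImplicit false

open scoped ComplexConjugate

noncomputable section

namespace HC

namespace E

/-! ## Good abelian varieties -/

/-- `X` acts on the coordinate `i` by `z ↦ α_i I z + β_i z̄`. -/
def IsOp {B : AV} {ι : Type} (ψ : B.V ≃ₗ[ℂ] (ι → ℂ)) (X : Module.End ℝ B.V)
    (α : ι → ℝ) (β : ι → ℂ) : Prop :=
  ∀ v i, ψ (X v) i = α i * Complex.I * ψ v i + β i * conj (ψ v i)

/-- A `ℚ`-subspace of the endomorphisms. -/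
structure IsQSp {B : AV} (h : Set (Module.End ℝ B.V)) : Prop where
  zero : (0 : Module.End ℝ B.V) ∈ h
  add : ∀ X ∈ h, ∀ Y ∈ h, X + Y ∈ h
  smul : ∀ q : ℚ, ∀ X ∈ h, (q : ℝ) • X ∈ h

/-- A `ℚ`-Lie algebra of endomorphisms. -/
structure IsQLie {B : AV} (h : Set (Module.End ℝ B.V)) : Prop extends IsQSp h where
  br : ∀ X ∈ h, ∀ Y ∈ h, X * Y - Y * X ∈ h

/-- Good coordinates. -/
structure GC (B : AV) (ι : Type) where
  ψ : B.V ≃ₗ[ℂ] (ι → ℂ)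
  s : Set (Module.End ℝ B.V)
  lie : IsQLie s
  rat : ∀ X ∈ s, RatEnd B X
  op : ∀ X ∈ s, ∃ α β, IsOp ψ X α β
  J : mulI B ∈ Submodule.span ℝ s
  big : ∀ h ⊆ s, IsQLie h → mulI B ∈ Submodule.span ℝ h →
    ∀ i, ∃ X ∈ h, ∃ α β, IsOp ψ X α β ∧ β i ≠ 0

/-- `B` is good. -/
def Good (B : AV) : Prop := ∃ (ι : Type) (_ : Fintype ι), Nonempty (GC B ι)

/-! ## The structure theorem -/

/-- The commutator of `(α, β)` and `(α', β')`. -/
def brk {ι : Type} (x y : (ι → ℝ) × (ι → ℂ)) : (ι → ℝ) × (ι → ℂ) :=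
  (fun i => 2 * (x.2 i * conj (y.2 i)).im,
    fun i => 2 * Complex.I * (x.1 i * y.2 i - y.1 i * x.2 i))

/-- STRUCTURE THEOREM. PROOF. `brk (1,0) (α,β) = (0, 2 I β)`, twice: `(0, -4 β)`; so `g = g₀ ⊕ g₁`,
`g₁` a complex subspace, `g₀` a real subspace, `1 ∈ g₀`. `α ∈ g₀, β ∈ g₁ ⇒ α β ∈ g₁`;
`β, β' ∈ g₁ ⇒ Re (β β̄'), Im (β β̄') ∈ g₀` (`g₁` is complex). There is `β ∈ g₁` with all `β_i ≠ 0`
(a complex vector space is not a finite union of proper subspaces; or: induction, `β + t β'` for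
small / all but finitely many `t`). `r = |β|² > 0`. `r^k α β ∈ g₁` for `α ∈ g₀`; by interpolation
`r⁻¹ = p(r)` on the finite set of values, so `r⁻¹ α β ∈ g₁`, `α' (r⁻¹ α β) ∈ g₁`, and pairing with
`β`: `α α' ∈ g₀`. So `g₀` is a unital subalgebra of `ℝ^ι`: `κ` = classes of `i ~ j :⇔ α_i = α_j`
for all `α ∈ g₀`; products of `(α - α_j)/(α_i - α_j)` give the indicator functions of the classes:
`g₀ = {a ∘ K}`. `ω = β / √r` (`√r ∈ g₀`, `1/√r ∈ g₀`): `ω ∈ g₁`, `|ω| = 1`. For `β' ∈ g₁`: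
`β' ω̄` has real and imaginary parts in `g₀`: `β' = (c ∘ K) ω`. -/
def S_ST : Prop :=
  ∀ (ι : Type) [Fintype ι] (g : Submodule ℝ ((ι → ℝ) × (ι → ℂ))),
    (∀ x ∈ g, ∀ y ∈ g, brk x y ∈ g) → ((fun _ => 1, fun _ => 0) ∈ g) →
    (∀ i, ∃ x ∈ g, x.2 i ≠ 0) →
    ∃ (κ : Type) (_ : Fintype κ) (K : ι → κ) (ω : ι → ℂ), (∀ i, ‖ω i‖ = 1) ∧
      ∀ x, x ∈ g ↔ ∃ (a : κ → ℝ) (c : κ → ℂ), x = (fun i => a (K i), fun i => c (K i) * ω i)

/-- Operators: sums, multiples, products; uniqueness; `mulI = (1, 0)`. -/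
def S_Op : Prop :=
  (∀ (B : AV) (ι : Type) (ψ : B.V ≃ₗ[ℂ] (ι → ℂ)) (X Y : Module.End ℝ B.V) (α α' : ι → ℝ)
    (β β' : ι → ℂ), IsOp ψ X α β → IsOp ψ Y α' β' →
      IsOp ψ (X + Y) (α + α') (β + β') ∧ (∀ r : ℝ, IsOp ψ (r • X) (r • α) (r • β)) ∧
      IsOp ψ (X * Y - Y * X) (brk (α, β) (α', β')).1 (brk (α, β) (α', β')).2 ∧
      (X = Y ↔ (α = α' ∧ β = β'))) ∧
  (∀ (B : AV) (ι : Type) (ψ : B.V ≃ₗ[ℂ] (ι → ℂ)), IsOp ψ (mulI B) (fun _ => 1) (fun _ => 0)) ∧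
  (∀ (B : AV) (ι : Type) (ψ : B.V ≃ₗ[ℂ] (ι → ℂ)) (α : ι → ℝ) (β : ι → ℂ), ∃ X, IsOp ψ X α β)

/-- Rotation of the coordinates: `ψ'_i = μ_i ψ_i`, `μ_i² = ω̄_i`. -/
def S_Rot : Prop :=
  ∀ (B : AV) (ι : Type) (ψ : B.V ≃ₗ[ℂ] (ι → ℂ)) (ω : ι → ℂ), (∀ i, ‖ω i‖ = 1) →
    ∃ ψ' : B.V ≃ₗ[ℂ] (ι → ℂ), ∀ X α β,
      IsOp ψ X α (fun i => β i * ω i) ↔ IsOp ψ' X α β

/-- FLAT: `J = ∑ ρ_t X_t`, `ρ_t` linearly independent over `ℚ`, `X_t ∈ h` (S_Lb, or directly). A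
`ℚ`-linear function on the rational endomorphisms (matrices over `ℚ` in a lattice basis) which
vanishes on `s` extends to an `ℝ`-linear one, which vanishes at `J`, so at every `X_t`: `X_t ∈ s`. -/
def S_Flat : Prop :=
  ∀ (B : AV) (h s : Set (Module.End ℝ B.V)) (J : Module.End ℝ B.V), (∀ X ∈ h, RatEnd B X) →
    (∀ X ∈ s, RatEnd B X) → IsQSp h → IsQSp s → J ∈ Submodule.span ℝ h →
    J ∈ Submodule.span ℝ s → J ∈ Submodule.span ℝ (h ∩ s)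

/-- A good abelian variety has a perfect Hodge Lie algebra. PROOF. `h` as in `SSH`, `h'` its
`ℚ`-span, `h₀ = h' ∩ s`: `J ∈ span_ℝ h₀` (S_Flat). `g` = pairs of the elements of `span_ℝ h₀`
(S_Op): S_ST (`big`) gives `(0,ω), (0, I ω) ∈ g` and `brk (0,ω) (0,I ω) = (-2, 0)`. So `J` is a real
combination of commutators of elements of `h₀`, so of `h`. -/
def S_G3 : Prop := S_ST → S_Op → S_Flat → ∀ B : AV, Good B → SSH B

/-- The inverse of an isogeny. -/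
def S_IsoInv : Prop :=
  ∀ (T T' : AV) (ψ : T.V ≃ₗ[ℂ] T'.V), (∀ v ∈ T.L, ∃ N : ℕ, N ≠ 0 ∧ N • ψ v ∈ T'.L) →
    ∀ v ∈ T'.L, ∃ N : ℕ, N ≠ 0 ∧ N • ψ.symm v ∈ T.L

/-- Products. PROOF. `ι ⊕ ι'`, `s = {(X, Y)}` (S_IsoInv for `RatEnd`); for `h ⊆ s`: the set of the
`X` with `(X, Y) ∈ h` is a `ℚ`-Lie algebra with `mulI A` in its real span. -/
def S_G2 : Prop :=
  S_L0 → S_IsoInv → ∀ A B T : AV, Good A → Good B → IsProd T A B → Good T

/-! ## G1: real multiplication -/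

/-- Normal form: `L ⊗ ℚ = {(σ x + σ y t_σ)_σ | x, y ∈ F}`. -/
structure NF (B : AV) (F : Type) [Field F] where
  t : (F →+* ℝ) → ℂ
  im : ∀ σ, (t σ).im ≠ 0
  ψ : B.V ≃ₗ[ℂ] ((F →+* ℝ) → ℂ)
  lat : ∀ v ∈ B.L, ∃ x y : F, ∀ σ, ψ v σ = (σ x : ℂ) + (σ y : ℂ) * t σ
  mem : ∀ x y : F, ∃ N : ℕ, N ≠ 0 ∧ N • ψ.symm (fun σ => (σ x : ℂ) + (σ y : ℂ) * t σ) ∈ B.L

/-- PROOF. `L ⊗ ℚ` is an `F`-vector space of dimension 2: `u, w ∈ L`, `f_1, …, f_g` a `ℚ`-basis of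
`F`: the `f_k u`, `f_k w` are linearly independent over `ℚ` in `ℚ L`, so a real basis of `B.V`.
`ℝ`-linear iso `B.V → ∏_σ ℝ²`, `f_k u ↦ (σ f_k, 0)_σ`, `f_k w ↦ (0, σ f_k)_σ` (the matrix
`(σ f_k)` is invertible, `F` totally real has `g` real embeddings); `x ∈ F` becomes `σ x`; the
multiplication by `i` commutes with `F`, so it acts on every `ℝ²_σ` (separation by a primitive
element) by `J_σ`, `J_σ² = -1`, `J_σ (1,0) = (a,b)`, `b ≠ 0`, `t_σ = (i - a)/b`: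
`(p, q) ↦ p + q t_σ` is `ℂ`-linear. -/
def S_NF : Prop :=
  ∀ B : AV, IsRM B → ∃ (F : Type) (_ : Field F) (_ : NumberField F)
    (_ : NumberField.IsTotallyReal F), Nonempty (NF B F)

/-- `X` has the matrix `(a b; c -a)` over `F` in the basis `1, t_σ`. -/
def IsF {B : AV} {F : Type} [Field F] (N : NF B F) (X : Module.End ℝ B.V) (a b c : F) : Prop :=
  ∀ (v : B.V) (σ : F →+* ℝ) (p q : ℝ), N.ψ v σ = (p : ℂ) + (q : ℂ) * N.t σ →
    N.ψ (X v) σ = ((σ a * p + σ b * q : ℝ) : ℂ) + ((σ c * p - σ a * q : ℝ) : ℂ) * N.t σ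

/-- The Lie algebra `sl₂(F)` of the normal form. PROOF. Elementary. (`J ∈ span`: the entries of the
matrix of `i` in the basis `1, t_σ` are real functions of `σ`, and every real function of `σ` is a
real combination of the `(σ f)_σ`, `f ∈ F`.) `α`, `β` of `X`: `z ↦ σ`-component is real linear of
trace 0. -/
def S_SL : Prop :=
  ∀ (B : AV) (F : Type) [Field F] [NumberField F] [NumberField.IsTotallyReal F] (N : NF B F),
    IsQLie {X : Module.End ℝ B.V | ∃ a b c, IsF N X a b c} ∧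
    (∀ X, (∃ a b c, IsF N X a b c) → RatEnd B X ∧ ∃ α β, IsOp N.ψ X α β) ∧
    mulI B ∈ Submodule.span ℝ {X : Module.End ℝ B.V | ∃ a b c, IsF N X a b c} ∧
    (∀ X a b c, IsF N X a b c → ∀ σ, (∀ v, N.ψ (X v) σ = 0) → X = 0) ∧
    (∀ X a b c, IsF N X a b c → ∀ v σ, N.ψ (X (X v)) σ = (σ (a * a + b * c) : ℂ) * N.ψ v σ)

/-- A CM field acts. (helper47) -/
def S_CMK : Prop :=
  ∀ (B : AV) (K : Type) [Field K] [NumberField K] [NumberField.IsCMField K]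
    (ρ : K →+* Module.End ℂ B.V), Module.finrank ℚ K = 2 * Module.finrank ℂ B.V →
    (∀ x : K, RatEnd B ((ρ x).restrictScalars ℝ)) → IsCM B

/-- CM DETECTION. PROOF. `X, Y ∈ h`: `[X,Y]` vanishes at `i`, so `[X,Y] = 0` (S_SL). So every
`X ∈ h` commutes with `mulI`: it is complex linear, `X = α_σ I` at `σ`. Take `X ∈ h`, `X ≠ 0`
(`mulI ≠ 0`); `X² = x ∈ F` (S_SL), `σ x = -α_σ² ≤ 0`, `x ≠ 0` (else all `α_σ = 0`, `X = 0`): `x` is
totally negative, `K = F[T]/(T² - x)` is a CM field of degree `2 [F : ℚ] = 2 dim B` and acts by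
`F` and `T ↦ X`. S_CMK. -/
def S_CMD : Prop :=
  S_Op → S_SL → S_CMK → ∀ (B : AV) (F : Type) [Field F] [NumberField F]
    [NumberField.IsTotallyReal F] (N : NF B F) (h : Set (Module.End ℝ B.V)),
    (∀ X ∈ h, ∃ a b c, IsF N X a b c) → IsQLie h → mulI B ∈ Submodule.span ℝ h →
    ∀ i, (∀ X ∈ h, ∀ α β, IsOp N.ψ X α β → β i = 0) → IsCM B

/-- G1. PROOF. From S_NF, S_SL, S_CMD. -/
def S_G1 : Prop :=
  S_NF → S_SL → S_CMD → S_Op → S_CMK → ∀ B : AV, IsRM B → ¬ IsCM B → Good B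

/-! ## Alternating forms (pure; `W` any complex vector space) -/

/-- Calculus of `der`, `wdl`, `curryLeft`. PROOF. Termwise. -/
def S_Der : Prop :=
  (∀ (W : Type) [AddCommGroup W] [Module ℂ W] (m : ℕ) (c : W [⋀^Fin m]→ₗ[ℂ] ℂ)
    (x : Module.Dual ℂ W) (z : W), (wdl x c).curryLeft z = x z • c - der (rk z x) c) ∧
  (∀ (W : Type) [AddCommGroup W] [Module ℂ W] (m : ℕ) (c : W [⋀^Fin m]→ₗ[ℂ] ℂ)
    (x : Module.Dual ℂ W) (X : Module.End ℂ W),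
      der X (wdl x c) = wdl (x ∘ₗ X) c + wdl x (der X c)) ∧
  (∀ (W : Type) [AddCommGroup W] [Module ℂ W] (m : ℕ) (c : W [⋀^Fin m]→ₗ[ℂ] ℂ)
    (x y : Module.Dual ℂ W), wdl x (wdl y c) = -wdl y (wdl x c)) ∧
  (∀ (W : Type) [AddCommGroup W] [Module ℂ W] (m : ℕ) (c : W [⋀^Fin m]→ₗ[ℂ] ℂ)
    (X Y : Module.End ℂ W) (a : Fin m → W), der X (der Y c) a = der (Y * X) c a +
      ∑ p, ∑ q ∈ Finset.univ.erase p,
        c (Function.update (Function.update a p (X (a p))) q (Y (a q)))) ∧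
  (∀ (W : Type) [AddCommGroup W] [Module ℂ W] (m : ℕ) (X Y : Module.End ℂ W) (r : ℂ)
    (c d : W [⋀^Fin m]→ₗ[ℂ] ℂ), der (X + Y) c = der X c + der Y c ∧
      der (r • X) c = r • der X c ∧ der X (c + d) = der X c + der X d ∧
      der X (r • c) = r • der X c) ∧
  (∀ (W : Type) [AddCommGroup W] [Module ℂ W] (m : ℕ) (x y : Module.Dual ℂ W) (r : ℂ)
    (c d : W [⋀^Fin m]→ₗ[ℂ] ℂ), wdl (x + y) c = wdl x c + wdl y c ∧
      wdl (r • x) c = r • wdl x c ∧ wdl x (c + d) = wdl x c + wdl x d ∧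
      wdl x (r • c) = r • wdl x c)

variable {W : Type} [AddCommGroup W] [Module ℂ W] {ι κ : Type}

/-- Basis `z_i = b (i, false)`, `z̄_i = b (i, true)` of `W`, blocks `K : ι → κ`. `e_k : z_i ↦ z̄_i`,
`f_k : z̄_i ↦ z_i` for `K i = k`, other basis vectors `↦ 0`. -/
def eK [Fintype ι] (b : Module.Basis (ι × Bool) ℂ W) (K : ι → κ) [DecidableEq κ] (k : κ) :
    Module.End ℂ W :=
  ∑ i, if K i = k then rk (b (i, true)) (b.coord (i, false)) else 0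

/-- `f_k : z̄_i ↦ z_i`. -/
def fK [Fintype ι] (b : Module.Basis (ι × Bool) ℂ W) (K : ι → κ) [DecidableEq κ] (k : κ) :
    Module.End ℂ W :=
  ∑ i, if K i = k then rk (b (i, false)) (b.coord (i, true)) else 0

/-- The projection on the `z_i`, `K i = k`. -/
def nA [Fintype ι] (b : Module.Basis (ι × Bool) ℂ W) (K : ι → κ) [DecidableEq κ] (k : κ) :
    Module.End ℂ W :=
  ∑ i, if K i = k then rk (b (i, false)) (b.coord (i, false)) else 0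

/-- The projection on the `z̄_i`, `K i = k`. -/
def nB [Fintype ι] (b : Module.Basis (ι × Bool) ℂ W) (K : ι → κ) [DecidableEq κ] (k : κ) :
    Module.End ℂ W :=
  ∑ i, if K i = k then rk (b (i, true)) (b.coord (i, true)) else 0

/-- `c` is killed by all blocks of `sl₂`. -/
def Inv [Fintype ι] (b : Module.Basis (ι × Bool) ℂ W) (K : ι → κ) [DecidableEq κ] {m : ℕ}
    (c : W [⋀^Fin m]→ₗ[ℂ] ℂ) : Prop :=
  ∀ k, der (eK b K k) c = 0 ∧ der (fK b K k) c = 0 ∧ der (nA b K k) c = der (nB b K k) c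

/-- `x_i ∧ x̄_j ∧ c + x_j ∧ x̄_i ∧ c`. -/
def wE (b : Module.Basis (ι × Bool) ℂ W) (i j : ι) {m : ℕ} (c : W [⋀^Fin m]→ₗ[ℂ] ℂ) :
    W [⋀^Fin (m + 2)]→ₗ[ℂ] ℂ :=
  wdl (b.coord (i, false)) (wdl (b.coord (j, true)) c) +
    wdl (b.coord (j, false)) (wdl (b.coord (i, true)) c)

/-- The contraction with `z_i ∧ z̄_j + z_j ∧ z̄_i`. -/
def cE (b : Module.Basis (ι × Bool) ℂ W) (i j : ι) {m : ℕ} (c : W [⋀^Fin (m + 2)]→ₗ[ℂ] ℂ) :
    W [⋀^Fin m]→ₗ[ℂ] ℂ :=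
  (c.curryLeft (b (i, false))).curryLeft (b (j, true)) +
    (c.curryLeft (b (j, false))).curryLeft (b (i, true))

/-- `wE` preserves invariants. PROOF. S_Der; `x̄_j ∘ e_k = x_j`, `x_i ∘ e_k = 0`,
`x_i ∘ f_k = x̄_i`, ... for `K i = K j = k`; antisymmetry. -/
def S_InvW : Prop :=
  S_Der → ∀ (W : Type) [AddCommGroup W] [Module ℂ W] (ι κ : Type) [Fintype ι] [DecidableEq κ]
    (b : Module.Basis (ι × Bool) ℂ W) (K : ι → κ) (i j : ι), K i = K j → ∀ (m : ℕ)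
    (c : W [⋀^Fin m]→ₗ[ℂ] ℂ), Inv b K c → Inv b K (wE b i j c)

/-- THE CASIMIR FORMULA. PROOF. By S_Der, for all `x, y, z, w`:
`(x ∧ y ∧ c).curryLeft z .curryLeft w = (x z · y w - y z · x w) c - x z · der (rk w y) c
 + y z · der (rk w x) c - y w · der (rk z x) c + der (rk w y) (der (rk z x) c)`.
Sum over `i, j` in the block `k` (`n` elements) for `(x_i, x̄_j, z_i, z̄_j)`:
`(n - N_B)(n - N_A) c`. For `(x_j, x̄_i, z_i, z̄_j)`: `(n - N_B - N_A) c + ∑ der (rk z̄_j x̄_i)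
(der (rk z_i x_j) c)`; the last sum is (S_Der (4), `(rk z_i x_j) (rk z̄_j x̄_i) = 0`)
`∑_(p ≠ q) ∑_(i,j) x̄_i(a_p) x_j(a_q) c(a[p := z̄_j, q := z_i])
 = -∑_(p ≠ q) c(a[p := f a_p, q := e a_q]) = -(der f (der e c) - der (e f) c) = N_B c`
(`e f` = projection `nB`). Total `(n - N_A)(n - N_B + 1)`; the other two of the four terms are equal to
these by symmetry. -/
def S_Cas : Prop :=
  S_Der → ∀ (W : Type) [AddCommGroup W] [Module ℂ W] (ι κ : Type) [Fintype ι] [DecidableEq κ]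
    (b : Module.Basis (ι × Bool) ℂ W) (K : ι → κ) (k : κ) (m : ℕ)
    (c : W [⋀^Fin m]→ₗ[ℂ] ℂ) (ν : ℂ), der (eK b K k) c = 0 →
    der (nA b K k) c = ν • c → der (nB b K k) c = ν • c →
    (∑ i, ∑ j, if K i = k ∧ K j = k then cE b i j (wE b i j c) else 0) =
      (2 * ((Finset.univ.filter fun i => K i = k).card - ν) *
        ((Finset.univ.filter fun i => K i = k).card - ν + 1)) • c

/-- Decomposition into block degrees. PROOF. `c_δ(a) = (1/m!) ∑_(s of degree δ) c(b_s) det(...)`, or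
`c_δ = ∑_(s of degree δ) c(b_s) ∏ b.coord (s p) (a p)` (alternating: the set of `s` of degree `δ` is
stable under permutations); `c_δ(b_s) = c(b_s)` if `deg s = δ`, else 0. A block preserving
endomorphism (`e_k`, `f_k`, `n_k`) commutes with `c ↦ c_δ`. -/
def S_Dec : Prop :=
  S_Der → ∀ (W : Type) [AddCommGroup W] [Module ℂ W] (ι κ : Type) [Fintype ι] [Fintype κ]
    [DecidableEq κ] (b : Module.Basis (ι × Bool) ℂ W) (K : ι → κ) (m : ℕ)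
    (c : W [⋀^Fin m]→ₗ[ℂ] ℂ), Inv b K c →
    ∃ (n : ℕ) (d : Fin n → W [⋀^Fin m]→ₗ[ℂ] ℂ) (δ : Fin n → κ → ℕ), c = ∑ l, d l ∧
      ∀ l, Inv b K (d l) ∧ ∑ k, δ l k = m ∧
        ∀ k, der (nA b K k) (d l) + der (nB b K k) (d l) = (δ l k : ℂ) • d l

/-! ## Good abelian varieties satisfy the Hodge conjecture -/

/-- The coordinate functions and their conjugates are a basis. -/
def S_Bs : Prop :=
  ∀ (T : AV) (ι : Type) [Fintype ι] (ψ : T.V ≃ₗ[ℂ] (ι → ℂ)),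
    ∃ b : Module.Basis (ι × Bool) ℂ (T.V →ₗ[ℝ] ℂ), (∀ i v, b (i, false) v = ψ v i) ∧
      ∀ i v, b (i, true) v = conj (ψ v i)

/-- From real operators to `e_k`, `f_k`, `n_k`. PROOF. `lieAct X c = der (cmp X) c`, complex linear in
`cmp X`; `X₁ : (0, 1_k)`: `z_i ↦ z̄_i ↦ z_i`; `X₂ : (0, I 1_k)`: `z_i ↦ I z̄_i`, `z̄_i ↦ -I z_i`;
`e_k = (X₁ - I X₂)/2`, `f_k = (X₁ + I X₂)/2`; `(1_k, 0)`: `I (n_A - n_B)`. -/
def S_Cx : Prop :=
  S_Der → S_Op → ∀ (T : AV) (ι κ : Type) [Fintype ι] [Fintype κ] [DecidableEq κ]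
    (ψ : T.V ≃ₗ[ℂ] (ι → ℂ)) (K : ι → κ) (b : Module.Basis (ι × Bool) ℂ (T.V →ₗ[ℝ] ℂ)),
    (∀ i v, b (i, false) v = ψ v i) → (∀ i v, b (i, true) v = conj (ψ v i)) →
    ∀ (m : ℕ) (c : Hlg T m), (∀ (X : Module.End ℝ T.V) (a : κ → ℝ) (r : κ → ℂ),
      IsOp ψ X (fun i => a (K i)) (fun i => r (K i)) → ∀ f, lieAct X c f = 0) → Inv b K c

/-- Degrees `≥ 2 dim T` are algebraic. PROOF. `m > 2 dim`: `c = 0`. `m = 2 dim`: `c` is a multiple of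
`fund_class` (HC/P/Wtl.lean). -/
def S_Top : Prop := ∀ (T : AV) (m : ℕ) (c : Hlg T m), 2 * Module.finrank ℂ T.V ≤ m → Alg T m c

/-- Contraction with a 2-form killed by `h`. PROOF. Lattice basis `ξ`, `cf ξ` dual forms; the values
`ω(ξ_a, ξ_a') = ∑_t λ_t q_t(a,a')`, `λ_t ∈ ℂ` linearly independent over `ℚ`, `q_t` rational and
alternating; `ω = ∑ λ_t ω_t`. `X ∈ h`: `∑ λ_t (X ω_t)(ξ,ξ') = 0` with rational `(X ω_t)(ξ,ξ')`: every
`ω_t` is killed by `h`, so by `mulI` (in the real span), so `ω_t(i u, i v) = ω_t(u, v)`: `IsDiv`.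
`Alg.cap_of_span` (HC/B/Cap.lean). -/
def S_Div : Prop :=
  ∀ (T : AV) (h : Set (Module.End ℝ T.V)), (∀ X ∈ h, RatEnd T X) →
    mulI T ∈ Submodule.span ℝ h → ∀ (r : ℕ) (p q : Fin r → (T.V →ₗ[ℝ] ℂ)),
    (∀ X ∈ h, ∀ u v : T.V, ∑ j, (p j (X u) * q j v - p j v * q j (X u) +
      (p j u * q j (X v) - p j (X v) * q j u)) = 0) →
    ∀ (m : ℕ) (c : Hlg T (m + 2)), Alg T (m + 2) c → Alg T m (cap p q c)

/-- Downward induction. PROOF. `P(m)`: all invariant `c` of degree `m` are algebraic. `m ≥ 2 g`: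
S_Top. `m < 2 g`, from `P(m + 2)`: S_Dec; `d l` with degrees `δ`, `∑ δ_k = m < 2 g = ∑ 2 n_k`: a `k`
with `δ_k < 2 n_k`; `N_A = N_B = δ_k / 2` on `d l`; S_Cas with `ν = δ_k / 2`: the factor is `≠ 0`;
`wE b i j (d l)` is invariant (S_InvW), algebraic by `P(m+2)`, `cE` by hypothesis. -/
def S_Dn : Prop :=
  S_Der → S_InvW → S_Cas → S_Dec → S_Top → ∀ (T : AV) (ι κ : Type) [Fintype ι] [Fintype κ]
    [DecidableEq κ] (K : ι → κ) (b : Module.Basis (ι × Bool) ℂ (T.V →ₗ[ℝ] ℂ)),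
    (∀ i j, K i = K j → ∀ (m : ℕ) (c : Hlg T (m + 2)), Alg T (m + 2) c → Alg T m (cE b i j c)) →
    ∀ (m : ℕ) (c : Hlg T m), Inv b K c → Alg T m c

/-- G4. PROOF. `c` Hodge; S_La, S_Lb (`M = s`): `J = ∑ ρ_t X_t`, `X_t ∈ s`, `X_t.c = 0`;
`h = {X ∈ s | X.c = 0}` is a `ℚ`-Lie algebra (S_La'), `J ∈ span_ℝ h`. `g` = pairs of the elements of
`span_ℝ h`: S_ST (`big`), S_Rot: `g = {(a ∘ K, c ∘ K)}` in the new coordinates; all of `g` kills
`c`: S_Cx, S_Dn. The form `z_i ∧ z̄_j + z_j ∧ z̄_i`, `K i = K j`, is killed by all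
`(a ∘ K, c ∘ K)`: S_Div gives the hypothesis of S_Dn (`cE b i j c = cap ![z_i, z_j] ![z̄_j, z̄_i] c`). -/
def S_G4 : Prop :=
  S_La → S_La' → S_Lb → S_ST → S_Op → S_Rot → S_Bs → S_Cx → S_Der → S_InvW → S_Cas → S_Dec →
    S_Top → S_Div → S_Dn → ∀ B : AV, Good B → HCj B

/-! ## Regrouping -/

/-- `A`, `B` of CM type: the product is of CM type. (helper47) -/
def S_CMP : Prop := ∀ A B T : AV, IsCM A → IsCM B → IsProd T A B → IsCM T

/-- There is an abelian variety of dimension 0; it is good. -/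
def S_Nul : Prop := ∃ Z : AV, Module.finrank ℂ Z.V = 0 ∧ Good Z ∧ ∀ T : AV, IsProd T T Z

/-- Regrouping. PROOF. Induction on `n` with products `Pd` (S_L0): the CM factors go to `A`, the
others to the good part; `IsProd` is transitive in the obvious ways. -/
def S_Reg : Prop :=
  S_L0 → S_CMP → (∀ A B T : AV, Good A → Good B → IsProd T A B → Good T) → S_Nul →
    (∀ B : AV, IsRM B → ¬ IsCM B → Good B) →
    ∀ (A T : AV) (n : ℕ) (B : Fin n → AV), IsCM A → (∀ i, IsRM (B i)) → IsProdE T A B →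
      ∃ A' B' : AV, IsCM A' ∧ Good B' ∧ IsProd T A' B'

/-- **The assembly of part 3.** -/
theorem part3_of (h2 : Part2) (hR : ∀ (A T : AV) (n : ℕ) (B : Fin n → AV), IsCM A →
    (∀ i, IsRM (B i)) → IsProdE T A B → ∃ A' B' : AV, IsCM A' ∧ Good B' ∧ IsProd T A' B')
    (h3 : ∀ B : AV, Good B → SSH B) (h4 : ∀ B : AV, Good B → HCj B) : Part3 := by
  intro A T n B hA hB hT
  obtain ⟨A', B', h5, h6, h7⟩ := hR A T n B hA hB hT
  exact h2 A' B' T h5 (h3 B' h6) (h4 B' h6) h7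

end E

end HC
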