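import Pool.Agent.Lib.HC.L.P2
import Pool.Agent.Lib.HC.L.G1.Main
import Pool.Agent.Lib.HC.L.E.ST
import Pool.Agent.Lib.HC.L.E.Op
import Pool.Agent.Lib.HC.L.E.Rot
import Pool.Agent.Lib.HC.L.E.Flat
import Pool.Agent.Lib.HC.L.E.G3
import Pool.Agent.Lib.HC.L.E.IsoInv
import Pool.Agent.Lib.HC.L.E.G2
import Pool.Agent.Lib.HC.L.E.CMK
import Pool.Agent.Lib.HC.L.E.Der
import Pool.Agent.Lib.HC.L.E.InvW
import Pool.Agent.Lib.HC.L.E.Cas2
import Pool.Agent.Lib.HC.L.E.Dec
import Pool.Agent.Lib.HC.L.E.Bs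
import Pool.Agent.Lib.HC.L.E.Cx
import Pool.Agent.Lib.HC.L.E.Top
import Pool.Agent.Lib.HC.L.E.Div
import Pool.Agent.Lib.HC.L.E.Dn
import Pool.Agent.Lib.HC.L.E.G4
import Pool.Agent.Lib.HC.L.E.Reg

/-!
# PROJECT HC+: the assembly of part 3 (helper12)
-/

set_option autoImplicit false

noncomputable section

namespace HC

/-- Good abelian varieties have a perfect Hodge Lie algebra. -/
theorem E.ssh_of_good : ∀ B : AV, E.Good B → SSH B := E.tG3 E.tST E.tOp E.tFlat

/-- Good abelian varieties satisfy the Hodge conjecture. -/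
theorem E.hcj_of_good : ∀ B : AV, E.Good B → HCj B :=
  E.tG4 L.pLa L.pLa' tLb E.tST E.tOp E.tRot E.tBs E.tCx E.tDer E.tInvW E.tCas E.tDec E.tTop
    E.tDiv E.tDn

/-- Products of good abelian varieties are good. -/
theorem E.good_prod : ∀ A B T : AV, E.Good A → E.Good B → IsProd T A B → E.Good T :=
  E.tG2 pL0 E.tIsoInv

/-- **Part 3** from the Hodge conjecture for abelian varieties of CM type. -/
theorem tPart3 (hCM : HodgeCM) : Part3 :=
  E.part3_of (tPart2 hCM) (E.tReg pL0 E.tCMP E.good_prod E.tNul G1.tG1) E.ssh_of_good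
    E.hcj_of_good

end HC
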