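import Pool.Agent.Lib.HC.L.Defs

/-!
# PROJECT HC+, PART 3: derivations and wedge products (helper12)
-/

set_option autoImplicit false

noncomputable section

namespace HC

namespace E

variable {W : Type} [AddCommGroup W] [Module ℂ W] {m : ℕ}

/-- `der X c (a_1, …, a_m) = ∑_p c(a_1, …, X a_p, …, a_m)`. -/
def der (X : Module.End ℂ W) (c : W [⋀^Fin m]→ₗ[ℂ] ℂ) : W [⋀^Fin m]→ₗ[ℂ] ℂ where
  toMultilinearMap := ∑ p, c.toMultilinearMap.compLinearMap
    (Function.update (fun _ => LinearMap.id) p X : Fin m → (W →ₗ[ℂ] W))
  map_eq_zero_of_eq' := by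
    classical
    intro v i j hv hij
    have key : ∀ p : Fin m, (c.toMultilinearMap.compLinearMap
        (Function.update (fun _ => LinearMap.id) p X : Fin m → (W →ₗ[ℂ] W))) v =
        c (Function.update v p (X (v p))) := by
      intro p
      rw [MultilinearMap.compLinearMap_apply]
      refine congrArg c (funext fun q => ?_)
      by_cases h : q = p
      · subst h
        rw [Function.update_self, Function.update_self]
      · rw [Function.update_of_ne h, Function.update_of_ne h]
        rfl
    show (∑ p, c.toMultilinearMap.compLinearMap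
      (Function.update (fun _ => LinearMap.id) p X : Fin m → (W →ₗ[ℂ] W))) v = 0
    rw [sum_apply, Finset.sum_congr rfl fun p _ => key p]
    rw [← Finset.add_sum_erase _ _ (Finset.mem_univ i),
      ← Finset.add_sum_erase _ _ (Finset.mem_erase.2 ⟨hij.symm, Finset.mem_univ j⟩)]
    have h1 : ∑ p ∈ (Finset.univ.erase i).erase j, c (Function.update v p (X (v p))) = 0 := by
      refine Finset.sum_eq_zero fun p hp => ?_
      have hpj : p ≠ j := (Finset.mem_erase.1 hp).1
      have hpi : p ≠ i := (Finset.mem_erase.1 (Finset.mem_erase.1 hp).2).1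
      refine c.map_eq_zero_of_eq _ ?_ hij
      rw [Function.update_of_ne hpi.symm, Function.update_of_ne hpj.symm, hv]
    have h2 : c (Function.update v i (X (v i))) + c (Function.update v j (X (v j))) = 0 := by
      have h3 : Function.update v j (X (v j)) =
          (Function.update v i (X (v i))) ∘ (Equiv.swap i j) := by
        funext q
        by_cases hqi : q = i
        · subst hqi
          rw [Function.comp_apply, Equiv.swap_apply_left, Function.update_of_ne hij,
            Function.update_of_ne hij.symm, hv]
        · by_cases hqj : q = j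
          · subst hqj
            rw [Function.comp_apply, Equiv.swap_apply_right, Function.update_self,
              Function.update_self, hv]
          · rw [Function.comp_apply, Equiv.swap_apply_of_ne_of_ne hqi hqj,
              Function.update_of_ne hqj, Function.update_of_ne hqi]
      rw [h3, c.map_swap _ hij, add_neg_cancel]
    rw [h1, add_zero, h2]

theorem der_apply (X : Module.End ℂ W) (c : W [⋀^Fin m]→ₗ[ℂ] ℂ) (a : Fin m → W) :
    der X c a = ∑ p, c (Function.update a p (X (a p))) := by
  show (∑ p, c.toMultilinearMap.compLinearMap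
      (Function.update (fun _ => LinearMap.id) p X : Fin m → (W →ₗ[ℂ] W))) a = _
  rw [sum_apply]
  refine Finset.sum_congr rfl fun p _ => ?_
  rw [MultilinearMap.compLinearMap_apply]
  refine congrArg c (funext fun q => ?_)
  by_cases h : q = p
  · subst h
    rw [Function.update_self, Function.update_self]
  · rw [Function.update_of_ne h, Function.update_of_ne h]
    rfl

/-- `wdl x c (a_0, …, a_m) = ∑_p (-1)^p x(a_p) c(a_0, …, a_m without a_p)`. -/
def wdl (x : Module.Dual ℂ W) (c : W [⋀^Fin m]→ₗ[ℂ] ℂ) : W [⋀^Fin (m + 1)]→ₗ[ℂ] ℂ :=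
  AlternatingMap.alternatizeUncurryFin (x.smulRight c)

theorem wdl_apply (x : Module.Dual ℂ W) (c : W [⋀^Fin m]→ₗ[ℂ] ℂ) (a : Fin (m + 1) → W) :
    wdl x c a = ∑ p : Fin (m + 1), (-1) ^ (p : ℕ) • (x (a p) * c (p.removeNth a)) := by
  rw [wdl, AlternatingMap.alternatizeUncurryFin_apply]
  rfl

/-- `a ↦ x(a) z`. -/
def rk (z : W) (x : Module.Dual ℂ W) : Module.End ℂ W := x.smulRight z

theorem rk_apply (z : W) (x : Module.Dual ℂ W) (a : W) : rk z x a = x a • z := rfl

end E

end HC
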