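import Pool.Agent.Lib.HC.L.E.SpecL

/-!
# PROJECT HC+, part 3 (elliptic curves): a lattice basis of an elliptic curve
-/

set_option autoImplicit false

noncomputable section

namespace HC

theorem pBas : S_Bas := by
  intro E hE
  haveI : FiniteDimensional ℝ E.V := FiniteDimensional.complexToReal E.V
  haveI : Module.Finite ℤ E.L := ZLattice.module_finite ℝ E.L
  haveI : Module.Free ℤ E.L := ZLattice.module_free ℝ E.L
  have h2 : Module.finrank ℝ E.V = 2 := by
    rw [finrank_real_of_complex, hE]
  let b0 := Module.Free.chooseBasis ℤ E.L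
  let b1 : Module.Basis _ ℝ E.V := b0.ofZLatticeBasis ℝ E.L
  have hc : Fintype.card (Module.Free.ChooseBasisIndex ℤ E.L) = 2 := by
    rw [← h2, Module.finrank_eq_card_basis b1]
  let e := Fintype.equivFinOfCardEq hc
  let b : Module.Basis (Fin 2) ℝ E.V := b1.reindex e
  have hspan : Submodule.span ℤ (Set.range b) = E.L := by
    rw [Module.Basis.range_reindex]
    exact b0.ofZLatticeBasis_span ℝ E.L
  refine ⟨b, fun v => ?_⟩
  rw [← hspan, Submodule.mem_span_range_iff_exists_fun]
  constructor
  · rintro ⟨c, hc⟩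
    refine ⟨c 0, c 1, ?_⟩
    rw [← hc, Fin.sum_univ_two]
    simp only [Int.cast_smul_eq_zsmul]
  · rintro ⟨x, y, rfl⟩
    refine ⟨![x, y], ?_⟩
    rw [Fin.sum_univ_two]
    simp only [Int.cast_smul_eq_zsmul, Matrix.cons_val_zero, Matrix.cons_val_one]

end HC
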