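import Pool.Agent.Lib.HC.L.E.Spec

/-!
# PROJECT HC+, PART 3: the coordinate functions and their conjugates are a basis (helper81)
-/

set_option autoImplicit false

open scoped ComplexConjugate

noncomputable section

namespace HC

namespace E

namespace Bs_aux

variable {T : AV} {ι : Type}

/-- The coordinate `i` as a real linear function. -/
def zc (ψ : T.V ≃ₗ[ℂ] (ι → ℂ)) (i : ι) : T.V →ₗ[ℝ] ℂ :=
  ((LinearMap.proj i : (ι → ℂ) →ₗ[ℂ] ℂ) ∘ₗ ψ.toLinearMap).restrictScalars ℝ

lemma zc_apply (ψ : T.V ≃ₗ[ℂ] (ι → ℂ)) (i : ι) (v : T.V) : zc ψ i v = ψ v i := rfl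

/-- The family. -/
def fam (ψ : T.V ≃ₗ[ℂ] (ι → ℂ)) (s : ι × Bool) : T.V →ₗ[ℝ] ℂ :=
  if s.2 then Complex.conjAe.toLinearMap ∘ₗ (zc ψ s.1) else zc ψ s.1

lemma fam_false (ψ : T.V ≃ₗ[ℂ] (ι → ℂ)) (i : ι) (v : T.V) : fam ψ (i, false) v = ψ v i := rfl

lemma fam_true (ψ : T.V ≃ₗ[ℂ] (ι → ℂ)) (i : ι) (v : T.V) :
    fam ψ (i, true) v = conj (ψ v i) := rfl

/-- Expansion of a real linear function. -/
lemma expand [Fintype ι] [DecidableEq ι] (ψ : T.V ≃ₗ[ℂ] (ι → ℂ)) (f : T.V →ₗ[ℝ] ℂ) :
    f = ∑ i, (((f (ψ.symm (Pi.single i 1)) - Complex.I * f (ψ.symm (Pi.single i Complex.I))) / 2) •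
        fam ψ (i, false) +
      ((f (ψ.symm (Pi.single i 1)) + Complex.I * f (ψ.symm (Pi.single i Complex.I))) / 2) •
        fam ψ (i, true)) := by
  ext v
  rw [LinearMap.sum_apply]
  have hv : v = ∑ i, ((ψ v i).re • ψ.symm (Pi.single i 1) +
      (ψ v i).im • ψ.symm (Pi.single i Complex.I)) := by
    apply ψ.injective
    rw [map_sum]
    funext j
    rw [Finset.sum_apply, Finset.sum_eq_single j]
    · rw [map_add, ← Complex.coe_smul, ← Complex.coe_smul, map_smul, map_smul,
        LinearEquiv.apply_symm_apply, LinearEquiv.apply_symm_apply, Pi.add_apply, Pi.smul_apply,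
        Pi.smul_apply, Pi.single_eq_same, Pi.single_eq_same, smul_eq_mul, smul_eq_mul, mul_one]
      exact (Complex.re_add_im _).symm
    · intro i _ hi
      rw [map_add, ← Complex.coe_smul, ← Complex.coe_smul, map_smul, map_smul,
        LinearEquiv.apply_symm_apply, LinearEquiv.apply_symm_apply, Pi.add_apply, Pi.smul_apply,
        Pi.smul_apply, Pi.single_eq_of_ne hi.symm, Pi.single_eq_of_ne hi.symm, smul_zero,
        smul_zero, add_zero]
    · intro h
      exact absurd (Finset.mem_univ j) h
  conv_lhs => rw [hv, map_sum]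
  refine Finset.sum_congr rfl fun i _ => ?_
  rw [map_add, map_smul, map_smul, LinearMap.add_apply, LinearMap.smul_apply,
    LinearMap.smul_apply, fam_false, fam_true, smul_eq_mul, smul_eq_mul]
  have h1 : ψ v i = ((ψ v i).re : ℂ) + ((ψ v i).im : ℂ) * Complex.I := (Complex.re_add_im _).symm
  have h2 : conj (ψ v i) = ((ψ v i).re : ℂ) - ((ψ v i).im : ℂ) * Complex.I := by
    conv_lhs => rw [h1]
    rw [map_add, map_mul, Complex.conj_ofReal, Complex.conj_ofReal, Complex.conj_I]
    ring
  rw [h2]
  simp only [Complex.real_smul]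
  have h3 : Complex.I * Complex.I = -1 := Complex.I_mul_I
  linear_combination (-((f (ψ.symm (Pi.single i 1)) -
    Complex.I * f (ψ.symm (Pi.single i Complex.I))) / 2)) * h1 +
    (f (ψ.symm (Pi.single i Complex.I)) * ((ψ v i).im : ℂ)) * h3

end Bs_aux

open Bs_aux

theorem tBs : S_Bs := by
  classical
  intro T ι _ ψ
  have hli : LinearIndependent ℂ (fam ψ) := by
    rw [Fintype.linearIndependent_iff]
    intro g hg
    have key : ∀ v : T.V, (∑ i, g (i, false) * ψ v i = 0) ∧
        ∑ i, g (i, true) * conj (ψ v i) = 0 := by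
      intro v
      have hval : ∀ w : T.V, ∑ i, g (i, false) * ψ w i + ∑ i, g (i, true) * conj (ψ w i) = 0 := by
        intro w
        have h := LinearMap.congr_fun hg w
        rw [LinearMap.sum_apply, LinearMap.zero_apply, Fintype.sum_prod_type] at h
        rw [← Finset.sum_add_distrib]
        refine Eq.trans (Finset.sum_congr rfl fun i _ => ?_) h
        rw [Fintype.sum_bool, LinearMap.smul_apply, LinearMap.smul_apply, fam_false, fam_true,
          smul_eq_mul, smul_eq_mul, add_comm]
      have h1 := hval v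
      have h2 := hval (Complex.I • v)
      have e1 : ∑ i, g (i, false) * ψ (Complex.I • v) i =
          Complex.I * ∑ i, g (i, false) * ψ v i := by
        rw [Finset.mul_sum]
        refine Finset.sum_congr rfl fun i _ => ?_
        rw [map_smul, Pi.smul_apply, smul_eq_mul]
        ring
      have e2 : ∑ i, g (i, true) * conj (ψ (Complex.I • v) i) =
          -Complex.I * ∑ i, g (i, true) * conj (ψ v i) := by
        rw [Finset.mul_sum]
        refine Finset.sum_congr rfl fun i _ => ?_
        rw [map_smul, Pi.smul_apply, smul_eq_mul, map_mul, Complex.conj_I]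
        ring
      rw [e1, e2] at h2
      have h3 : Complex.I * Complex.I = -1 := Complex.I_mul_I
      constructor
      · linear_combination (1 / 2 : ℂ) * h1 - (Complex.I / 2) * h2 +
          (1 / 2 : ℂ) * (∑ i, g (i, false) * ψ v i) * h3 -
          (1 / 2 : ℂ) * (∑ i, g (i, true) * conj (ψ v i)) * h3
      · linear_combination (1 / 2 : ℂ) * h1 + (Complex.I / 2) * h2 -
          (1 / 2 : ℂ) * (∑ i, g (i, false) * ψ v i) * h3 +
          (1 / 2 : ℂ) * (∑ i, g (i, true) * conj (ψ v i)) * h3
    rintro ⟨i, ε⟩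
    have h := key (ψ.symm (Pi.single i 1))
    rw [LinearEquiv.apply_symm_apply] at h
    cases ε
    · have h1 := h.1
      rw [Finset.sum_eq_single i] at h1
      · rwa [Pi.single_eq_same, mul_one] at h1
      · intro j _ hj
        rw [Pi.single_eq_of_ne hj, mul_zero]
      · intro h'
        exact absurd (Finset.mem_univ i) h'
    · have h1 := h.2
      rw [Finset.sum_eq_single i] at h1
      · rwa [Pi.single_eq_same, map_one, mul_one] at h1
      · intro j _ hj
        rw [Pi.single_eq_of_ne hj, map_zero, mul_zero]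
      · intro h'
        exact absurd (Finset.mem_univ i) h'
  have hsp : ⊤ ≤ Submodule.span ℂ (Set.range (fam ψ)) := by
    intro f _
    rw [expand ψ f]
    refine Submodule.sum_mem _ fun i _ => Submodule.add_mem _ ?_ ?_
    · exact Submodule.smul_mem _ _ (Submodule.subset_span ⟨_, rfl⟩)
    · exact Submodule.smul_mem _ _ (Submodule.subset_span ⟨_, rfl⟩)
  refine ⟨Module.Basis.mk hli hsp, fun i v => ?_, fun i v => ?_⟩
  · rw [Module.Basis.mk_apply]
    exact fam_false ψ i v
  · rw [Module.Basis.mk_apply]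
    exact fam_true ψ i v

end E

end HC
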