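import Pool.Agent.Lib.HC.L.E.SpecL
import Pool.Agent.Lib.HC.L.KunA
import Pool.Agent.Lib.HC.L.Le

/-!
PROJECT HC+, part 3 (helper14): the Casimir formula `S_Cas`.
-/

set_option autoImplicit false

noncomputable section

namespace HC.Cas

open Module HC.L

variable {E T : AV} {k : ℕ} (b : Basis (Fin 2) ℝ E.V) (ψ : T.V ≃ₗ[ℂ] (Fin k → E.V))

/-- The real linear version of `ψ.symm`. -/
lemma psi_symm_rsmul (r : ℝ) (x : Fin k → E.V) : ψ.symm (r • x) = r • ψ.symm x := by
  have h := ψ.symm.map_smul (r : ℂ) x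
  have h1 : (r : ℂ) • x = r • x := by
    funext l; exact Complex.coe_smul r (x l)
  rw [h1] at h
  rw [h]
  exact Complex.coe_smul r _

/-- The coordinate `a(b_i at p)` of a form. -/
def up (i : Fin 2) (p : Fin k) : (T.V →ₗ[ℝ] ℂ) →ₗ[ℂ] ℂ where
  toFun a := a (ψ.symm (Pi.single p (b i)))
  map_add' _ _ := rfl
  map_smul' _ _ := rfl

lemma up_apply (i : Fin 2) (p : Fin k) (a : T.V →ₗ[ℝ] ℂ) :
    up b ψ i p a = a (ψ.symm (Pi.single p (b i))) := rfl

lemma cf_apply (i : Fin 2) (p : Fin k) (v : T.V) :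
    cf b ψ i p v = ((b.repr (ψ v p) i : ℝ) : ℂ) := rfl

lemma expand_vec (v : T.V) (g : Fin 2 → Fin 2) :
    ψ.symm (fun l => ∑ i, (b.repr (ψ v l) i) • b (g i)) =
      ∑ p, ∑ i, (b.repr (ψ v p) i) • ψ.symm (Pi.single p (b (g i))) := by
  have h : (fun l => ∑ i, (b.repr (ψ v l) i) • b (g i)) =
      ∑ p, ∑ i, (b.repr (ψ v p) i) • (Pi.single p (b (g i)) : Fin k → E.V) := by
    funext l
    rw [Finset.sum_apply, Finset.sum_eq_single l]
    · rw [Finset.sum_apply]
      refine Finset.sum_congr rfl fun i _ => ?_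
      rw [Pi.smul_apply, Pi.single_eq_same]
    · intro p _ hp
      rw [Finset.sum_apply]
      refine Finset.sum_eq_zero fun i _ => ?_
      rw [Pi.smul_apply, Pi.single_eq_of_ne hp.symm, smul_zero]
    · intro h; exact absurd (Finset.mem_univ l) h
  rw [h, map_sum]
  refine Finset.sum_congr rfl fun p _ => ?_
  rw [map_sum]
  refine Finset.sum_congr rfl fun i _ => ?_
  exact psi_symm_rsmul ψ _ _

lemma expand (a : T.V →ₗ[ℝ] ℂ) : a = ∑ p, ∑ i, up b ψ i p a • cf b ψ i p := by
  refine LinearMap.ext fun v => ?_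
  have h := expand_vec b ψ v id
  have h1 : (fun l => ∑ i, (b.repr (ψ v l) i) • b (id i)) = ψ v := by
    funext l; exact b.sum_repr (ψ v l)
  rw [h1, LinearEquiv.symm_apply_apply] at h
  conv_lhs => rw [h]
  rw [map_sum, LinearMap.sum_apply]
  refine Finset.sum_congr rfl fun p _ => ?_
  rw [map_sum, LinearMap.sum_apply]
  refine Finset.sum_congr rfl fun i _ => ?_
  rw [map_smul, LinearMap.smul_apply, cf_apply, up_apply, smul_eq_mul, mul_comm]
  exact (Complex.real_smul).symm

lemma up_cf (i j : Fin 2) (p q : Fin k) :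
    up b ψ i p (cf b ψ j q) = if p = q ∧ i = j then 1 else 0 := by
  rw [up_apply, cf_apply, LinearEquiv.apply_symm_apply]
  by_cases h : p = q
  · subst h
    rw [Pi.single_eq_same, Basis.repr_self, Finsupp.single_apply]
    by_cases h2 : i = j <;> simp [h2]
  · rw [Pi.single_eq_of_ne (Ne.symm h)]
    simp [h]

/-- `T_ij`. -/
def Tm (i j : Fin 2) : (T.V →ₗ[ℝ] ℂ) →ₗ[ℂ] (T.V →ₗ[ℝ] ℂ) :=
  ∑ p, (up b ψ i p).smulRight (cf b ψ j p)

lemma Tm_apply (i j : Fin 2) (a : T.V →ₗ[ℝ] ℂ) :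
    Tm b ψ i j a = ∑ p, up b ψ i p a • cf b ψ j p := by
  rw [Tm, LinearMap.sum_apply]
  rfl

lemma Tm_add (a : T.V →ₗ[ℝ] ℂ) : Tm b ψ 0 0 a + Tm b ψ 1 1 a = a := by
  conv_rhs => rw [expand b ψ a]
  rw [Tm_apply, Tm_apply, ← Finset.sum_add_distrib]
  refine Finset.sum_congr rfl fun p _ => ?_
  rw [Fin.sum_univ_two]

lemma up_Tm (i j l : Fin 2) (q : Fin k) (a : T.V →ₗ[ℝ] ℂ) :
    up b ψ l q (Tm b ψ i j a) = if l = j then up b ψ i q a else 0 := by
  rw [Tm_apply, map_sum, Finset.sum_eq_single q]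
  · rw [map_smul, up_cf]
    by_cases h : l = j <;> simp [h]
  · intro p _ hp
    rw [map_smul, up_cf, if_neg (fun h => hp h.1.symm), smul_zero]
  · intro h; exact absurd (Finset.mem_univ q) h

lemma Tm_Tm (i j : Fin 2) (a : T.V →ₗ[ℝ] ℂ) :
    Tm b ψ j i (Tm b ψ i j a) = Tm b ψ i i a := by
  rw [Tm_apply, Tm_apply b ψ i i]
  refine Finset.sum_congr rfl fun p _ => ?_
  rw [up_Tm, if_pos rfl]

/-- The endomorphism `b_j ↦ b_i` of `E.V`. -/
def Zij (i j : Fin 2) : Module.End ℝ E.V := (b.coord j).smulRight (b i)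

lemma trace_Zij (i j : Fin 2) : LinearMap.trace ℝ E.V (Zij b i j) = if i = j then 1 else 0 := by
  rw [LinearMap.trace_eq_matrix_trace ℝ b, Matrix.trace]
  have h : ∀ l : Fin 2, (LinearMap.toMatrix b b (Zij b i j)).diag l =
      if l = i ∧ l = j then 1 else 0 := by
    intro l
    rw [Matrix.diag_apply, LinearMap.toMatrix_apply, Zij, LinearMap.smulRight_apply,
      Basis.coord_apply, Basis.repr_self, map_smul, Finsupp.smul_apply, Basis.repr_self,
      Finsupp.single_apply, Finsupp.single_apply]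
    by_cases h1 : l = i <;> by_cases h2 : l = j <;> simp [h1, h2, eq_comm]
  rw [Finset.sum_congr rfl fun l _ => h l]
  by_cases h : i = j
  · subst h
    rw [if_pos rfl, Finset.sum_eq_single i]
    · simp
    · intro l _ hl; simp [hl]
    · intro h; exact absurd (Finset.mem_univ i) h
  · rw [if_neg h]
    refine Finset.sum_eq_zero fun l _ => ?_
    rw [if_neg]
    rintro ⟨h1, h2⟩
    exact h (h1.symm.trans h2)

/-- The endomorphism of `T.V` which acts by `Z` on every copy. -/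
def dia (Z : Module.End ℝ E.V) : Module.End ℝ T.V where
  toFun v := ψ.symm fun l => Z (ψ v l)
  map_add' u v := by
    rw [← map_add]
    congr 1
    funext l
    rw [map_add, Pi.add_apply, map_add]; rfl
  map_smul' r v := by
    rw [RingHom.id_apply, ← psi_symm_rsmul]
    congr 1
    funext l
    have h : ψ (r • v) = r • ψ v := by
      have := ψ.map_smul (r : ℂ) v
      rw [Complex.coe_smul] at this
      rw [this]
      funext l; exact Complex.coe_smul r _
    rw [h, Pi.smul_apply, map_smul]; rfl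

lemma psi_dia (Z : Module.End ℝ E.V) (v : T.V) : ψ (dia ψ Z v) = fun l => Z (ψ v l) :=
  ψ.apply_symm_apply _

lemma comp_dia (i j : Fin 2) (a : T.V →ₗ[ℝ] ℂ) : a ∘ₗ dia ψ (Zij b i j) = Tm b ψ i j a := by
  refine LinearMap.ext fun v => ?_
  rw [Tm_apply, LinearMap.sum_apply, LinearMap.comp_apply]
  have h : dia ψ (Zij b i j) v = ∑ p, (b.repr (ψ v p) j) • ψ.symm (Pi.single p (b i)) := by
    show ψ.symm (fun l => (b.repr (ψ v l) j) • b i) = _
    have h1 : (fun l => (b.repr (ψ v l) j) • b i) =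
        ∑ p, (b.repr (ψ v p) j) • (Pi.single p (b i) : Fin k → E.V) := by
      funext l
      rw [Finset.sum_apply, Finset.sum_eq_single l]
      · rw [Pi.smul_apply, Pi.single_eq_same]
      · intro p _ hp
        rw [Pi.smul_apply, Pi.single_eq_of_ne hp.symm, smul_zero]
      · intro h; exact absurd (Finset.mem_univ l) h
    rw [h1, map_sum]
    exact Finset.sum_congr rfl fun p _ => psi_symm_rsmul ψ _ _
  rw [h, map_sum]
  refine Finset.sum_congr rfl fun p _ => ?_
  rw [map_smul, LinearMap.smul_apply, cf_apply, up_apply, smul_eq_mul, mul_comm]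
  exact (Complex.real_smul).symm

end HC.Cas
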