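import Pool.Agent.Lib.HC.L.E.Cas

/-!
PROJECT HC+, part 3 (helper14): the Casimir formula `S_Cas`, second part.
-/

set_option autoImplicit false

noncomputable section

namespace HC.Cas

open Module HC.L Matrix

variable {E T : AV} {k : ℕ} (b : Basis (Fin 2) ℝ E.V) (ψ : T.V ≃ₗ[ℂ] (Fin k → E.V))

/-- `c` is killed by `sl₂`. -/
def Kill {n : ℕ} (c : Hlg T n) : Prop :=
  ∀ Z : Module.End ℝ E.V, LinearMap.trace ℝ E.V Z = 0 → ∀ X : Module.End ℝ T.V,
      (∀ v, ψ (X v) = fun l => Z (ψ v l)) → ∀ a, lieAct X c a = 0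

/-- The action of `b_j ↦ b_i`. -/
def Dc {n : ℕ} (c : Hlg T n) (i j : Fin 2) (a : Fin n → (T.V →ₗ[ℝ] ℂ)) : ℂ :=
  ∑ s, c (Function.update a s (Tm b ψ i j (a s)))

section one

variable {n : ℕ} {c : Hlg T n} {ψ}

lemma Dc_ne (H : Kill ψ c) {i j : Fin 2} (h : i ≠ j) (a : Fin n → (T.V →ₗ[ℝ] ℂ)) :
    Dc b ψ c i j a = 0 := by
  have h1 := H (Zij b i j) (by rw [trace_Zij, if_neg h]) (dia ψ (Zij b i j)) (psi_dia ψ _) a
  rw [lieAct] at h1
  rw [Dc, ← h1]
  refine Finset.sum_congr rfl fun s _ => ?_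
  rw [comp_dia]

lemma Dc_eq (H : Kill ψ c) (a : Fin n → (T.V →ₗ[ℝ] ℂ)) : Dc b ψ c 0 0 a = Dc b ψ c 1 1 a := by
  have h1 := H (Zij b 0 0 - Zij b 1 1)
    (by rw [map_sub, trace_Zij, trace_Zij, if_pos rfl, if_pos rfl, sub_self])
    (dia ψ (Zij b 0 0) - dia ψ (Zij b 1 1)) (fun v => by
      rw [LinearMap.sub_apply, map_sub, psi_dia, psi_dia]
      funext l
      rfl) a
  rw [lieAct] at h1
  rw [← sub_eq_zero, ← h1, Dc, Dc, ← Finset.sum_sub_distrib]
  refine Finset.sum_congr rfl fun s _ => ?_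
  rw [LinearMap.comp_sub, comp_dia, comp_dia, c.map_update_sub]

lemma Dc_add (a : Fin n → (T.V →ₗ[ℝ] ℂ)) : Dc b ψ c 0 0 a + Dc b ψ c 1 1 a = n * c a := by
  rw [Dc, Dc, ← Finset.sum_add_distrib]
  have h : ∀ s : Fin n, c (Function.update a s (Tm b ψ 0 0 (a s))) +
      c (Function.update a s (Tm b ψ 1 1 (a s))) = c a := by
    intro s
    rw [← c.map_update_add, Tm_add, Function.update_eq_self]
  rw [Finset.sum_congr rfl fun s _ => h s, Finset.sum_const, Finset.card_univ, Fintype.card_fin,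
    nsmul_eq_mul]

lemma Dc_val (H : Kill ψ c) (i j : Fin 2) (a : Fin n → (T.V →ₗ[ℝ] ℂ)) :
    Dc b ψ c i j a = (if i = j then (n : ℂ) / 2 else 0) * c a := by
  by_cases h : i = j
  · subst h
    rw [if_pos rfl]
    have h1 := Dc_add b (ψ := ψ) (c := c) a
    have h2 := Dc_eq b H a
    fin_cases i
    · show Dc b ψ c 0 0 a = _
      linear_combination (1 / 2) * h1 + (1 / 2) * h2
    · show Dc b ψ c 1 1 a = _
      linear_combination (1 / 2) * h1 - (1 / 2) * h2
  · rw [if_neg h, zero_mul, Dc_ne b H h]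

/-- The value with `T_ij` at `t` and `T_ji` at `s`. -/
def Fv (c : Hlg T n) (ψ : T.V ≃ₗ[ℂ] (Fin k → E.V)) (a : Fin n → (T.V →ₗ[ℝ] ℂ)) (t s : Fin n)
    (i j : Fin 2) : ℂ :=
  c (Function.update (Function.update a t (Tm b ψ i j (a t))) s (Tm b ψ j i (a s)))

lemma Dc_Dc (a : Fin n → (T.V →ₗ[ℝ] ℂ)) (t : Fin n) (i j : Fin 2) :
    Dc b ψ c j i (Function.update a t (Tm b ψ i j (a t))) =
      c (Function.update a t (Tm b ψ i i (a t))) +
        ∑ s, if s = t then 0 else Fv b c ψ a t s i j := by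
  rw [Dc]
  have h : ∀ s : Fin n, c (Function.update (Function.update a t (Tm b ψ i j (a t))) s
      (Tm b ψ j i (Function.update a t (Tm b ψ i j (a t)) s))) =
      (if s = t then c (Function.update a t (Tm b ψ i i (a t))) else 0) +
        if s = t then 0 else Fv b c ψ a t s i j := by
    intro s
    by_cases hs : s = t
    · subst hs
      rw [if_pos rfl, if_pos rfl, Function.update_self, Function.update_idem, Tm_Tm, add_zero]
    · rw [if_neg hs, if_neg hs, Function.update_of_ne hs, zero_add]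
      rfl
  rw [Finset.sum_congr rfl fun s _ => h s, Finset.sum_add_distrib, Finset.sum_ite_eq',
    if_pos (Finset.mem_univ t)]

/-- The Casimir identity. -/
lemma sum_F (H : Kill ψ c) (a : Fin n → (T.V →ₗ[ℝ] ℂ)) :
    ∑ t, ∑ s, (if s = t then 0 else ∑ i, ∑ j, Fv b c ψ a t s i j) =
      ((n : ℂ) ^ 2 / 2 - 2 * n) * c a := by
  have h1 : ∀ i j : Fin 2, ∑ t, Dc b ψ c j i (Function.update a t (Tm b ψ i j (a t))) =
      (if i = j then (n : ℂ) / 2 else 0) * ((if i = j then (n : ℂ) / 2 else 0) * c a) := by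
    intro i j
    rw [← Dc_val b H i j a, Dc, Finset.mul_sum]
    refine Finset.sum_congr rfl fun t _ => ?_
    rw [Dc_val b H j i]
    congr 1
    by_cases h : i = j
    · rw [if_pos h, if_pos h.symm]
    · rw [if_neg h, if_neg (Ne.symm h)]
  have h2 : ∀ i j : Fin 2, ∑ t, ∑ s, (if s = t then 0 else Fv b c ψ a t s i j) =
      (if i = j then (n : ℂ) / 2 else 0) * ((if i = j then (n : ℂ) / 2 else 0) * c a) -
        Dc b ψ c i i a := by
    intro i j
    rw [← h1 i j, Dc, ← Finset.sum_sub_distrib]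
    refine Finset.sum_congr rfl fun t _ => ?_
    rw [Dc_Dc]
    ring
  have h3 : ∑ t, ∑ s, (if s = t then 0 else ∑ i, ∑ j, Fv b c ψ a t s i j) =
      ∑ i, ∑ j, ∑ t, ∑ s, (if s = t then 0 else Fv b c ψ a t s i j) := by
    have h4 : ∀ t s : Fin n, (if s = t then (0 : ℂ) else ∑ i, ∑ j, Fv b c ψ a t s i j) =
        ∑ i, ∑ j, if s = t then 0 else Fv b c ψ a t s i j := by
      intro t s
      by_cases h : s = t
      · simp [h]
      · simp [h]
    rw [Finset.sum_congr rfl fun t _ => Finset.sum_congr rfl fun s _ => h4 t s]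
    rw [Finset.sum_congr rfl fun t _ => Finset.sum_comm, Finset.sum_comm]
    refine Finset.sum_congr rfl fun i _ => ?_
    rw [Finset.sum_congr rfl fun t _ => Finset.sum_comm, Finset.sum_comm]
  rw [h3, Finset.sum_congr rfl fun i _ => Finset.sum_congr rfl fun j _ => h2 i j]
  rw [Fin.sum_univ_two, Fin.sum_univ_two, Fin.sum_univ_two]
  have h5 := Dc_add b (ψ := ψ) (c := c) a
  simp
  linear_combination (-2) * h5

end one

/-! ### Alternatization -/

lemma alt_comp_perm {W : Type} [AddCommGroup W] [Module ℂ W] {n : ℕ} (c : W [⋀^Fin n]→ₗ[ℂ] ℂ)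
    (f : Fin n → (W →ₗ[ℂ] W)) (σ : Equiv.Perm (Fin n)) :
    MultilinearMap.alternatization (c.toMultilinearMap.compLinearMap fun r => f (σ r)) =
      MultilinearMap.alternatization (c.toMultilinearMap.compLinearMap f) := by
  ext a
  rw [MultilinearMap.alternatization_apply, MultilinearMap.alternatization_apply]
  refine Fintype.sum_equiv (Equiv.mulRight σ⁻¹) _ _ fun τ => ?_
  rw [Equiv.coe_mulRight, MultilinearMap.domDomCongr_apply, MultilinearMap.domDomCongr_apply,
    MultilinearMap.compLinearMap_apply, MultilinearMap.compLinearMap_apply]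
  have h1 : c (fun r => f (σ r) (a (τ r))) =
      Equiv.Perm.sign σ • c (fun r => f r (a ((τ * σ⁻¹) r))) := by
    rw [← c.map_perm]
    congr 1
    funext r
    simp
  show Equiv.Perm.sign τ • c (fun r => f (σ r) (a (τ r))) =
    Equiv.Perm.sign (τ * σ⁻¹) • c (fun r => f r (a ((τ * σ⁻¹) r)))
  rw [h1, smul_smul, map_mul, map_inv, Int.units_inv_eq_self]

/-- `T_ij` at `t`, `T_ji` at `s`. -/
def ff {n : ℕ} (t s : Fin n) (i j : Fin 2) (r : Fin n) :
    (T.V →ₗ[ℝ] ℂ) →ₗ[ℂ] (T.V →ₗ[ℝ] ℂ) :=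
  if r = t then Tm b ψ i j else if r = s then Tm b ψ j i else LinearMap.id

lemma ff_apply {n : ℕ} {t s : Fin n} (h : s ≠ t) (i j : Fin 2) (a : Fin n → (T.V →ₗ[ℝ] ℂ)) :
    (fun r => ff b ψ t s i j r (a r)) =
      Function.update (Function.update a t (Tm b ψ i j (a t))) s (Tm b ψ j i (a s)) := by
  funext r
  by_cases h1 : r = s
  · subst h1
    rw [Function.update_self, ff, if_neg h, if_pos rfl]
  · rw [Function.update_of_ne h1]
    by_cases h2 : r = t
    · subst h2
      rw [Function.update_self, ff, if_pos rfl]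
    · rw [Function.update_of_ne h2, ff, if_neg h2, if_neg h1]
      rfl

lemma exists_perm {m : ℕ} {t s : Fin (m + 2)} (h : s ≠ t) :
    ∃ σ : Equiv.Perm (Fin (m + 2)), σ t = 0 ∧ σ s = 1 := by
  refine ⟨Equiv.swap (Equiv.swap t 0 s) 1 * Equiv.swap t 0, ?_, ?_⟩
  · rw [Equiv.Perm.mul_apply, Equiv.swap_apply_left]
    refine Equiv.swap_apply_of_ne_of_ne ?_ ?_
    · intro h1
      have h2 : Equiv.swap t 0 t = Equiv.swap t 0 s := by rw [Equiv.swap_apply_left]; exact h1
      exact h ((Equiv.swap t 0).injective h2).symm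
    · exact Fin.zero_ne_one
  · rw [Equiv.Perm.mul_apply, Equiv.swap_apply_left]

/-- The multilinear map `∑_ij c(.. T_ij at t, T_ji at s ..)`. -/
def Nm {n : ℕ} (c : Hlg T n) (t s : Fin n) : MultilinearMap ℂ (fun _ : Fin n => (T.V →ₗ[ℝ] ℂ)) ℂ :=
  ∑ i, ∑ j, c.toMultilinearMap.compLinearMap (ff b ψ t s i j)

lemma alt_Nm {m : ℕ} (c : Hlg T (m + 2)) {t s : Fin (m + 2)} (h : s ≠ t) :
    MultilinearMap.alternatization (Nm b ψ c t s) =
      MultilinearMap.alternatization (Nm b ψ c 0 1) := by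
  obtain ⟨σ, h0, h1⟩ := exists_perm h
  rw [Nm, Nm]
  simp only [map_sum]
  refine Finset.sum_congr rfl fun i _ => Finset.sum_congr rfl fun j _ => ?_
  rw [← alt_comp_perm c (ff b ψ 0 1 i j) σ]
  congr 2
  funext r
  rw [ff, ff]
  have e0 : σ r = 0 ↔ r = t := by rw [← h0]; exact σ.injective.eq_iff
  have e1 : σ r = 1 ↔ r = s := by rw [← h1]; exact σ.injective.eq_iff
  by_cases h2 : r = t
  · rw [if_pos h2, if_pos (e0.2 h2)]
  · rw [if_neg h2, if_neg (fun h' => h2 (e0.1 h'))]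
    by_cases h3 : r = s
    · rw [if_pos h3, if_pos (e1.2 h3)]
    · rw [if_neg h3, if_neg (fun h' => h3 (e1.1 h'))]

lemma Nm_apply {n : ℕ} (c : Hlg T n) {t s : Fin n} (h : s ≠ t) (a : Fin n → (T.V →ₗ[ℝ] ℂ)) :
    Nm b ψ c t s a = ∑ i, ∑ j, Fv b c ψ a t s i j := by
  rw [Nm, MultilinearMap.sum_apply]
  refine Finset.sum_congr rfl fun i _ => ?_
  rw [MultilinearMap.sum_apply]
  refine Finset.sum_congr rfl fun j _ => ?_
  rw [MultilinearMap.compLinearMap_apply]
  show c _ = _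
  rw [ff_apply b ψ h]
  rfl

/-- The alternatization of `Nm 0 1`. -/
lemma alt_N01 {m : ℕ} {c : Hlg T (m + 2)} (H : Kill ψ c) :
    (((m : ℂ) + 2) * (m + 1)) • MultilinearMap.alternatization (Nm b ψ c 0 1) =
      ((((m : ℂ) + 2) ^ 2 / 2 - 2 * (m + 2)) * ((m + 2).factorial : ℂ)) • c := by
  have h1 : ∑ t, ∑ s, (if s = t then 0 else Nm b ψ c t s) =
      (((m : ℂ) + 2) ^ 2 / 2 - 2 * (m + 2)) • c.toMultilinearMap := by
    ext a
    have h2 := sum_F b H a
    have h3 : (∑ t, ∑ s, (if s = t then 0 else Nm b ψ c t s)) a =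
        ∑ t, ∑ s, (if s = t then 0 else ∑ i, ∑ j, Fv b c ψ a t s i j) := by
      rw [MultilinearMap.sum_apply]
      refine Finset.sum_congr rfl fun t _ => ?_
      rw [MultilinearMap.sum_apply]
      refine Finset.sum_congr rfl fun s _ => ?_
      by_cases h : s = t
      · rw [if_pos h, if_pos h]; rfl
      · rw [if_neg h, if_neg h, Nm_apply b ψ c h]
    rw [h3, h2]
    push_cast
    rfl
  have h4 := congrArg MultilinearMap.alternatization h1
  rw [alternatization_smul', AlternatingMap.coe_alternatization, Fintype.card_fin] at h4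
  simp only [map_sum] at h4
  have h5 : ∀ t s : Fin (m + 2), MultilinearMap.alternatization (if s = t then 0 else
      Nm b ψ c t s) = if s = t then 0 else MultilinearMap.alternatization (Nm b ψ c 0 1) := by
    intro t s
    by_cases h : s = t
    · rw [if_pos h, if_pos h, map_zero]
    · rw [if_neg h, if_neg h, alt_Nm b ψ c h]
  rw [Finset.sum_congr rfl fun t _ => Finset.sum_congr rfl fun s _ => h5 t s] at h4
  have h6 : ∀ (x : Hlg T (m + 2)) (t : Fin (m + 2)),
      ∑ s, (if s = t then 0 else x) = ((m : ℂ) + 1) • x := by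
    intro x t
    have h7 : ∀ s : Fin (m + 2), (if s = t then 0 else x) = x - if s = t then x else 0 := by
      intro s
      by_cases h : s = t <;> simp [h]
    rw [Finset.sum_congr rfl fun s _ => h7 s, Finset.sum_sub_distrib, Finset.sum_ite_eq',
      if_pos (Finset.mem_univ t), Finset.sum_const, Finset.card_univ, Fintype.card_fin,
      ← Nat.cast_smul_eq_nsmul ℂ]
    push_cast
    rw [show ((m : ℂ) + 2) = (m + 1) + 1 by ring, add_smul, one_smul, add_sub_cancel_right]
  rw [Finset.sum_congr rfl fun t _ => h6 _ t, Finset.sum_const, Finset.card_univ,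
    Fintype.card_fin, ← Nat.cast_smul_eq_nsmul ℂ, smul_smul, ← Nat.cast_smul_eq_nsmul ℂ,
    smul_smul] at h4
  push_cast at h4 ⊢
  exact h4

end HC.Cas
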