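import Pool.Agent.Lib.HC.L.E.CasB

/-!
PROJECT HC+, part 3 (helper14): the Casimir formula `S_Cas`, third part.
-/

set_option autoImplicit false

noncomputable section

namespace HC.Cas

open Module HC.L Matrix

variable {E T : AV} {k : ℕ} (b : Basis (Fin 2) ℝ E.V) (ψ : T.V ≃ₗ[ℂ] (Fin k → E.V))

lemma inc_apply (s : Fin k → ℕ) (x : E.V) :
    inc ψ s x = ψ.symm fun l => (s l : ℂ) • x := rfl

lemma inc_single (p : Fin k) (x : E.V) : inc ψ (Pi.single p 1) x = ψ.symm (Pi.single p x) := by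
  rw [inc_apply]
  congr 1
  funext l
  by_cases h : l = p
  · subst h; simp
  · simp [Pi.single_eq_of_ne h]

lemma inc_add (s s' : Fin k → ℕ) (x : E.V) : inc ψ (s + s') x = inc ψ s x + inc ψ s' x := by
  rw [inc_apply, inc_apply, inc_apply, ← map_add]
  congr 1
  funext l
  rw [Pi.add_apply, Pi.add_apply]
  push_cast
  exact add_smul _ _ _

lemma dl_apply (x : Fin 2 → (E.V →ₗ[ℝ] ℂ)) :
    dl b x = x 0 (b 0) * x 1 (b 1) - x 0 (b 1) * x 1 (b 0) := by
  show Matrix.det (Matrix.of fun i j => (x i) (b j)) = _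
  rw [Matrix.det_fin_two]
  rfl

lemma om_apply (p q : Fin k) (a : Fin 2 → (T.V →ₗ[ℝ] ℂ)) :
    om b ψ p q a = (up b ψ 0 p (a 0) * up b ψ 1 q (a 1) - up b ψ 1 p (a 0) * up b ψ 0 q (a 1)) +
      (up b ψ 0 q (a 0) * up b ψ 1 p (a 1) - up b ψ 1 q (a 0) * up b ψ 0 p (a 1)) := by
  have h : ∀ (i : Fin 2) (j : Fin 2), a i (inc ψ (Pi.single p 1 + Pi.single q 1) (b j)) =
      up b ψ j p (a i) + up b ψ j q (a i) := by
    intro i j
    rw [inc_add, inc_single, inc_single, map_add]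
    rfl
  have h' : ∀ (r : Fin k) (i j : Fin 2), a i (inc ψ (Pi.single r 1) (b j)) = up b ψ j r (a i) := by
    intro r i j
    rw [inc_single]
    rfl
  rw [om, AlternatingMap.sub_apply, AlternatingMap.sub_apply, push_apply, push_apply, push_apply,
    dl_apply, dl_apply, dl_apply]
  simp only [pull_apply, h, h']
  ring

lemma Kc_eq {m : ℕ} (p q : Fin k) (c : Hlg T (m + 2)) :
    Kc b ψ p q c = cap1 (cf b ψ 0 p) (cf b ψ 1 q) c - cap1 (cf b ψ 1 p) (cf b ψ 0 q) c := rfl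

lemma Kc_symm {m : ℕ} (p q : Fin k) (c : Hlg T (m + 2)) : Kc b ψ q p c = Kc b ψ p q c := by
  rw [Kc_eq, Kc_eq, cap1_swap (cf b ψ 1 p) (cf b ψ 0 q), cap1_swap (cf b ψ 0 p) (cf b ψ 1 q)]
  rw [sub_neg_eq_add, neg_add_eq_sub]

/-- The bilinear map `c(u, v, r)`. -/
def Bl {m : ℕ} (c : Hlg T (m + 2)) (r : Fin m → (T.V →ₗ[ℝ] ℂ)) :
    (T.V →ₗ[ℝ] ℂ) →ₗ[ℂ] (T.V →ₗ[ℝ] ℂ) →ₗ[ℂ] ℂ :=
  LinearMap.mk₂ ℂ (fun u v => cap1 u v c r)
    (fun u u' v => by rw [cap1_add_left, AlternatingMap.add_apply])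
    (fun x u v => by rw [cap1_smul_left, AlternatingMap.smul_apply])
    (fun u v v' => by rw [cap1_add_right, AlternatingMap.add_apply])
    (fun x u v => by rw [cap1_smul_right, AlternatingMap.smul_apply])

lemma Bl_apply {m : ℕ} (c : Hlg T (m + 2)) (r : Fin m → (T.V →ₗ[ℝ] ℂ)) (u v : T.V →ₗ[ℝ] ℂ) :
    Bl c r u v = c (vecCons u (vecCons v r)) := rfl

lemma Bl_left {m : ℕ} (c : Hlg T (m + 2)) (r : Fin m → (T.V →ₗ[ℝ] ℂ)) (u v : T.V →ₗ[ℝ] ℂ) :
    Bl c r u v = ∑ p, ∑ i, up b ψ i p u * Bl c r (cf b ψ i p) v := by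
  conv_lhs => rw [expand b ψ u]
  rw [map_sum, LinearMap.sum_apply]
  refine Finset.sum_congr rfl fun p _ => ?_
  rw [map_sum, LinearMap.sum_apply]
  refine Finset.sum_congr rfl fun i _ => ?_
  rw [map_smul, LinearMap.smul_apply, smul_eq_mul]

lemma Bl_right {m : ℕ} (c : Hlg T (m + 2)) (r : Fin m → (T.V →ₗ[ℝ] ℂ)) (u v : T.V →ₗ[ℝ] ℂ) :
    Bl c r u v = ∑ q, ∑ j, up b ψ j q v * Bl c r u (cf b ψ j q) := by
  conv_lhs => rw [expand b ψ v]
  rw [map_sum]
  refine Finset.sum_congr rfl fun q _ => ?_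
  rw [map_sum]
  refine Finset.sum_congr rfl fun j _ => ?_
  rw [map_smul, smul_eq_mul]

lemma Bl_Tm {m : ℕ} (c : Hlg T (m + 2)) (r : Fin m → (T.V →ₗ[ℝ] ℂ)) (u v : T.V →ₗ[ℝ] ℂ)
    (i j : Fin 2) : Bl c r (Tm b ψ i j u) (Tm b ψ j i v) =
      ∑ p, ∑ q, up b ψ i p u * up b ψ j q v * Bl c r (cf b ψ j p) (cf b ψ i q) := by
  rw [Tm_apply b ψ i j u, map_sum, LinearMap.sum_apply]
  refine Finset.sum_congr rfl fun p _ => ?_
  rw [map_smul, LinearMap.smul_apply, Tm_apply b ψ j i v, map_sum, Finset.smul_sum]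
  refine Finset.sum_congr rfl fun q _ => ?_
  rw [map_smul, smul_eq_mul, smul_eq_mul, mul_assoc]

lemma key4 {m : ℕ} (c : Hlg T (m + 2)) (r : Fin m → (T.V →ₗ[ℝ] ℂ)) (a : Fin 2 → (T.V →ₗ[ℝ] ℂ)) :
    ∑ p, ∑ q, om b ψ p q a * Kc b ψ p q c r =
      2 * (Bl c r (a 0) (a 1) - ∑ i, ∑ j, Bl c r (Tm b ψ i j (a 0)) (Tm b ψ j i (a 1))) := by
  set u := a 0 with hu
  set v := a 1 with hv
  have h1 : ∑ p, ∑ q, om b ψ p q a * Kc b ψ p q c r =
      2 * ∑ p, ∑ q, (up b ψ 0 p u * up b ψ 1 q v - up b ψ 1 p u * up b ψ 0 q v) *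
        Kc b ψ p q c r := by
    have h2 : ∀ p q : Fin k, om b ψ p q a * Kc b ψ p q c r =
        (up b ψ 0 p u * up b ψ 1 q v - up b ψ 1 p u * up b ψ 0 q v) * Kc b ψ p q c r +
        (up b ψ 0 q u * up b ψ 1 p v - up b ψ 1 q u * up b ψ 0 p v) * Kc b ψ q p c r := by
      intro p q
      rw [om_apply, Kc_symm b ψ p q]
      ring
    rw [Finset.sum_congr rfl fun p _ => Finset.sum_congr rfl fun q _ => h2 p q]
    simp only [Finset.sum_add_distrib]
    rw [two_mul]
    congr 1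
    exact Finset.sum_comm
  have h3 : Bl c r u v = ∑ p, ∑ q, ∑ i, ∑ j, up b ψ i p u * up b ψ j q v *
      Bl c r (cf b ψ i p) (cf b ψ j q) := by
    rw [Bl_left b ψ]
    refine Finset.sum_congr rfl fun p _ => ?_
    have h4 : ∀ i : Fin 2, up b ψ i p u * Bl c r (cf b ψ i p) v = ∑ q, ∑ j,
        up b ψ i p u * up b ψ j q v * Bl c r (cf b ψ i p) (cf b ψ j q) := by
      intro i
      rw [Bl_right b ψ, Finset.mul_sum]
      refine Finset.sum_congr rfl fun q _ => ?_
      rw [Finset.mul_sum]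
      refine Finset.sum_congr rfl fun j _ => ?_
      ring
    rw [Finset.sum_congr rfl fun i _ => h4 i, Finset.sum_comm]
  have h5 : ∑ i, ∑ j, Bl c r (Tm b ψ i j u) (Tm b ψ j i v) = ∑ p, ∑ q, ∑ i, ∑ j,
      up b ψ i p u * up b ψ j q v * Bl c r (cf b ψ j p) (cf b ψ i q) := by
    rw [Finset.sum_congr rfl fun i _ => Finset.sum_congr rfl fun j _ => Bl_Tm b ψ c r u v i j]
    rw [Finset.sum_congr rfl fun i _ => Finset.sum_comm, Finset.sum_comm]
    refine Finset.sum_congr rfl fun p _ => ?_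
    rw [Finset.sum_congr rfl fun i _ => Finset.sum_comm, Finset.sum_comm]
  rw [h1, h3, h5, ← Finset.sum_sub_distrib]
  congr 1
  refine Finset.sum_congr rfl fun p _ => ?_
  rw [← Finset.sum_sub_distrib]
  refine Finset.sum_congr rfl fun q _ => ?_
  have h6 : Kc b ψ p q c r = Bl c r (cf b ψ 0 p) (cf b ψ 1 q) - Bl c r (cf b ψ 1 p) (cf b ψ 0 q) :=
    rfl
  rw [h6]
  simp only [Fin.sum_univ_two]
  ring

/-- The degrees. -/
def ee (m : ℕ) : Fin 2 ⊕ Fin m ≃ Fin (m + 2) :=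
  finSumFinEquiv.trans (finCongr (Nat.add_comm 2 m))

lemma ee_inl (m : ℕ) (i : Fin 2) : ee m (Sum.inl i) = ![0, 1] i := by
  fin_cases i
  · rfl
  · apply Fin.ext
    simp [ee]

lemma ee_inr (m : ℕ) (j : Fin m) : ee m (Sum.inr j) = j.succ.succ := by
  apply Fin.ext
  simp [ee]

lemma inner_eq {m : ℕ} (c : Hlg T (m + 2)) :
    (∑ p, ∑ q, (LinearMap.mul' ℂ ℂ).compMultilinearMap (MultilinearMap.domCoprod
      (om b ψ p q).toMultilinearMap (Kc b ψ p q c).toMultilinearMap)).domDomCongr (ee m) =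
      (2 : ℂ) • (c.toMultilinearMap - Nm b ψ c 0 1) := by
  ext a
  rw [MultilinearMap.domDomCongr_apply, MultilinearMap.sum_apply]
  simp only [MultilinearMap.sum_apply]
  have h1 : ∀ p q : Fin k, ((LinearMap.mul' ℂ ℂ).compMultilinearMap (MultilinearMap.domCoprod
      (om b ψ p q).toMultilinearMap (Kc b ψ p q c).toMultilinearMap)) (fun i => a (ee m i)) =
      om b ψ p q ![a 0, a 1] * Kc b ψ p q c (fun j => a j.succ.succ) := by
    intro p q
    show om b ψ p q (fun i => a (ee m (Sum.inl i))) * Kc b ψ p q c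
      (fun j => a (ee m (Sum.inr j))) = _
    congr 2
    · funext i
      rw [ee_inl]
      fin_cases i <;> rfl
    · funext j
      rw [ee_inr]
  rw [Finset.sum_congr rfl fun p _ => Finset.sum_congr rfl fun q _ => h1 p q]
  rw [key4 b ψ c (fun j => a j.succ.succ) ![a 0, a 1]]
  show _ = (2 : ℂ) * (c a - Nm b ψ c 0 1 a)
  have h2 : ∀ u v : T.V →ₗ[ℝ] ℂ, vecCons u (vecCons v fun j : Fin m => a j.succ.succ) =
      Function.update (Function.update a (0 : Fin (m + 2)) u) (1 : Fin (m + 2)) v := by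
    intro u v
    funext i
    by_cases h0 : i = 0
    · subst h0
      rw [Function.update_of_ne (Fin.zero_ne_one (n := m)), Function.update_self]
      rfl
    · by_cases h1 : i = 1
      · subst h1
        rw [Function.update_self]
        rfl
      · rw [Function.update_of_ne h1, Function.update_of_ne h0]
        obtain ⟨i, hi⟩ := i
        match i, hi with
        | 0, hi => exact absurd rfl h0
        | 1, hi => exact absurd rfl h1
        | (l + 2), hi => rfl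
  congr 2
  · show Bl c _ (a 0) (a 1) = c a
    rw [Bl_apply, h2, Function.update_eq_self, Function.update_eq_self]
  · rw [Nm_apply b ψ c Fin.zero_ne_one.symm]
    refine Finset.sum_congr rfl fun i _ => Finset.sum_congr rfl fun j _ => ?_
    show Bl c _ (Tm b ψ i j (a 0)) (Tm b ψ j i (a 1)) = _
    rw [Bl_apply, h2]
    rfl

theorem pCas : S_Cas := by
  intro E T k b ψ m c H
  have H' : Kill ψ c := H
  set S := ∑ p, ∑ q, cst (Nat.add_comm 2 m) (pont (om b ψ p q) (Kc b ψ p q c)) with hS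
  -- alternatization
  have h1 : (2 * (m.factorial : ℂ)) • S =
      MultilinearMap.alternatization ((2 : ℂ) • (c.toMultilinearMap - Nm b ψ c 0 1)) := by
    rw [← inner_eq b ψ c, alt_domDomCongr]
    simp only [map_sum]
    have h2 : ∀ p q : Fin k, MultilinearMap.alternatization
        ((LinearMap.mul' ℂ ℂ).compMultilinearMap (MultilinearMap.domCoprod
          (om b ψ p q).toMultilinearMap (Kc b ψ p q c).toMultilinearMap)) =
        (2 * (m.factorial : ℂ)) • (LinearMap.mul' ℂ ℂ).compAlternatingMap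
          ((om b ψ p q).domCoprod (Kc b ψ p q c)) := by
      intro p q
      have h3 := LinearMap.compMultilinearMap_alternatization (LinearMap.mul' ℂ ℂ)
        (MultilinearMap.domCoprod (om b ψ p q).toMultilinearMap (Kc b ψ p q c).toMultilinearMap)
      have h4 := MultilinearMap.domCoprod_alternization_eq (om b ψ p q) (Kc b ψ p q c)
      rw [h4] at h3
      rw [h3, Fintype.card_fin, Fintype.card_fin]
      ext a
      rw [AlternatingMap.smul_apply, LinearMap.compAlternatingMap_apply,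
        AlternatingMap.smul_apply, map_nsmul, LinearMap.compAlternatingMap_apply, nsmul_eq_mul]
      simp
    ext a
    rw [AlternatingMap.domDomCongr_apply, hS, AlternatingMap.smul_apply]
    simp only [alt_sum_apply, h2, AlternatingMap.smul_apply, Finset.smul_sum]
    rfl
  have h5 : MultilinearMap.alternatization ((2 : ℂ) • (c.toMultilinearMap - Nm b ψ c 0 1)) =
      (2 : ℂ) • (((m + 2).factorial : ℂ) • c -
        MultilinearMap.alternatization (Nm b ψ c 0 1)) := by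
    rw [alternatization_smul', map_sub, AlternatingMap.coe_alternatization, Fintype.card_fin,
      Nat.cast_smul_eq_nsmul]
  have h6 := alt_N01 b ψ H'
  have hm2 : ((m : ℂ) + 2) * (m + 1) ≠ 0 := by
    have h7 : ((m : ℂ) + 2) ≠ 0 := by exact_mod_cast Nat.succ_ne_zero (m + 1)
    have h8 : ((m : ℂ) + 1) ≠ 0 := by exact_mod_cast Nat.succ_ne_zero m
    exact mul_ne_zero h7 h8
  have hf : ((m + 2).factorial : ℂ) = ((m : ℂ) + 2) * (m + 1) * (m.factorial : ℂ) := by
    rw [Nat.factorial_succ, Nat.factorial_succ]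
    push_cast
    ring
  have hm : (m.factorial : ℂ) ≠ 0 := Nat.cast_ne_zero.2 (Nat.factorial_ne_zero m)
  have h9 : ((((m : ℂ) + 2) * (m + 1)) * (2 * (m.factorial : ℂ))) • S =
      ((((m : ℂ) + 2) * (m + 1)) * (2 * (m.factorial : ℂ))) •
        ((((m + 2) * (m + 4) : ℕ) : ℂ) / 2) • c := by
    rw [mul_smul, h1, h5, smul_comm _ (2 : ℂ), smul_sub, h6, smul_smul, ← sub_smul, smul_smul, hf,
      smul_smul]
    congr 1
    push_cast
    ring
  have hne : (((m : ℂ) + 2) * (m + 1)) * (2 * (m.factorial : ℂ)) ≠ 0 :=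
    mul_ne_zero hm2 (mul_ne_zero two_ne_zero hm)
  exact smul_right_injective _ hne h9

end HC.Cas
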