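import Pool.Agent.Lib.HC.L.E.Spec

/-!
PROJECT HC+, part 3 (helper14): the Casimir formula `S_Cas` of `HC/L/E/Spec.lean`.
-/

set_option autoImplicit false

noncomputable section

namespace HC.E

namespace CasE

variable {W : Type} [AddCommGroup W] [Module ℂ W] {m : ℕ}

/-- `der` is additive in the endomorphism. -/
lemma der_sum (H : S_Der) {κ : Type} (s : Finset κ) (X : κ → Module.End ℂ W)
    (c : W [⋀^Fin m]→ₗ[ℂ] ℂ) : der (∑ i ∈ s, X i) c = ∑ i ∈ s, der (X i) c := by
  classical
  induction s using Finset.induction_on with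
  | empty =>
    rw [Finset.sum_empty, Finset.sum_empty]
    have h := (H.2.2.2.2.1 W m 0 0 0 c c).2.1
    rwa [zero_smul, zero_smul] at h
  | insert i s hi ih =>
    rw [Finset.sum_insert hi, Finset.sum_insert hi, (H.2.2.2.2.1 W m _ _ 0 c c).1, ih]

lemma der_sum_right (H : S_Der) {κ : Type} (s : Finset κ) (X : Module.End ℂ W)
    (c : κ → W [⋀^Fin m]→ₗ[ℂ] ℂ) : der X (∑ i ∈ s, c i) = ∑ i ∈ s, der X (c i) := by
  classical
  induction s using Finset.induction_on with
  | empty =>
    rw [Finset.sum_empty, Finset.sum_empty]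
    have h := (H.2.2.2.2.1 W m X X 0 0 0).2.2.2
    rwa [zero_smul, zero_smul] at h
  | insert i s hi ih =>
    rw [Finset.sum_insert hi, Finset.sum_insert hi, (H.2.2.2.2.1 W m X X 0 _ _).2.2.1, ih]

/-- The double contraction of a double wedge product. -/
lemma two (H : S_Der) (c : W [⋀^Fin m]→ₗ[ℂ] ℂ) (x y : Module.Dual ℂ W) (z w : W)
    (hyz : y z = 0) (hxw : x w = 0) :
    ((wdl x (wdl y c)).curryLeft z).curryLeft w = (x z * y w) • c - x z • der (rk w y) c -
      y w • der (rk z x) c + der (rk w y) (der (rk z x) c) := by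
  have h1 := H.1 W (m + 1) (wdl y c) x z
  have h2 := H.2.1 W m c y (rk z x)
  have h3 : y ∘ₗ rk z x = 0 := by
    ext a
    rw [LinearMap.comp_apply, rk_apply, map_smul, hyz, smul_zero]; rfl
  have h0 : wdl (0 : Module.Dual ℂ W) c = 0 := by
    have h := (H.2.2.2.2.2 W m 0 0 0 c c).2.1
    rwa [zero_smul, zero_smul] at h
  rw [h3, h0, zero_add] at h2
  rw [h1, h2]
  have h4 : (x z • wdl y c - wdl y (der (rk z x) c)).curryLeft w =
      x z • (wdl y c).curryLeft w - (wdl y (der (rk z x) c)).curryLeft w := by
    ext a; rfl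
  rw [h4, H.1 W m c y w, H.1 W m (der (rk z x) c) y w]
  module

section block

variable {ι κ : Type} [Fintype ι] [DecidableEq κ] (b : Module.Basis (ι × Bool) ℂ W) (K : ι → κ)
  (k : κ)

lemma coord_b (s t : ι × Bool) [DecidableEq (ι × Bool)] :
    b.coord s (b t) = if t = s then 1 else 0 := by
  rw [Module.Basis.coord_apply, Module.Basis.repr_self, Finsupp.single_apply]

lemma eK_apply (a : W) : eK b K k a = ∑ i ∈ Finset.univ.filter (fun i => K i = k),
    b.coord (i, false) a • b (i, true) := by
  rw [eK, Finset.sum_filter, LinearMap.sum_apply]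
  refine Finset.sum_congr rfl fun i _ => ?_
  split_ifs
  · rfl
  · rfl

lemma fK_apply (a : W) : fK b K k a = ∑ i ∈ Finset.univ.filter (fun i => K i = k),
    b.coord (i, true) a • b (i, false) := by
  rw [fK, Finset.sum_filter, LinearMap.sum_apply]
  refine Finset.sum_congr rfl fun i _ => ?_
  split_ifs
  · rfl
  · rfl

lemma nA_eq : nA b K k = ∑ i ∈ Finset.univ.filter (fun i => K i = k),
    rk (b (i, false)) (b.coord (i, false)) := by
  rw [nA, Finset.sum_filter]

lemma nB_eq : nB b K k = ∑ i ∈ Finset.univ.filter (fun i => K i = k),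
    rk (b (i, true)) (b.coord (i, true)) := by
  rw [nB, Finset.sum_filter]

lemma e_mul_f : eK b K k * fK b K k = nB b K k := by
  classical
  ext a
  show eK b K k (fK b K k a) = nB b K k a
  rw [fK_apply, map_sum, nB_eq, LinearMap.sum_apply]
  refine Finset.sum_congr rfl fun i hi => ?_
  rw [map_smul, rk_apply]
  congr 1
  rw [eK_apply, Finset.sum_eq_single i]
  · rw [coord_b, if_pos rfl, one_smul]
  · intro j _ hj
    rw [coord_b, if_neg, zero_smul]
    intro h
    exact hj (congrArg Prod.fst h).symm
  · intro h; exact absurd hi h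

/-- The sum of the mixed terms. -/
lemma Q_eq (H : S_Der) (c : W [⋀^Fin m]→ₗ[ℂ] ℂ) (ν : ℂ) (he : der (eK b K k) c = 0)
    (hB : der (nB b K k) c = ν • c) :
    (∑ i ∈ Finset.univ.filter (fun i => K i = k), ∑ j ∈ Finset.univ.filter (fun i => K i = k),
      der (rk (b (i, true)) (b.coord (j, true))) (der (rk (b (j, false)) (b.coord (i, false))) c)) =
      ν • c := by
  classical
  ext a
  set B := Finset.univ.filter (fun i => K i = k) with hBdef
  have hsum : ∀ F : ι → ι → W [⋀^Fin m]→ₗ[ℂ] ℂ, (∑ i ∈ B, ∑ j ∈ B, F i j) a =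
      ∑ i ∈ B, ∑ j ∈ B, F i j a := by
    intro F
    have h1 : ∀ (s : Finset ι) (G : ι → W [⋀^Fin m]→ₗ[ℂ] ℂ), (∑ i ∈ s, G i) a = ∑ i ∈ s, G i a := by
      intro s G
      induction s using Finset.induction_on with
      | empty => simp
      | insert i s hi ih =>
        rw [Finset.sum_insert hi, Finset.sum_insert hi, AlternatingMap.add_apply, ih]
    rw [h1]
    exact Finset.sum_congr rfl fun i _ => h1 _ _
  rw [hsum]
  -- every term
  have hterm : ∀ i j : ι, der (rk (b (i, true)) (b.coord (j, true)))
      (der (rk (b (j, false)) (b.coord (i, false))) c) a = ∑ p, ∑ q ∈ Finset.univ.erase p,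
        -(c (Function.update (Function.update a p (b.coord (j, true) (a p) • b (j, false))) q
          (b.coord (i, false) (a q) • b (i, true)))) := by
    intro i j
    rw [H.2.2.2.1 W m c _ _ a]
    have h1 : rk (b (j, false)) (b.coord (i, false)) * rk (b (i, true)) (b.coord (j, true)) =
        (0 : ℂ) • (1 : Module.End ℂ W) := by
      ext v
      show rk (b (j, false)) (b.coord (i, false)) (rk (b (i, true)) (b.coord (j, true)) v) = _
      rw [rk_apply, rk_apply, map_smul, coord_b, if_neg (by simp), smul_zero, zero_smul, zero_smul]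
      rfl
    rw [h1, (H.2.2.2.2.1 W m 1 1 0 c c).2.1, zero_smul, AlternatingMap.zero_apply, zero_add]
    refine Finset.sum_congr rfl fun p _ => Finset.sum_congr rfl fun q hq => ?_
    have hqp : q ≠ p := (Finset.mem_erase.1 hq).1
    rw [rk_apply, rk_apply]
    have h2 : ∀ (x y : ℂ) (u v : W), c (Function.update (Function.update a p (x • u)) q (y • v)) =
        x * y * c (Function.update (Function.update a p u) q v) := by
      intro x y u v
      rw [c.map_update_smul, Function.update_comm hqp.symm, c.map_update_smul,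
        Function.update_comm hqp, smul_eq_mul, smul_eq_mul]
      ring
    rw [h2, h2]
    have h3 : Function.update (Function.update a p (b (i, true))) q (b (j, false)) =
        (Function.update (Function.update a p (b (j, false))) q (b (i, true))) ∘
          (Equiv.swap p q) := by
      funext r
      by_cases hr : r = p
      · subst hr
        rw [Function.comp_apply, Equiv.swap_apply_left, Function.update_of_ne hqp.symm,
          Function.update_self, Function.update_self]
      · by_cases hr2 : r = q
        · subst hr2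
          rw [Function.comp_apply, Equiv.swap_apply_right, Function.update_self,
            Function.update_of_ne hqp.symm, Function.update_self]
        · rw [Function.comp_apply, Equiv.swap_apply_of_ne_of_ne hr hr2, Function.update_of_ne hr2,
            Function.update_of_ne hr, Function.update_of_ne hr2, Function.update_of_ne hr]
    rw [h3, c.map_swap _ hqp.symm]
    ring
  rw [Finset.sum_congr rfl fun i _ => Finset.sum_congr rfl fun j _ => hterm i j]
  -- the other side
  have h5 := H.2.2.2.1 W m c (fK b K k) (eK b K k) a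
  rw [e_mul_f, he, hB] at h5
  have h6 : der (fK b K k) (0 : W [⋀^Fin m]→ₗ[ℂ] ℂ) = 0 := by
    have h := (H.2.2.2.2.1 W m (fK b K k) 0 0 0 0).2.2.2
    rwa [zero_smul, zero_smul] at h
  rw [h6, AlternatingMap.zero_apply] at h5
  have h7 : ∀ p : Fin m, ∀ q ∈ Finset.univ.erase p,
      c (Function.update (Function.update a p (fK b K k (a p))) q (eK b K k (a q))) =
      ∑ i ∈ B, ∑ j ∈ B, c (Function.update (Function.update a p
        (b.coord (j, true) (a p) • b (j, false))) q (b.coord (i, false) (a q) • b (i, true))) := by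
    intro p q hq
    have hqp : q ≠ p := (Finset.mem_erase.1 hq).1
    have hs : ∀ (a' : Fin m → W) (r : Fin m) (s : Finset ι) (g : ι → W),
        c (Function.update a' r (∑ i ∈ s, g i)) = ∑ i ∈ s, c (Function.update a' r (g i)) := by
      intro a' r s g
      exact c.map_update_sum s r g a'
    rw [eK_apply, hs]
    refine Finset.sum_congr rfl fun i _ => ?_
    rw [Function.update_comm hqp.symm, fK_apply, hs]
    refine Finset.sum_congr rfl fun j _ => ?_
    rw [Function.update_comm hqp]
  rw [Finset.sum_congr rfl fun p _ => Finset.sum_congr rfl fun q hq => h7 p q hq] at h5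
  rw [AlternatingMap.smul_apply] at h5 ⊢
  have h8 : ∑ i ∈ B, ∑ j ∈ B, ∑ p, ∑ q ∈ Finset.univ.erase p,
        -(c (Function.update (Function.update a p (b.coord (j, true) (a p) • b (j, false))) q
          (b.coord (i, false) (a q) • b (i, true)))) =
      -∑ p, ∑ q ∈ Finset.univ.erase p, ∑ i ∈ B, ∑ j ∈ B,
        c (Function.update (Function.update a p (b.coord (j, true) (a p) • b (j, false))) q
          (b.coord (i, false) (a q) • b (i, true))) := by
    simp only [Finset.sum_neg_distrib]
    congr 1
    rw [Finset.sum_congr rfl fun i _ => Finset.sum_comm, Finset.sum_comm]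
    refine Finset.sum_congr rfl fun p _ => ?_
    rw [Finset.sum_congr rfl fun i _ => Finset.sum_comm, Finset.sum_comm]
  rw [h8]
  exact (eq_neg_of_add_eq_zero_left h5.symm).symm

end block

end CasE

open CasE

theorem tCasE : S_Cas := by
  intro H W _ _ ι κ _ _ b K k m c ν he hA hB
  classical
  set B := Finset.univ.filter (fun i => K i = k) with hBdef
  have h1 : (∑ i, ∑ j, if K i = k ∧ K j = k then cE b i j (wE b i j c) else 0) =
      ∑ i ∈ B, ∑ j ∈ B, cE b i j (wE b i j c) := by
    rw [hBdef, Finset.sum_filter]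
    refine Finset.sum_congr rfl fun i _ => ?_
    by_cases hi : K i = k
    · rw [if_pos hi, Finset.sum_filter]
      refine Finset.sum_congr rfl fun j _ => ?_
      by_cases hj : K j = k
      · rw [if_pos hj, if_pos ⟨hi, hj⟩]
      · rw [if_neg hj, if_neg (fun h => hj h.2)]
    · rw [if_neg hi]
      exact Finset.sum_eq_zero fun j _ => if_neg fun h => hi h.1
  rw [h1]
  -- the four terms
  let T : ι → ι → ι → ι → W [⋀^Fin m]→ₗ[ℂ] ℂ := fun i j i' j' =>
    ((wdl (b.coord (i, false)) (wdl (b.coord (j, true)) c)).curryLeft (b (i', false))).curryLeft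
      (b (j', true))
  have h2 : ∀ i j, cE b i j (wE b i j c) = (T i j i j + T j i i j) + (T i j j i + T j i j i) := by
    intro i j
    ext a
    rfl
  have hT : ∀ i j i' j', T i j i' j' = ((if i' = i then 1 else 0) * (if j' = j then 1 else 0) : ℂ) • c
      - (if i' = i then 1 else 0 : ℂ) • der (rk (b (j', true)) (b.coord (j, true))) c -
      (if j' = j then 1 else 0 : ℂ) • der (rk (b (i', false)) (b.coord (i, false))) c +
      der (rk (b (j', true)) (b.coord (j, true))) (der (rk (b (i', false)) (b.coord (i, false))) c) := by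
    intro i j i' j'
    have h3 := two H c (b.coord (i, false)) (b.coord (j, true)) (b (i', false)) (b (j', true))
      (by rw [coord_b, if_neg (by simp)]) (by rw [coord_b, if_neg (by simp)])
    have h4 : b.coord (i, false) (b (i', false)) = if i' = i then 1 else 0 := by
      rw [coord_b]; simp
    have h5 : b.coord (j, true) (b (j', true)) = if j' = j then 1 else 0 := by
      rw [coord_b]; simp
    rw [h4, h5] at h3
    exact h3
  have hnA : ∑ i ∈ B, der (rk (b (i, false)) (b.coord (i, false))) c = ν • c := by
    rw [← der_sum H, hBdef, ← nA_eq, hA]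
  have hnB : ∑ i ∈ B, der (rk (b (i, true)) (b.coord (i, true))) c = ν • c := by
    rw [← der_sum H, hBdef, ← nB_eq, hB]
  have hsm : der (nB b K k) (ν • c) = ν • ν • c := by
    rw [(H.2.2.2.2.1 W m (nB b K k) 0 ν c c).2.2.2, hB]
  -- the straight terms
  have hS1 : ∑ i ∈ B, ∑ j ∈ B, T i j i j = ((B.card - ν) * (B.card - ν)) • c := by
    have h3 : ∀ i j, T i j i j = c - der (rk (b (j, true)) (b.coord (j, true))) c -
        der (rk (b (i, false)) (b.coord (i, false))) c +
        der (rk (b (j, true)) (b.coord (j, true)))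
          (der (rk (b (i, false)) (b.coord (i, false))) c) := by
      intro i j
      rw [hT, if_pos rfl, if_pos rfl, one_mul, one_smul, one_smul, one_smul]
    rw [Finset.sum_congr rfl fun i _ => Finset.sum_congr rfl fun j _ => h3 i j]
    simp only [Finset.sum_add_distrib, Finset.sum_sub_distrib, Finset.sum_const, hnB]
    have h4 : ∑ i ∈ B, ∑ j ∈ B, der (rk (b (j, true)) (b.coord (j, true)))
          (der (rk (b (i, false)) (b.coord (i, false))) c) = ν • ν • c := by
      rw [Finset.sum_comm, ← hsm, ← hnA, nB_eq, der_sum H]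
      refine Finset.sum_congr rfl fun j _ => ?_
      rw [der_sum_right H]
    rw [h4, ← Finset.smul_sum, hnA]
    simp only [← Nat.cast_smul_eq_nsmul ℂ]
    module
  have hS4 : ∑ i ∈ B, ∑ j ∈ B, T j i j i = ((B.card - ν) * (B.card - ν)) • c := by
    rw [Finset.sum_comm]; exact hS1
  -- the crossed terms
  have hS2 : ∑ i ∈ B, ∑ j ∈ B, T i j j i = (B.card - ν) • c := by
    have h3 : ∀ i j, T i j j i = (if j = i then c else 0) -
        (if j = i then der (rk (b (i, true)) (b.coord (i, true))) c else 0) -
        (if j = i then der (rk (b (i, false)) (b.coord (i, false))) c else 0) +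
        der (rk (b (i, true)) (b.coord (j, true)))
          (der (rk (b (j, false)) (b.coord (i, false))) c) := by
      intro i j
      rw [hT]
      by_cases h : j = i
      · subst h
        simp
      · rw [if_neg h, if_neg (Ne.symm h), if_neg h, if_neg h, if_neg h]
        simp
    rw [Finset.sum_congr rfl fun i _ => Finset.sum_congr rfl fun j _ => h3 i j]
    simp only [Finset.sum_add_distrib, Finset.sum_sub_distrib, Finset.sum_ite_eq']
    rw [Q_eq b K k H c ν he hB]
    have h4 : ∀ F : ι → W [⋀^Fin m]→ₗ[ℂ] ℂ, ∑ i ∈ B, (if i ∈ B then F i else 0) = ∑ i ∈ B, F i :=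
      fun F => Finset.sum_congr rfl fun i hi => if_pos hi
    rw [h4 (fun _ => c), h4 (fun i => der (rk (b (i, true)) (b.coord (i, true))) c),
      h4 (fun i => der (rk (b (i, false)) (b.coord (i, false))) c), hnA, hnB, Finset.sum_const,
      ← Nat.cast_smul_eq_nsmul ℂ]
    module
  have hS3 : ∑ i ∈ B, ∑ j ∈ B, T j i i j = (B.card - ν) • c := by
    rw [Finset.sum_comm]; exact hS2
  rw [Finset.sum_congr rfl fun i _ => Finset.sum_congr rfl fun j _ => h2 i j]
  simp only [Finset.sum_add_distrib]
  rw [hS1, hS2, hS3, hS4]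
  module

end HC.E
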