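import Pool.Agent.Lib.HC.L.Defs

/-!
# PROJECT HC+ part 3: CM abelian varieties times elliptic curves (helper45)

`E0` without CM, not isogenous to the `E_j`: every Hodge class of `A × ∏ E_j × E0^k` is killed by
`sl(E0.V)` acting on `E0^k` (`S_Circ`); by Künneth (`S_Le`) this reduces the Hodge conjecture for
the product to `A × ∏ E_j` and `E0^k`. `S_HE`: the Hodge conjecture for `E^k` (Casimir formula).
-/

set_option autoImplicit false

open Matrix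

noncomputable section

namespace HC

/-! ## Pure algebra: `sl₂(ℚ)` -/

/-- Rational matrices. -/
abbrev Q2 : Type := Matrix (Fin 2) (Fin 2) ℚ

/-- Real matrices. -/
abbrev R2 : Type := Matrix (Fin 2) (Fin 2) ℝ

/-- A rational matrix as a real matrix. -/
def rm (X : Q2) : R2 := X.map (algebraMap ℚ ℝ)

/-- **Sl1** (one factor).
PROOF. Let `s = {Z : tr Z = 0, ∃ q, Z + q ∈ g}` (a subspace of `sl₂(ℚ)`, stable under commutators,
`[Z + q, Z' + q'] = [Z, Z'] ∈ g`, trace 0). `tr J = 0` (`J² = -1`, real `2 × 2`), so `J` is a real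
combination of elements of `s`. Suppose `s ≠ sl₂(ℚ) ≅ ℚ³` (coordinates `!![x, y; z, -x]`): there is
a nonzero linear form `α x + β y + γ z` vanishing on `s` (`Submodule.exists_le_ker_of_lt_top`),
i.e. `Z = !![α/2, γ; β, -α/2] ≠ 0`, `tr (Z X) = 0` for `X ∈ s`. By real linearity `tr (Z J) = 0` and
`tr (Z [X, J]) = 0` for `X ∈ s` (`[X, X'] ∈ s`). CLAIM (real algebra): `X, J, Z` traceless, `J² = -1`,
`Z ≠ 0`, `tr (Z J) = 0`, `tr (Z X) = 0`, `tr (Z (X J - J X)) = 0` imply `X J = J X`. Proof: for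
traceless matrices `A B + B A = tr (A B)`, so `Z J = - J Z`; with `J = !![a, b; c, -a]`,
`a² + b c = -1`, `c ≠ 0`, `Z = !![p, q; r, -p]`, `2 a p + b r + c q = 0`:
`c² (p² + q r) = (c p - a r)² + r²`, so `Z² = p² + q r > 0`. `W = X J - J X` anticommutes with `J`,
`W Z` commutes with `J` and is `s + t J`; `2 s = tr (W Z) = 0`,
`tr (W Z J) = tr (X J Z J - J X Z J) = .. = 2 tr (X Z) = 0` gives `t = 0`; `W Z = 0`, `W = 0`.
(Or: `W` is orthogonal to `J`, `Z`, `[J, Z]`.) So `X` commutes with `J`, `X = q`, trace 0: `X = 0`.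
Hence `s = 0`, `J = 0`, contradiction. -/
def S_Sl1 : Prop :=
  ∀ (g : Submodule ℚ Q2), (∀ X ∈ g, ∀ Y ∈ g, X * Y - Y * X ∈ g) → ∀ J : R2, J * J = -1 →
    J ∈ Submodule.span ℝ (rm '' (g : Set Q2)) →
    (∀ X : Q2, rm X * J = J * rm X → ∃ q : ℚ, X = q • (1 : Q2)) →
    ∀ Z : Q2, Z.trace = 0 → ∃ q : ℚ, Z + q • (1 : Q2) ∈ g

/-- **Sl2** (`sl₂`-triples are standard).
PROOF. `tr E = 0` (`2 E` is a commutator), `2 tr (E E) = tr ((H E - E H) E) = 0`, so `E E = 0`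
(`E² = - det E`, `tr E² = - 2 det E`). The same for `F`. `E ≠ 0`: there is `v ≠ 0` in the image of
`E`, `E v = 0`, and `ker E = ℚ v` (dimension 2). `E H v = H E v - 2 E v = 0`, so `H v = λ v`. `w = F v`.
`E w = (F E + H) v = λ v`, `H w = (F H - 2 F) v = (λ - 2) w`, `F w = F F v = 0`. If `w = 0`: `λ v = 0`,
`λ = 0`, and `H v = 0`, `tr H = 0` so `H` is nilpotent with kernel `ℚ v`, or `0`, a multiple of `E`:
`H E = E H`, `2 E = 0`, contradiction. `w ≠ 0`: `v, w` are eigenvectors of `H` with different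
eigenvalues, `tr H = 0`: `λ = 1`. `g` = the matrix with columns `v, w`. -/
def S_Sl2 : Prop :=
  ∀ E F H : Q2, H * E - E * H = (2 : ℚ) • E → H * F - F * H = (-2 : ℚ) • F →
    E * F - F * E = H → E ≠ 0 → ∃ g g' : Q2, g * g' = 1 ∧ g' * g = 1 ∧
      E = g * !![0, 1; 0, 0] * g' ∧ F = g * !![0, 0; 1, 0] * g' ∧ H = g * !![1, 0; 0, -1] * g'

/-- **Sl3** (two factors), from `S_Sl2`.
PROOF. `D` = the span of the commutators of elements of `g`; `D ⊂ g`, traceless components, and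
`[p, d] ∈ D` for `p ∈ g`, `d ∈ D` (both in `g`). Second components of `D`: all traceless `Z`
(`e = !![0,1;0,0]`, `f`, `h`: `2 e = [h, e]`, .., and `[Z + q, Z' + q'] = [Z, Z']`).
`N = {Z : (0, Z) ∈ D}` is stable under `[X, ·]`, `X` traceless (take `d ∈ D` with `d.2 = X`). If `N ≠ 0`
then `N` contains all traceless matrices: `Z = α e + β f + γ h ∈ N`: `[e, [e, Z]] = -2 β e`,
`[e, Z] = β h - 2 γ e`, so `e ∈ N`, `h = [e, f] ∈ N`, `f ∈ N`. DONE in this case.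
If `N = 0`: `d ↦ d.1` is injective on `D`, with traceless values, so `dim D ≤ 3`; `d ↦ d.2` is onto a
space of dimension 3, so it is injective on `D`. Let `d_e, d_f, d_h ∈ D` have second components
`e, f, h`, `E, F, H` the first components. `[d_h, d_e] - 2 d_e ∈ D` has second component 0, so it is
`0`: `[H, E] = 2 E` etc., `E ≠ 0` (`N = 0`). `S_Sl2`: `k, k'` with `E = k e k'`, .. So every `d ∈ D` is
`(k Z k', Z)`. For `p ∈ g`, `d ∈ D`: `[p, d] ∈ D`: `[p.1, k Z k'] = k [p.2, Z] k'`, i.e.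
`k' p.1 k - p.2` commutes with all traceless `Z`, so it is a scalar. By real linearity
`rm k' * J * rm k - J0` is a real scalar, of trace `0` (`tr J = tr J0 = 0`), so `0`:
`J * rm k = rm k * J0`. By hypothesis `k = 0`, contradiction to `k k' = 1`. -/
def S_Sl3 : Prop :=
  ∀ (g : Submodule ℚ (Q2 × Q2)), (∀ p ∈ g, ∀ p' ∈ g, p * p' - p' * p ∈ g) →
    ∀ J J0 : R2, J * J = -1 → J0 * J0 = -1 →
    (J, J0) ∈ Submodule.span ℝ {P : R2 × R2 | ∃ p ∈ g, P = (rm p.1, rm p.2)} →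
    (∀ Z : Q2, Z.trace = 0 → ∃ q : ℚ, ∃ p ∈ g, p.2 = Z + q • (1 : Q2)) →
    (∀ k : Q2, rm k * J0 = J * rm k → k = 0) →
    ∀ Z : Q2, Z.trace = 0 →
      ((0, Z) : Q2 × Q2) ∈ Submodule.span ℚ {d | ∃ p ∈ g, ∃ p' ∈ g, d = p * p' - p' * p}

/-- **Sl4** (all factors), from `S_Sl1` and `S_Sl3`.
PROOF. `D` = the span of the commutators. `S_Sl1` for the projection of `g` to the last factor.
For a finite set `S` of indices: for every traceless `Z` there is `d ∈ D` with `d.2 = Z` and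
`d.1 j = 0` for `j ∈ S`. Induction on `S`. `S = ∅`: `S_Sl1` and `e = [h, e]/2`, `f = -[h, f]/2`,
`h = [e, f]`. `S ∪ {j}`: by `S_Sl3` for the projection of `g` to the factors `(j, last)` (the
commutators of the projection are the projections of the commutators) there is for every traceless
`Z` a `d ∈ D` with `d.2 = Z`, `d.1 j = 0`; write `Z = ∑ [Y, Y']` (traceless `Y, Y'`), take `d` for `Y`
and `S`, `d'` for `Y'` and `{j}`: `[d, d'] ∈ D` (`D ⊂ g`), it vanishes on `S ∪ {j}`. -/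
def S_Sl4 : Prop :=
  ∀ (n : ℕ) (g : Submodule ℚ ((Fin n → Q2) × Q2)),
    (∀ p ∈ g, ∀ p' ∈ g, p * p' - p' * p ∈ g) →
    ∀ (J : Fin n → R2) (J0 : R2), (∀ j, J j * J j = -1) → J0 * J0 = -1 →
    (J, J0) ∈ Submodule.span ℝ {P : (Fin n → R2) × R2 | ∃ p ∈ g,
      P = (fun j => rm (p.1 j), rm p.2)} →
    (∀ X : Q2, rm X * J0 = J0 * rm X → ∃ q : ℚ, X = q • (1 : Q2)) →
    (∀ j, ∀ k : Q2, rm k * J0 = J j * rm k → k = 0) →
    ∀ Z : Q2, Z.trace = 0 →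
      ((0, Z) : (Fin n → Q2) × Q2) ∈
        Submodule.span ℚ {d | ∃ p ∈ g, ∃ p' ∈ g, d = p * p' - p' * p}

/-! ## Elliptic curves -/

/-- `E` has no complex multiplication. -/
def NonCM (E : AV) : Prop :=
  ∀ X : Module.End ℝ E.V, RatEnd E X → X * mulI E = mulI E * X → ∃ r : ℝ, X = r • 1

/-- `E` and `E'` are isogenous (elliptic curves). -/
def IsoEll (E E' : AV) : Prop :=
  ∃ g : E.V →ₗ[ℂ] E'.V, g ≠ 0 ∧ ∀ v ∈ E.L, ∃ N : ℕ, N ≠ 0 ∧ N • g v ∈ E'.L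

/-- **Bas**: a lattice basis. PROOF. `finrank ℝ E.V = 2`; `IsZLattice` gives a `ℤ`-basis of `E.L`,
which is a real basis (`Basis.ofZLatticeBasis`). -/
def S_Bas : Prop :=
  ∀ E : AV, Module.finrank ℂ E.V = 1 → ∃ b : Module.Basis (Fin 2) ℝ E.V,
    ∀ v, v ∈ E.L ↔ ∃ x y : ℤ, v = (x : ℝ) • b 0 + (y : ℝ) • b 1

/-- **Circ**, from `S_La'`, `S_Lb`, `S_Lc2`, `S_Bas`, `S_Sl4`, `S_La`.
PROOF. `M_A` from `S_Lc2`. Bases `b_j` of `E j`, `b_0` of `E0` from `S_Bas`. For `x : End_ℝ A.V`,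
`Y : Fin n → R2`, `Y0 : R2` let `Θ(x, Y, Y0)` be the endomorphism of `T.V` which is, through `ψ`,
`x × ∏ toLin b_j b_j (Y j) × (toLin b_0 b_0 Y0)^k`. `Θ` is real linear in `(x, Y, Y0)` and
multiplicative; `RatEnd T (Θ(x, rm Y, rm Y0))` if `RatEnd A x`; `mulI T = Θ(mulI A, J, J0)`,
`J_j = toMatrix b_j b_j (mulI (E j))`, `J_j² = -1`. `M = {Θ(x, rm Y, rm Y0) : x ∈ M_A ∪ {0}, Y, Y0}`:
`mulI T` is in the real span of `M` (`mulI A` in the span of `M_A`, every real matrix in the real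
span of the rational ones). `S_Lb` (with `S_La`): `mulI T = ∑ ρ_s X_s`, the `X_s` kill `c` and are in
the additive closure of the rational multiples of `M`, so `X_s = Θ(x_s, rm Y_s, rm Y0_s)` with `x_s`
in `M'` = the rational span of `M_A` (commuting elements).
`g = {(Y, Y0) : ∃ x ∈ M', Θ(x, rm Y, rm Y0) kills c}`: a rational subspace, and for two elements
`[Θ(x, ..), Θ(x', ..)] = Θ(0, [Y, Y'], [Y0, Y0'])` kills `c` (`S_La'`), so `g` is stable under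
commutators and `Θ(0, D)` kills `c`, `D` the span of the commutators. `(J, J0)` is in the real span of
`g`. NonCM: a rational matrix commuting with `J0` is a scalar. Not isogenous: a rational `k` with
`k J0 = J_j k` defines a complex linear map `E0.V → (E j).V` mapping `E0.L` into `E_j.L ⊗ ℚ`.
`S_Sl4`: `Θ(0, 0, rm Z)` kills `c` for rational traceless `Z`, by real linearity for real ones. -/
def S_Circ : Prop :=
  ∀ (A : AV) (n : ℕ) (E : Fin n → AV) (E0 : AV) (k : ℕ) (T : AV)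
    (ψ : T.V ≃ₗ[ℂ] A.V × (∀ j, (E j).V) × (Fin k → E0.V)), IsCM A →
    (∀ j, Module.finrank ℂ (E j).V = 1) → Module.finrank ℂ E0.V = 1 → NonCM E0 →
    (∀ j, ¬ IsoEll E0 (E j)) →
    (∀ v, v ∈ T.L ↔ (ψ v).1 ∈ A.L ∧ (∀ j, (ψ v).2.1 j ∈ (E j).L) ∧ ∀ l, (ψ v).2.2 l ∈ E0.L) →
    ∀ (m : ℕ) (c : Hlg T m), IsHodge T m c →
    ∀ Z : Module.End ℝ E0.V, LinearMap.trace ℝ E0.V Z = 0 →
    ∀ X : Module.End ℝ T.V, (∀ v, ψ (X v) = (0, 0, fun l => Z ((ψ v).2.2 l))) →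
    ∀ a, lieAct X c a = 0

/-! ## Powers of an elliptic curve -/

/-- Evaluation of a 1-form at the two basis vectors. -/
def evb {E : AV} (b : Module.Basis (Fin 2) ℝ E.V) : (E.V →ₗ[ℝ] ℂ) →ₗ[ℂ] (Fin 2 → ℂ) where
  toFun u i := u (b i)
  map_add' _ _ := rfl
  map_smul' _ _ := rfl

/-- The fundamental class of `E` (up to sign): `dl(u, v) = u(b₀) v(b₁) - u(b₁) v(b₀)`. -/
def dl {E : AV} (b : Module.Basis (Fin 2) ℝ E.V) : Hlg E 2 :=
  (Matrix.detRowAlternating (n := Fin 2) (R := ℂ)).compLinearMap (evb b)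

/-- The inclusion of `E` into `E^k` with coordinates `s`. -/
def inc {E T : AV} {k : ℕ} (ψ : T.V ≃ₗ[ℂ] (Fin k → E.V)) (s : Fin k → ℕ) : E.V →ₗ[ℂ] T.V :=
  ψ.symm.toLinearMap ∘ₗ LinearMap.pi fun j => (s j : ℂ) • LinearMap.id

/-- `om p q = push (e_p + e_q) dl - push e_p dl - push e_q dl`. -/
def om {E T : AV} {k : ℕ} (b : Module.Basis (Fin 2) ℝ E.V) (ψ : T.V ≃ₗ[ℂ] (Fin k → E.V))
    (p q : Fin k) : Hlg T 2 :=
  push (inc ψ (Pi.single p 1 + Pi.single q 1)) (dl b) - push (inc ψ (Pi.single p 1)) (dl b) -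
    push (inc ψ (Pi.single q 1)) (dl b)

/-- The coordinate forms `x_p` (`i = 0`), `y_p` (`i = 1`) of `E^k`. -/
def cf {E T : AV} {k : ℕ} (b : Module.Basis (Fin 2) ℝ E.V) (ψ : T.V ≃ₗ[ℂ] (Fin k → E.V))
    (i : Fin 2) (p : Fin k) : T.V →ₗ[ℝ] ℂ where
  toFun v := ((b.repr (ψ v p) i : ℝ) : ℂ)
  map_add' u v := by simp
  map_smul' r v := by
    have h : ψ (r • v) = r • ψ v := by
      have := ψ.map_smul (r : ℂ) v
      simpa using this
    simp [h]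

/-- `K_pq c = c(x_p, y_q, ..) - c(y_p, x_q, ..)`. -/
def Kc {E T : AV} {k : ℕ} (b : Module.Basis (Fin 2) ℝ E.V) (ψ : T.V ≃ₗ[ℂ] (Fin k → E.V))
    (p q : Fin k) {m : ℕ} (c : Hlg T (m + 2)) : Hlg T m :=
  (c.curryLeft (cf b ψ 0 p)).curryLeft (cf b ψ 1 q) -
    (c.curryLeft (cf b ψ 1 p)).curryLeft (cf b ψ 0 q)

/-- Change of the degree. -/
def cst {T : AV} {m m' : ℕ} (h : m = m') (c : Hlg T m) : Hlg T m' :=
  c.domDomCongr (finCongr h)

/-- **Cas** (the Casimir formula): if `c` of degree `M = m + 2` is killed by `sl₂` then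
`∑_{p,q} pont (om_pq) (K_pq c) = (M (M + 2) / 2) c`.
PROOF. `W` = the 1-forms of `E^k`, with the basis `cf i p`; `a = ∑_p ∑_i a(ψ⁻¹(b_i at p)) cf i p`.
`X_ij` = the endomorphism of `T.V` which is `b_j ↦ b_i` on every copy (`b_l ↦ 0` for `l ≠ j`);
`T_ij a = a ∘ X_ij`, `T_ij (cf i p) = cf j p`, `T_ij (cf l p) = 0` for `l ≠ i`. `D_ij = lieAct X_ij`.
(1) `∑_ij D_ij D_ji c (a) = 2 M c(a) + ∑_{s ≠ t} c(sw_st a)`, where
`sw_st a = ∑_ij (a with T_ij a_s at s, T_ji a_t at t)` [meaning: `c(sw_st a)` is the sum of the values];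
for `a_s = cf i p`, `a_t = cf j q` it is the value at `cf j p`, `cf i q`. (`∑_ij T_ji T_ij a = 2 a`.)
(2) `D_01 c = D_10 c = 0`, `D_00 c = D_11 c` (trace 0), `(D_00 + D_11) c = M c`
(`T_00 + T_11 = id`), so `∑_ij D_ij D_ji c = (M²/2) c`. [In Lean `lieAct` gives functions of `a`;
they are again multilinear: apply the identities `lieAct X c = 0` at the modified `a`.]
(3) Hence `∑_{s ≠ t} c(sw_st a) = (M²/2 - 2 M) c(a)`.
(4) `∑_pq om_pq(a, a') K_pq c(r) = 2 (c(a, a', r) - c(sw_01 (a, a', r)))`: both sides bilinear in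
`a, a'`; for `a = cf i p`, `a' = cf j q`: `om_p'q'(a, a') = ε_ij (δ_pp' δ_qq' + δ_pq' δ_qp')`,
`ε_01 = 1`, `ε_10 = -1`, and `K_pq c = K_qp c`.
(5) `2! m! pont(om, K)(a) = ∑_σ sign σ om(a_σ0, a_σ1) K(a_σ2, ..)`
(`MultilinearMap.domCoprod_alternization_eq` or the like). So
`2 m! ∑_pq pont(om_pq, K_pq c)(a) = 2 ∑_σ sign σ (c(a ∘ σ) - c(sw_01 (a ∘ σ)))
 = 2 (M! c(a) - ∑_σ c(sw_{σ0,σ1} a)) = 2 (M! c(a) - m! ∑_{s ≠ t} c(sw_st a))`
[`∑_σ f(σ0, σ1) = ∑_σ f(σ s, σ t)` for all `s ≠ t`; sum over `s ≠ t`: `M (M - 1) ∑_σ f(σ0, σ1) =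
M! ∑_{s ≠ t} f(s, t)`], `= 2 m! (M (M - 1) - M²/2 + 2 M) c(a) = 2 m! (M (M + 2) / 2) c(a)`. -/
def S_Cas : Prop :=
  ∀ (E T : AV) (k : ℕ) (b : Module.Basis (Fin 2) ℝ E.V) (ψ : T.V ≃ₗ[ℂ] (Fin k → E.V)) (m : ℕ)
    (c : Hlg T (m + 2)),
    (∀ Z : Module.End ℝ E.V, LinearMap.trace ℝ E.V Z = 0 → ∀ X : Module.End ℝ T.V,
      (∀ v, ψ (X v) = fun l => Z (ψ v l)) → ∀ a, lieAct X c a = 0) →
    ∑ p, ∑ q, cst (Nat.add_comm 2 m) (pont (om b ψ p q) (Kc b ψ p q c)) =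
      (((m + 2) * (m + 4) : ℕ) / 2 : ℂ) • c

/-- **Om**: the classes `om` are algebraic.
PROOF. `dl b` is `±` the fundamental class of `E`: constructor `geo` with the complex torus
`ℂ / L`: `k = 1`, `D = univ`, `Γ = Multiplicative E.L`, action `z ↦ z + γ` in the coordinate
`E.V ≅ ℂ` (choose `e : E.V ≃ₗ[ℂ] (Fin 1 → ℂ)`), `w = e.symm`, a weight `χ` (a bump function divided
by its sum over the lattice). `c(u, v) = ∫ χ det (u(w e₁), ..) = (∫ χ) (u(w₁) v(i w₁) - ..)`, a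
nonzero multiple of `dl b (u, v)` (`∫ χ > 0`; `w₁, i w₁` is another real basis of `E.V`: the
determinants differ by a nonzero factor). Then `push`, `add`, `smul`. `inc ψ s` maps `E.L` to
`T.L`. -/
def S_Om : Prop :=
  ∀ (E T : AV) (k : ℕ) (b : Module.Basis (Fin 2) ℝ E.V) (ψ : T.V ≃ₗ[ℂ] (Fin k → E.V)),
    Module.finrank ℂ E.V = 1 → (∀ v, v ∈ T.L ↔ ∀ l, ψ v l ∈ E.L) → ∀ p q, Alg T 2 (om b ψ p q)

/-- **Kh**: `K_pq` maps Hodge classes to Hodge classes.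
PROOF. Rationality: `cf i p` is rational (integral) on `T.L` (`b` is a lattice basis).
Invariance: for `‖u‖ = 1`, `ū = u⁻¹`, `(cf 0 p) ∘ ū = α cf 0 p + β cf 1 p`,
`(cf 1 p) ∘ ū = γ cf 0 p + δ cf 1 p` with the same real `α, β, γ, δ` for all `p`,
`α δ - β γ = 1` (`= det` of the multiplication by `ū` on `E.V`, `|ū|² = 1`:
`LinearMap.det` of a complex scalar, or: the real `2 × 2` matrix `J` of `i` has `J² = -1`, so
`det J = 1`, `tr J = 0`, and `det (x + y J) = x² + y²`). `push u c = c` at `(cf 0 p ∘ ū, cf 1 q ∘ ū, a)`: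
`K_pq c (a ∘ u) = c(cf 0 p ∘ ū, cf 1 q ∘ ū, a) - c(cf 1 p ∘ ū, cf 0 q ∘ ū, a) = K_pq c (a)`. -/
def S_Kh : Prop :=
  ∀ (E T : AV) (k : ℕ) (b : Module.Basis (Fin 2) ℝ E.V) (ψ : T.V ≃ₗ[ℂ] (Fin k → E.V)),
    Module.finrank ℂ E.V = 1 →
    (∀ v, v ∈ E.L ↔ ∃ x y : ℤ, v = (x : ℝ) • b 0 + (y : ℝ) • b 1) →
    (∀ v, v ∈ T.L ↔ ∀ l, ψ v l ∈ E.L) → ∀ (p q : Fin k) (m : ℕ) (c : Hlg T (m + 2)),
    IsHodge T (m + 2) c → IsHodge T m (Kc b ψ p q c)

/-- **Pt**: classes of degree 0 and 1. PROOF. Degree 0: `geo` with `k = 0`, `D = univ`, the trivial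
group, `χ = 1`, `w = 0` gives the class `1` (the point), and `c = c(![]) • 1`. Degree 1: `push (-1)
c = - c`. -/
def S_Pt : Prop :=
  (∀ (T : AV) (c : Hlg T 0), Alg T 0 c) ∧ ∀ (T : AV) (c : Hlg T 1), IsHodge T 1 c → c = 0

/-- The zero abelian variety. PROOF. `V = Fin 0 → ℂ`, `L = ⊥` (or `⊤`); `IsCM` with `n = 0`. -/
def S_Zav : Prop := ∃ A : AV, IsCM A ∧ Subsingleton A.V

/-- **HE**: the Hodge conjecture for `E^k`, `E` without CM, from `S_Circ` (with the zero abelian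
variety `S_Zav` and `n = 0`), `S_Bas`, `S_Cas`, `S_Om`, `S_Kh`, `S_Pt`.
PROOF. Strong induction on the degree: `0, 1`: `S_Pt`; `m + 2`: `c` is a combination of the
`pont (om_pq) (K_pq c)`, `K_pq c` is a Hodge class of degree `m`. -/
def S_HE : Prop :=
  ∀ (E T : AV) (k : ℕ) (ψ : T.V ≃ₗ[ℂ] (Fin k → E.V)), Module.finrank ℂ E.V = 1 → NonCM E →
    (∀ v, v ∈ T.L ↔ ∀ l, ψ v l ∈ E.L) → HCj T

end HC
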