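import Pool.Agent.Lib.HC.L.E.Rib
import Pool.Agent.Lib.HC.L.E.SpecL

/-!
# PROJECT HC+, part 3 (elliptic curves): `S_Sl1`, `S_Sl4`
-/

set_option autoImplicit false

open Matrix

noncomputable section

namespace HC

open HC.Rib (tc tc_trace tc_id)

theorem rm_eq (X : Q2) : rm X = Gour.cr X := by
  ext i j
  rfl

theorem tc_lin {K : Type} [Field K] [CharZero K] (q : K) (x y : Matrix (Fin 2) (Fin 2) K) :
    tc (x + y) = tc x + tc y ∧ tc (q • x) = q • tc x := by
  unfold tc
  refine ⟨?_, ?_⟩
  · rw [trace_add, add_div, add_smul]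
    abel
  · rw [trace_smul, smul_eq_mul, mul_div_assoc, smul_sub, smul_smul]

theorem tc_rm (x : Q2) : tc (rm x) = rm (tc x) := by
  unfold tc
  rw [rm_eq, rm_eq, map_sub, Gour.cr_smul, map_one, Gour.trace_cr]
  push_cast
  rfl

theorem pSl1 : S_Sl1 := by
  intro g hg J hJ hs hcm Z hZ
  let T : Q2 →ₗ[ℚ] (Unit → Q2) :=
    { toFun := fun x _ => tc x
      map_add' := fun x y => by
        funext _
        exact (tc_lin 0 x y).1
      map_smul' := fun q x => by
        funext _
        exact (tc_lin q x 0).2 }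
  have hcore := Gour.core (g.map T) (by
      rintro _ ⟨x, _, rfl⟩ i
      exact tc_trace x) (by
      rintro _ ⟨x, hx, rfl⟩ _ ⟨y, hy, rfl⟩
      refine ⟨x * y - y * x, hg x hx y hy, ?_⟩
      funext _
      show tc (x * y - y * x) = tc x * tc y - tc y * tc x
      rw [tc_id (Rib.tr_br _ _), Rib.tc_br, Rib.br_tc]) (fun _ => J) (fun _ => hJ) (by
      have h1 : ∀ s ∈ Submodule.span ℝ (rm '' (g : Set Q2)),
          (fun _ => tc s : Unit → R2) ∈
            Submodule.span ℝ (Gour.crt '' ((g.map T : Submodule ℚ (Unit → Q2)) : Set (Unit → Q2))) := by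
        intro s hs'
        refine Submodule.span_induction (p := fun s _ => (fun _ => tc s : Unit → R2) ∈
            Submodule.span ℝ (Gour.crt '' ((g.map T : Submodule ℚ (Unit → Q2)) : Set (Unit → Q2)))) ?_ ?_ ?_ ?_ hs'
        · rintro _ ⟨b, hb, rfl⟩
          refine Submodule.subset_span ⟨T b, ⟨b, hb, rfl⟩, ?_⟩
          funext _
          show Gour.cr (tc b) = tc (rm b)
          rw [tc_rm, rm_eq]
        · have h2 : (fun _ => tc (0 : R2) : Unit → R2) = 0 := by
            funext _
            exact tc_id (trace_zero _ _)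
          rw [h2]
          exact Submodule.zero_mem _
        · intro u v _ _ hu hv
          have h2 : (fun _ => tc (u + v) : Unit → R2) = (fun _ => tc u) + fun _ => tc v := by
            funext _
            exact (tc_lin 0 u v).1
          rw [h2]
          exact Submodule.add_mem _ hu hv
        · intro q u _ hu
          have h2 : (fun _ => tc (q • u) : Unit → R2) = q • fun _ => tc u := by
            funext _
            exact (tc_lin q u 0).2
          rw [h2]
          exact Submodule.smul_mem _ q hu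
      have h3 := h1 J hs
      have h4 : tc J = J := tc_id (Gour.J_trace hJ)
      rw [h4] at h3
      exact h3) (fun _ X hX => hcm X (by rw [rm_eq]; exact hX)) (fun i j hij => absurd (Subsingleton.elim i j) hij)
  obtain ⟨x, hx, hxZ⟩ := hcore (fun _ => Z) (fun _ => hZ)
  have h5 : tc x = Z := congrFun hxZ ()
  refine ⟨x.trace / 2, ?_⟩
  rw [← h5]
  unfold tc
  rw [sub_add_cancel]
  exact hx

theorem pSl4 : S_Sl4 := by
  classical
  intro n g hg J J0 hJ hJ0 hs hcm his Z hZ
  -- tuples indexed by `Option (Fin n)`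
  let T : ((Fin n → Q2) × Q2) →ₗ[ℚ] (Option (Fin n) → Q2) :=
    { toFun := fun p o => o.elim p.2 p.1
      map_add' := by
        intro p q
        funext o
        cases o <;> rfl
      map_smul' := by
        intro c p
        funext o
        cases o <;> rfl }
  have hTbr : ∀ p q, T (p * q - q * p) = T p * T q - T q * T p := by
    intro p q
    funext o
    cases o <;> rfl
  have hTinj : Function.Injective T := by
    intro p q hpq
    refine Prod.ext ?_ ?_
    · funext j
      exact congrFun hpq (some j)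
    · exact congrFun hpq none
  -- first factor
  have h1 : ∀ x : Q2, x.trace = 0 → ∃ a ∈ g.map T, tc (a none) = x := by
    intro x hx
    obtain ⟨q, hq⟩ := pSl1 (g.map (LinearMap.snd ℚ (Fin n → Q2) Q2)) (by
        rintro _ ⟨a, ha, rfl⟩ _ ⟨b, hb, rfl⟩
        exact ⟨a * b - b * a, hg a ha b hb, rfl⟩) J0 hJ0 (by
        have h2 := Submodule.mem_map_of_mem (f := LinearMap.snd ℝ (Fin n → R2) R2) hs
        rw [Submodule.map_span] at h2
        refine Submodule.span_mono ?_ h2
        rintro _ ⟨_, ⟨p, hp, rfl⟩, rfl⟩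
        exact ⟨p.2, ⟨p, hp, rfl⟩, rfl⟩) hcm x hx
    obtain ⟨a, ha, hax⟩ := hq
    have hax' : a.2 = x + q • 1 := hax
    refine ⟨T a, ⟨a, ha, rfl⟩, ?_⟩
    show tc a.2 = x
    rw [hax', (tc_lin 0 x _).1, (tc_lin q 1 0).2, tc_id hx]
    have h3 : tc (1 : Q2) = 0 := by
      unfold tc
      rw [trace_one]
      simp
    rw [h3, smul_zero, add_zero]
  have h2 := Rib.one_factor (g.map T) (by
      rintro _ ⟨a, ha, rfl⟩ _ ⟨b, hb, rfl⟩
      exact ⟨a * b - b * a, hg a ha b hb, hTbr a b⟩) none h1 (by
      intro j hj X hX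
      obtain ⟨j, rfl⟩ := Option.ne_none_iff_exists'.1 hj
      apply his j X
      have h3 : ∀ P ∈ Submodule.span ℝ {P : (Fin n → R2) × R2 | ∃ p ∈ g, P = (fun j => rm (p.1 j), rm p.2)},
          rm X * tc P.2 = tc (P.1 j) * rm X := by
        intro P hP
        refine Submodule.span_induction (p := fun P _ => rm X * tc P.2 = tc (P.1 j) * rm X) ?_ ?_ ?_ ?_ hP
        · rintro _ ⟨p, hp, rfl⟩
          have h4 := hX (T p) ⟨p, hp, rfl⟩
          have h5 : X * tc p.2 = tc (p.1 j) * X := h4
          show rm X * tc (rm p.2) = tc (rm (p.1 j)) * rm X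
          rw [tc_rm, tc_rm, rm_eq, rm_eq, rm_eq, ← map_mul, h5, map_mul]
        · show rm X * tc 0 = tc 0 * rm X
          rw [tc_id (trace_zero _ _), mul_zero, zero_mul]
        · intro u v _ _ hu hv
          show rm X * tc (u.2 + v.2) = tc (u.1 j + v.1 j) * rm X
          rw [(tc_lin 0 u.2 v.2).1, (tc_lin 0 (u.1 j) (v.1 j)).1, mul_add, add_mul, hu, hv]
        · intro q u _ hu
          show rm X * tc (q • u.2) = tc (q • u.1 j) * rm X
          rw [(tc_lin q u.2 0).2, (tc_lin q (u.1 j) 0).2, mul_smul_comm, smul_mul_assoc, hu]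
      have h6 := h3 _ hs
      have h7 : rm X * tc J0 = tc (J j) * rm X := h6
      rw [tc_id (Gour.J_trace hJ0), tc_id (Gour.J_trace (hJ j))] at h7
      exact h7) hZ
  -- back
  have h3 : (Submodule.span ℚ {z : Option (Fin n) → Q2 | ∃ a ∈ g.map T, ∃ b ∈ g.map T, z = a * b - b * a}) ≤
      (Submodule.span ℚ {d : (Fin n → Q2) × Q2 | ∃ p ∈ g, ∃ p' ∈ g, d = p * p' - p' * p}).map T := by
    refine Submodule.span_le.2 ?_
    rintro _ ⟨_, ⟨a, ha, rfl⟩, _, ⟨b, hb, rfl⟩, rfl⟩
    exact ⟨a * b - b * a, Submodule.subset_span ⟨a, ha, b, hb, rfl⟩, hTbr a b⟩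
  obtain ⟨d, hd, hdT⟩ := h3 h2
  have h4 : d = ((0, Z) : (Fin n → Q2) × Q2) := by
    apply hTinj
    rw [hdT]
    funext o
    cases o with
    | none => exact Pi.single_eq_same _ _
    | some j => exact Pi.single_eq_of_ne (Option.some_ne_none j) _
  rw [← h4]
  exact hd

end HC
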