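import Pool.Agent.Lib.HC.L.E.BasL
import Pool.Agent.Lib.HC.L.E.Sl4
import Pool.Agent.Lib.HC.L.Lc3
import Pool.Agent.Lib.HC.L.La

/-!
# PROJECT HC+, part 3 (elliptic curves): `S_Circ`
-/

set_option autoImplicit false

open Matrix

noncomputable section

namespace HC
namespace Circ

open Lc3 (kill mem_kill lieAct_add lieAct_smul)

/-! ## lattice bases -/

/-- A basis of the lattice. -/
def IsLB (E : AV) (b : Module.Basis (Fin 2) ℝ E.V) : Prop :=
  ∀ v, v ∈ E.L ↔ ∃ x y : ℤ, v = (x : ℝ) • b 0 + (y : ℝ) • b 1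

theorem int_of_den (q : ℚ) (N : ℕ) (h : q.den ∣ N) : ∃ z : ℤ, (N : ℝ) * (q : ℝ) = z := by
  obtain ⟨c, rfl⟩ := h
  refine ⟨q.num * c, ?_⟩
  have h1 : (q : ℚ) * q.den = q.num := Rat.mul_den_eq_num q
  have h2 : ((q : ℝ)) * (q.den : ℝ) = (q.num : ℝ) := by exact_mod_cast h1
  push_cast
  linear_combination (c : ℝ) * h2

theorem rat_toLin {E E' : AV} {b : Module.Basis (Fin 2) ℝ E.V} {b' : Module.Basis (Fin 2) ℝ E'.V} (hb : IsLB E b)
    (hb' : IsLB E' b') (Y : Q2) : ∀ v ∈ E.L, ∃ N : ℕ, N ≠ 0 ∧ N • (Matrix.toLin b b' (rm Y)) v ∈ E'.L := by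
  intro v hv
  obtain ⟨x, y, rfl⟩ := (hb v).1 hv
  set N : ℕ := (Y 0 0).den * (Y 0 1).den * (Y 1 0).den * (Y 1 1).den with hN
  have hN0 : N ≠ 0 := by
    rw [hN]
    exact mul_ne_zero (mul_ne_zero (mul_ne_zero (Y 0 0).den_nz (Y 0 1).den_nz) (Y 1 0).den_nz) (Y 1 1).den_nz
  obtain ⟨z00, h00⟩ := int_of_den (Y 0 0) N ⟨(Y 0 1).den * (Y 1 0).den * (Y 1 1).den, by rw [hN]; ring⟩
  obtain ⟨z01, h01⟩ := int_of_den (Y 0 1) N ⟨(Y 0 0).den * (Y 1 0).den * (Y 1 1).den, by rw [hN]; ring⟩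
  obtain ⟨z10, h10⟩ := int_of_den (Y 1 0) N ⟨(Y 0 0).den * (Y 0 1).den * (Y 1 1).den, by rw [hN]; ring⟩
  obtain ⟨z11, h11⟩ := int_of_den (Y 1 1) N ⟨(Y 0 0).den * (Y 0 1).den * (Y 1 0).den, by rw [hN]; ring⟩
  refine ⟨N, hN0, ?_⟩
  rw [hb']
  refine ⟨x * z00 + y * z01, x * z10 + y * z11, ?_⟩
  have e0 : (Matrix.toLin b b' (rm Y)) (b 0) = (Y 0 0 : ℝ) • b' 0 + (Y 1 0 : ℝ) • b' 1 := by
    rw [Matrix.toLin_self, Fin.sum_univ_two]
    rfl
  have e1 : (Matrix.toLin b b' (rm Y)) (b 1) = (Y 0 1 : ℝ) • b' 0 + (Y 1 1 : ℝ) • b' 1 := by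
    rw [Matrix.toLin_self, Fin.sum_univ_two]
    rfl
  rw [map_add, map_smul, map_smul, e0, e1, ← Nat.cast_smul_eq_nsmul ℝ]
  simp only [smul_add, smul_smul]
  push_cast
  rw [← h00, ← h01, ← h10, ← h11]
  module

/-- The endomorphism of a matrix. -/
def tE {E : AV} (b : Module.Basis (Fin 2) ℝ E.V) : R2 ≃ₐ[ℝ] Module.End ℝ E.V := Matrix.toLinAlgEquiv b

theorem rat_tE {E : AV} {b : Module.Basis (Fin 2) ℝ E.V} (hb : IsLB E b) (Y : Q2) : RatEnd E (tE b (rm Y)) :=
  rat_toLin hb hb Y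

theorem mulI_sq (E : AV) : mulI E * mulI E = -1 := by
  ext v
  show Complex.I • (Complex.I • v) = -v
  rw [smul_smul, Complex.I_mul_I, neg_one_smul]

/-- The matrix of `i`. -/
def jm {E : AV} (b : Module.Basis (Fin 2) ℝ E.V) : R2 := (tE b).symm (mulI E)

theorem tE_jm {E : AV} (b : Module.Basis (Fin 2) ℝ E.V) : tE b (jm b) = mulI E := (tE b).apply_symm_apply _

theorem jm_sq {E : AV} (b : Module.Basis (Fin 2) ℝ E.V) : jm b * jm b = -1 := by
  unfold jm
  rw [← map_mul, mulI_sq, map_neg, map_one]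

theorem rm_entry (X : Q2) (i j : Fin 2) : rm X i j = (X i j : ℝ) := rfl

/-- No complex multiplication. -/
theorem nonCM_mat {E : AV} (b : Module.Basis (Fin 2) ℝ E.V) (hb : IsLB E b) (h : NonCM E) (X : Q2)
    (hX : rm X * jm b = jm b * rm X) : ∃ q : ℚ, X = q • (1 : Q2) := by
  obtain ⟨r, hr⟩ := h (tE b (rm X)) (rat_tE hb X) (by
    rw [← tE_jm b, ← map_mul, ← map_mul, hX])
  have h1 : rm X = r • (1 : R2) := by
    apply (tE b).injective
    rw [hr, map_smul, map_one]
  refine ⟨X 0 0, ?_⟩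
  have h00 := congrFun (congrFun h1 0) 0
  have h01 := congrFun (congrFun h1 0) 1
  have h10 := congrFun (congrFun h1 1) 0
  have h11 := congrFun (congrFun h1 1) 1
  rw [rm_entry] at h00 h01 h10 h11
  simp at h00 h01 h10 h11
  ext i j
  fin_cases i <;> fin_cases j
  · simp
  · simpa using h01
  · simpa using h10
  · have h2 : ((X 1 1 : ℚ) : ℝ) = ((X 0 0 : ℚ) : ℝ) := by rw [h11, h00]
    have h3 : X 1 1 = X 0 0 := by exact_mod_cast h2
    simpa using h3

/-- Not isogenous. -/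
theorem iso_mat {E E' : AV} (b : Module.Basis (Fin 2) ℝ E.V) (b' : Module.Basis (Fin 2) ℝ E'.V) (hb : IsLB E b)
    (hb' : IsLB E' b') (h : ¬ IsoEll E E') (X : Q2) (hX : rm X * jm b = jm b' * rm X) : X = 0 := by
  by_contra h0
  apply h
  set g := Matrix.toLin b b' (rm X) with hg
  have hgI : ∀ v, g (Complex.I • v) = Complex.I • g v := by
    intro v
    have h1 : g ((tE b (jm b)) v) = (tE b' (jm b')) (g v) := by
      have h2 : Matrix.toLin b b' (rm X * jm b) = (Matrix.toLin b b' (rm X)) ∘ₗ (Matrix.toLin b b (jm b)) :=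
        Matrix.toLin_mul b b b' _ _
      have h3 : Matrix.toLin b b' (jm b' * rm X) = (Matrix.toLin b' b' (jm b')) ∘ₗ (Matrix.toLin b b' (rm X)) :=
        Matrix.toLin_mul b b' b' _ _
      rw [hX, h3] at h2
      exact (LinearMap.congr_fun h2 v).symm
    rw [tE_jm, tE_jm] at h1
    exact h1
  refine ⟨{ toFun := g, map_add' := map_add g, map_smul' := ?_ }, ?_, ?_⟩
  · intro c v
    show g (c • v) = c • g v
    rw [L.smul_eq c v, map_add, map_smul, map_smul, hgI, ← L.smul_eq c (g v)]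
  · intro h1
    apply h0
    have h2 : g = 0 := by
      ext v
      exact LinearMap.congr_fun h1 v
    have h3 : rm X = 0 := by
      apply (Matrix.toLin b b').injective
      rw [map_zero]
      exact h2
    ext i j
    have h4 := congrFun (congrFun h3 i) j
    rw [rm_entry] at h4
    have h5 : ((X i j : ℚ) : ℝ) = 0 := h4
    show X i j = 0
    exact_mod_cast h5
  · exact rat_toLin hb hb' X

/-! ## the endomorphisms of the product -/

section

variable {A : AV} {n : ℕ} {E : Fin n → AV} {E0 : AV} {k : ℕ} {T : AV}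
  (ψ : T.V ≃ₗ[ℂ] A.V × (∀ j, (E j).V) × (Fin k → E0.V))

theorem psi_smul (r : ℝ) (v : T.V) : ψ (r • v) = (r : ℂ) • ψ v := by
  rw [← map_smul]
  congr 1

/-- The endomorphism `(x, Y, Y₀)`. -/
def Th (x : Module.End ℝ A.V) (Y : ∀ j, Module.End ℝ (E j).V) (Y0 : Module.End ℝ E0.V) : Module.End ℝ T.V where
  toFun v := ψ.symm (x (ψ v).1, fun j => Y j ((ψ v).2.1 j), fun l => Y0 ((ψ v).2.2 l))
  map_add' v w := by
    rw [← map_add, map_add ψ]
    congr 1
    refine Prod.ext ?_ (Prod.ext ?_ ?_)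
    · exact map_add x _ _
    · funext j
      exact map_add (Y j) _ _
    · funext l
      exact map_add Y0 _ _
  map_smul' r v := by
    rw [psi_smul]
    have h3 : (x ((r : ℂ) • ψ v).1, (fun j => Y j (((r : ℂ) • ψ v).2.1 j)), fun l => Y0 (((r : ℂ) • ψ v).2.2 l)) =
        (r : ℂ) • (x (ψ v).1, (fun j => Y j ((ψ v).2.1 j)), fun l => Y0 ((ψ v).2.2 l)) := by
      refine Prod.ext ?_ (Prod.ext ?_ ?_)
      · show x ((r : ℂ) • (ψ v).1) = (r : ℂ) • x (ψ v).1
        rw [Complex.coe_smul, Complex.coe_smul, map_smul]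
      · funext j
        show Y j ((r : ℂ) • (ψ v).2.1 j) = (r : ℂ) • Y j ((ψ v).2.1 j)
        rw [Complex.coe_smul, Complex.coe_smul, map_smul]
      · funext l
        show Y0 ((r : ℂ) • (ψ v).2.2 l) = (r : ℂ) • Y0 ((ψ v).2.2 l)
        rw [Complex.coe_smul, Complex.coe_smul, map_smul]
    rw [h3, map_smul ψ.symm]
    exact Complex.coe_smul r _

theorem psi_Th (x : Module.End ℝ A.V) (Y : ∀ j, Module.End ℝ (E j).V) (Y0 : Module.End ℝ E0.V) (v : T.V) :
    ψ (Th ψ x Y Y0 v) = (x (ψ v).1, fun j => Y j ((ψ v).2.1 j), fun l => Y0 ((ψ v).2.2 l)) :=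
  ψ.apply_symm_apply _

theorem ext_psi {Z Z' : Module.End ℝ T.V} (h : ∀ v, ψ (Z v) = ψ (Z' v)) : Z = Z' :=
  LinearMap.ext fun v => ψ.injective (h v)

theorem Th_add (x x' : Module.End ℝ A.V) (Y Y' : ∀ j, Module.End ℝ (E j).V) (Y0 Y0' : Module.End ℝ E0.V) :
    Th ψ (x + x') (Y + Y') (Y0 + Y0') = Th ψ x Y Y0 + Th ψ x' Y' Y0' :=
  ext_psi ψ fun v => by
    rw [psi_Th, LinearMap.add_apply (Th ψ x Y Y0), map_add, psi_Th, psi_Th]
    rfl

theorem Th_smul (r : ℝ) (x : Module.End ℝ A.V) (Y : ∀ j, Module.End ℝ (E j).V) (Y0 : Module.End ℝ E0.V) :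
    Th ψ (r • x) (r • Y) (r • Y0) = r • Th ψ x Y Y0 :=
  ext_psi ψ fun v => by
    have h1 : ψ ((r • Th ψ x Y Y0) v) = (r : ℂ) • ψ (Th ψ x Y Y0 v) := psi_smul ψ r _
    rw [h1, psi_Th, psi_Th]
    refine Prod.ext ?_ (Prod.ext ?_ ?_)
    · exact (Complex.coe_smul r (x (ψ v).1)).symm
    · funext j
      exact (Complex.coe_smul r (Y j ((ψ v).2.1 j))).symm
    · funext l
      exact (Complex.coe_smul r (Y0 ((ψ v).2.2 l))).symm

theorem Th_mul (x x' : Module.End ℝ A.V) (Y Y' : ∀ j, Module.End ℝ (E j).V) (Y0 Y0' : Module.End ℝ E0.V) :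
    Th ψ (x * x') (Y * Y') (Y0 * Y0') = Th ψ x Y Y0 * Th ψ x' Y' Y0' :=
  ext_psi ψ fun v => by
    rw [psi_Th, Module.End.mul_apply (Th ψ x Y Y0), psi_Th, psi_Th]
    rfl

theorem Th_mulI : Th ψ (mulI A) (fun j => mulI (E j)) (mulI E0) = mulI T :=
  ext_psi ψ fun v => by
    rw [psi_Th]
    exact (map_smul ψ Complex.I v).symm

theorem exists_N {ι : Type} [Fintype ι] {V : ι → Type} [∀ i, AddCommGroup (V i)] (L : ∀ i, Submodule ℤ (V i))
    (u : ∀ i, V i) (h : ∀ i, ∃ N : ℕ, N ≠ 0 ∧ N • u i ∈ L i) : ∃ N : ℕ, N ≠ 0 ∧ ∀ i, N • u i ∈ L i := by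
  choose N hN hu using h
  refine ⟨∏ i, N i, Finset.prod_ne_zero_iff.2 fun i _ => hN i, fun i => ?_⟩
  obtain ⟨c, hc⟩ := Finset.dvd_prod_of_mem N (Finset.mem_univ i)
  rw [hc, mul_comm, mul_smul]
  exact (L i).smul_of_tower_mem c (hu i)

theorem Th_rat (hL : ∀ v, v ∈ T.L ↔ (ψ v).1 ∈ A.L ∧ (∀ j, (ψ v).2.1 j ∈ (E j).L) ∧ ∀ l, (ψ v).2.2 l ∈ E0.L)
    {x : Module.End ℝ A.V} {Y : ∀ j, Module.End ℝ (E j).V} {Y0 : Module.End ℝ E0.V} (hx : RatEnd A x)
    (hY : ∀ j, RatEnd (E j) (Y j)) (hY0 : RatEnd E0 Y0) : RatEnd T (Th ψ x Y Y0) := by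
  intro v hv
  obtain ⟨h1, h2, h3⟩ := (hL v).1 hv
  obtain ⟨N1, hN1, g1⟩ := hx _ h1
  obtain ⟨N2, hN2, g2⟩ := exists_N (fun j => (E j).L) (fun j => Y j ((ψ v).2.1 j)) fun j => hY j _ (h2 j)
  obtain ⟨N3, hN3, g3⟩ := exists_N (fun _ : Fin k => E0.L) (fun l => Y0 ((ψ v).2.2 l)) fun l => hY0 _ (h3 l)
  refine ⟨N1 * (N2 * N3), mul_ne_zero hN1 (mul_ne_zero hN2 hN3), ?_⟩
  rw [hL]
  have h4 : ψ ((N1 * (N2 * N3)) • Th ψ x Y Y0 v) = (N1 * (N2 * N3)) • ψ (Th ψ x Y Y0 v) := map_nsmul ψ _ _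
  rw [h4, psi_Th]
  refine ⟨?_, fun j => ?_, fun l => ?_⟩
  · show (N1 * (N2 * N3)) • x (ψ v).1 ∈ A.L
    rw [mul_comm, mul_smul]
    exact A.L.smul_of_tower_mem _ g1
  · show (N1 * (N2 * N3)) • Y j ((ψ v).2.1 j) ∈ (E j).L
    rw [show N1 * (N2 * N3) = (N1 * N3) * N2 by ring, mul_smul]
    exact (E j).L.smul_of_tower_mem _ (g2 j)
  · show (N1 * (N2 * N3)) • Y0 ((ψ v).2.2 l) ∈ E0.L
    rw [show N1 * (N2 * N3) = (N1 * N2) * N3 by ring, mul_smul]
    exact E0.L.smul_of_tower_mem _ (g3 l)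

end

/-! ## the theorem -/

theorem exists_basis (E : AV) (hE : Module.finrank ℂ E.V = 1) : ∃ b : Module.Basis (Fin 2) ℝ E.V, IsLB E b :=
  pBas E hE

theorem single_sum (Y : R2) : Y = ∑ a, ∑ b, Y a b • rm (Matrix.single a b 1) := by
  conv_lhs => rw [Matrix.matrix_eq_sum_single Y]
  refine Finset.sum_congr rfl fun a _ => Finset.sum_congr rfl fun b _ => ?_
  ext i j
  rw [Matrix.smul_apply, rm_entry, Matrix.single_apply, Matrix.single_apply]
  split_ifs <;> simp

end Circ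

open Circ Lc3

theorem pCirc (ha : S_La) (ha' : S_La') (hb : S_Lb) (h2 : S_Lc2) : S_Circ := by
  classical
  intro A n E E0 k T ψ hA hE hE0 hN hI hL m c hc Z hZ X hX a
  obtain ⟨MA, hMAr, hMAc, hMAJ⟩ := h2 A hA
  choose b hbL using fun j => exists_basis (E j) (hE j)
  obtain ⟨b0, hb0⟩ := exists_basis E0 hE0
  rcases Nat.eq_zero_or_pos k with hk | hk
  · -- `k = 0`
    have hX0 : X = 0 := by
      apply ext_psi ψ
      intro v
      rw [hX, LinearMap.zero_apply, map_zero]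
      refine Prod.ext rfl (Prod.ext rfl ?_)
      funext l
      exact absurd l.2 (by omega)
    rw [hX0]
    exact (kill c).zero_mem a
  -- linear map
  let Q : Type := Module.End ℝ A.V × (Fin n → R2) × R2
  let L : Q →ₗ[ℝ] Module.End ℝ T.V :=
    { toFun := fun q => Th ψ q.1 (fun j => tE (b j) (q.2.1 j)) (tE b0 q.2.2)
      map_add' := by
        intro q q'
        rw [← Th_add]
        have e1 : (fun j => tE (b j) ((q + q').2.1 j)) = (fun j => tE (b j) (q.2.1 j)) + fun j => tE (b j) (q'.2.1 j) := by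
          funext j
          exact map_add (tE (b j)) _ _
        have e2 : tE b0 (q + q').2.2 = tE b0 q.2.2 + tE b0 q'.2.2 := map_add (tE b0) _ _
        rw [e1, e2]
        rfl
      map_smul' := by
        intro r q
        rw [RingHom.id_apply, ← Th_smul]
        have e1 : (fun j => tE (b j) ((r • q).2.1 j)) = r • fun j => tE (b j) (q.2.1 j) := by
          funext j
          exact map_smul (tE (b j)) _ _
        have e2 : tE b0 (r • q).2.2 = r • tE b0 q.2.2 := map_smul (tE b0) _ _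
        rw [e1, e2]
        rfl }
  have hLd : ∀ q : Q, L q = Th ψ q.1 (fun j => tE (b j) (q.2.1 j)) (tE b0 q.2.2) := fun q => rfl
  have hLm : ∀ q q' : Q, L q * L q' = L (q.1 * q'.1, (fun j => q.2.1 j * q'.2.1 j), q.2.2 * q'.2.2) := by
    intro q q'
    rw [hLd, hLd, hLd, ← Th_mul]
    have e1 : ((fun j => tE (b j) (q.2.1 j)) * fun j => tE (b j) (q'.2.1 j)) =
        fun j => tE (b j) (q.2.1 j * q'.2.1 j) := by
      funext j
      exact (map_mul (tE (b j)) _ _).symm
    rw [e1, ← map_mul]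
  -- rational elements
  let rq : Module.End ℝ A.V → (Fin n → Q2) × Q2 → Q := fun x p => (x, (fun j => rm (p.1 j)), rm p.2)
  let M : Set (Module.End ℝ T.V) := {Y | ∃ x, (x ∈ MA ∨ x = 0) ∧ ∃ p, Y = L (rq x p)}
  have hMr : ∀ Y ∈ M, RatEnd T Y := by
    rintro _ ⟨x, hx, p, rfl⟩
    refine Th_rat ψ hL ?_ (fun j => rat_tE (hbL j) _) (rat_tE hb0 _)
    rcases hx with hx | rfl
    · exact hMAr x hx
    · exact fun v _ => ⟨1, one_ne_zero, by
        rw [one_smul]
        exact A.L.zero_mem⟩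
  have hmulI : mulI T = L (mulI A, (fun j => jm (b j)), jm b0) := by
    rw [hLd]
    have e1 : (fun j => tE (b j) (jm (b j))) = fun j => mulI (E j) := by
      funext j
      exact tE_jm (b j)
    show mulI T = Th ψ (mulI A) (fun j => tE (b j) (jm (b j))) (tE b0 (jm b0))
    rw [e1, tE_jm, Th_mulI]
  -- `mulI` in the real span
  have hrm0 : rm 0 = 0 := by rw [rm_eq, map_zero]
  have hspan : ∀ q : Q, q.1 ∈ Submodule.span ℝ MA → L q ∈ Submodule.span ℝ M := by
    intro q hq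
    have hx : ∀ x ∈ Submodule.span ℝ MA, L (x, 0, 0) ∈ Submodule.span ℝ M := by
      intro x hx
      refine Submodule.span_induction (p := fun x _ => L (x, 0, 0) ∈ Submodule.span ℝ M) ?_ ?_ ?_ ?_ hx
      · intro y hy
        refine Submodule.subset_span ⟨y, Or.inl hy, 0, ?_⟩
        congr 1
        refine Prod.ext rfl (Prod.ext ?_ hrm0.symm)
        funext j
        exact hrm0.symm
      · rw [show ((0, 0, 0) : Q) = 0 from rfl, map_zero]
        exact Submodule.zero_mem _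
      · intro u v _ _ hu hv
        have e : ((u + v, 0, 0) : Q) = (u, 0, 0) + (v, 0, 0) := by
          refine Prod.ext rfl (Prod.ext ?_ ?_)
          · exact (add_zero _).symm
          · exact (add_zero _).symm
        rw [e, map_add]
        exact Submodule.add_mem _ hu hv
      · intro r u _ hu
        have e : ((r • u, 0, 0) : Q) = r • (u, 0, 0) := by
          refine Prod.ext rfl (Prod.ext ?_ ?_)
          · exact (smul_zero _).symm
          · exact (smul_zero _).symm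
        rw [e, map_smul]
        exact Submodule.smul_mem _ _ hu
    have hY : ∀ (j : Fin n) (Y : R2), L (0, Pi.single j Y, 0) ∈ Submodule.span ℝ M := by
      intro j Y
      have e : ((0, Pi.single j Y, 0) : Q) = ∑ a, ∑ b, Y a b • ((0, Pi.single j (rm (Matrix.single a b 1)), 0) : Q) := by
        have e2 : (Pi.single j Y : Fin n → R2) = ∑ a, ∑ b, Y a b • (Pi.single j (rm (Matrix.single a b 1)) : Fin n → R2) := by
          have h5 := congrArg (LinearMap.single ℝ (fun _ : Fin n => R2) j) (single_sum Y)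
          simp only [map_sum, map_smul] at h5
          exact h5
        refine Prod.ext ?_ (Prod.ext ?_ ?_)
        · rw [Prod.fst_sum]
          refine (Finset.sum_eq_zero fun a _ => ?_).symm
          rw [Prod.fst_sum]
          exact Finset.sum_eq_zero fun b _ => smul_zero _
        · rw [Prod.snd_sum, Prod.fst_sum]
          show (Pi.single j Y : Fin n → R2) = _
          rw [e2]
          refine Finset.sum_congr rfl fun a _ => ?_
          rw [Prod.snd_sum, Prod.fst_sum]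
          rfl
        · rw [Prod.snd_sum, Prod.snd_sum]
          refine (Finset.sum_eq_zero fun a _ => ?_).symm
          rw [Prod.snd_sum, Prod.snd_sum]
          exact Finset.sum_eq_zero fun b _ => smul_zero _
      rw [e, map_sum]
      refine Submodule.sum_mem _ fun a _ => ?_
      rw [map_sum]
      refine Submodule.sum_mem _ fun d _ => ?_
      rw [map_smul]
      refine Submodule.smul_mem _ _ (Submodule.subset_span ⟨0, Or.inr rfl, (Pi.single j (Matrix.single a d 1), 0), ?_⟩)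
      congr 1
      refine Prod.ext rfl (Prod.ext ?_ hrm0.symm)
      funext i
      by_cases hi : i = j
      · subst hi
        show (Pi.single i (rm (Matrix.single a d 1)) : Fin n → R2) i =
          rm ((Pi.single i (Matrix.single a d 1) : Fin n → Q2) i)
        rw [Pi.single_eq_same, Pi.single_eq_same]
      · show (Pi.single j (rm (Matrix.single a d 1)) : Fin n → R2) i =
          rm ((Pi.single j (Matrix.single a d 1) : Fin n → Q2) i)
        rw [Pi.single_eq_of_ne hi, Pi.single_eq_of_ne hi, hrm0]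
    have hY0 : ∀ Y : R2, L (0, 0, Y) ∈ Submodule.span ℝ M := by
      intro Y
      have e : ((0, 0, Y) : Q) = ∑ a, ∑ b, Y a b • ((0, 0, rm (Matrix.single a b 1)) : Q) := by
        refine Prod.ext ?_ (Prod.ext ?_ ?_)
        · rw [Prod.fst_sum]
          refine (Finset.sum_eq_zero fun a _ => ?_).symm
          rw [Prod.fst_sum]
          exact Finset.sum_eq_zero fun b _ => smul_zero _
        · rw [Prod.snd_sum, Prod.fst_sum]
          refine (Finset.sum_eq_zero fun a _ => ?_).symm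
          rw [Prod.snd_sum, Prod.fst_sum]
          exact Finset.sum_eq_zero fun b _ => smul_zero _
        · rw [Prod.snd_sum, Prod.snd_sum]
          show Y = _
          conv_lhs => rw [single_sum Y]
          refine Finset.sum_congr rfl fun a _ => ?_
          rw [Prod.snd_sum, Prod.snd_sum]
          rfl
      rw [e, map_sum]
      refine Submodule.sum_mem _ fun a _ => ?_
      rw [map_sum]
      refine Submodule.sum_mem _ fun d _ => ?_
      rw [map_smul]
      refine Submodule.smul_mem _ _ (Submodule.subset_span ⟨0, Or.inr rfl, (0, Matrix.single a d 1), ?_⟩)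
      congr 1
      refine Prod.ext rfl (Prod.ext ?_ rfl)
      funext i
      exact hrm0.symm
    have e : q = (q.1, 0, 0) + (∑ j, ((0, Pi.single j (q.2.1 j), 0) : Q)) + (0, 0, q.2.2) := by
      refine Prod.ext ?_ (Prod.ext ?_ ?_)
      · show q.1 = q.1 + (∑ j, ((0, Pi.single j (q.2.1 j), 0) : Q)).1 + 0
        rw [Prod.fst_sum, Finset.sum_eq_zero fun j _ => rfl, add_zero, add_zero]
      · show q.2.1 = 0 + (∑ j, ((0, Pi.single j (q.2.1 j), 0) : Q)).2.1 + 0
        rw [Prod.snd_sum, Prod.fst_sum, zero_add, add_zero]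
        exact (Finset.univ_sum_single q.2.1).symm
      · show q.2.2 = 0 + (∑ j, ((0, Pi.single j (q.2.1 j), 0) : Q)).2.2 + q.2.2
        rw [Prod.snd_sum, Prod.snd_sum, Finset.sum_eq_zero fun j _ => rfl, add_zero, zero_add]
    rw [e, map_add, map_add, map_sum]
    exact Submodule.add_mem _ (Submodule.add_mem _ (hx _ hq) (Submodule.sum_mem _ fun j _ => hY j _)) (hY0 _)
  obtain ⟨N, ρ, Xs, hJX, -, hXcl, hXk⟩ := hb T (mulI T) M hMr (by
    rw [hmulI]
    exact hspan _ hMAJ)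
  have hXk' := hXk m c hc.1 (ha T m c hc)
  -- the rational span of `MA`
  set MA' : AddSubgroup (Module.End ℝ A.V) := AddSubgroup.closure {x | ∃ y ∈ MA, ∃ q : ℚ, x = (q : ℝ) • y} with hMA'
  have hMA'q : ∀ (q : ℚ), ∀ x ∈ MA', (q : ℝ) • x ∈ MA' := by
    intro q x hx
    refine AddSubgroup.closure_induction (p := fun x _ => (q : ℝ) • x ∈ MA') ?_ ?_ ?_ ?_ hx
    · rintro _ ⟨y, hy, q', rfl⟩
      refine AddSubgroup.subset_closure ⟨y, hy, q * q', ?_⟩
      rw [smul_smul]
      push_cast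
      rfl
    · rw [smul_zero]
      exact MA'.zero_mem
    · intro u v _ _ hu hv
      rw [smul_add]
      exact MA'.add_mem hu hv
    · intro u _ hu
      rw [smul_neg]
      exact MA'.neg_mem hu
  have hcomm1 : ∀ y ∈ MA, ∀ x ∈ MA', x * y = y * x := by
    intro y hy x hx
    refine AddSubgroup.closure_induction (p := fun x _ => x * y = y * x) ?_ ?_ ?_ ?_ hx
    · rintro _ ⟨z, hz, q', rfl⟩
      rw [smul_mul_assoc, mul_smul_comm, hMAc z hz y hy]
    · rw [zero_mul, mul_zero]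
    · intro u v _ _ hu hv
      rw [add_mul, mul_add, hu, hv]
    · intro u _ hu
      rw [neg_mul, mul_neg, hu]
  have hcomm : ∀ x ∈ MA', ∀ y ∈ MA', x * y = y * x := by
    intro x hx y hy
    refine AddSubgroup.closure_induction (p := fun y _ => x * y = y * x) ?_ ?_ ?_ ?_ hy
    · rintro _ ⟨z, hz, q', rfl⟩
      rw [smul_mul_assoc, mul_smul_comm, hcomm1 z hz x hx]
    · rw [zero_mul, mul_zero]
    · intro u v _ _ hu hv
      rw [add_mul, mul_add, hu, hv]
    · intro u _ hu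
      rw [neg_mul, mul_neg, hu]
  have hrqadd : ∀ x x' p p', rq (x + x') (p + p') = rq x p + rq x' p' := by
    intro x x' p p'
    refine Prod.ext rfl (Prod.ext ?_ ?_)
    · funext j
      show rm (p.1 j + p'.1 j) = rm (p.1 j) + rm (p'.1 j)
      rw [rm_eq, rm_eq, rm_eq, map_add]
    · show rm (p.2 + p'.2) = rm p.2 + rm p'.2
      rw [rm_eq, rm_eq, rm_eq, map_add]
  have hrqsmul : ∀ (q : ℚ) x p, rq ((q : ℝ) • x) (q • p) = (q : ℝ) • rq x p := by
    intro q x p
    refine Prod.ext rfl (Prod.ext ?_ ?_)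
    · funext j
      show rm (q • p.1 j) = (q : ℝ) • rm (p.1 j)
      rw [rm_eq, rm_eq, Gour.cr_smul]
    · show rm (q • p.2) = (q : ℝ) • rm p.2
      rw [rm_eq, rm_eq, Gour.cr_smul]
  have hrq0 : rq 0 0 = 0 := by
    refine Prod.ext rfl (Prod.ext ?_ hrm0)
    funext j
    exact hrm0
  have hXform : ∀ s, ∃ x ∈ MA', ∃ p, Xs s = L (rq x p) := by
    intro s
    refine AddSubgroup.closure_induction (p := fun Y _ => ∃ x ∈ MA', ∃ p, Y = L (rq x p)) ?_ ?_ ?_ ?_ (hXcl s)
    · rintro _ ⟨_, ⟨x, hx, p, rfl⟩, q, rfl⟩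
      refine ⟨(q : ℝ) • x, ?_, q • p, ?_⟩
      · rcases hx with hx | rfl
        · exact AddSubgroup.subset_closure ⟨x, hx, q, rfl⟩
        · rw [smul_zero]
          exact MA'.zero_mem
      · rw [hrqsmul, map_smul]
    · exact ⟨0, MA'.zero_mem, 0, by rw [hrq0, map_zero]⟩
    · rintro _ _ _ _ ⟨x, hx, p, rfl⟩ ⟨x', hx', p', rfl⟩
      exact ⟨x + x', MA'.add_mem hx hx', p + p', by rw [hrqadd, map_add]⟩
    · rintro _ _ ⟨x, hx, p, rfl⟩
      refine ⟨-x, MA'.neg_mem hx, -p, ?_⟩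
      have h3 := hrqsmul (-1) x p
      have h4 : ((-1 : ℚ) : ℝ) = -1 := by norm_num
      rw [h4, neg_one_smul, neg_one_smul, neg_one_smul] at h3
      rw [h3, map_neg]
  choose xs hxs ps hps using hXform
  -- the Lie algebra
  let g : Submodule ℚ ((Fin n → Q2) × Q2) :=
    { carrier := {p | ∃ x ∈ MA', L (rq x p) ∈ kill c}
      zero_mem' := ⟨0, MA'.zero_mem, by
        rw [hrq0, map_zero]
        exact (kill c).zero_mem⟩
      add_mem' := by
        rintro p p' ⟨x, hx, hp⟩ ⟨x', hx', hp'⟩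
        refine ⟨x + x', MA'.add_mem hx hx', ?_⟩
        rw [hrqadd, map_add]
        exact (kill c).add_mem hp hp'
      smul_mem' := by
        rintro q p ⟨x, hx, hp⟩
        refine ⟨(q : ℝ) • x, hMA'q q x hx, ?_⟩
        rw [hrqsmul, map_smul]
        exact (kill c).smul_mem _ hp }
  have hcom : ∀ p ∈ g, ∀ p' ∈ g, L (rq 0 (p * p' - p' * p)) ∈ kill c := by
    rintro p ⟨x, hx, hp⟩ p' ⟨x', hx', hp'⟩
    have h3 : L (rq x p) * L (rq x' p') - L (rq x' p') * L (rq x p) ∈ kill c :=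
      ha' T m c _ _ hp hp'
    rw [hLm, hLm, ← map_sub] at h3
    have h4 : ((rq x p).1 * (rq x' p').1, (fun j => (rq x p).2.1 j * (rq x' p').2.1 j), (rq x p).2.2 * (rq x' p').2.2) -
        ((rq x' p').1 * (rq x p).1, (fun j => (rq x' p').2.1 j * (rq x p).2.1 j), (rq x' p').2.2 * (rq x p).2.2) =
        rq 0 (p * p' - p' * p) := by
      refine Prod.ext ?_ (Prod.ext ?_ ?_)
      · show x * x' - x' * x = 0
        rw [hcomm x hx x' hx', sub_self]
      · funext j
        show rm (p.1 j) * rm (p'.1 j) - rm (p'.1 j) * rm (p.1 j) = rm (p.1 j * p'.1 j - p'.1 j * p.1 j)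
        simp only [rm_eq, map_sub, map_mul]
      · show rm p.2 * rm p'.2 - rm p'.2 * rm p.2 = rm (p.2 * p'.2 - p'.2 * p.2)
        simp only [rm_eq, map_sub, map_mul]
    rw [h4] at h3
    exact h3
  -- components of `mulI`
  have hcmp : ∀ q : Q, L q = mulI T → q.2.1 = (fun j => jm (b j)) ∧ q.2.2 = jm b0 := by
    intro q hq
    constructor
    · funext j
      apply (tE (b j)).injective
      rw [tE_jm]
      ext u
      have h3 := congrArg (fun Y : Module.End ℝ T.V => (ψ (Y (ψ.symm (0, Pi.single j u, 0)))).2.1 j) hq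
      simp only [hLd, psi_Th, LinearEquiv.apply_symm_apply] at h3
      rw [Pi.single_eq_same] at h3
      rw [h3]
      show (ψ (Complex.I • ψ.symm (0, Pi.single j u, 0))).2.1 j = Complex.I • u
      rw [map_smul, LinearEquiv.apply_symm_apply]
      show Complex.I • (Pi.single j u : ∀ j, (E j).V) j = Complex.I • u
      rw [Pi.single_eq_same]
    · apply (tE b0).injective
      rw [tE_jm]
      ext u
      have h3 := congrArg (fun Y : Module.End ℝ T.V => (ψ (Y (ψ.symm (0, 0, fun _ => u)))).2.2 ⟨0, hk⟩) hq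
      simp only [hLd, psi_Th, LinearEquiv.apply_symm_apply] at h3
      rw [h3]
      show (ψ (Complex.I • ψ.symm (0, 0, fun _ => u))).2.2 ⟨0, hk⟩ = Complex.I • u
      rw [map_smul, LinearEquiv.apply_symm_apply]
      rfl
  have hJs : L (∑ s, ρ s • rq (xs s) (ps s)) = mulI T := by
    rw [hJX, map_sum]
    refine Finset.sum_congr rfl fun s _ => ?_
    rw [map_smul, hps]
  obtain ⟨hJ1, hJ2⟩ := hcmp _ hJs
  have hmem : (((fun j => jm (b j)), jm b0) : (Fin n → R2) × R2) ∈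
      Submodule.span ℝ {P : (Fin n → R2) × R2 | ∃ p ∈ g, P = (fun j => rm (p.1 j), rm p.2)} := by
    have e : (((fun j => jm (b j)), jm b0) : (Fin n → R2) × R2) = ∑ s, ρ s • ((fun j => rm ((ps s).1 j)), rm (ps s).2) := by
      refine Prod.ext ?_ ?_
      · rw [Prod.fst_sum]
        show (fun j => jm (b j)) = _
        rw [← hJ1, Prod.snd_sum, Prod.fst_sum]
        rfl
      · rw [Prod.snd_sum]
        show jm b0 = _
        rw [← hJ2, Prod.snd_sum, Prod.snd_sum]
        rfl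
    rw [e]
    refine Submodule.sum_mem _ fun s _ => Submodule.smul_mem _ _ (Submodule.subset_span ⟨ps s, ⟨xs s, hxs s, ?_⟩, rfl⟩)
    rw [← hps]
    exact hXk' s
  -- the algebra
  have hkey : ∀ Z0 : Q2, Z0.trace = 0 → L (rq 0 (0, Z0)) ∈ kill c := by
    intro Z0 hZ0
    have h3 := pSl4 n g (by
        rintro p ⟨x, hx, hp⟩ p' ⟨x', hx', hp'⟩
        exact ⟨0, MA'.zero_mem, hcom p ⟨x, hx, hp⟩ p' ⟨x', hx', hp'⟩⟩) (fun j => jm (b j)) (jm b0)
      (fun j => jm_sq (b j)) (jm_sq b0) hmem (nonCM_mat b0 hb0 hN)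
      (fun j kk hkk => iso_mat b0 (b j) hb0 (hbL j) (hI j) kk hkk) Z0 hZ0
    refine Submodule.span_induction (p := fun d _ => L (rq 0 d) ∈ kill c) ?_ ?_ ?_ ?_ h3
    · rintro _ ⟨p, hp, p', hp', rfl⟩
      exact hcom p hp p' hp'
    · rw [hrq0, map_zero]
      exact (kill c).zero_mem
    · intro u v _ _ hu hv
      have h4 := hrqadd 0 0 u v
      rw [add_zero] at h4
      rw [h4, map_add]
      exact (kill c).add_mem hu hv
    · intro q u _ hu
      have h4 := hrqsmul q 0 u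
      rw [smul_zero] at h4
      rw [h4, map_smul]
      exact (kill c).smul_mem _ hu
  -- real matrices
  set W : R2 := (tE b0).symm Z with hW
  have hWZ : tE b0 W = Z := (tE b0).apply_symm_apply _
  have hWt : W.trace = 0 := by
    have h3 : LinearMap.trace ℝ E0.V (tE b0 W) = W.trace := by
      show LinearMap.trace ℝ E0.V (Matrix.toLin b0 b0 W) = W.trace
      rw [LinearMap.trace_eq_matrix_trace ℝ b0, LinearMap.toMatrix_toLin]
    rw [← h3, hWZ]
    exact hZ
  have hXW : X = L (0, 0, W) := by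
    apply ext_psi ψ
    intro v
    rw [hX, hLd, psi_Th]
    refine Prod.ext rfl (Prod.ext ?_ ?_)
    · funext j
      show (0 : (E j).V) = tE (b j) 0 ((ψ v).2.1 j)
      rw [map_zero]
      rfl
    · funext l
      show Z ((ψ v).2.2 l) = tE b0 W ((ψ v).2.2 l)
      rw [hWZ]
  have hWe : ((0, 0, W) : Q) = W 0 1 • rq 0 (0, !![0, 1; 0, 0]) + W 1 0 • rq 0 (0, !![0, 0; 1, 0]) +
      W 0 0 • rq 0 (0, !![1, 0; 0, -1]) := by
    rw [trace_fin_two] at hWt
    have h4 : W 1 1 = -W 0 0 := by linear_combination hWt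
    refine Prod.ext ?_ (Prod.ext ?_ ?_)
    · show (0 : Module.End ℝ A.V) = W 0 1 • 0 + W 1 0 • 0 + W 0 0 • 0
      rw [smul_zero, smul_zero, smul_zero, add_zero, add_zero]
    · funext j
      show (0 : R2) = W 0 1 • rm 0 + W 1 0 • rm 0 + W 0 0 • rm 0
      rw [hrm0, smul_zero, smul_zero, smul_zero, add_zero, add_zero]
    · show W = W 0 1 • rm !![0, 1; 0, 0] + W 1 0 • rm !![0, 0; 1, 0] + W 0 0 • rm !![1, 0; 0, -1]
      ext i j
      fin_cases i <;> fin_cases j <;> simp [rm, h4]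
  have hfin : X ∈ kill c := by
    rw [hXW, hWe, map_add, map_add, map_smul, map_smul, map_smul]
    refine (kill c).add_mem ((kill c).add_mem ?_ ?_) ?_
    · exact (kill c).smul_mem _ (hkey _ (by simp [trace_fin_two]))
    · exact (kill c).smul_mem _ (hkey _ (by simp [trace_fin_two]))
    · exact (kill c).smul_mem _ (hkey _ (by simp [trace_fin_two]))
  exact hfin a

end HC
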