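import Pool.Agent.Lib.HC.L.B
import Pool.Agent.Lib.HC.L.La
import Pool.Agent.Lib.HC.L.E.Spec
import Pool.Agent.Lib.HC.W.Def

/-!
# PROJECT HC+, PART 3: good abelian varieties (helper12)

* `GC.kil`: the elements of `s` which kill `c`; a `ℚ`-Lie algebra with `i` in its real span if `c`
  is a Hodge class.
* `g4_of_W`: G4 from THEOREM W. `g3_of_WP`: G3 from LEMMA P.
-/

set_option autoImplicit false

open scoped ComplexConjugate

noncomputable section

namespace HC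

namespace E

variable {B : AV} {ι : Type}

/-- The elements of `s` which kill `c`. -/
def GC.kil (G : GC B ι) {m : ℕ} (c : Hlg B m) : Set (Module.End ℝ B.V) :=
  {X | X ∈ G.s ∧ ∀ a, lieAct X c a = 0}

theorem GC.kil_lie (G : GC B ι) {m : ℕ} (c : Hlg B m) : IsQLie (G.kil c) where
  zero := ⟨G.lie.zero, fun a => by
    have h := lieAct_smul 0 (0 : Module.End ℝ B.V) c a
    rw [zero_smul, Complex.ofReal_zero, zero_mul] at h
    exact h⟩
  add := fun X hX Y hY => ⟨G.lie.add X hX.1 Y hY.1, fun a => by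
    rw [lieAct_add, hX.2, hY.2, add_zero]⟩
  smul := fun q X hX => ⟨G.lie.smul q X hX.1, fun a => by
    rw [lieAct_smul, hX.2, mul_zero]⟩
  br := fun X hX Y hY => ⟨G.lie.br X hX.1 Y hY.1, L.pLa' B m c X Y hX.2 hY.2⟩

theorem GC.kil_J (G : GC B ι) {m : ℕ} {c : Hlg B m} (hc : IsHodge B m c) :
    mulI B ∈ Submodule.span ℝ (G.kil c) := by
  obtain ⟨n, ρ, X, h1, -, h3, h4⟩ := tLb B (mulI B) G.s G.rat G.J
  rw [h1]
  refine Submodule.sum_mem _ fun t _ => Submodule.smul_mem _ _ (Submodule.subset_span ?_)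
  refine ⟨?_, h4 m c hc.1 (L.pLa B m c hc) t⟩
  refine AddSubgroup.closure_induction (p := fun Z _ => Z ∈ G.s) ?_ G.lie.zero ?_ ?_ (h3 t)
  · rintro Z ⟨Y, hY, q, rfl⟩
    exact G.lie.smul q Y hY
  · exact fun Z Z' _ _ hZ hZ' => G.lie.add Z hZ Z' hZ'
  · intro Z _ hZ
    have h := G.lie.smul (-1) Z hZ
    rwa [Rat.cast_neg, Rat.cast_one, neg_smul, one_smul] at h

/-- The hypotheses of THEOREM W on the coordinates. -/
theorem GC.bij (G : GC B ι) :
    Function.Bijective fun (v : B.V) (i : ι) => (LinearMap.proj i ∘ₗ G.ψ.toLinearMap) v :=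
  G.ψ.bijective

theorem GC.opW (G : GC B ι) {h : Set (Module.End ℝ B.V)} (hs : h ⊆ G.s) : ∀ X ∈ h, ∀ i,
    ∃ al be : ℂ, al + conj al = 0 ∧ ∀ v, (LinearMap.proj i ∘ₗ G.ψ.toLinearMap) (X v) =
      al * (LinearMap.proj i ∘ₗ G.ψ.toLinearMap) v +
        be * conj ((LinearMap.proj i ∘ₗ G.ψ.toLinearMap) v) := by
  intro X hX i
  obtain ⟨α, β, h1⟩ := G.op X (hs hX)
  refine ⟨α i * Complex.I, β i, ?_, fun v => h1 v i⟩
  rw [map_mul, Complex.conj_ofReal, Complex.conj_I]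
  ring

theorem GC.bigW (G : GC B ι) {h : Set (Module.End ℝ B.V)} (hs : h ⊆ G.s) (hq : IsQLie h)
    (hJ : mulI B ∈ Submodule.span ℝ h) : ∀ i, ∃ X ∈ h, ∃ v,
      (LinearMap.proj i ∘ₗ G.ψ.toLinearMap) (X (Complex.I • v)) ≠
        Complex.I * (LinearMap.proj i ∘ₗ G.ψ.toLinearMap) (X v) := by
  classical
  intro i
  obtain ⟨X, hX, α, β, h1, h2⟩ := G.big h hs hq hJ i
  refine ⟨X, hX, G.ψ.symm (Pi.single i 1), fun h3 => h2 ?_⟩
  have h4 : G.ψ (X (Complex.I • G.ψ.symm (Pi.single i 1))) i =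
      Complex.I * G.ψ (X (G.ψ.symm (Pi.single i 1))) i := h3
  have h5 : G.ψ (G.ψ.symm (Pi.single i 1)) i = 1 := by
    rw [LinearEquiv.apply_symm_apply, Pi.single_eq_same]
  rw [h1, h1, map_smul, Pi.smul_apply, h5, smul_eq_mul, mul_one, Complex.conj_I, map_one] at h4
  have h6 : 2 * Complex.I * β i = 0 := by linear_combination -h4
  rcases mul_eq_zero.1 h6 with h7 | h7
  · exact absurd h7 (mul_ne_zero two_ne_zero Complex.I_ne_zero)
  · exact h7

/-- **G4 from THEOREM W.** -/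
theorem g4_of_W (hW : W.S_W) : ∀ B : AV, Good B → HCj B := by
  rintro B ⟨ι, _, ⟨G⟩⟩ m c hc
  have h1 : G.kil c ⊆ G.s := fun X hX => hX.1
  exact hW B ι _ G.bij (G.kil c) (fun X hX => G.rat X hX.1) (G.kil_lie c).br (G.kil_J hc)
    (G.opW h1) (G.bigW h1 (G.kil_lie c) (G.kil_J hc)) m c fun X hX => hX.2

end E

end HC
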