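import Mathlib

/-!
# PROJECT HC+, part 3: GOURSAT for products of `sl₂(ℚ)` (pure algebra)

`goursat`: a rational Lie algebra of tuples of `2 × 2` matrices whose real span contains a tuple
`J` of complex structures without rational endomorphisms and rational intertwiners has the
commutator `∏ sl₂(ℚ)`.
-/

set_option autoImplicit false

open Matrix

noncomputable section

namespace HC.Gour

/-- Rational matrices. -/
abbrev MQ : Type := Matrix (Fin 2) (Fin 2) ℚ

/-- Real matrices. -/
abbrev MR : Type := Matrix (Fin 2) (Fin 2) ℝ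

/-- The real matrix of a rational matrix. -/
def cr : MQ →+* MR := (Rat.castHom ℝ).mapMatrix

theorem cr_apply (X : MQ) (i j : Fin 2) : cr X i j = (X i j : ℝ) := rfl

theorem trace_cr (X : MQ) : (cr X).trace = (X.trace : ℝ) := by
  rw [trace_fin_two, trace_fin_two, cr_apply, cr_apply]
  push_cast
  rfl

theorem cr_inj {X : MQ} (h : cr X = 0) : X = 0 := by
  ext i j
  have h1 := congrFun (congrFun h i) j
  rw [cr_apply] at h1
  have h2 : ((X i j : ℚ) : ℝ) = 0 := h1
  exact_mod_cast h2

theorem cr_smul (q : ℚ) (X : MQ) : cr (q • X) = (q : ℝ) • cr X := by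
  ext i j
  rw [cr_apply, Matrix.smul_apply, Matrix.smul_apply, cr_apply, smul_eq_mul, smul_eq_mul]
  push_cast
  rfl

/-! ## real part -/

/-- Traceless matrices: `a b + b a` is scalar. -/
theorem anti {K : Type*} [Field K] {a b : Matrix (Fin 2) (Fin 2) K} (ha : a.trace = 0) (hb : b.trace = 0) :
    a * b + b * a = (a * b).trace • (1 : Matrix (Fin 2) (Fin 2) K) := by
  rw [trace_fin_two] at ha hb
  have h1 : a 1 1 = -a 0 0 := by linear_combination ha
  have h2 : b 1 1 = -b 0 0 := by linear_combination hb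
  ext i j
  fin_cases i <;> fin_cases j <;>
    simp [Matrix.mul_apply, Fin.sum_univ_two, Matrix.trace_fin_two, h1, h2] <;> ring

theorem J_trace {J : MR} (hJ : J * J = -1) : J.trace = 0 := by
  have h00 := congrFun (congrFun hJ 0) 0
  have h01 := congrFun (congrFun hJ 0) 1
  simp [Matrix.mul_apply, Fin.sum_univ_two] at h00 h01
  rw [trace_fin_two]
  have hb : J 0 1 ≠ 0 := by
    intro h
    rw [h] at h00
    nlinarith [sq_nonneg (J 0 0)]
  have h2 : J 0 1 * (J 0 0 + J 1 1) = 0 := by linear_combination h01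
  rcases mul_eq_zero.1 h2 with h | h
  · exact absurd h hb
  · exact h

/-- A matrix which commutes with `J`. -/
theorem comm_J {J M : MR} (hJ : J * J = -1) (hM : M * J = J * M) (h1 : M.trace = 0) (h2 : (J * M).trace = 0) :
    M = 0 := by
  have ht := J_trace hJ
  have h3 := anti h1 ht
  have h4 : (M * J).trace = 0 := by rw [hM, h2]
  rw [h4, zero_smul, hM] at h3
  have h5 : J * M = 0 := by
    have h6 : (2 : ℝ) • (J * M) = 0 := by rw [two_smul]; exact h3
    exact (smul_eq_zero.1 h6).resolve_left (by norm_num)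
  have h7 : J * (J * M) = -M := by rw [← Matrix.mul_assoc, hJ, neg_mul, one_mul]
  rw [h5, mul_zero] at h7
  exact (neg_eq_zero.1 h7.symm)

/-- A matrix anticommuting with `J` has a positive square. -/
theorem pos_P {J n : MR} (hJ : J * J = -1) (hn : n.trace = 0) (hJn : (J * n).trace = 0) (h0 : n ≠ 0) :
    n 0 0 ^ 2 + n 0 1 * n 1 0 ≠ 0 := by
  have ht := J_trace hJ
  rw [trace_fin_two] at ht hn
  have hd : J 1 1 = -J 0 0 := by linear_combination ht
  have hv : n 1 1 = -n 0 0 := by linear_combination hn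
  have h00 := congrFun (congrFun hJ 0) 0
  simp [Matrix.mul_apply, Fin.sum_univ_two] at h00
  simp [Matrix.trace_fin_two, Matrix.mul_apply, Fin.sum_univ_two, hd, hv] at hJn
  have hb : J 0 1 ≠ 0 := by
    intro h
    rw [h] at h00
    nlinarith [sq_nonneg (J 0 0)]
  intro h
  have h3 : (J 0 1 * n 0 0 - J 0 0 * n 0 1) ^ 2 + n 0 1 ^ 2 = 0 := by
    linear_combination (J 0 1) ^ 2 * h - J 0 1 * n 0 1 * hJn + n 0 1 ^ 2 * h00
  have hy : n 0 1 = 0 := by
    have h4 : n 0 1 ^ 2 = 0 := by nlinarith [sq_nonneg (J 0 1 * n 0 0 - J 0 0 * n 0 1), sq_nonneg (n 0 1)]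
    exact pow_eq_zero_iff (by norm_num) |>.1 h4
  have hx : n 0 0 = 0 := by
    rw [hy] at h3
    have h4 : (J 0 1 * n 0 0) ^ 2 = 0 := by nlinarith
    have h5 : J 0 1 * n 0 0 = 0 := pow_eq_zero_iff (by norm_num) |>.1 h4
    exact (mul_eq_zero.1 h5).resolve_left hb
  have hw : n 1 0 = 0 := by
    rw [hy, hx] at hJn
    have h5 : J 0 1 * n 1 0 = 0 := by linear_combination hJn
    exact (mul_eq_zero.1 h5).resolve_left hb
  apply h0
  ext i j
  fin_cases i <;> fin_cases j
  · exact hx
  · exact hy
  · exact hw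
  · show n 1 1 = 0
    rw [hv, hx, neg_zero]

theorem sq_traceless {K : Type*} [Field K] {n : Matrix (Fin 2) (Fin 2) K} (hn : n.trace = 0) :
    n * n = (n 0 0 ^ 2 + n 0 1 * n 1 0) • (1 : Matrix (Fin 2) (Fin 2) K) := by
  rw [trace_fin_two] at hn
  have hv : n 1 1 = -n 0 0 := by linear_combination hn
  ext i j
  fin_cases i <;> fin_cases j <;> simp [Matrix.mul_apply, Fin.sum_univ_two, hv] <;> ring

/-- A traceless matrix orthogonal to `J`, `[J,a]`, `[J,[J,a]]`. -/
theorem kill {J z a : MR} (hJ : J * J = -1) (hz : z.trace = 0) (h1 : (z * J).trace = 0)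
    (h2 : (z * (J * a - a * J)).trace = 0)
    (h3 : (z * (J * (J * a - a * J) - (J * a - a * J) * J)).trace = 0) (h0 : J * a - a * J ≠ 0) : z = 0 := by
  set n := J * a - a * J with hn
  have ht := J_trace hJ
  have hnt : n.trace = 0 := by
    rw [hn, trace_sub, trace_mul_comm, sub_self]
  have hJn : J * n = -(n * J) := by
    rw [hn, mul_sub, sub_mul, ← mul_assoc, hJ, mul_assoc a J J, hJ]
    rw [← mul_assoc]
    simp only [neg_mul, one_mul, mul_neg, mul_one, sub_neg_eq_add, neg_add_rev]
    abel
  have hJnt : (J * n).trace = 0 := by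
    have h4 : (J * n).trace = -(J * n).trace := by
      conv_lhs => rw [hJn]
      rw [trace_neg, trace_mul_comm]
    linarith
  have hzJ : z * J = -(J * z) := by
    have h5 := anti hz ht
    rw [h1, zero_smul] at h5
    exact eq_neg_of_add_eq_zero_left h5
  have h6 : (z * (J * n)).trace = 0 := by
    have h7 : J * n - n * J = (2 : ℝ) • (J * n) := by
      rw [two_smul]
      nth_rewrite 3 [hJn]
      abel
    rw [h7, mul_smul_comm, trace_smul, smul_eq_mul] at h3
    linarith
  have hM : z * n = 0 := by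
    apply comm_J hJ
    · rw [mul_assoc, ← neg_neg (n * J), ← hJn, mul_neg, ← mul_assoc, hzJ, neg_mul, neg_neg, mul_assoc]
    · exact h2
    · rw [← mul_assoc, ← neg_neg (J * z), ← hzJ, neg_mul, trace_neg, mul_assoc, h6, neg_zero]
  have h8 := sq_traceless hnt
  have h9 : z * (n * n) = 0 := by rw [← mul_assoc, hM, zero_mul]
  rw [h8, mul_smul_comm, mul_one] at h9
  exact (smul_eq_zero.1 h9).resolve_left (pos_P hJ hnt hJnt h0)

/-! ## rational part -/

/-- `E`. -/
def mE : MQ := !![0, 1; 0, 0]

/-- `H`. -/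
def mH : MQ := !![1, 0; 0, -1]

/-- `F`. -/
def mF : MQ := !![0, 0; 1, 0]

theorem E00 : mE 0 0 = 0 := rfl
theorem E01 : mE 0 1 = 1 := rfl
theorem E10 : mE 1 0 = 0 := rfl
theorem E11 : mE 1 1 = 0 := rfl
theorem H00 : mH 0 0 = 1 := rfl
theorem H01 : mH 0 1 = 0 := rfl
theorem H10 : mH 1 0 = 0 := rfl
theorem H11 : mH 1 1 = -1 := rfl
theorem F00 : mF 0 0 = 0 := rfl
theorem F01 : mF 0 1 = 0 := rfl
theorem F10 : mF 1 0 = 1 := rfl
theorem F11 : mF 1 1 = 0 := rfl

/-- Comparison of the four entries. -/
theorem ext4 {a b : MQ} (h00 : a 0 0 = b 0 0) (h01 : a 0 1 = b 0 1) (h10 : a 1 0 = b 1 0)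
    (h11 : a 1 1 = b 1 1) : a = b := by
  ext i j
  fin_cases i <;> fin_cases j
  · exact h00
  · exact h01
  · exact h10
  · exact h11

theorem expand {x : MQ} (hx : x.trace = 0) : x = x 0 1 • mE + x 0 0 • mH + x 1 0 • mF := by
  rw [trace_fin_two] at hx
  have h : x 1 1 = -x 0 0 := by linear_combination hx
  ext i j
  fin_cases i <;> fin_cases j <;> simp [mE, mH, mF, h]

theorem tr_E : mE.trace = 0 := by simp [mE, trace_fin_two]

theorem tr_H : mH.trace = 0 := by simp [mH, trace_fin_two]

theorem tr_F : mF.trace = 0 := by simp [mF, trace_fin_two]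

theorem tr_br {K : Type*} [Field K] (a b : Matrix (Fin 2) (Fin 2) K) : (a * b - b * a).trace = 0 := by
  rw [trace_sub, trace_mul_comm, sub_self]

/-- A nonzero ideal of `sl₂(ℚ)`. -/
theorem ideal (W : Submodule ℚ MQ) (hW : ∀ x : MQ, x.trace = 0 → ∀ w ∈ W, x * w - w * x ∈ W) {w : MQ}
    (hw : w ∈ W) (hwt : w.trace = 0) (h0 : w ≠ 0) {x : MQ} (hx : x.trace = 0) : x ∈ W := by
  have hE : mE ∈ W := by
    have h1 := hW mE tr_E w hw
    have h2 := hW mE tr_E _ h1
    have e1 : mE * w - w * mE = (-2 * w 0 0) • mE + w 1 0 • mH := by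
      rw [trace_fin_two] at hwt
      have h : w 1 1 = -w 0 0 := by linear_combination hwt
      apply ext4 <;> simp only [Matrix.sub_apply, Matrix.mul_apply, Fin.sum_univ_two, Matrix.add_apply,
        Matrix.smul_apply, smul_eq_mul, E00, E01, E10, E11, H00, H01, H10, H11, h] <;> ring
    have e2 : mE * (mE * w - w * mE) - (mE * w - w * mE) * mE = (-2 * w 1 0) • mE := by
      rw [e1]
      apply ext4 <;> simp only [Matrix.sub_apply, Matrix.mul_apply, Fin.sum_univ_two, Matrix.add_apply,
        Matrix.smul_apply, smul_eq_mul, E00, E01, E10, E11, H00, H01, H10, H11] <;> ring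
    rw [e2] at h2
    rw [e1] at h1
    by_cases hs : w 1 0 = 0
    · by_cases hq : w 0 0 = 0
      · have h3 := expand hwt
        rw [hs, hq, zero_smul, zero_smul, add_zero, add_zero] at h3
        have h4 : w 0 1 ≠ 0 := by
          intro h5
          rw [h5, zero_smul] at h3
          exact h0 h3
        rw [h3] at hw
        exact (W.smul_mem_iff h4).1 hw
      · rw [hs, zero_smul, add_zero] at h1
        exact (W.smul_mem_iff (mul_ne_zero (by norm_num) hq)).1 h1
    · exact (W.smul_mem_iff (mul_ne_zero (by norm_num) hs)).1 h2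
  have hH : mH ∈ W := by
    have h1 := hW mF tr_F mE hE
    have e1 : mF * mE - mE * mF = (-1 : ℚ) • mH := by
      apply ext4 <;> simp only [Matrix.sub_apply, Matrix.mul_apply, Fin.sum_univ_two,
        Matrix.smul_apply, smul_eq_mul, E00, E01, E10, E11, H00, H01, H10, H11, F00, F01, F10, F11] <;> ring
    rw [e1] at h1
    exact (W.smul_mem_iff (by norm_num)).1 h1
  have hF : mF ∈ W := by
    have h1 := hW mF tr_F mH hH
    have e1 : mF * mH - mH * mF = (2 : ℚ) • mF := by
      apply ext4 <;> simp only [Matrix.sub_apply, Matrix.mul_apply, Fin.sum_univ_two,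
        Matrix.smul_apply, smul_eq_mul, E00, E01, E10, E11, H00, H01, H10, H11, F00, F01, F10, F11] <;> ring
    rw [e1] at h1
    exact (W.smul_mem_iff (by norm_num)).1 h1
  rw [expand hx]
  exact W.add_mem (W.add_mem (W.smul_mem _ hE) (W.smul_mem _ hH)) (W.smul_mem _ hF)

/-- The intertwiner of two copies of `sl₂`. -/
theorem inter {E H F : MQ} (hE : E.trace = 0) (hH : H.trace = 0) (hF : F.trace = 0)
    (h1 : H * E - E * H = (2 : ℚ) • E) (h2 : H * F - F * H = (-2 : ℚ) • F) (h3 : E * F - F * E = H)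
    (h0 : E ≠ 0) : ∃ X : MQ, X ≠ 0 ∧ X * mE = E * X ∧ X * mH = H * X ∧ X * mF = F * X := by
  have tEH : (E * H).trace = 0 := by
    rw [← h3, mul_sub, trace_sub, ← mul_assoc, ← mul_assoc, trace_mul_comm (E * F) E, ← mul_assoc, sub_self]
  have tFH : (F * H).trace = 0 := by
    rw [← h3, mul_sub, trace_sub, ← mul_assoc, ← mul_assoc, trace_mul_comm (F * E) F, ← mul_assoc, sub_self]
  have hEE : E * E = 0 := by
    have h4 := anti hE hE
    have h5 : (2 : ℚ) • (E * E) = E * (H * E - E * H) := by rw [h1, mul_smul_comm]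
    have h6 : (2 : ℚ) * (E * E).trace = 0 := by
      have h7 := congrArg trace h5
      rw [trace_smul, smul_eq_mul, mul_sub, trace_sub, ← mul_assoc, ← mul_assoc,
        trace_mul_comm (E * H) E, ← mul_assoc, sub_self] at h7
      exact h7
    have h8 : (E * E).trace = 0 := by linarith
    rw [h8, zero_smul, ← two_smul ℚ (E * E)] at h4
    exact (smul_eq_zero.1 h4).resolve_left (by norm_num)
  have hFF : F * F = 0 := by
    have h4 := anti hF hF
    have h5 : (-2 : ℚ) • (F * F) = F * (H * F - F * H) := by rw [h2, mul_smul_comm]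
    have h6 : (-2 : ℚ) * (F * F).trace = 0 := by
      have h7 := congrArg trace h5
      rw [trace_smul, smul_eq_mul, mul_sub, trace_sub, ← mul_assoc, ← mul_assoc,
        trace_mul_comm (F * H) F, ← mul_assoc, sub_self] at h7
      exact h7
    have h8 : (F * F).trace = 0 := by linarith
    rw [h8, zero_smul, ← two_smul ℚ (F * F)] at h4
    exact (smul_eq_zero.1 h4).resolve_left (by norm_num)
  have hEH : E * H = -E := by
    have h4 := anti hE hH
    rw [tEH, zero_smul] at h4
    have h5 : (2 : ℚ) • (E * H) = (-2 : ℚ) • E := by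
      rw [two_smul, neg_smul, ← h1]
      have h6 : H * E = -(E * H) := eq_neg_of_add_eq_zero_right h4
      rw [h6]
      abel
    have h7 : (2 : ℚ) • (E * H + E) = 0 := by
      rw [smul_add, h5, ← add_smul]
      norm_num
    exact eq_neg_of_add_eq_zero_left ((smul_eq_zero.1 h7).resolve_left (by norm_num))
  have hHF : H * F = -F := by
    have h4 := anti hF hH
    rw [tFH, zero_smul] at h4
    have h6 : F * H = -(H * F) := eq_neg_of_add_eq_zero_left h4
    have h5 : (2 : ℚ) • (H * F) = (-2 : ℚ) • F := by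
      rw [← h2, h6, two_smul]
      abel
    have h7 : (2 : ℚ) • (H * F + F) = 0 := by
      rw [smul_add, h5, ← add_smul]
      norm_num
    exact eq_neg_of_add_eq_zero_left ((smul_eq_zero.1 h7).resolve_left (by norm_num))
  have hFH : F * H = F := by
    have h4 := anti hF hH
    rw [tFH, zero_smul, hHF] at h4
    have := eq_neg_of_add_eq_zero_left h4
    rw [this, neg_neg]
  have hEF : E * F + F * E = 1 := by
    have h4 := anti hE hF
    set τ := (E * F).trace
    have h5 : E * (E * F + F * E) = τ • E := by rw [h4, mul_smul_comm, mul_one]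
    have h6 : E * H = E * (E * F - F * E) := by rw [h3]
    rw [mul_add, ← mul_assoc, hEE, zero_mul, zero_add] at h5
    rw [mul_sub, ← mul_assoc, hEE, zero_mul, zero_sub, h5, hEH, neg_inj] at h6
    have h7 : (τ - 1) • E = 0 := by rw [sub_smul, one_smul, ← h6, sub_self]
    have h8 : τ - 1 = 0 := (smul_eq_zero.1 h7).resolve_right h0
    rw [h4, sub_eq_zero.1 h8, one_smul]
  have hHH : H * H = 1 := by
    calc H * H = (E * F - F * E) * H := by rw [h3]
      _ = E * (F * H) - F * (E * H) := by rw [sub_mul, mul_assoc, mul_assoc]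
      _ = 1 := by rw [hFH, hEH, mul_neg, sub_neg_eq_add, hEF]
  have hE1 : E * (1 + H) = 0 := by rw [mul_add, mul_one, hEH, add_neg_cancel]
  have hH1 : H * (1 + H) = 1 + H := by rw [mul_add, mul_one, hHH, add_comm]
  have hF1 : F * (1 + H) = (2 : ℚ) • F := by rw [mul_add, mul_one, hFH, two_smul]
  have hEF2 : (2 : ℚ) • (E * F) = 1 + H := by
    rw [two_smul, ← hEF, ← h3]
    abel
  set e : MQ := !![1, 0; 0, 0] with he
  have e00 : e 0 0 = 1 := rfl
  have e01 : e 0 1 = 0 := rfl
  have e10 : e 1 0 = 0 := rfl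
  have e11 : e 1 1 = 0 := rfl
  have m1 : e * mE = mE := by
    apply ext4 <;> simp only [Matrix.mul_apply, Fin.sum_univ_two, E00, E01, E10, E11, e00, e01, e10, e11] <;> ring
  have m2 : mE * mE = 0 := by
    apply ext4 <;> simp only [Matrix.mul_apply, Fin.sum_univ_two, E00, E01, E10, E11, Matrix.zero_apply] <;> ring
  have m3 : e * mH = e := by
    apply ext4 <;> simp only [Matrix.mul_apply, Fin.sum_univ_two, H00, H01, H10, H11, e00, e01, e10, e11] <;> ring
  have m4 : mE * mH = -mE := by
    apply ext4 <;> simp only [Matrix.mul_apply, Fin.sum_univ_two, E00, E01, E10, E11, H00, H01, H10, H11,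
      Matrix.neg_apply] <;> ring
  have m5 : e * mF = 0 := by
    apply ext4 <;> simp only [Matrix.mul_apply, Fin.sum_univ_two, F00, F01, F10, F11, e00, e01, e10, e11,
      Matrix.zero_apply] <;> ring
  have m6 : mE * mF = e := by
    apply ext4 <;> simp only [Matrix.mul_apply, Fin.sum_univ_two, F00, F01, F10, F11, E00, E01, E10, E11,
      e00, e01, e10, e11] <;> ring
  -- the intertwiner
  have key : ∀ m : MQ, let X := (1 + H) * (m * e) + (2 : ℚ) • (F * (m * mE))
      X * mE = E * X ∧ X * mH = H * X ∧ X * mF = F * X := by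
    intro m
    refine ⟨?_, ?_, ?_⟩
    · rw [add_mul, mul_add, mul_assoc, mul_assoc m, m1, smul_mul_assoc, mul_assoc F, mul_assoc m, m2, mul_zero,
        mul_zero, smul_zero, add_zero, ← mul_assoc E, hE1, zero_mul, zero_add, mul_smul_comm, ← mul_assoc E,
        ← smul_mul_assoc, hEF2]
    · rw [add_mul, mul_add, mul_assoc, mul_assoc m, m3, smul_mul_assoc, mul_assoc F, mul_assoc m, m4,
        ← mul_assoc H, hH1, mul_smul_comm, ← mul_assoc H, hHF, mul_neg, mul_neg, neg_mul]
    · rw [add_mul, mul_add, mul_assoc, mul_assoc m, m5, smul_mul_assoc, mul_assoc F, mul_assoc m, m6,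
        mul_zero, mul_zero, zero_add, ← mul_assoc F (1 + H), hF1, mul_smul_comm, ← mul_assoc F F, hFF, zero_mul,
        smul_zero, add_zero, smul_mul_assoc]
  by_contra hcon
  push Not at hcon
  have hz : ∀ m : MQ, (1 + H) * (m * e) + (2 : ℚ) • (F * (m * mE)) = 0 := by
    intro m
    by_contra h
    obtain ⟨k1, k2, k3⟩ := key m
    exact hcon _ h k1 k2 k3
  have hz2 : ∀ m : MQ, (1 + H) * (m * e) = 0 := by
    intro m
    have h4 : ((1 + H) * (m * e) + (2 : ℚ) • (F * (m * mE))) * e = 0 := by rw [hz m, zero_mul]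
    rw [add_mul, smul_mul_assoc] at h4
    have m7 : e * e = e := by
      apply ext4 <;> simp only [Matrix.mul_apply, Fin.sum_univ_two, e00, e01, e10, e11] <;> ring
    have m8 : mE * e = 0 := by
      apply ext4 <;> simp only [Matrix.mul_apply, Fin.sum_univ_two, e00, e01, e10, e11, E00, E01, E10, E11,
        Matrix.zero_apply] <;> ring
    rw [mul_assoc, mul_assoc m, m7, mul_assoc F, mul_assoc m, m8, mul_zero, mul_zero, smul_zero, add_zero] at h4
    exact h4
  have h5 : (1 + H : MQ) = 0 := by
    have h6 := hz2 1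
    have h7 := hz2 mF
    rw [one_mul] at h6
    have m9 : mF * e = mF := by
      apply ext4 <;> simp only [Matrix.mul_apply, Fin.sum_univ_two, e00, e01, e10, e11, F00, F01, F10, F11] <;> ring
    rw [m9] at h7
    have m10 : e + mF * mE = 1 := by
      apply ext4 <;> simp only [Matrix.mul_apply, Fin.sum_univ_two, e00, e01, e10, e11, F00, F01, F10, F11,
        E00, E01, E10, E11, Matrix.add_apply, Matrix.one_apply_eq] <;> norm_num
    calc (1 + H : MQ) = (1 + H) * (e + mF * mE) := by rw [m10, mul_one]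
      _ = (1 + H) * e + ((1 + H) * mF) * mE := by rw [mul_add, mul_assoc]
      _ = 0 := by rw [h6, h7, zero_mul, add_zero]
  have h6 := congrArg trace h5
  rw [trace_add, hH] at h6
  simp at h6

/-! ## Goursat -/

section

variable {r : Type} [Fintype r] [DecidableEq r]

/-- The real tuple of a rational tuple. -/
def crt (x : r → MQ) : r → MR := fun i => cr (x i)

/-- The trace pairing. -/
def tp {K : Type*} [Field K] (z a : r → Matrix (Fin 2) (Fin 2) K) : K := ∑ i, (z i * a i).trace

/-- DUALITY: a proper subspace of the traceless tuples has a nonzero annihilator. -/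
theorem dual (g : Submodule ℚ (r → MQ)) {x : r → MQ} (hx : ∀ i, (x i).trace = 0) (hxg : x ∉ g) :
    ∃ z : r → MQ, (∀ i, (z i).trace = 0) ∧ (∀ a ∈ g, (∀ i, (a i).trace = 0) → tp z a = 0) ∧ tp z x ≠ 0 := by
  obtain ⟨f, hfx, hfg⟩ := Submodule.exists_dual_map_eq_bot_of_notMem hxg inferInstance
  have hf0 : ∀ a ∈ g, f a = 0 := by
    intro a ha
    have h1 : f a ∈ g.map f := Submodule.mem_map_of_mem ha
    rw [hfg] at h1
    exact (Submodule.mem_bot ℚ).1 h1
  -- the matrices of the functional
  let c : r → MQ := fun i => Matrix.of fun l k => f (Pi.single i (Matrix.single k l 1))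
  have hc : ∀ a : r → MQ, f a = tp c a := by
    intro a
    have h1 : a = ∑ i, ∑ k, ∑ l, a i k l • (Pi.single i (Matrix.single k l (1 : ℚ)) : r → MQ) := by
      funext j
      rw [Finset.sum_apply, Finset.sum_eq_single j]
      · simp only [Finset.sum_apply, Pi.smul_apply, Pi.single_eq_same]
        conv_lhs => rw [Matrix.matrix_eq_sum_single (a j)]
        refine Finset.sum_congr rfl fun k _ => Finset.sum_congr rfl fun l _ => ?_
        rw [Matrix.smul_single, smul_eq_mul, mul_one]
      · intro i _ hij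
        simp only [Finset.sum_apply, Pi.smul_apply, Pi.single_eq_of_ne hij.symm, smul_zero, Finset.sum_const_zero]
      · intro h
        exact absurd (Finset.mem_univ j) h
    conv_lhs => rw [h1]
    simp only [map_sum, map_smul, smul_eq_mul]
    unfold tp
    refine Finset.sum_congr rfl fun i _ => ?_
    rw [Matrix.trace, Finset.sum_comm]
    refine Finset.sum_congr rfl fun l _ => ?_
    rw [Matrix.diag_apply, Matrix.mul_apply]
    refine Finset.sum_congr rfl fun k _ => ?_
    rw [mul_comm]
    rfl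
  refine ⟨fun i => c i - ((c i).trace / 2) • 1, ?_, ?_, ?_⟩
  · intro i
    rw [trace_sub, trace_smul, trace_one]
    simp
  · intro a ha hat
    rw [← hf0 a ha, hc a]
    unfold tp
    refine Finset.sum_congr rfl fun i _ => ?_
    rw [sub_mul, trace_sub, smul_mul_assoc, one_mul, trace_smul, hat i, smul_zero, sub_zero]
  · have h2 : tp (fun i => c i - ((c i).trace / 2) • 1) x = f x := by
      rw [hc x]
      unfold tp
      refine Finset.sum_congr rfl fun i _ => ?_
      rw [sub_mul, trace_sub, smul_mul_assoc, one_mul, trace_smul, hx i, smul_zero, sub_zero]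
    rw [h2]
    exact hfx

/-- The annihilator. -/
def ann (g : Submodule ℚ (r → MQ)) : Submodule ℚ (r → MQ) where
  carrier := {z | (∀ i, (z i).trace = 0) ∧ ∀ a ∈ g, tp z a = 0}
  zero_mem' := ⟨fun i => trace_zero _ _, fun a _ => by simp [tp]⟩
  add_mem' := by
    rintro z w ⟨hz, hz'⟩ ⟨hw, hw'⟩
    refine ⟨fun i => ?_, fun a ha => ?_⟩
    · rw [Pi.add_apply, trace_add, hz, hw, add_zero]
    · have h : tp (z + w) a = tp z a + tp w a := by
        unfold tp
        rw [← Finset.sum_add_distrib]
        refine Finset.sum_congr rfl fun i _ => ?_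
        rw [Pi.add_apply, add_mul, trace_add]
      rw [h, hz' a ha, hw' a ha, add_zero]
  smul_mem' := by
    rintro q z ⟨hz, hz'⟩
    refine ⟨fun i => ?_, fun a ha => ?_⟩
    · rw [Pi.smul_apply, trace_smul, hz, smul_zero]
    · have h : tp (q • z) a = q * tp z a := by
        unfold tp
        rw [Finset.mul_sum]
        refine Finset.sum_congr rfl fun i _ => ?_
        rw [Pi.smul_apply, smul_mul_assoc, trace_smul, smul_eq_mul]
      rw [h, hz' a ha, mul_zero]

theorem ann_br {g : Submodule ℚ (r → MQ)} (hg : ∀ x ∈ g, ∀ y ∈ g, x * y - y * x ∈ g) {z b : r → MQ}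
    (hz : z ∈ ann g) (hb : b ∈ g) : b * z - z * b ∈ ann g := by
  refine ⟨fun i => tr_br _ _, fun a ha => ?_⟩
  rw [← hz.2 _ (hg a ha b hb)]
  unfold tp
  refine Finset.sum_congr rfl fun i _ => ?_
  show ((b i * z i - z i * b i) * a i).trace = (z i * (a i * b i - b i * a i)).trace
  rw [sub_mul, mul_sub, trace_sub, trace_sub, mul_assoc, trace_mul_comm (b i), mul_assoc, mul_assoc]

theorem eq_zero_of_tr {z : MQ} (hz : z.trace = 0) (h : ∀ x : MQ, x.trace = 0 → (z * x).trace = 0) : z = 0 := by
  have h1 := h mE tr_E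
  have h2 := h mF tr_F
  have h3 := h mH tr_H
  rw [trace_fin_two] at hz h1 h2 h3
  simp only [Matrix.mul_apply, Fin.sum_univ_two, E00, E01, E10, E11, H00, H01, H10, H11, F00, F01, F10, F11] at h1 h2 h3
  apply ext4
  · show z 0 0 = 0
    linarith
  · show z 0 1 = 0
    linarith
  · show z 1 0 = 0
    linarith
  · show z 1 1 = 0
    linarith

theorem eq_zero_of_comm {z : MQ} (hz : z.trace = 0) (h : ∀ x : MQ, x.trace = 0 → z * x - x * z = 0) : z = 0 := by
  have h1 := h mE tr_E
  have h2 := h mF tr_F
  rw [trace_fin_two] at hz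
  have a1 := congrFun (congrFun h1 0) 0
  have a2 := congrFun (congrFun h1 0) 1
  have a3 := congrFun (congrFun h2 0) 0
  simp only [Matrix.sub_apply, Matrix.mul_apply, Fin.sum_univ_two, E00, E01, E10, E11, F00, F01, F10, F11,
    Matrix.zero_apply] at a1 a2 a3
  apply ext4
  · show z 0 0 = 0
    linarith
  · show z 0 1 = 0
    linarith
  · show z 1 0 = 0
    linarith
  · show z 1 1 = 0
    linarith

/-- The core: traceless tuples. -/
theorem core (g : Submodule ℚ (r → MQ)) (hgt : ∀ a ∈ g, ∀ i, (a i).trace = 0)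
    (hg : ∀ x ∈ g, ∀ y ∈ g, x * y - y * x ∈ g) (J : r → MR) (hJ : ∀ i, J i * J i = -1)
    (hs : J ∈ Submodule.span ℝ (crt '' (g : Set (r → MQ))))
    (hcm : ∀ i, ∀ X : MQ, cr X * J i = J i * cr X → ∃ q : ℚ, X = q • 1)
    (his : ∀ i j, i ≠ j → ∀ X : MQ, cr X * J i = J j * cr X → X = 0) :
    ∀ x : r → MQ, (∀ i, (x i).trace = 0) → x ∈ g := by
  classical
  set S := Submodule.span ℝ (crt '' (g : Set (r → MQ))) with hS
  -- brackets in `S`
  have hS1 : ∀ a ∈ g, ∀ t ∈ S, crt a * t - t * crt a ∈ S := by
    intro a ha t ht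
    refine Submodule.span_induction (p := fun t _ => crt a * t - t * crt a ∈ S) ?_ ?_ ?_ ?_ ht
    · rintro _ ⟨b, hb, rfl⟩
      refine Submodule.subset_span ⟨a * b - b * a, hg a ha b hb, ?_⟩
      funext i
      show cr (a i * b i - b i * a i) = cr (a i) * cr (b i) - cr (b i) * cr (a i)
      rw [map_sub, map_mul, map_mul]
    · rw [mul_zero, zero_mul, sub_zero]
      exact S.zero_mem
    · intro u v _ _ hu hv
      have h : crt a * (u + v) - (u + v) * crt a = (crt a * u - u * crt a) + (crt a * v - v * crt a) := by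
        rw [mul_add, add_mul]
        abel
      rw [h]
      exact S.add_mem hu hv
    · intro q u _ hu
      have h : crt a * (q • u) - (q • u) * crt a = q • (crt a * u - u * crt a) := by
        rw [mul_smul_comm, smul_mul_assoc, smul_sub]
      rw [h]
      exact S.smul_mem q hu
  have hS2 : ∀ t ∈ S, ∀ s ∈ S, s * t - t * s ∈ S := by
    intro t ht s hs'
    refine Submodule.span_induction (p := fun s _ => s * t - t * s ∈ S) ?_ ?_ ?_ ?_ hs'
    · rintro _ ⟨b, hb, rfl⟩
      exact hS1 b hb t ht
    · rw [mul_zero, zero_mul, sub_zero]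
      exact S.zero_mem
    · intro u v _ _ hu hv
      have h : (u + v) * t - t * (u + v) = (u * t - t * u) + (v * t - t * v) := by
        rw [mul_add, add_mul]
        abel
      rw [h]
      exact S.add_mem hu hv
    · intro q u _ hu
      have h : (q • u) * t - t * (q • u) = q • (u * t - t * u) := by
        rw [mul_smul_comm, smul_mul_assoc, smul_sub]
      rw [h]
      exact S.smul_mem q hu
  -- (α)
  have hα : ∀ i, ∀ x : MQ, x.trace = 0 → ∃ a ∈ g, a i = x := by
    intro i x hx
    by_contra hcon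
    let G : Submodule ℚ MQ := g.map (LinearMap.proj i)
    have hxG : (Pi.single i x : r → MQ) ∉ G.comap (LinearMap.proj i) := by
      intro h
      rw [Submodule.mem_comap] at h
      obtain ⟨a, ha, hax⟩ := h
      apply hcon
      refine ⟨a, ha, ?_⟩
      have h2 : a i = (Pi.single i x : r → MQ) i := hax
      rwa [Pi.single_eq_same] at h2
    obtain ⟨z, hzt, hz, hzx⟩ := dual (G.comap (LinearMap.proj i)) (x := Pi.single i x) (by
      intro j
      by_cases hj : j = i
      · subst hj
        rw [Pi.single_eq_same]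
        exact hx
      · rw [Pi.single_eq_of_ne hj]
        exact trace_zero _ _) hxG
    have hsing : ∀ y : MQ, tp z (Pi.single i y) = (z i * y).trace := by
      intro y
      unfold tp
      rw [Finset.sum_eq_single i]
      · rw [Pi.single_eq_same]
      · intro j _ hj
        rw [Pi.single_eq_of_ne hj, mul_zero, trace_zero]
      · intro h
        exact absurd (Finset.mem_univ i) h
    rw [hsing] at hzx
    have hza : ∀ a ∈ g, (z i * a i).trace = 0 := by
      intro a ha
      rw [← hsing]
      refine hz _ ?_ ?_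
      · rw [Submodule.mem_comap]
        refine ⟨a, ha, ?_⟩
        show a i = (Pi.single i (a i) : r → MQ) i
        rw [Pi.single_eq_same]
      · intro j
        by_cases hj : j = i
        · subst hj
          rw [Pi.single_eq_same]
          exact hgt a ha j
        · rw [Pi.single_eq_of_ne hj]
          exact trace_zero _ _
    have hzs : ∀ s ∈ S, (cr (z i) * s i).trace = 0 := by
      intro s hs'
      refine Submodule.span_induction (p := fun s _ => (cr (z i) * s i).trace = 0) ?_ ?_ ?_ ?_ hs'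
      · rintro _ ⟨b, hb, rfl⟩
        show (cr (z i) * cr (b i)).trace = 0
        rw [← map_mul, trace_cr, hza b hb, Rat.cast_zero]
      · rw [Pi.zero_apply, mul_zero, trace_zero]
      · intro u v _ _ hu hv
        rw [Pi.add_apply, mul_add, trace_add, hu, hv, add_zero]
      · intro q u _ hu
        rw [Pi.smul_apply, mul_smul_comm, trace_smul, hu, smul_zero]
    have hex : ∃ a ∈ g, J i * cr (a i) - cr (a i) * J i ≠ 0 := by
      by_contra hc
      push Not at hc
      have h1 : ∀ a ∈ g, a i = 0 := by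
        intro a ha
        obtain ⟨q, hq⟩ := hcm i (a i) (sub_eq_zero.1 (hc a ha)).symm
        have h2 := hgt a ha i
        rw [hq, trace_smul, trace_one] at h2
        have h3 : q = 0 := by
          simpa using h2
        rw [hq, h3, zero_smul]
      have h4 : ∀ s ∈ S, s i = 0 := by
        intro s hs'
        refine Submodule.span_induction (p := fun s _ => s i = 0) ?_ ?_ ?_ ?_ hs'
        · rintro _ ⟨b, hb, rfl⟩
          show cr (b i) = 0
          rw [h1 b hb, map_zero]
        · rfl
        · intro u v _ _ hu hv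
          rw [Pi.add_apply, hu, hv, add_zero]
        · intro q u _ hu
          rw [Pi.smul_apply, hu, smul_zero]
      have h5 := hJ i
      rw [h4 J hs, mul_zero] at h5
      have h6 := congrFun (congrFun h5 0) 0
      simp at h6
    obtain ⟨a, ha, hane⟩ := hex
    have haS : crt a ∈ S := Submodule.subset_span ⟨a, ha, rfl⟩
    have hn1 := hS2 (crt a) haS J hs
    have hn2 := hS2 _ hn1 J hs
    have h7 := kill (hJ i) (z := cr (z i)) (a := cr (a i)) (by rw [trace_cr, hzt i, Rat.cast_zero]) (hzs J hs)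
      (hzs _ hn1) (hzs _ hn2) hane
    rw [cr_inj h7, zero_mul, trace_zero] at hzx
    exact hzx rfl
  intro x hx
  by_contra hxg
  obtain ⟨z1, hz1t, hz1, hz1x⟩ := dual g hx hxg
  have hz1Z : z1 ∈ ann g := ⟨hz1t, fun a ha => hz1 a ha (hgt a ha)⟩
  have hz10 : z1 ≠ 0 := by
    rintro rfl
    apply hz1x
    simp [tp]
  -- minimal support
  let supp : (r → MQ) → Finset r := fun z => Finset.univ.filter fun i => z i ≠ 0
  have hP : ∃ n, ∃ z ∈ ann g, z ≠ 0 ∧ (supp z).card = n := ⟨_, z1, hz1Z, hz10, rfl⟩
  obtain ⟨z0, hz0, hz00, hcard⟩ := Nat.find_spec hP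
  have hmin : ∀ z ∈ ann g, z ≠ 0 → (supp z0).card ≤ (supp z).card := by
    intro z hz hz'
    rw [hcard]
    exact Nat.find_min' hP ⟨z, hz, hz', rfl⟩
  have hinj : ∀ z ∈ ann g, (∀ k, z0 k = 0 → z k = 0) → ∀ i, z0 i ≠ 0 → z i = 0 → z = 0 := by
    intro z hz hzk i hi hzi
    by_contra hz'
    have h1 : supp z ⊂ supp z0 := by
      refine Finset.ssubset_iff_subset_ne.2 ⟨?_, ?_⟩
      · intro k hk
        rw [Finset.mem_filter] at hk ⊢
        exact ⟨Finset.mem_univ _, fun h => hk.2 (hzk k h)⟩
      · intro h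
        have h2 : i ∈ supp z0 := Finset.mem_filter.2 ⟨Finset.mem_univ _, hi⟩
        rw [← h] at h2
        exact (Finset.mem_filter.1 h2).2 hzi
    exact absurd (hmin z hz hz') (not_le.2 (Finset.card_lt_card h1))
  obtain ⟨i, hi⟩ : ∃ i, z0 i ≠ 0 := by
    by_contra h
    push Not at h
    exact hz00 (funext h)
  -- (δ)
  have hδ : ∀ i j, z0 i ≠ 0 → z0 j ≠ 0 → ∀ a ∈ g, a i = 0 → a j = 0 := by
    intro i j hi hj a ha hai
    let ZI : Submodule ℚ (r → MQ) :=
      { carrier := {z | z ∈ ann g ∧ ∀ k, z0 k = 0 → z k = 0}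
        zero_mem' := ⟨(ann g).zero_mem, fun k _ => rfl⟩
        add_mem' := by
          rintro z w ⟨hz, hz'⟩ ⟨hw, hw'⟩
          exact ⟨(ann g).add_mem hz hw, fun k hk => by rw [Pi.add_apply, hz' k hk, hw' k hk, add_zero]⟩
        smul_mem' := by
          rintro q z ⟨hz, hz'⟩
          exact ⟨(ann g).smul_mem q hz, fun k hk => by rw [Pi.smul_apply, hz' k hk, smul_zero]⟩ }
    have hbr : ∀ z ∈ ZI, ∀ b ∈ g, b * z - z * b ∈ ZI := by
      intro z hz b hb
      refine ⟨ann_br hg hz.1 hb, fun k hk => ?_⟩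
      show b k * z k - z k * b k = 0
      rw [hz.2 k hk, mul_zero, zero_mul, sub_zero]
    have hW : ∀ w : MQ, w.trace = 0 → w ∈ ZI.map (LinearMap.proj j) := by
      intro w hw
      refine ideal (ZI.map (LinearMap.proj j)) ?_ (w := z0 j) ⟨z0, ⟨hz0, fun k hk => hk⟩, rfl⟩ (hz0.1 j) hj hw
      rintro x hx _ ⟨z, hz, rfl⟩
      obtain ⟨b, hb, hbx⟩ := hα j x hx
      refine ⟨b * z - z * b, hbr z hz b hb, ?_⟩
      show b j * z j - z j * b j = x * z j - z j * x
      rw [hbx]
    apply eq_zero_of_comm (hgt a ha j)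
    intro w hw
    obtain ⟨z, hz, hzw⟩ := hW w hw
    have hzw' : z j = w := hzw
    have h1 : a * z - z * a = 0 := by
      refine hinj _ (hbr z hz a ha).1 (hbr z hz a ha).2 i hi ?_
      show a i * z i - z i * a i = 0
      rw [hai, zero_mul, mul_zero, sub_zero]
    have h2 := congrFun h1 j
    rw [← hzw']
    exact h2
  by_cases hone : ∀ j, j ≠ i → z0 j = 0
  · -- (γ)
    apply hi
    apply eq_zero_of_tr (hz0.1 i)
    intro y hy
    obtain ⟨a, ha, hay⟩ := hα i y hy
    rw [← hay, ← hz0.2 a ha]
    unfold tp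
    rw [Finset.sum_eq_single i]
    · intro j _ hj
      rw [hone j hj, zero_mul, trace_zero]
    · intro h
      exact absurd (Finset.mem_univ i) h
  · -- (ε)
    push Not at hone
    obtain ⟨j, hji, hj⟩ := hone
    obtain ⟨e, he, hei⟩ := hα i mE tr_E
    obtain ⟨h, hh, hhi⟩ := hα i mH tr_H
    obtain ⟨f, hf, hfi⟩ := hα i mF tr_F
    have hrel : ∀ a ∈ g, ∀ b ∈ g, a i = b i → a j = b j := by
      intro a ha b hb hab
      have h1 := hδ i j hi hj (a - b) (g.sub_mem ha hb) (by rw [Pi.sub_apply, hab, sub_self])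
      rw [Pi.sub_apply] at h1
      exact sub_eq_zero.1 h1
    have r1 : h j * e j - e j * h j = (2 : ℚ) • e j := by
      refine hrel (h * e - e * h) (hg h hh e he) ((2 : ℚ) • e) (g.smul_mem 2 he) ?_
      show h i * e i - e i * h i = (2 : ℚ) • e i
      rw [hhi, hei]
      apply ext4 <;> simp only [Matrix.sub_apply, Matrix.mul_apply, Fin.sum_univ_two,
        Matrix.smul_apply, smul_eq_mul, E00, E01, E10, E11, H00, H01, H10, H11] <;> norm_num
    have r2 : h j * f j - f j * h j = (-2 : ℚ) • f j := by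
      refine hrel (h * f - f * h) (hg h hh f hf) ((-2 : ℚ) • f) (g.smul_mem _ hf) ?_
      show h i * f i - f i * h i = (-2 : ℚ) • f i
      rw [hhi, hfi]
      apply ext4 <;> simp only [Matrix.sub_apply, Matrix.mul_apply, Fin.sum_univ_two,
        Matrix.smul_apply, smul_eq_mul, F00, F01, F10, F11, H00, H01, H10, H11] <;> norm_num
    have r3 : e j * f j - f j * e j = h j := by
      refine hrel (e * f - f * e) (hg e he f hf) h hh ?_
      show e i * f i - f i * e i = h i
      rw [hhi, hfi, hei]
      apply ext4 <;> simp only [Matrix.sub_apply, Matrix.mul_apply, Fin.sum_univ_two,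
        F00, F01, F10, F11, H00, H01, H10, H11, E00, E01, E10, E11] <;> norm_num
    have hej : e j ≠ 0 := by
      intro h1
      have h2 := hδ j i hj hi e he h1
      rw [hei] at h2
      have h3 := congrFun (congrFun h2 0) 1
      rw [E01] at h3
      simp at h3
    obtain ⟨X, hX0, hXE, hXH, hXF⟩ := inter (hgt e he j) (hgt h hh j) (hgt f hf j) r1 r2 r3 hej
    have hXa : ∀ a ∈ g, X * a i = a j * X := by
      intro a ha
      have h1 := expand (hgt a ha i)
      have h2 : a j = a i 0 1 • e j + a i 0 0 • h j + a i 1 0 • f j := by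
        refine hrel a ha (a i 0 1 • e + a i 0 0 • h + a i 1 0 • f)
          (g.add_mem (g.add_mem (g.smul_mem _ he) (g.smul_mem _ hh)) (g.smul_mem _ hf)) ?_
        show a i = a i 0 1 • e i + a i 0 0 • h i + a i 1 0 • f i
        rw [hei, hhi, hfi]
        exact h1
      rw [h2]
      conv_lhs => rw [h1]
      simp only [mul_add, add_mul, mul_smul_comm, smul_mul_assoc]
      rw [hXE, hXH, hXF]
    apply hX0
    apply his i j hji.symm X
    refine Submodule.span_induction (p := fun s _ => cr X * s i = s j * cr X) ?_ ?_ ?_ ?_ hs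
    · rintro _ ⟨b, hb, rfl⟩
      show cr X * cr (b i) = cr (b j) * cr X
      rw [← map_mul, hXa b hb, map_mul]
    · rw [Pi.zero_apply, Pi.zero_apply, mul_zero, zero_mul]
    · intro u v _ _ hu hv
      rw [Pi.add_apply, Pi.add_apply, mul_add, add_mul, hu, hv]
    · intro q u _ hu
      rw [Pi.smul_apply, Pi.smul_apply, mul_smul_comm, smul_mul_assoc, hu]

/-- The traceless part. -/
def tl {K : Type*} [Field K] (x : r → Matrix (Fin 2) (Fin 2) K) : r → Matrix (Fin 2) (Fin 2) K :=
  fun i => x i - ((x i).trace / 2) • 1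

theorem tl_trace {K : Type*} [Field K] [CharZero K] (x : r → Matrix (Fin 2) (Fin 2) K) (i : r) :
    (tl x i).trace = 0 := by
  unfold tl
  rw [trace_sub, trace_smul, trace_one]
  simp

theorem tl_br {K : Type*} [Field K] (x y : r → Matrix (Fin 2) (Fin 2) K) :
    tl x * tl y - tl y * tl x = x * y - y * x := by
  funext i
  show (x i - ((x i).trace / 2) • 1) * (y i - ((y i).trace / 2) • 1) -
    (y i - ((y i).trace / 2) • 1) * (x i - ((x i).trace / 2) • 1) = x i * y i - y i * x i
  simp only [sub_mul, mul_sub, smul_mul_assoc, mul_smul_comm, one_mul, mul_one]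
  rw [smul_sub, smul_sub, smul_smul, smul_smul, mul_comm ((x i).trace / 2)]
  abel

/-- **GOURSAT.** -/
theorem goursat (g : Submodule ℚ (r → MQ)) (hg : ∀ x ∈ g, ∀ y ∈ g, x * y - y * x ∈ g) (J : r → MR)
    (hJ : ∀ i, J i * J i = -1) (hs : J ∈ Submodule.span ℝ (crt '' (g : Set (r → MQ))))
    (hcm : ∀ i, ∀ X : MQ, cr X * J i = J i * cr X → ∃ q : ℚ, X = q • 1)
    (his : ∀ i j, i ≠ j → ∀ X : MQ, cr X * J i = J j * cr X → X = 0) :
    ∀ x : r → MQ, (∀ i, (x i).trace = 0) →
      x ∈ Submodule.span ℚ {z | ∃ a ∈ g, ∃ b ∈ g, z = a * b - b * a} := by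
  classical
  -- the traceless parts
  let T : (r → MQ) →ₗ[ℚ] (r → MQ) :=
    { toFun := tl
      map_add' := by
        intro x y
        funext i
        show (x i + y i) - ((x i + y i).trace / 2) • 1 = (x i - ((x i).trace / 2) • 1) + (y i - ((y i).trace / 2) • 1)
        rw [trace_add, add_div, add_smul]
        abel
      map_smul' := by
        intro q x
        funext i
        show (q • x i) - ((q • x i).trace / 2) • 1 = q • (x i - ((x i).trace / 2) • 1)
        rw [trace_smul, smul_eq_mul, mul_div_assoc, smul_sub, smul_smul] }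
  have hTt : ∀ x i, (T x i).trace = 0 := fun x i => tl_trace x i
  have hTbr : ∀ x y, T x * T y - T y * T x = x * y - y * x := fun x y => tl_br x y
  have hTid : ∀ x : r → MQ, (∀ i, (x i).trace = 0) → T x = x := by
    intro x hx
    funext i
    show x i - ((x i).trace / 2) • 1 = x i
    rw [hx i, zero_div, zero_smul, sub_zero]
  have hcore := core (g.map T) (by
      rintro _ ⟨x, _, rfl⟩ i
      exact hTt x i) (by
      rintro _ ⟨x, hx, rfl⟩ _ ⟨y, hy, rfl⟩
      rw [hTbr]
      refine ⟨x * y - y * x, hg x hx y hy, ?_⟩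
      exact hTid _ fun i => tr_br _ _) J hJ (by
      have h1 : ∀ s ∈ Submodule.span ℝ (crt '' (g : Set (r → MQ))),
          tl s ∈ Submodule.span ℝ (crt '' ((g.map T : Submodule ℚ (r → MQ)) : Set (r → MQ))) := by
        intro s hs'
        refine Submodule.span_induction (p := fun s _ =>
          tl s ∈ Submodule.span ℝ (crt '' ((g.map T : Submodule ℚ (r → MQ)) : Set (r → MQ)))) ?_ ?_ ?_ ?_ hs'
        · rintro _ ⟨b, hb, rfl⟩
          refine Submodule.subset_span ⟨T b, ⟨b, hb, rfl⟩, ?_⟩
          funext i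
          show cr (b i - ((b i).trace / 2) • 1) = cr (b i) - ((cr (b i)).trace / 2) • 1
          rw [map_sub, cr_smul, map_one, trace_cr]
          push_cast
          rfl
        · have h2 : tl (0 : r → MR) = 0 := by
            funext i
            show (0 : MR) - ((0 : MR).trace / 2) • 1 = 0
            rw [trace_zero, zero_div, zero_smul, sub_zero]
          rw [h2]
          exact Submodule.zero_mem _
        · intro u v _ _ hu hv
          have h2 : tl (u + v) = tl u + tl v := by
            funext i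
            show (u i + v i) - ((u i + v i).trace / 2) • 1 = (u i - ((u i).trace / 2) • 1) + (v i - ((v i).trace / 2) • 1)
            rw [trace_add, add_div, add_smul]
            abel
          rw [h2]
          exact Submodule.add_mem _ hu hv
        · intro q u _ hu
          have h2 : tl (q • u) = q • tl u := by
            funext i
            show (q • u i) - ((q • u i).trace / 2) • 1 = q • (u i - ((u i).trace / 2) • 1)
            rw [trace_smul, smul_eq_mul, mul_div_assoc, smul_sub, smul_smul]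
          rw [h2]
          exact Submodule.smul_mem _ q hu
      have h3 := h1 J hs
      have h4 : tl J = J := by
        funext i
        show J i - ((J i).trace / 2) • 1 = J i
        rw [J_trace (hJ i), zero_div, zero_smul, sub_zero]
      rw [h4] at h3
      exact h3) hcm his
  -- commutators
  have hcom : ∀ a b : r → MQ, (∀ i, (a i).trace = 0) → (∀ i, (b i).trace = 0) →
      a * b - b * a ∈ Submodule.span ℚ {z | ∃ a ∈ g, ∃ b ∈ g, z = a * b - b * a} := by
    intro a b ha hb
    obtain ⟨a', ha', rfl⟩ := hcore a ha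
    obtain ⟨b', hb', rfl⟩ := hcore b hb
    rw [hTbr]
    exact Submodule.subset_span ⟨a', ha', b', hb', rfl⟩
  intro x hx
  have h1 : x = ((fun _ => (1 / 2 : ℚ) • mH) * (fun i => x i 0 1 • mE - x i 1 0 • mF) -
      (fun i => x i 0 1 • mE - x i 1 0 • mF) * (fun _ => (1 / 2 : ℚ) • mH)) +
      ((fun i => x i 0 0 • mE) * (fun _ => mF) - (fun _ => mF) * (fun i => x i 0 0 • mE)) := by
    funext i
    have h2 := hx i
    rw [trace_fin_two] at h2
    have h3 : x i 1 1 = -x i 0 0 := by linear_combination h2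
    show x i = (((1 / 2 : ℚ) • mH) * (x i 0 1 • mE - x i 1 0 • mF) - (x i 0 1 • mE - x i 1 0 • mF) * ((1 / 2 : ℚ) • mH)) +
      ((x i 0 0 • mE) * mF - mF * (x i 0 0 • mE))
    apply ext4 <;> simp only [Matrix.sub_apply, Matrix.mul_apply, Fin.sum_univ_two, Matrix.add_apply,
        Matrix.smul_apply, smul_eq_mul, F00, F01, F10, F11, H00, H01, H10, H11, E00, E01, E10, E11, h3] <;> ring
  rw [h1]
  refine Submodule.add_mem _ (hcom _ _ ?_ ?_) (hcom _ _ ?_ ?_)
  · intro i
    show ((1 / 2 : ℚ) • mH).trace = 0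
    rw [trace_smul, tr_H, smul_zero]
  · intro i
    show (x i 0 1 • mE - x i 1 0 • mF).trace = 0
    rw [trace_sub, trace_smul, trace_smul, tr_E, tr_F, smul_zero, smul_zero, sub_zero]
  · intro i
    show (x i 0 0 • mE).trace = 0
    rw [trace_smul, tr_E, smul_zero]
  · intro i
    exact tr_F

end

end HC.Gour
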