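import Pool.Agent.Lib.HC.L.E.SpecL

/-!
# HC+: `K_pq` maps Hodge classes to Hodge classes (helper47)
-/

set_option autoImplicit false

noncomputable section

namespace HC

namespace KhAux

/-- the matrix of a complex number of absolute value 1 has determinant 1 -/
theorem det_one {E : AV} (b : Module.Basis (Fin 2) ℝ E.V) {w : ℂ} (hw : ‖w‖ = 1) :
    b.repr (w • b 0) 0 * b.repr (w • b 1) 1 - b.repr (w • b 1) 0 * b.repr (w • b 0) 1 = 1 := by
  obtain ⟨p, hp⟩ : ∃ p, p = b.repr (Complex.I • b 0) 0 := ⟨_, rfl⟩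
  obtain ⟨r, hr⟩ : ∃ r, r = b.repr (Complex.I • b 0) 1 := ⟨_, rfl⟩
  obtain ⟨q, hq⟩ : ∃ q, q = b.repr (Complex.I • b 1) 0 := ⟨_, rfl⟩
  obtain ⟨s, hs⟩ : ∃ s, s = b.repr (Complex.I • b 1) 1 := ⟨_, rfl⟩
  have e0 : Complex.I • b 0 = p • b 0 + r • b 1 := by
    have := b.sum_repr (Complex.I • b 0)
    rw [Fin.sum_univ_two, ← hp, ← hr] at this
    exact this.symm
  have e1 : Complex.I • b 1 = q • b 0 + s • b 1 := by
    have := b.sum_repr (Complex.I • b 1)
    rw [Fin.sum_univ_two, ← hq, ← hs] at this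
    exact this.symm
  have hI : ∀ x y : ℝ, Complex.I • (x • b 0 + y • b 1) =
      (x * p + y * q) • b 0 + (x * r + y * s) • b 1 := by
    intro x y
    rw [smul_add, smul_comm Complex.I x, smul_comm Complex.I y, e0, e1]
    module
  have hrepr : ∀ x y : ℝ, b.repr (x • b 0 + y • b 1) 0 = x ∧ b.repr (x • b 0 + y • b 1) 1 = y := by
    intro x y
    simp
  have hneg : ∀ v : E.V, Complex.I • (Complex.I • v) = -v := by
    intro v
    rw [smul_smul, Complex.I_mul_I, neg_one_smul]
  have f0 := hneg (b 0)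
  rw [e0, hI] at f0
  have f1 := hneg (b 1)
  rw [e1, hI] at f1
  have g00 := congrArg (fun v => b.repr v 0) f0
  have g01 := congrArg (fun v => b.repr v 1) f0
  have g10 := congrArg (fun v => b.repr v 0) f1
  have g11 := congrArg (fun v => b.repr v 1) f1
  simp only [(hrepr _ _).1, (hrepr _ _).2, map_neg, Finsupp.neg_apply, Module.Basis.repr_self,
    Finsupp.single_eq_same] at g00 g01 g10 g11
  rw [Finsupp.single_eq_of_ne (by decide)] at g01 g10
  have htr : p + s = 0 := by
    by_contra hne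
    have hr0 : r = 0 := by
      have : r * (p + s) = 0 := by linarith
      exact (mul_eq_zero.1 this).resolve_right hne
    rw [hr0] at g00
    nlinarith [mul_self_nonneg p]
  have hdet : p * s - q * r = 1 := by
    have : s = -p := by linarith
    rw [this]
    linarith
  have hwv : ∀ v : E.V, w • v = w.re • v + w.im • (Complex.I • v) := by
    intro v
    conv_lhs => rw [← Complex.re_add_im w]
    rw [add_smul, mul_smul, Complex.coe_smul, Complex.coe_smul]
  have k0 : w • b 0 = (w.re + w.im * p) • b 0 + (w.im * r) • b 1 := by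
    rw [hwv, e0]
    module
  have k1 : w • b 1 = (w.im * q) • b 0 + (w.re + w.im * s) • b 1 := by
    rw [hwv, e1]
    module
  rw [k0, k1, (hrepr _ _).1, (hrepr _ _).2, (hrepr _ _).1, (hrepr _ _).2]
  have hn : w.re * w.re + w.im * w.im = 1 := by
    have h := Complex.normSq_eq_norm_sq w
    rw [hw, Complex.normSq_apply] at h
    linarith
  linear_combination hn + w.re * w.im * htr + w.im * w.im * hdet

/-- the coordinate forms composed with a complex number -/
theorem cf_smul {E T : AV} {k : ℕ} (b : Module.Basis (Fin 2) ℝ E.V) (ψ : T.V ≃ₗ[ℂ] (Fin k → E.V))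
    (w : ℂ) (i : Fin 2) (p : Fin k) :
    pull (w • (LinearMap.id : T.V →ₗ[ℂ] T.V)) (cf b ψ i p) =
      (b.repr (w • b 0) i : ℂ) • cf b ψ 0 p + (b.repr (w • b 1) i : ℂ) • cf b ψ 1 p := by
  ext v
  change ((b.repr (ψ (w • v) p) i : ℝ) : ℂ) =
    (b.repr (w • b 0) i : ℂ) * ((b.repr (ψ v p) 0 : ℝ) : ℂ) +
      (b.repr (w • b 1) i : ℂ) * ((b.repr (ψ v p) 1 : ℝ) : ℂ)
  have h1 : ψ (w • v) p = w • ψ v p := by
    rw [map_smul]
    rfl
  have h2 : ψ v p = b.repr (ψ v p) 0 • b 0 + b.repr (ψ v p) 1 • b 1 := by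
    have := b.sum_repr (ψ v p)
    rw [Fin.sum_univ_two] at this
    exact this.symm
  have h3 : b.repr (w • ψ v p) i = b.repr (w • b 0) i * b.repr (ψ v p) 0 +
      b.repr (w • b 1) i * b.repr (ψ v p) 1 := by
    conv_lhs => rw [h2]
    rw [smul_add, smul_comm w (b.repr (ψ v p) 0) (b 0), smul_comm w (b.repr (ψ v p) 1) (b 1),
      map_add, map_smul b.repr (b.repr (ψ v p) 0), map_smul b.repr (b.repr (ψ v p) 1),
      Finsupp.add_apply, Finsupp.smul_apply, Finsupp.smul_apply, smul_eq_mul, smul_eq_mul]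
    ring
  rw [h1, h3]
  push_cast
  ring

end KhAux

open KhAux in
theorem pKh : S_Kh := by
  intro E T k b ψ h1 hb hL p q m c hc
  have hKc : ∀ (p q : Fin k) (d : Hlg T (m + 2)) (a : Fin m → (T.V →ₗ[ℝ] ℂ)), Kc b ψ p q d a =
      d (Matrix.vecCons (cf b ψ 0 p) (Matrix.vecCons (cf b ψ 1 q) a)) -
      d (Matrix.vecCons (cf b ψ 1 p) (Matrix.vecCons (cf b ψ 0 q) a)) := fun p q d a => rfl
  have hrat : ∀ (i : Fin 2) (p : Fin k), ∀ v ∈ T.L, ∃ x : ℚ, cf b ψ i p v = x := by
    intro i p v hv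
    obtain ⟨x, y, hxy⟩ := (hb _).1 ((hL v).1 hv p)
    have h2 : cf b ψ i p v = ((b.repr (ψ v p) i : ℝ) : ℂ) := rfl
    rw [h2, hxy]
    fin_cases i
    · exact ⟨x, by simp⟩
    · exact ⟨y, by simp⟩
  refine ⟨?_, ?_⟩
  · intro a ha
    have key : ∀ (i j : Fin 2), ∃ x : ℚ,
        c (Matrix.vecCons (cf b ψ i p) (Matrix.vecCons (cf b ψ j q) a)) = x := by
      intro i j
      refine hc.1 _ ?_
      intro s
      refine Fin.cases ?_ (fun s => ?_) s
      · exact hrat i p
      · refine Fin.cases ?_ (fun s => ?_) s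
        · exact hrat j q
        · exact ha s
    obtain ⟨x, hx⟩ := key 0 1
    obtain ⟨y, hy⟩ := key 1 0
    refine ⟨x - y, ?_⟩
    rw [hKc, hx, hy]
    push_cast
    rfl
  · intro u hu
    ext a
    obtain ⟨w, hw⟩ : ∃ w : ℂ, w = (starRingEnd ℂ) u := ⟨_, rfl⟩
    have hw1 : ‖w‖ = 1 := by rw [hw, Complex.norm_conj, hu]
    have hwu : u * w = 1 := by
      rw [hw, Complex.mul_conj, Complex.normSq_eq_norm_sq, hu]
      simp
    have hpp : ∀ f : T.V →ₗ[ℝ] ℂ, pull (u • (LinearMap.id : T.V →ₗ[ℂ] T.V))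
        (pull (w • (LinearMap.id : T.V →ₗ[ℂ] T.V)) f) = f := by
      intro f
      ext v
      change f (w • (u • v)) = f v
      rw [smul_smul, mul_comm, hwu, one_smul]
    have hinv : ∀ f g : T.V →ₗ[ℝ] ℂ, c (Matrix.vecCons f (Matrix.vecCons g
        (fun i => pull (u • (LinearMap.id : T.V →ₗ[ℂ] T.V)) (a i)))) =
        c (Matrix.vecCons (pull (w • (LinearMap.id : T.V →ₗ[ℂ] T.V)) f)
          (Matrix.vecCons (pull (w • (LinearMap.id : T.V →ₗ[ℂ] T.V)) g) a)) := by
      intro f g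
      have h3 := congrArg (fun d : Hlg T (m + 2) =>
        d (Matrix.vecCons (pull (w • (LinearMap.id : T.V →ₗ[ℂ] T.V)) f)
          (Matrix.vecCons (pull (w • (LinearMap.id : T.V →ₗ[ℂ] T.V)) g) a))) (hc.2 u hu)
      rw [← h3]
      change _ = c (fun i => pull (u • (LinearMap.id : T.V →ₗ[ℂ] T.V)) (Matrix.vecCons _ _ i))
      congr 1
      funext i
      refine Fin.cases ?_ (fun i => ?_) i
      · exact (hpp f).symm
      · refine Fin.cases ?_ (fun i => ?_) i
        · exact (hpp g).symm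
        · rfl
    change Kc b ψ p q c (fun i => pull (u • (LinearMap.id : T.V →ₗ[ℂ] T.V)) (a i)) = Kc b ψ p q c a
    rw [hKc, hKc, hinv, hinv, cf_smul, cf_smul, cf_smul, cf_smul]
    have hadd0 : ∀ (f g h : T.V →ₗ[ℝ] ℂ) (x y : ℂ),
        c (Matrix.vecCons (x • f + y • g) (Matrix.vecCons h a)) =
        x * c (Matrix.vecCons f (Matrix.vecCons h a)) +
          y * c (Matrix.vecCons g (Matrix.vecCons h a)) := by
      intro f g h x y
      have := congrArg (fun d : Hlg T (m + 1) => d (Matrix.vecCons h a))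
        (show c.curryLeft (x • f + y • g) = x • c.curryLeft f + y • c.curryLeft g by
          rw [map_add, map_smul, map_smul])
      exact this
    have hadd1 : ∀ (f g h : T.V →ₗ[ℝ] ℂ) (x y : ℂ),
        c (Matrix.vecCons h (Matrix.vecCons (x • f + y • g) a)) =
        x * c (Matrix.vecCons h (Matrix.vecCons f a)) +
          y * c (Matrix.vecCons h (Matrix.vecCons g a)) := by
      intro f g h x y
      have := congrArg (fun d : Hlg T m => d a)
        (show (c.curryLeft h).curryLeft (x • f + y • g) = x • (c.curryLeft h).curryLeft f +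
            y • (c.curryLeft h).curryLeft g by
          rw [map_add, map_smul, map_smul])
      exact this
    rw [hadd0, hadd1, hadd1, hadd0, hadd1, hadd1]
    have hd : ((b.repr (w • b 0) 0 : ℝ) : ℂ) * ((b.repr (w • b 1) 1 : ℝ) : ℂ) -
        ((b.repr (w • b 1) 0 : ℝ) : ℂ) * ((b.repr (w • b 0) 1 : ℝ) : ℂ) = 1 := by
      exact_mod_cast congrArg (fun x : ℝ => (x : ℂ)) (det_one b hw1)
    linear_combination (c (Matrix.vecCons (cf b ψ 0 p) (Matrix.vecCons (cf b ψ 1 q) a)) -
      c (Matrix.vecCons (cf b ψ 1 p) (Matrix.vecCons (cf b ψ 0 q) a))) * hd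

end HC
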