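import Pool.Agent.Lib.HC.L.E.Spec
import Pool.Agent.Lib.HC.L.E.RMc

/-!
# HC+ part 3: the normal form (helper28)
-/

set_option autoImplicit false

noncomputable section

namespace HC

namespace E

/-- The normal form of an abelian variety with real multiplication. -/
theorem tNF : S_NF := by
  rintro B ⟨F, i1, i2, i3, ι, hd, hr⟩
  obtain ⟨ψ, t, him, -, hL, hm⟩ := RMc.rmc ι hr hd
  refine ⟨F, i1, i2, i3, ⟨{ t := t, im := him, ψ := ψ, lat := hL, mem := fun x y => ?_ }⟩⟩
  refine hm x y _ fun σ => ?_
  rw [LinearEquiv.apply_symm_apply]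

end E

end HC
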