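import Pool.Agent.Lib.HC.L.E.SpecL
import Pool.Agent.Lib.HC.P.Wtl

/-!
# HC+: the fundamental class and the classes `om` (helper47; `frame_zero` is copied from HC/P/Fund.lean)
-/

set_option autoImplicit false

noncomputable section

namespace HC

namespace OmAux

open Fund

/-- The frame is a real basis. -/
theorem frame_zero (T : AV) (A : T.V →ₗ[ℝ] ℂ) (h : ∀ j, A (ec T (frame (dm T) j)) = 0) : A = 0 := by
  have h1 : ∀ l : Fin (dm T), A (ec T (Pi.single l 1)) = 0 := by
    intro l
    have e := h ⟨2 * l.1, by have := l.2; omega⟩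
    have e2 : frame (dm T) ⟨2 * l.1, by have := l.2; omega⟩ = Pi.single l 1 := by
      unfold frame
      rw [if_pos (by show 2 * l.1 % 2 = 0; omega)]
      congr 1
      exact Fin.ext (by show 2 * l.1 / 2 = l.1; omega)
    rwa [e2] at e
  have h2 : ∀ l : Fin (dm T), A (ec T (Pi.single l Complex.I)) = 0 := by
    intro l
    have e := h ⟨2 * l.1 + 1, by have := l.2; omega⟩
    have e2 : frame (dm T) ⟨2 * l.1 + 1, by have := l.2; omega⟩ = Pi.single l Complex.I := by
      unfold frame
      rw [if_neg (by show ¬ (2 * l.1 + 1) % 2 = 0; omega)]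
      congr 1
      exact Fin.ext (by show (2 * l.1 + 1) / 2 = l.1; omega)
    rwa [e2] at e
  have h3 : ∀ z : Fin (dm T) → ℂ, A (ec T z) = 0 := by
    intro z
    have ez : z = ∑ l, ((z l).re • (Pi.single l (1 : ℂ) : Fin (dm T) → ℂ) +
        (z l).im • (Pi.single l Complex.I : Fin (dm T) → ℂ)) := by
      funext k
      rw [Finset.sum_apply, Finset.sum_eq_single k]
      · simp
      · intro l _ hl
        simp [Pi.single_apply, hl.symm]
      · intro h
        exact absurd (Finset.mem_univ k) h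
    set B : (Fin (dm T) → ℂ) →ₗ[ℝ] ℂ := A ∘ₗ ((ec T).toLinearEquiv.toLinearMap.restrictScalars ℝ) with hB
    change B z = 0
    rw [ez, map_sum]
    refine Finset.sum_eq_zero fun l _ => ?_
    rw [map_add, map_smul, map_smul]
    have e1 : B (Pi.single l 1) = 0 := h1 l
    have e2 : B (Pi.single l Complex.I) = 0 := h2 l
    rw [e1, e2, smul_zero, smul_zero, add_zero]
  ext v
  have := h3 ((ec T).symm v)
  rwa [ContinuousLinearEquiv.apply_symm_apply] at this

theorem frame_span (T : AV) (v : T.V) :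
    ∃ x : Fin (2 * dm T) → ℝ, v = ∑ j, x j • ec T (frame (dm T) j) := by
  have h : Submodule.span ℝ (Set.range fun j => ec T (frame (dm T) j)) = ⊤ := by
    by_contra hne
    obtain ⟨f, hf0, hf⟩ := Submodule.exists_le_ker_of_lt_top _ (lt_top_iff_ne_top.2 hne)
    apply hf0
    have h1 := frame_zero T ((Complex.ofRealCLM : ℝ →L[ℝ] ℂ).toLinearMap ∘ₗ f) (fun j => by
      have h2 : f (ec T (frame (dm T) j)) = 0 := hf (Submodule.subset_span ⟨j, rfl⟩)
      simp [h2])
    ext w
    have h3 := congrArg (fun A : T.V →ₗ[ℝ] ℂ => A w) h1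
    simpa using h3
  have hv : v ∈ Submodule.span ℝ (Set.range fun j => ec T (frame (dm T) j)) := by
    rw [h]
    trivial
  obtain ⟨x, hx⟩ := (Submodule.mem_span_range_iff_exists_fun ℝ).1 hv
  exact ⟨x, hx.symm⟩

/-- all classes of top degree are algebraic -/
theorem alg_dcl (T : AV) (n : ℕ) (hn : n = 2 * dm T) (v : Fin n → T.V) : Alg T n (dcl T v) := by
  subst hn
  choose x hx using fun j => frame_span T (v j)
  have h : dcl T v = ((Matrix.of fun i j => (x j i : ℂ)).det : ℂ) •
      dcl T (fun j => ec T (frame (dm T) j)) := by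
    ext a
    have e : (Matrix.of fun i j => a i (v j)) =
        (Matrix.of fun i j => a i (ec T (frame (dm T) j))) * (Matrix.of fun i j => (x j i : ℂ)) := by
      ext i j
      rw [Matrix.of_apply, Matrix.mul_apply, hx j, map_sum]
      refine Finset.sum_congr rfl fun k _ => ?_
      rw [map_smul, Matrix.of_apply, Matrix.of_apply, Complex.real_smul, mul_comm]
    rw [AlternatingMap.smul_apply, dcl_apply, dcl_apply, smul_eq_mul, e, Matrix.det_mul]
    exact mul_comm _ _
  rw [h]
  exact Alg.smul _ (fund_class T)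

theorem alg_dl {E : AV} (h1 : Module.finrank ℂ E.V = 1) (b : Module.Basis (Fin 2) ℝ E.V) :
    Alg E 2 (dl b) := by
  have h := alg_dcl E 2 (by rw [dm, h1]) (fun j => b j)
  exact h

theorem alg_sub {T : AV} {m : ℕ} {c d : Hlg T m} (hc : Alg T m c) (hd : Alg T m d) :
    Alg T m (c - d) := by
  have h := Alg.add hc (Alg.smul (-1) hd)
  rwa [neg_one_smul, ← sub_eq_add_neg] at h

theorem inc_mem {E T : AV} {k : ℕ} (ψ : T.V ≃ₗ[ℂ] (Fin k → E.V))
    (hL : ∀ v, v ∈ T.L ↔ ∀ l, ψ v l ∈ E.L) (s : Fin k → ℕ) : ∀ x ∈ E.L, inc ψ s x ∈ T.L := by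
  intro x hx
  rw [hL]
  intro l
  have e : ψ (inc ψ s x) l = (s l : ℂ) • x := by
    unfold inc
    rw [LinearMap.comp_apply, LinearEquiv.coe_coe, LinearEquiv.apply_symm_apply]
    rfl
  rw [e, Nat.cast_smul_eq_nsmul]
  exact E.L.smul_of_tower_mem _ hx

end OmAux

open OmAux in
theorem pOm : S_Om := by
  intro E T k b ψ h1 hL p q
  unfold om
  exact alg_sub (alg_sub (Alg.push _ (inc_mem ψ hL _) (alg_dl h1 b))
    (Alg.push _ (inc_mem ψ hL _) (alg_dl h1 b))) (Alg.push _ (inc_mem ψ hL _) (alg_dl h1 b))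

end HC
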