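import Pool.Agent.Lib.HC.L.E.SpecL
import Pool.Agent.Lib.HC.B.Pt

/-!
PROJECT HC+, part 3 (helper14): classes of degree 0 and 1.
-/

set_option autoImplicit false

noncomputable section

namespace HC

theorem pPt : S_Pt := by
  refine ⟨alg_zero_deg, fun T c hc => ?_⟩
  have h := hc.2 (-1) (by simp)
  have h1 : push (T' := T) ((-1 : ℂ) • (LinearMap.id : T.V →ₗ[ℂ] T.V)) c = -c := by
    have h2 := push_rsmul (T := T) (T' := T) (-1) LinearMap.id c
    rw [push_id] at h2
    simpa using h2
  rw [h1] at h
  have h3 : (2 : ℂ) • c = 0 := by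
    rw [two_smul]
    nth_rewrite 1 [← h]
    exact neg_add_cancel c
  exact (smul_eq_zero.1 h3).resolve_left two_ne_zero

end HC
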