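import Pool.Agent.Lib.HC.L.E.Gour

/-!
# PROJECT HC+, part 3: Lie subalgebras of `∏ sl₂(K)` (pure algebra, any field of characteristic 0)

* `ribet`: all projections onto, no intertwiners: everything.
* `sl4`: one factor of a product (statement `S_Sl4` of `SpecL`).
-/

set_option autoImplicit false

open Matrix

noncomputable section

namespace HC.Rib

open HC.Gour (anti sq_traceless)

/-- `2 × 2` matrices. -/
abbrev M2 (K : Type*) : Type _ := Matrix (Fin 2) (Fin 2) K

variable {K : Type} [Field K] [CharZero K]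


/-- `E`. -/
def mE : M2 K := !![0, 1; 0, 0]

/-- `H`. -/
def mH : M2 K := !![1, 0; 0, -1]

/-- `F`. -/
def mF : M2 K := !![0, 0; 1, 0]

theorem E00 : (mE : M2 K) 0 0 = 0 := rfl
theorem E01 : (mE : M2 K) 0 1 = 1 := rfl
theorem E10 : (mE : M2 K) 1 0 = 0 := rfl
theorem E11 : (mE : M2 K) 1 1 = 0 := rfl
theorem H00 : (mH : M2 K) 0 0 = 1 := rfl
theorem H01 : (mH : M2 K) 0 1 = 0 := rfl
theorem H10 : (mH : M2 K) 1 0 = 0 := rfl
theorem H11 : (mH : M2 K) 1 1 = -1 := rfl
theorem F00 : (mF : M2 K) 0 0 = 0 := rfl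
theorem F01 : (mF : M2 K) 0 1 = 0 := rfl
theorem F10 : (mF : M2 K) 1 0 = 1 := rfl
theorem F11 : (mF : M2 K) 1 1 = 0 := rfl

/-- Comparison of the four entries. -/
theorem ext4 {a b : M2 K} (h00 : a 0 0 = b 0 0) (h01 : a 0 1 = b 0 1) (h10 : a 1 0 = b 1 0)
    (h11 : a 1 1 = b 1 1) : a = b := by
  ext i j
  fin_cases i <;> fin_cases j
  · exact h00
  · exact h01
  · exact h10
  · exact h11

theorem expand {x : M2 K} (hx : x.trace = 0) : x = x 0 1 • mE + x 0 0 • mH + x 1 0 • mF := by
  rw [trace_fin_two] at hx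
  have h : x 1 1 = -x 0 0 := by linear_combination hx
  ext i j
  fin_cases i <;> fin_cases j <;> simp [mE, mH, mF, h]

theorem tr_E : (mE : M2 K).trace = 0 := by simp [mE, trace_fin_two]

theorem tr_H : (mH : M2 K).trace = 0 := by simp [mH, trace_fin_two]

theorem tr_F : (mF : M2 K).trace = 0 := by simp [mF, trace_fin_two]

theorem tr_br {K : Type*} [Field K] (a b : Matrix (Fin 2) (Fin 2) K) : (a * b - b * a).trace = 0 := by
  rw [trace_sub, trace_mul_comm, sub_self]

/-- A nonzero ideal of `sl₂(K)`. -/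
theorem ideal (W : Submodule K (M2 K)) (hW : ∀ x : M2 K, x.trace = 0 → ∀ w ∈ W, x * w - w * x ∈ W) {w : M2 K}
    (hw : w ∈ W) (hwt : w.trace = 0) (h0 : w ≠ 0) {x : M2 K} (hx : x.trace = 0) : x ∈ W := by
  have hE : mE ∈ W := by
    have h1 := hW mE tr_E w hw
    have h2 := hW mE tr_E _ h1
    have e1 : mE * w - w * mE = (-2 * w 0 0) • mE + w 1 0 • mH := by
      rw [trace_fin_two] at hwt
      have h : w 1 1 = -w 0 0 := by linear_combination hwt
      apply ext4 <;> simp only [Matrix.sub_apply, Matrix.mul_apply, Fin.sum_univ_two, Matrix.add_apply,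
        Matrix.smul_apply, smul_eq_mul, E00, E01, E10, E11, H00, H01, H10, H11, h] <;> ring
    have e2 : mE * (mE * w - w * mE) - (mE * w - w * mE) * mE = (-2 * w 1 0) • mE := by
      rw [e1]
      apply ext4 <;> simp only [Matrix.sub_apply, Matrix.mul_apply, Fin.sum_univ_two, Matrix.add_apply,
        Matrix.smul_apply, smul_eq_mul, E00, E01, E10, E11, H00, H01, H10, H11] <;> ring
    rw [e2] at h2
    rw [e1] at h1
    by_cases hs : w 1 0 = 0
    · by_cases hq : w 0 0 = 0
      · have h3 := expand hwt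
        rw [hs, hq, zero_smul, zero_smul, add_zero, add_zero] at h3
        have h4 : w 0 1 ≠ 0 := by
          intro h5
          rw [h5, zero_smul] at h3
          exact h0 h3
        rw [h3] at hw
        exact (W.smul_mem_iff h4).1 hw
      · rw [hs, zero_smul, add_zero] at h1
        exact (W.smul_mem_iff (mul_ne_zero (by norm_num) hq)).1 h1
    · exact (W.smul_mem_iff (mul_ne_zero (by norm_num) hs)).1 h2
  have hH : mH ∈ W := by
    have h1 := hW mF tr_F mE hE
    have e1 : (mF : M2 K) * mE - mE * mF = (-1 : K) • mH := by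
      apply ext4 <;> simp only [Matrix.sub_apply, Matrix.mul_apply, Fin.sum_univ_two,
        Matrix.smul_apply, smul_eq_mul, E00, E01, E10, E11, H00, H01, H10, H11, F00, F01, F10, F11] <;> ring
    rw [e1] at h1
    exact (W.smul_mem_iff (by norm_num)).1 h1
  have hF : mF ∈ W := by
    have h1 := hW mF tr_F mH hH
    have e1 : (mF : M2 K) * mH - mH * mF = (2 : K) • mF := by
      apply ext4 <;> simp only [Matrix.sub_apply, Matrix.mul_apply, Fin.sum_univ_two,
        Matrix.smul_apply, smul_eq_mul, E00, E01, E10, E11, H00, H01, H10, H11, F00, F01, F10, F11] <;> ring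
    rw [e1] at h1
    exact (W.smul_mem_iff (by norm_num)).1 h1
  rw [expand hx]
  exact W.add_mem (W.add_mem (W.smul_mem _ hE) (W.smul_mem _ hH)) (W.smul_mem _ hF)

/-- The intertwiner of two copies of `sl₂`. -/
theorem inter {E H F : M2 K} (hE : E.trace = 0) (hH : H.trace = 0) (hF : F.trace = 0)
    (h1 : H * E - E * H = (2 : K) • E) (h2 : H * F - F * H = (-2 : K) • F) (h3 : E * F - F * E = H)
    (h0 : E ≠ 0) : ∃ X : M2 K, X ≠ 0 ∧ X * mE = E * X ∧ X * mH = H * X ∧ X * mF = F * X := by
  have tEH : (E * H).trace = 0 := by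
    rw [← h3, mul_sub, trace_sub, ← mul_assoc, ← mul_assoc, trace_mul_comm (E * F) E, ← mul_assoc, sub_self]
  have tFH : (F * H).trace = 0 := by
    rw [← h3, mul_sub, trace_sub, ← mul_assoc, ← mul_assoc, trace_mul_comm (F * E) F, ← mul_assoc, sub_self]
  have hEE : E * E = 0 := by
    have h4 := anti hE hE
    have h5 : (2 : K) • (E * E) = E * (H * E - E * H) := by rw [h1, mul_smul_comm]
    have h6 : (2 : K) * (E * E).trace = 0 := by
      have h7 := congrArg trace h5
      rw [trace_smul, smul_eq_mul, mul_sub, trace_sub, ← mul_assoc, ← mul_assoc,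
        trace_mul_comm (E * H) E, ← mul_assoc, sub_self] at h7
      exact h7
    have h8 : (E * E).trace = 0 := (mul_eq_zero.1 h6).resolve_left (by norm_num)
    rw [h8, zero_smul, ← two_smul K (E * E)] at h4
    exact (smul_eq_zero.1 h4).resolve_left (by norm_num)
  have hFF : F * F = 0 := by
    have h4 := anti hF hF
    have h5 : (-2 : K) • (F * F) = F * (H * F - F * H) := by rw [h2, mul_smul_comm]
    have h6 : (-2 : K) * (F * F).trace = 0 := by
      have h7 := congrArg trace h5
      rw [trace_smul, smul_eq_mul, mul_sub, trace_sub, ← mul_assoc, ← mul_assoc,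
        trace_mul_comm (F * H) F, ← mul_assoc, sub_self] at h7
      exact h7
    have h8 : (F * F).trace = 0 := (mul_eq_zero.1 h6).resolve_left (by norm_num)
    rw [h8, zero_smul, ← two_smul K (F * F)] at h4
    exact (smul_eq_zero.1 h4).resolve_left (by norm_num)
  have hEH : E * H = -E := by
    have h4 := anti hE hH
    rw [tEH, zero_smul] at h4
    have h5 : (2 : K) • (E * H) = (-2 : K) • E := by
      rw [two_smul, neg_smul, ← h1]
      have h6 : H * E = -(E * H) := eq_neg_of_add_eq_zero_right h4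
      rw [h6]
      abel
    have h7 : (2 : K) • (E * H + E) = 0 := by
      rw [smul_add, h5, ← add_smul]
      norm_num
    exact eq_neg_of_add_eq_zero_left ((smul_eq_zero.1 h7).resolve_left (by norm_num))
  have hHF : H * F = -F := by
    have h4 := anti hF hH
    rw [tFH, zero_smul] at h4
    have h6 : F * H = -(H * F) := eq_neg_of_add_eq_zero_left h4
    have h5 : (2 : K) • (H * F) = (-2 : K) • F := by
      rw [← h2, h6, two_smul]
      abel
    have h7 : (2 : K) • (H * F + F) = 0 := by
      rw [smul_add, h5, ← add_smul]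
      norm_num
    exact eq_neg_of_add_eq_zero_left ((smul_eq_zero.1 h7).resolve_left (by norm_num))
  have hFH : F * H = F := by
    have h4 := anti hF hH
    rw [tFH, zero_smul, hHF] at h4
    have := eq_neg_of_add_eq_zero_left h4
    rw [this, neg_neg]
  have hEF : E * F + F * E = 1 := by
    have h4 := anti hE hF
    set τ := (E * F).trace
    have h5 : E * (E * F + F * E) = τ • E := by rw [h4, mul_smul_comm, mul_one]
    have h6 : E * H = E * (E * F - F * E) := by rw [h3]
    rw [mul_add, ← mul_assoc, hEE, zero_mul, zero_add] at h5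
    rw [mul_sub, ← mul_assoc, hEE, zero_mul, zero_sub, h5, hEH, neg_inj] at h6
    have h7 : (τ - 1) • E = 0 := by rw [sub_smul, one_smul, ← h6, sub_self]
    have h8 : τ - 1 = 0 := (smul_eq_zero.1 h7).resolve_right h0
    rw [h4, sub_eq_zero.1 h8, one_smul]
  have hHH : H * H = 1 := by
    calc H * H = (E * F - F * E) * H := by rw [h3]
      _ = E * (F * H) - F * (E * H) := by rw [sub_mul, mul_assoc, mul_assoc]
      _ = 1 := by rw [hFH, hEH, mul_neg, sub_neg_eq_add, hEF]
  have hE1 : E * (1 + H) = 0 := by rw [mul_add, mul_one, hEH, add_neg_cancel]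
  have hH1 : H * (1 + H) = 1 + H := by rw [mul_add, mul_one, hHH, add_comm]
  have hF1 : F * (1 + H) = (2 : K) • F := by rw [mul_add, mul_one, hFH, two_smul]
  have hEF2 : (2 : K) • (E * F) = 1 + H := by
    rw [two_smul, ← hEF, ← h3]
    abel
  set e : M2 K := !![1, 0; 0, 0] with he
  have e00 : e 0 0 = 1 := rfl
  have e01 : e 0 1 = 0 := rfl
  have e10 : e 1 0 = 0 := rfl
  have e11 : e 1 1 = 0 := rfl
  have m1 : e * mE = mE := by
    apply ext4 <;> simp only [Matrix.mul_apply, Fin.sum_univ_two, E00, E01, E10, E11, e00, e01, e10, e11] <;> ring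
  have m2 : (mE : M2 K) * mE = 0 := by
    apply ext4 <;> simp only [Matrix.mul_apply, Fin.sum_univ_two, E00, E01, E10, E11, Matrix.zero_apply] <;> ring
  have m3 : e * mH = e := by
    apply ext4 <;> simp only [Matrix.mul_apply, Fin.sum_univ_two, H00, H01, H10, H11, e00, e01, e10, e11] <;> ring
  have m4 : (mE : M2 K) * mH = -mE := by
    apply ext4 <;> simp only [Matrix.mul_apply, Fin.sum_univ_two, E00, E01, E10, E11, H00, H01, H10, H11,
      Matrix.neg_apply] <;> ring
  have m5 : e * mF = 0 := by
    apply ext4 <;> simp only [Matrix.mul_apply, Fin.sum_univ_two, F00, F01, F10, F11, e00, e01, e10, e11,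
      Matrix.zero_apply] <;> ring
  have m6 : (mE : M2 K) * mF = e := by
    apply ext4 <;> simp only [Matrix.mul_apply, Fin.sum_univ_two, F00, F01, F10, F11, E00, E01, E10, E11,
      e00, e01, e10, e11] <;> ring
  -- the intertwiner
  have key : ∀ m : M2 K, let X := (1 + H) * (m * e) + (2 : K) • (F * (m * mE))
      X * mE = E * X ∧ X * mH = H * X ∧ X * mF = F * X := by
    intro m
    refine ⟨?_, ?_, ?_⟩
    · rw [add_mul, mul_add, mul_assoc, mul_assoc m, m1, smul_mul_assoc, mul_assoc F, mul_assoc m, m2, mul_zero,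
        mul_zero, smul_zero, add_zero, ← mul_assoc E, hE1, zero_mul, zero_add, mul_smul_comm, ← mul_assoc E,
        ← smul_mul_assoc, hEF2]
    · rw [add_mul, mul_add, mul_assoc, mul_assoc m, m3, smul_mul_assoc, mul_assoc F, mul_assoc m, m4,
        ← mul_assoc H, hH1, mul_smul_comm, ← mul_assoc H, hHF, mul_neg, mul_neg, neg_mul]
    · rw [add_mul, mul_add, mul_assoc, mul_assoc m, m5, smul_mul_assoc, mul_assoc F, mul_assoc m, m6,
        mul_zero, mul_zero, zero_add, ← mul_assoc F (1 + H), hF1, mul_smul_comm, ← mul_assoc F F, hFF, zero_mul,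
        smul_zero, add_zero, smul_mul_assoc]
  by_contra hcon
  push Not at hcon
  have hz : ∀ m : M2 K, (1 + H) * (m * e) + (2 : K) • (F * (m * mE)) = 0 := by
    intro m
    by_contra h
    obtain ⟨k1, k2, k3⟩ := key m
    exact hcon _ h k1 k2 k3
  have hz2 : ∀ m : M2 K, (1 + H) * (m * e) = 0 := by
    intro m
    have h4 : ((1 + H) * (m * e) + (2 : K) • (F * (m * mE))) * e = 0 := by rw [hz m, zero_mul]
    rw [add_mul, smul_mul_assoc] at h4
    have m7 : e * e = e := by
      apply ext4 <;> simp only [Matrix.mul_apply, Fin.sum_univ_two, e00, e01, e10, e11] <;> ring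
    have m8 : mE * e = 0 := by
      apply ext4 <;> simp only [Matrix.mul_apply, Fin.sum_univ_two, e00, e01, e10, e11, E00, E01, E10, E11,
        Matrix.zero_apply] <;> ring
    rw [mul_assoc, mul_assoc m, m7, mul_assoc F, mul_assoc m, m8, mul_zero, mul_zero, smul_zero, add_zero] at h4
    exact h4
  have h5 : (1 + H : M2 K) = 0 := by
    have h6 := hz2 1
    have h7 := hz2 mF
    rw [one_mul] at h6
    have m9 : mF * e = mF := by
      apply ext4 <;> simp only [Matrix.mul_apply, Fin.sum_univ_two, e00, e01, e10, e11, F00, F01, F10, F11] <;> ring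
    rw [m9] at h7
    have m10 : e + (mF : M2 K) * mE = 1 := by
      apply ext4 <;> simp only [Matrix.mul_apply, Fin.sum_univ_two, e00, e01, e10, e11, F00, F01, F10, F11,
        E00, E01, E10, E11, Matrix.add_apply, Matrix.one_apply_eq] <;> norm_num
    calc (1 + H : M2 K) = (1 + H) * (e + mF * mE) := by rw [m10, mul_one]
      _ = (1 + H) * e + ((1 + H) * mF) * mE := by rw [mul_add, mul_assoc]
      _ = 0 := by rw [h6, h7, zero_mul, add_zero]
  have h6 := congrArg trace h5
  rw [trace_add, hH] at h6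
  simp at h6


section

variable {r : Type} [Fintype r] [DecidableEq r]

/-- The trace pairing. -/
def tp (z a : r → M2 K) : K := ∑ i, (z i * a i).trace

/-- DUALITY: a proper subspace of the traceless tuples has a nonzero annihilator. -/
theorem dual (g : Submodule K (r → M2 K)) {x : r → M2 K} (hx : ∀ i, (x i).trace = 0) (hxg : x ∉ g) :
    ∃ z : r → M2 K, (∀ i, (z i).trace = 0) ∧ (∀ a ∈ g, (∀ i, (a i).trace = 0) → tp z a = 0) ∧ tp z x ≠ 0 := by
  obtain ⟨f, hfx, hfg⟩ := Submodule.exists_dual_map_eq_bot_of_notMem hxg inferInstance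
  have hf0 : ∀ a ∈ g, f a = 0 := by
    intro a ha
    have h1 : f a ∈ g.map f := Submodule.mem_map_of_mem ha
    rw [hfg] at h1
    exact (Submodule.mem_bot K).1 h1
  -- the matrices of the functional
  let c : r → M2 K := fun i => Matrix.of fun l k => f (Pi.single i (Matrix.single k l 1))
  have hc : ∀ a : r → M2 K, f a = tp c a := by
    intro a
    have h1 : a = ∑ i, ∑ k, ∑ l, a i k l • (Pi.single i (Matrix.single k l (1 : K)) : r → M2 K) := by
      funext j
      rw [Finset.sum_apply, Finset.sum_eq_single j]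
      · simp only [Finset.sum_apply, Pi.smul_apply, Pi.single_eq_same]
        conv_lhs => rw [Matrix.matrix_eq_sum_single (a j)]
        refine Finset.sum_congr rfl fun k _ => Finset.sum_congr rfl fun l _ => ?_
        rw [Matrix.smul_single, smul_eq_mul, mul_one]
      · intro i _ hij
        simp only [Finset.sum_apply, Pi.smul_apply, Pi.single_eq_of_ne hij.symm, smul_zero, Finset.sum_const_zero]
      · intro h
        exact absurd (Finset.mem_univ j) h
    conv_lhs => rw [h1]
    simp only [map_sum, map_smul, smul_eq_mul]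
    unfold tp
    refine Finset.sum_congr rfl fun i _ => ?_
    rw [Matrix.trace, Finset.sum_comm]
    refine Finset.sum_congr rfl fun l _ => ?_
    rw [Matrix.diag_apply, Matrix.mul_apply]
    refine Finset.sum_congr rfl fun k _ => ?_
    rw [mul_comm]
    rfl
  refine ⟨fun i => c i - ((c i).trace / 2) • 1, ?_, ?_, ?_⟩
  · intro i
    rw [trace_sub, trace_smul, trace_one]
    simp
  · intro a ha hat
    rw [← hf0 a ha, hc a]
    unfold tp
    refine Finset.sum_congr rfl fun i _ => ?_
    rw [sub_mul, trace_sub, smul_mul_assoc, one_mul, trace_smul, hat i, smul_zero, sub_zero]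
  · have h2 : tp (fun i => c i - ((c i).trace / 2) • 1) x = f x := by
      rw [hc x]
      unfold tp
      refine Finset.sum_congr rfl fun i _ => ?_
      rw [sub_mul, trace_sub, smul_mul_assoc, one_mul, trace_smul, hx i, smul_zero, sub_zero]
    rw [h2]
    exact hfx

/-- The annihilator. -/
def ann (g : Submodule K (r → M2 K)) : Submodule K (r → M2 K) where
  carrier := {z | (∀ i, (z i).trace = 0) ∧ ∀ a ∈ g, tp z a = 0}
  zero_mem' := ⟨fun i => trace_zero _ _, fun a _ => by simp [tp]⟩
  add_mem' := by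
    rintro z w ⟨hz, hz'⟩ ⟨hw, hw'⟩
    refine ⟨fun i => ?_, fun a ha => ?_⟩
    · rw [Pi.add_apply, trace_add, hz, hw, add_zero]
    · have h : tp (z + w) a = tp z a + tp w a := by
        unfold tp
        rw [← Finset.sum_add_distrib]
        refine Finset.sum_congr rfl fun i _ => ?_
        rw [Pi.add_apply, add_mul, trace_add]
      rw [h, hz' a ha, hw' a ha, add_zero]
  smul_mem' := by
    rintro q z ⟨hz, hz'⟩
    refine ⟨fun i => ?_, fun a ha => ?_⟩
    · rw [Pi.smul_apply, trace_smul, hz, smul_zero]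
    · have h : tp (q • z) a = q * tp z a := by
        unfold tp
        rw [Finset.mul_sum]
        refine Finset.sum_congr rfl fun i _ => ?_
        rw [Pi.smul_apply, smul_mul_assoc, trace_smul, smul_eq_mul]
      rw [h, hz' a ha, mul_zero]

theorem ann_br {g : Submodule K (r → M2 K)} (hg : ∀ x ∈ g, ∀ y ∈ g, x * y - y * x ∈ g) {z b : r → M2 K}
    (hz : z ∈ ann g) (hb : b ∈ g) : b * z - z * b ∈ ann g := by
  refine ⟨fun i => tr_br _ _, fun a ha => ?_⟩
  rw [← hz.2 _ (hg a ha b hb)]
  unfold tp
  refine Finset.sum_congr rfl fun i _ => ?_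
  show ((b i * z i - z i * b i) * a i).trace = (z i * (a i * b i - b i * a i)).trace
  rw [sub_mul, mul_sub, trace_sub, trace_sub, mul_assoc, trace_mul_comm (b i), mul_assoc, mul_assoc]

theorem eq_zero_of_tr {z : M2 K} (hz : z.trace = 0) (h : ∀ x : M2 K, x.trace = 0 → (z * x).trace = 0) : z = 0 := by
  have h1 := h mE tr_E
  have h2 := h mF tr_F
  have h3 := h mH tr_H
  rw [trace_fin_two] at hz h1 h2 h3
  simp only [Matrix.mul_apply, Fin.sum_univ_two, E00, E01, E10, E11, H00, H01, H10, H11, F00, F01, F10, F11] at h1 h2 h3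
  apply ext4
  · show z 0 0 = 0
    have h4 : (2 : K) * z 0 0 = 0 := by linear_combination h3 + hz
    exact (mul_eq_zero.1 h4).resolve_left (by norm_num)
  · show z 0 1 = 0
    linear_combination h2
  · show z 1 0 = 0
    linear_combination h1
  · show z 1 1 = 0
    have h4 : (2 : K) * z 1 1 = 0 := by linear_combination hz - h3
    exact (mul_eq_zero.1 h4).resolve_left (by norm_num)

theorem eq_zero_of_comm {z : M2 K} (hz : z.trace = 0) (h : ∀ x : M2 K, x.trace = 0 → z * x - x * z = 0) : z = 0 := by
  have h1 := h mE tr_E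
  have h2 := h mF tr_F
  rw [trace_fin_two] at hz
  have a1 := congrFun (congrFun h1 0) 0
  have a2 := congrFun (congrFun h1 0) 1
  have a3 := congrFun (congrFun h2 0) 0
  simp only [Matrix.sub_apply, Matrix.mul_apply, Fin.sum_univ_two, E00, E01, E10, E11, F00, F01, F10, F11,
    Matrix.zero_apply] at a1 a2 a3
  apply ext4
  · show z 0 0 = 0
    have h4 : (2 : K) * z 0 0 = 0 := by linear_combination a2 + hz
    exact (mul_eq_zero.1 h4).resolve_left (by norm_num)
  · show z 0 1 = 0
    linear_combination a3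
  · show z 1 0 = 0
    linear_combination -a1
  · show z 1 1 = 0
    have h4 : (2 : K) * z 1 1 = 0 := by linear_combination hz - a2
    exact (mul_eq_zero.1 h4).resolve_left (by norm_num)

/-- **RIBET.** -/
theorem ribet (g : Submodule K (r → M2 K)) (hgt : ∀ a ∈ g, ∀ i, (a i).trace = 0)
    (hg : ∀ x ∈ g, ∀ y ∈ g, x * y - y * x ∈ g)
    (hα : ∀ i, ∀ x : M2 K, x.trace = 0 → ∃ a ∈ g, a i = x)
    (his : ∀ i j, i ≠ j → ∀ X : M2 K, (∀ a ∈ g, X * a i = a j * X) → X = 0) :
    ∀ x : r → M2 K, (∀ i, (x i).trace = 0) → x ∈ g := by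
  classical
  intro x hx
  by_contra hxg
  obtain ⟨z1, hz1t, hz1, hz1x⟩ := dual g hx hxg
  have hz1Z : z1 ∈ ann g := ⟨hz1t, fun a ha => hz1 a ha (hgt a ha)⟩
  have hz10 : z1 ≠ 0 := by
    rintro rfl
    apply hz1x
    simp [tp]
  -- minimal support
  let supp : (r → M2 K) → Finset r := fun z => Finset.univ.filter fun i => z i ≠ 0
  have hP : ∃ n, ∃ z ∈ ann g, z ≠ 0 ∧ (supp z).card = n := ⟨_, z1, hz1Z, hz10, rfl⟩
  obtain ⟨z0, hz0, hz00, hcard⟩ := Nat.find_spec hP
  have hmin : ∀ z ∈ ann g, z ≠ 0 → (supp z0).card ≤ (supp z).card := by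
    intro z hz hz'
    rw [hcard]
    exact Nat.find_min' hP ⟨z, hz, hz', rfl⟩
  have hinj : ∀ z ∈ ann g, (∀ k, z0 k = 0 → z k = 0) → ∀ i, z0 i ≠ 0 → z i = 0 → z = 0 := by
    intro z hz hzk i hi hzi
    by_contra hz'
    have h1 : supp z ⊂ supp z0 := by
      refine Finset.ssubset_iff_subset_ne.2 ⟨?_, ?_⟩
      · intro k hk
        rw [Finset.mem_filter] at hk ⊢
        exact ⟨Finset.mem_univ _, fun h => hk.2 (hzk k h)⟩
      · intro h
        have h2 : i ∈ supp z0 := Finset.mem_filter.2 ⟨Finset.mem_univ _, hi⟩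
        rw [← h] at h2
        exact (Finset.mem_filter.1 h2).2 hzi
    exact absurd (hmin z hz hz') (not_le.2 (Finset.card_lt_card h1))
  obtain ⟨i, hi⟩ : ∃ i, z0 i ≠ 0 := by
    by_contra h
    push Not at h
    exact hz00 (funext h)
  -- (δ)
  have hδ : ∀ i j, z0 i ≠ 0 → z0 j ≠ 0 → ∀ a ∈ g, a i = 0 → a j = 0 := by
    intro i j hi hj a ha hai
    let ZI : Submodule K (r → M2 K) :=
      { carrier := {z | z ∈ ann g ∧ ∀ k, z0 k = 0 → z k = 0}
        zero_mem' := ⟨(ann g).zero_mem, fun k _ => rfl⟩
        add_mem' := by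
          rintro z w ⟨hz, hz'⟩ ⟨hw, hw'⟩
          exact ⟨(ann g).add_mem hz hw, fun k hk => by rw [Pi.add_apply, hz' k hk, hw' k hk, add_zero]⟩
        smul_mem' := by
          rintro q z ⟨hz, hz'⟩
          exact ⟨(ann g).smul_mem q hz, fun k hk => by rw [Pi.smul_apply, hz' k hk, smul_zero]⟩ }
    have hbr : ∀ z ∈ ZI, ∀ b ∈ g, b * z - z * b ∈ ZI := by
      intro z hz b hb
      refine ⟨ann_br hg hz.1 hb, fun k hk => ?_⟩
      show b k * z k - z k * b k = 0
      rw [hz.2 k hk, mul_zero, zero_mul, sub_zero]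
    have hW : ∀ w : M2 K, w.trace = 0 → w ∈ ZI.map (LinearMap.proj j) := by
      intro w hw
      refine ideal (ZI.map (LinearMap.proj j)) ?_ (w := z0 j) ⟨z0, ⟨hz0, fun k hk => hk⟩, rfl⟩ (hz0.1 j) hj hw
      rintro x hx _ ⟨z, hz, rfl⟩
      obtain ⟨b, hb, hbx⟩ := hα j x hx
      refine ⟨b * z - z * b, hbr z hz b hb, ?_⟩
      show b j * z j - z j * b j = x * z j - z j * x
      rw [hbx]
    apply eq_zero_of_comm (hgt a ha j)
    intro w hw
    obtain ⟨z, hz, hzw⟩ := hW w hw
    have hzw' : z j = w := hzw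
    have h1 : a * z - z * a = 0 := by
      refine hinj _ (hbr z hz a ha).1 (hbr z hz a ha).2 i hi ?_
      show a i * z i - z i * a i = 0
      rw [hai, zero_mul, mul_zero, sub_zero]
    have h2 := congrFun h1 j
    rw [← hzw']
    exact h2
  by_cases hone : ∀ j, j ≠ i → z0 j = 0
  · -- (γ)
    apply hi
    apply eq_zero_of_tr (hz0.1 i)
    intro y hy
    obtain ⟨a, ha, hay⟩ := hα i y hy
    rw [← hay, ← hz0.2 a ha]
    unfold tp
    rw [Finset.sum_eq_single i]
    · intro j _ hj
      rw [hone j hj, zero_mul, trace_zero]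
    · intro h
      exact absurd (Finset.mem_univ i) h
  · -- (ε)
    push Not at hone
    obtain ⟨j, hji, hj⟩ := hone
    obtain ⟨e, he, hei⟩ := hα i mE tr_E
    obtain ⟨h, hh, hhi⟩ := hα i mH tr_H
    obtain ⟨f, hf, hfi⟩ := hα i mF tr_F
    have hrel : ∀ a ∈ g, ∀ b ∈ g, a i = b i → a j = b j := by
      intro a ha b hb hab
      have h1 := hδ i j hi hj (a - b) (g.sub_mem ha hb) (by rw [Pi.sub_apply, hab, sub_self])
      rw [Pi.sub_apply] at h1
      exact sub_eq_zero.1 h1
    have r1 : h j * e j - e j * h j = (2 : K) • e j := by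
      refine hrel (h * e - e * h) (hg h hh e he) ((2 : K) • e) (g.smul_mem 2 he) ?_
      show h i * e i - e i * h i = (2 : K) • e i
      rw [hhi, hei]
      apply ext4 <;> simp only [Matrix.sub_apply, Matrix.mul_apply, Fin.sum_univ_two,
        Matrix.smul_apply, smul_eq_mul, E00, E01, E10, E11, H00, H01, H10, H11] <;> norm_num
    have r2 : h j * f j - f j * h j = (-2 : K) • f j := by
      refine hrel (h * f - f * h) (hg h hh f hf) ((-2 : K) • f) (g.smul_mem _ hf) ?_
      show h i * f i - f i * h i = (-2 : K) • f i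
      rw [hhi, hfi]
      apply ext4 <;> simp only [Matrix.sub_apply, Matrix.mul_apply, Fin.sum_univ_two,
        Matrix.smul_apply, smul_eq_mul, F00, F01, F10, F11, H00, H01, H10, H11] <;> norm_num
    have r3 : e j * f j - f j * e j = h j := by
      refine hrel (e * f - f * e) (hg e he f hf) h hh ?_
      show e i * f i - f i * e i = h i
      rw [hhi, hfi, hei]
      apply ext4 <;> simp only [Matrix.sub_apply, Matrix.mul_apply, Fin.sum_univ_two,
        F00, F01, F10, F11, H00, H01, H10, H11, E00, E01, E10, E11] <;> norm_num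
    have hej : e j ≠ 0 := by
      intro h1
      have h2 := hδ j i hj hi e he h1
      rw [hei] at h2
      have h3 := congrFun (congrFun h2 0) 1
      rw [E01] at h3
      simp at h3
    obtain ⟨X, hX0, hXE, hXH, hXF⟩ := inter (hgt e he j) (hgt h hh j) (hgt f hf j) r1 r2 r3 hej
    have hXa : ∀ a ∈ g, X * a i = a j * X := by
      intro a ha
      have h1 := expand (hgt a ha i)
      have h2 : a j = a i 0 1 • e j + a i 0 0 • h j + a i 1 0 • f j := by
        refine hrel a ha (a i 0 1 • e + a i 0 0 • h + a i 1 0 • f)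
          (g.add_mem (g.add_mem (g.smul_mem _ he) (g.smul_mem _ hh)) (g.smul_mem _ hf)) ?_
        show a i = a i 0 1 • e i + a i 0 0 • h i + a i 1 0 • f i
        rw [hei, hhi, hfi]
        exact h1
      rw [h2]
      conv_lhs => rw [h1]
      simp only [mul_add, add_mul, mul_smul_comm, smul_mul_assoc]
      rw [hXE, hXH, hXF]
    exact hX0 (his i j hji.symm X hXa)

theorem smul_eq_zero_two {x : M2 K} (h : (2 : K) • x = 0) : x = 0 :=
  (smul_eq_zero.1 h).resolve_left (by norm_num)

/-- The traceless part of a matrix. -/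
def tc (x : M2 K) : M2 K := x - (x.trace / 2) • 1

theorem tc_trace (x : M2 K) : (tc x).trace = 0 := by
  unfold tc
  rw [trace_sub, trace_smul, trace_one]
  simp

theorem tc_br (x y : M2 K) : tc x * y - y * tc x = x * y - y * x := by
  unfold tc
  simp only [sub_mul, mul_sub, smul_mul_assoc, mul_smul_comm, one_mul, mul_one]
  abel

theorem br_tc (x y : M2 K) : y * tc x - tc x * y = y * x - x * y := by
  unfold tc
  simp only [sub_mul, mul_sub, smul_mul_assoc, mul_smul_comm, one_mul, mul_one]
  abel

theorem tc_id {x : M2 K} (hx : x.trace = 0) : tc x = x := by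
  unfold tc
  rw [hx, zero_div, zero_smul, sub_zero]

/-- **One factor.** `g` is a Lie algebra of tuples, its projection to the factor `o` contains
`sl₂` modulo scalars, and there is no intertwiner from `o` to another factor: then the
commutators contain `sl₂` in the factor `o`. -/
theorem one_factor (g : Submodule K (r → M2 K)) (hg : ∀ x ∈ g, ∀ y ∈ g, x * y - y * x ∈ g) (o : r)
    (hα : ∀ x : M2 K, x.trace = 0 → ∃ a ∈ g, tc (a o) = x)
    (his : ∀ j, j ≠ o → ∀ X : M2 K, (∀ a ∈ g, X * tc (a o) = tc (a j) * X) → X = 0) {Z : M2 K}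
    (hZ : Z.trace = 0) :
    (Pi.single o Z : r → M2 K) ∈ Submodule.span K {z | ∃ a ∈ g, ∃ b ∈ g, z = a * b - b * a} := by
  classical
  set D := Submodule.span K {z : r → M2 K | ∃ a ∈ g, ∃ b ∈ g, z = a * b - b * a} with hD
  have hDg : D ≤ g := by
    refine Submodule.span_le.2 ?_
    rintro _ ⟨a, ha, b, hb, rfl⟩
    exact hg a ha b hb
  have hDt : ∀ d ∈ D, ∀ i, (d i).trace = 0 := by
    intro d hd
    refine Submodule.span_induction (p := fun d _ => ∀ i, (d i).trace = 0) ?_ ?_ ?_ ?_ hd
    · rintro _ ⟨a, _, b, _, rfl⟩ i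
      exact tr_br _ _
    · intro i
      exact trace_zero _ _
    · intro u v _ _ hu hv i
      rw [Pi.add_apply, trace_add, hu, hv, add_zero]
    · intro q u _ hu i
      rw [Pi.smul_apply, trace_smul, hu, smul_zero]
  have hgD : ∀ a ∈ g, ∀ d ∈ D, d * a - a * d ∈ D := fun a ha d hd =>
    Submodule.subset_span ⟨d, hDg hd, a, ha, rfl⟩
  -- the annihilator of `D` is stable under `g`
  have hst : ∀ z ∈ ann D, ∀ a ∈ g, a * z - z * a ∈ ann D := by
    intro z hz a ha
    refine ⟨fun i => tr_br _ _, fun d hd => ?_⟩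
    rw [← hz.2 _ (hgD a ha d hd)]
    unfold tp
    refine Finset.sum_congr rfl fun i _ => ?_
    show ((a i * z i - z i * a i) * d i).trace = (z i * (d i * a i - a i * d i)).trace
    rw [sub_mul, mul_sub, trace_sub, trace_sub, mul_assoc, trace_mul_comm (a i), mul_assoc, mul_assoc]
  by_contra hcon
  have hst1 : ∀ i, ((Pi.single o Z : r → M2 K) i).trace = 0 := by
    intro i
    by_cases hi : i = o
    · subst hi
      rw [Pi.single_eq_same]
      exact hZ
    · rw [Pi.single_eq_of_ne hi]
      exact trace_zero _ _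
  obtain ⟨z1, hz1t, hz1, hz1x⟩ := dual D hst1 hcon
  have hz1Z : z1 ∈ ann D := ⟨hz1t, fun a ha => hz1 a ha (hDt a ha)⟩
  have hz10 : z1 o ≠ 0 := by
    intro h
    apply hz1x
    unfold tp
    refine Finset.sum_eq_zero fun i _ => ?_
    by_cases hi : i = o
    · subst hi
      rw [h, zero_mul, trace_zero]
    · rw [Pi.single_eq_of_ne hi, mul_zero, trace_zero]
  let supp : (r → M2 K) → Finset r := fun z => Finset.univ.filter fun i => z i ≠ 0
  have hP : ∃ n, ∃ z ∈ ann D, z o ≠ 0 ∧ (supp z).card = n := ⟨_, z1, hz1Z, hz10, rfl⟩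
  obtain ⟨z0, hz0, hz00, hcard⟩ := Nat.find_spec hP
  have hmin : ∀ z ∈ ann D, z o ≠ 0 → (supp z0).card ≤ (supp z).card := by
    intro z hz hz'
    rw [hcard]
    exact Nat.find_min' hP ⟨z, hz, hz', rfl⟩
  have hinj : ∀ z ∈ ann D, (∀ k, z0 k = 0 → z k = 0) → ∀ j, z0 j ≠ 0 → z j = 0 → z o = 0 := by
    intro z hz hzk j hj hzj
    by_contra hz'
    have h1 : supp z ⊂ supp z0 := by
      refine Finset.ssubset_iff_subset_ne.2 ⟨?_, ?_⟩
      · intro k hk
        rw [Finset.mem_filter] at hk ⊢
        exact ⟨Finset.mem_univ _, fun h => hk.2 (hzk k h)⟩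
      · intro h
        have h2 : j ∈ supp z0 := Finset.mem_filter.2 ⟨Finset.mem_univ _, hj⟩
        rw [← h] at h2
        exact (Finset.mem_filter.1 h2).2 hzj
    exact absurd (hmin z hz hz') (not_le.2 (Finset.card_lt_card h1))
  let ZI : Submodule K (r → M2 K) :=
    { carrier := {z | z ∈ ann D ∧ ∀ k, z0 k = 0 → z k = 0}
      zero_mem' := ⟨(ann D).zero_mem, fun k _ => rfl⟩
      add_mem' := by
        rintro z w ⟨hz, hz'⟩ ⟨hw, hw'⟩
        exact ⟨(ann D).add_mem hz hw, fun k hk => by rw [Pi.add_apply, hz' k hk, hw' k hk, add_zero]⟩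
      smul_mem' := by
        rintro q z ⟨hz, hz'⟩
        exact ⟨(ann D).smul_mem q hz, fun k hk => by rw [Pi.smul_apply, hz' k hk, smul_zero]⟩ }
  have hbr : ∀ z ∈ ZI, ∀ b ∈ g, b * z - z * b ∈ ZI := by
    intro z hz b hb
    refine ⟨hst z hz.1 b hb, fun k hk => ?_⟩
    show b k * z k - z k * b k = 0
    rw [hz.2 k hk, mul_zero, zero_mul, sub_zero]
  have hW : ∀ w : M2 K, w.trace = 0 → w ∈ ZI.map (LinearMap.proj o) := by
    intro w hw
    refine ideal (ZI.map (LinearMap.proj o)) ?_ (w := z0 o) ⟨z0, ⟨hz0, fun k hk => hk⟩, rfl⟩ (hz0.1 o) hz00 hw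
    rintro x hx _ ⟨z, hz, rfl⟩
    obtain ⟨b, hb, hbx⟩ := hα x hx
    refine ⟨b * z - z * b, hbr z hz b hb, ?_⟩
    show b o * z o - z o * b o = x * z o - z o * x
    rw [← hbx, tc_br]
  -- `a j` scalar implies `a o` scalar
  have hδ : ∀ j, z0 j ≠ 0 → ∀ a ∈ g, tc (a j) = 0 → tc (a o) = 0 := by
    intro j hj a ha haj
    apply eq_zero_of_comm (tc_trace _)
    intro w hw
    obtain ⟨z, hz, hzw⟩ := hW w hw
    have hzw' : z o = w := hzw
    have h1 := hinj _ (hbr z hz a ha).1 (hbr z hz a ha).2 j hj (by
      show a j * z j - z j * a j = 0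
      rw [← tc_br, haj, zero_mul, mul_zero, sub_zero])
    have h2 : a o * z o - z o * a o = 0 := h1
    rw [tc_br, ← hzw', h2]
  by_cases hone : ∀ j, j ≠ o → z0 j = 0
  · -- only the factor `o`
    apply hz00
    apply eq_zero_of_tr (hz0.1 o)
    intro y hy
    have hcomm : ∀ a ∈ g, ∀ b ∈ g, (z0 o * (a o * b o - b o * a o)).trace = 0 := by
      intro a ha b hb
      have h1 := hz0.2 (a * b - b * a) (Submodule.subset_span ⟨a, ha, b, hb, rfl⟩)
      unfold tp at h1
      rw [Finset.sum_eq_single o] at h1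
      · exact h1
      · intro j _ hj
        rw [hone j hj, zero_mul, trace_zero]
      · intro h
        exact absurd (Finset.mem_univ o) h
    have hcomm2 : ∀ x w : M2 K, x.trace = 0 → w.trace = 0 → (z0 o * (x * w - w * x)).trace = 0 := by
      intro x w hx hw
      obtain ⟨a, ha, rfl⟩ := hα x hx
      obtain ⟨b, hb, rfl⟩ := hα w hw
      rw [tc_br, br_tc]
      exact hcomm a ha b hb
    have h1 : y = (((1 / 2 : K) • mH) * (y 0 1 • mE - y 1 0 • mF) - (y 0 1 • mE - y 1 0 • mF) * ((1 / 2 : K) • mH)) +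
        ((y 0 0 • mE) * mF - mF * (y 0 0 • mE)) := by
      rw [trace_fin_two] at hy
      have h3 : y 1 1 = -y 0 0 := by linear_combination hy
      apply ext4 <;> simp only [Matrix.sub_apply, Matrix.mul_apply, Fin.sum_univ_two, Matrix.add_apply,
        Matrix.smul_apply, smul_eq_mul, F00, F01, F10, F11, H00, H01, H10, H11, E00, E01, E10, E11, h3] <;> ring
    rw [h1, mul_add, trace_add, hcomm2 _ _ (by rw [trace_smul, tr_H, smul_zero])
      (by rw [trace_sub, trace_smul, trace_smul, tr_E, tr_F, smul_zero, smul_zero, sub_zero]),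
      hcomm2 _ _ (by rw [trace_smul, tr_E, smul_zero]) tr_F, add_zero]
  · push Not at hone
    obtain ⟨j, hjo, hj⟩ := hone
    obtain ⟨e, he, heo⟩ := hα mE tr_E
    obtain ⟨h, hh, hho⟩ := hα mH tr_H
    obtain ⟨f, hf, hfo⟩ := hα mF tr_F
    -- the converse: `a o` scalar implies `a j` scalar, by dimension
    have hδ' : ∀ a ∈ g, tc (a o) = 0 → tc (a j) = 0 := by
      intro a ha hao
      -- the matrices `tc (e j), tc (h j), tc (f j)` are independent, `tc (a j)` is a combination
      let L : (Fin 3 → K) →ₗ[K] (Fin 3 → K) :=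
        { toFun := fun c => ![(c 0 • tc (e j) + c 1 • tc (h j) + c 2 • tc (f j)) 0 1,
            (c 0 • tc (e j) + c 1 • tc (h j) + c 2 • tc (f j)) 0 0,
            (c 0 • tc (e j) + c 1 • tc (h j) + c 2 • tc (f j)) 1 0]
          map_add' := by
            intro c c'
            ext i
            fin_cases i <;> simp [add_mul] <;> ring
          map_smul' := by
            intro q c
            ext i
            fin_cases i <;> simp <;> ring }
      have htcl : ∀ (c : Fin 3 → K) (b : r → M2 K), ∀ i, tc ((c 0 • e + c 1 • h + c 2 • f - b) i) =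
          c 0 • tc (e i) + c 1 • tc (h i) + c 2 • tc (f i) - tc (b i) := by
        intro c b i
        show tc (c 0 • e i + c 1 • h i + c 2 • f i - b i) = _
        unfold tc
        rw [trace_sub, trace_add, trace_add, trace_smul, trace_smul, trace_smul]
        simp only [smul_sub, smul_smul, smul_eq_mul, sub_div, add_div, sub_smul, add_smul, mul_div_assoc]
        abel
      have hLinj : Function.Injective L := by
        rw [← LinearMap.ker_eq_bot, LinearMap.ker_eq_bot']
        intro c hc
        have h0 := congrFun hc 0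
        have h1 := congrFun hc 1
        have h2 := congrFun hc 2
        have h3 : c 0 • tc (e j) + c 1 • tc (h j) + c 2 • tc (f j) = 0 := by
          have ht : (c 0 • tc (e j) + c 1 • tc (h j) + c 2 • tc (f j)).trace = 0 := by
            rw [trace_add, trace_add, trace_smul, trace_smul, trace_smul, tc_trace, tc_trace, tc_trace]
            simp
          rw [trace_fin_two] at ht
          have h00 : (c 0 • tc (e j) + c 1 • tc (h j) + c 2 • tc (f j)) 0 0 = 0 := h1
          apply ext4
          · exact h00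
          · exact h0
          · exact h2
          · rw [h00, zero_add] at ht
            exact ht
        have h4 := hδ j hj (c 0 • e + c 1 • h + c 2 • f - 0)
          (g.sub_mem (g.add_mem (g.add_mem (g.smul_mem _ he) (g.smul_mem _ hh)) (g.smul_mem _ hf)) g.zero_mem)
          (by
            rw [htcl c 0 j, h3]
            show (0 : M2 K) - tc 0 = 0
            rw [tc_id (trace_zero _ _), sub_zero])
        rw [htcl c 0 o, heo, hho, hfo] at h4
        have h5 : c 0 • mE + c 1 • mH + c 2 • (mF : M2 K) = 0 := by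
          have h6 : tc ((0 : r → M2 K) o) = 0 := tc_id (trace_zero _ _)
          rw [h6, sub_zero] at h4
          exact h4
        have k0 := congrFun (congrFun h5 0) 1
        have k1 := congrFun (congrFun h5 0) 0
        have k2 := congrFun (congrFun h5 1) 0
        simp only [Matrix.add_apply, Matrix.smul_apply, smul_eq_mul, E00, E01, E10, H00, H01, H10, F00, F01, F10,
          Matrix.zero_apply] at k0 k1 k2
        funext i
        fin_cases i
        · show c 0 = 0
          linear_combination k0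
        · show c 1 = 0
          linear_combination k1
        · show c 2 = 0
          linear_combination k2
      have hLsur : Function.Surjective L := LinearMap.surjective_of_injective hLinj
      obtain ⟨c, hc⟩ := hLsur ![tc (a j) 0 1, tc (a j) 0 0, tc (a j) 1 0]
      have h0 : (c 0 • tc (e j) + c 1 • tc (h j) + c 2 • tc (f j)) 0 1 = tc (a j) 0 1 := congrFun hc 0
      have h1 : (c 0 • tc (e j) + c 1 • tc (h j) + c 2 • tc (f j)) 0 0 = tc (a j) 0 0 := congrFun hc 1
      have h2 : (c 0 • tc (e j) + c 1 • tc (h j) + c 2 • tc (f j)) 1 0 = tc (a j) 1 0 := congrFun hc 2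
      have h3 : c 0 • tc (e j) + c 1 • tc (h j) + c 2 • tc (f j) = tc (a j) := by
        have ht : (c 0 • tc (e j) + c 1 • tc (h j) + c 2 • tc (f j)).trace = 0 := by
          rw [trace_add, trace_add, trace_smul, trace_smul, trace_smul, tc_trace, tc_trace, tc_trace]
          simp
        have ht2 := tc_trace (a j)
        rw [trace_fin_two] at ht ht2
        apply ext4
        · exact h1
        · exact h0
        · exact h2
        · linear_combination ht - ht2 - h1
      have h4 := hδ j hj (c 0 • e + c 1 • h + c 2 • f - a)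
        (g.sub_mem (g.add_mem (g.add_mem (g.smul_mem _ he) (g.smul_mem _ hh)) (g.smul_mem _ hf)) ha)
        (by rw [htcl c a j, h3, sub_self])
      rw [htcl c a o, heo, hho, hfo, hao, sub_zero] at h4
      have k0 := congrFun (congrFun h4 0) 1
      have k1 := congrFun (congrFun h4 0) 0
      have k2 := congrFun (congrFun h4 1) 0
      simp only [Matrix.add_apply, Matrix.smul_apply, smul_eq_mul, E00, E01, E10, H00, H01, H10, F00, F01, F10,
        Matrix.zero_apply] at k0 k1 k2
      have c0 : c 0 = 0 := by linear_combination k0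
      have c1 : c 1 = 0 := by linear_combination k1
      have c2 : c 2 = 0 := by linear_combination k2
      rw [← h3, c0, c1, c2]
      simp
    have htcs : ∀ x y : M2 K, tc (x - y) = tc x - tc y := by
      intro x y
      unfold tc
      rw [trace_sub, sub_div, sub_smul]
      abel
    have htcm : ∀ (q : K) (x : M2 K), tc (q • x) = q • tc x := by
      intro q x
      unfold tc
      rw [trace_smul, smul_eq_mul, mul_div_assoc, smul_sub, smul_smul]
    have hrel : ∀ a ∈ g, ∀ b ∈ g, tc (a o) = tc (b o) → tc (a j) = tc (b j) := by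
      intro a ha b hb hab
      have h1 := hδ' (a - b) (g.sub_mem ha hb) (by rw [Pi.sub_apply, htcs, hab, sub_self])
      rw [Pi.sub_apply, htcs] at h1
      exact sub_eq_zero.1 h1
    have hbrtc : ∀ a b : r → M2 K, ∀ i, tc ((a * b - b * a) i) = tc (a i) * tc (b i) - tc (b i) * tc (a i) := by
      intro a b i
      have h1 : (a * b - b * a) i = a i * b i - b i * a i := rfl
      rw [h1, tc_id (tr_br _ _), tc_br, br_tc]
    have r1 : tc (h j) * tc (e j) - tc (e j) * tc (h j) = (2 : K) • tc (e j) := by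
      rw [← hbrtc, ← htcm]
      refine hrel (h * e - e * h) (hg h hh e he) ((2 : K) • e) (g.smul_mem 2 he) ?_
      rw [hbrtc, Pi.smul_apply, htcm, hho, heo]
      apply ext4 <;> simp only [Matrix.sub_apply, Matrix.mul_apply, Fin.sum_univ_two,
        Matrix.smul_apply, smul_eq_mul, E00, E01, E10, E11, H00, H01, H10, H11] <;> ring
    have r2 : tc (h j) * tc (f j) - tc (f j) * tc (h j) = (-2 : K) • tc (f j) := by
      rw [← hbrtc, ← htcm]
      refine hrel (h * f - f * h) (hg h hh f hf) ((-2 : K) • f) (g.smul_mem _ hf) ?_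
      rw [hbrtc, Pi.smul_apply, htcm, hho, hfo]
      apply ext4 <;> simp only [Matrix.sub_apply, Matrix.mul_apply, Fin.sum_univ_two,
        Matrix.smul_apply, smul_eq_mul, F00, F01, F10, F11, H00, H01, H10, H11] <;> ring
    have r3 : tc (e j) * tc (f j) - tc (f j) * tc (e j) = tc (h j) := by
      rw [← hbrtc]
      refine hrel (e * f - f * e) (hg e he f hf) h hh ?_
      rw [hbrtc, hho, hfo, heo]
      apply ext4 <;> simp only [Matrix.sub_apply, Matrix.mul_apply, Fin.sum_univ_two,
        F00, F01, F10, F11, H00, H01, H10, H11, E00, E01, E10, E11] <;> ring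
    have hej : tc (e j) ≠ 0 := by
      intro h1
      have h2 := hδ j hj e he h1
      rw [heo] at h2
      have h3 := congrFun (congrFun h2 0) 1
      rw [E01] at h3
      exact one_ne_zero h3
    obtain ⟨X, hX0, hXE, hXH, hXF⟩ := inter (tc_trace (e j)) (tc_trace (h j)) (tc_trace (f j)) r1 r2 r3 hej
    apply hX0
    apply his j hjo X
    intro a ha
    have h1 := expand (tc_trace (a o))
    have h2 : tc (a j) = tc (a o) 0 1 • tc (e j) + tc (a o) 0 0 • tc (h j) + tc (a o) 1 0 • tc (f j) := by
      have htca : ∀ x y : M2 K, tc (x + y) = tc x + tc y := by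
        intro x y
        unfold tc
        rw [trace_add, add_div, add_smul]
        abel
      have h3 := hrel a ha (tc (a o) 0 1 • e + tc (a o) 0 0 • h + tc (a o) 1 0 • f)
        (g.add_mem (g.add_mem (g.smul_mem _ he) (g.smul_mem _ hh)) (g.smul_mem _ hf)) (by
          rw [Pi.add_apply, Pi.add_apply, Pi.smul_apply, Pi.smul_apply, Pi.smul_apply, htca, htca, htcm, htcm, htcm,
            heo, hho, hfo]
          exact h1)
      rw [h3, Pi.add_apply, Pi.add_apply, Pi.smul_apply, Pi.smul_apply, Pi.smul_apply, htca, htca, htcm, htcm, htcm]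
    rw [h2]
    conv_lhs => rw [h1]
    simp only [mul_add, add_mul, mul_smul_comm, smul_mul_assoc]
    rw [hXE, hXH, hXF]

end

end HC.Rib
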