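import Pool.Agent.Lib.HC.L.Defs

/-!
# PROJECT HC+ part 3 (with real multiplication): linear algebra (helper45)

`Al W m`: alternating forms. `Hlg T m` is `Al (T.V →ₗ[ℝ] ℂ) m` by definition.

* `S_Flat`, `S_LemJ`, `S_LemP`: for `SSH B'`.
* `S_Rib`: Goursat and Ribet over `ℝ`.
* `S_Gen`: invariants of a Lie algebra `h ⊂ ∏ sl₂(ℝ)` with all projections onto are obtained from
  the top degree by contractions with invariant 2-forms (dual Casimir). With `G m = {c | Alg T m c}`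
  this is `HCj B'`.
-/

set_option autoImplicit false

open Matrix

noncomputable section

namespace HC

/-- Real `2 × 2` matrices. -/
abbrev M2R : Type := Matrix (Fin 2) (Fin 2) ℝ

/-- **Flat**: a real vector in the real spans of two rational subspaces is in the real span of
the intersection.
PROOF. `H` a `ℚ`-basis of `ℝ` (`Module.Basis.ofVectorSpace ℚ ℝ`), `φ_s v = ∑_i (H.repr (b.repr v i) s) b_i`
(additive in `v`). For `p` with rational coordinates `φ_s (r • p) = (H.repr r s) • p`, so `φ_s` maps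
`span ℝ P` into `P` (`Submodule.span_induction`, sums of `r • p`), and `v = ∑_s H s • φ_s v`. So
`φ_s x ∈ P ⊓ P'`. -/
def S_Flat : Prop :=
  ∀ (V : Type) [AddCommGroup V] [Module ℝ V] (ι : Type) [Fintype ι] (b : Module.Basis ι ℝ V)
    (P P' : AddSubgroup V), (∀ x ∈ P, ∀ q : ℚ, (q : ℝ) • x ∈ P) →
    (∀ x ∈ P', ∀ q : ℚ, (q : ℝ) • x ∈ P') → (∀ x ∈ P, ∀ i, ∃ q : ℚ, b.repr x i = q) →
    (∀ x ∈ P', ∀ i, ∃ q : ℚ, b.repr x i = q) → ∀ x : V,
    x ∈ Submodule.span ℝ (P : Set V) → x ∈ Submodule.span ℝ (P' : Set V) →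
    x ∈ Submodule.span ℝ ((P ⊓ P' : AddSubgroup V) : Set V)

/-- **LemJ**: a real Lie subalgebra of `sl₂(ℝ)` containing `J`, `J² = -1`, is `ℝ J` or everything.
PROOF. `J` is traceless. Let `X ∈ g` be not a multiple of `J`; subtract a multiple of `J` so that
`tr (X J) = 0`, `X ≠ 0`. For traceless matrices `A B + B A = tr (A B)`, so `X J = - J X`;
`Y = (J X - X J)/2 = J X ∈ g`. `J, X, Y` are linearly independent (`J² = -1`, `X² = Y² = q > 0`: with
`J = !![a, b; c, -a]`, `a² + b c = -1`, `c ≠ 0`, `X = !![p, q; r, -p]`, `2 a p + b r + c q = 0`: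
`c² (p² + q r) = (c p - a r)² + r²`; or: every traceless `Z` is
`-(tr (Z J)/2) J + (tr (Z X)/(2q)) X + (tr (Z Y)/(2q)) Y`). -/
def S_LemJ : Prop :=
  ∀ (g : Submodule ℝ M2R), (∀ X ∈ g, ∀ Y ∈ g, X * Y - Y * X ∈ g) → (∀ X ∈ g, X.trace = 0) →
    ∀ J ∈ g, J * J = -1 → (∀ X ∈ g, ∃ r : ℝ, X = r • J) ∨ ∀ X : M2R, X.trace = 0 → X ∈ g

/-- Hypotheses on a real Lie algebra in `∏ sl₂(ℝ)` with all projections onto. -/
structure Onto {I : Type} (h : Submodule ℝ (I → M2R)) : Prop where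
  br : ∀ X ∈ h, ∀ Y ∈ h, X * Y - Y * X ∈ h
  tr : ∀ X ∈ h, ∀ i, (X i).trace = 0
  onto : ∀ i, ∀ Z : M2R, Z.trace = 0 → ∃ X ∈ h, X i = Z

/-- **LemP** (helper47): such an `h` is perfect.
PROOF. Induction on the number of factors, in the form: for every finite set `S` of indices and
`X ∈ h` there is `Y ∈ [h, h]` (the span of the commutators) with `X i = Y i` for `i ∈ S`. Step
`S ∪ {j}`: subtracting, `X ∈ h` with `X i = 0` for `i ∈ S`; `k = {X ∈ h : X i = 0 on S}`, its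
projection `k_j` to the factor `j` is stable under `[Z, ·]` for all traceless `Z` (`onto`), so it is
`0` (then `X j = 0`) or all of `sl₂` (`S_Rib` part 1); in the second case `X j = ∑ [Z, Z']`, take
`U ∈ h` over `Z`, `U' ∈ k` over `Z'`: `[U, U'] ∈ [h, h]` vanishes on `S`. (Correct first `Y`, then add
this element.) -/
def S_LemP : Prop :=
  ∀ (I : Type) [Finite I] (h : Submodule ℝ (I → M2R)), Onto h →
    h ≤ Submodule.span ℝ {Z | ∃ X ∈ h, ∃ Y ∈ h, Z = X * Y - Y * X}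

/-- **Idl**: ideals of `sl₂(ℝ)`. PROOF. `Z = α e + β f + γ h ≠ 0`: `[e, [e, Z]] = -2 β e`,
`[e, Z] = β h - 2 γ e`; so `e ∈ N`, then `h = [e, f]`, `f = [h, f]/(-2)`. -/
def S_Idl : Prop :=
  ∀ (N : Submodule ℝ M2R), (∀ X ∈ N, X.trace = 0) →
    (∀ Z : M2R, Z.trace = 0 → ∀ X ∈ N, Z * X - X * Z ∈ N) →
    (∀ X ∈ N, X = 0) ∨ ∀ X : M2R, X.trace = 0 → X ∈ N

/-- **Tri**: `sl₂`-triples are standard.
PROOF. `2 tr (E E) = tr ((H E - E H) E) = 0` and `tr E = 0`, so `E E = 0`; same for `F`. `v ≠ 0` in the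
image of `E`, `ker E = ℝ v`. `E H v = -2 E v + H E v = 0`, so `H v = λ v`. `w = F v`,
`E w = (F E + H) v = λ v`, `H w = (F H - 2 F) v = (λ - 2) w`, `F w = 0`. If `w = 0`: `λ = 0`, `H v = 0`,
`tr H = 0`, so `H` is a multiple of `E`, `2 E = 0`: contradiction. So `v, w` are eigenvectors of `H`
with different eigenvalues, `tr H = 0`: `λ = 1`. `k = (v, w)`. -/
def S_Tri : Prop :=
  ∀ E F H : M2R, H * E - E * H = (2 : ℝ) • E → H * F - F * H = (-2 : ℝ) • F →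
    E * F - F * E = H → E ≠ 0 → ∃ k k' : M2R, k * k' = 1 ∧ k' * k = 1 ∧
      E = k * !![0, 1; 0, 0] * k' ∧ F = k * !![0, 0; 1, 0] * k' ∧ H = k * !![1, 0; 0, -1] * k'

/-- **Gou** (Goursat for two factors), from `S_Idl`, `S_Tri`: onto both factors means onto the
product or the graph of a conjugation.
PROOF. `N = {Z : (Z at i, 0 at j) ∈ image}` is an ideal; all: then onto (subtract). `0`: the image is
`{(φ(Z), Z)}` with `φ` injective, linear, `φ [Z, Z'] = [φ Z, φ Z']`; `S_Tri` for `φ e, φ f, φ h`. -/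
def S_Gou : Prop :=
  ∀ (I : Type) (h : Submodule ℝ (I → M2R)), Onto h → ∀ i j : I,
    (∀ Z Z' : M2R, Z.trace = 0 → Z'.trace = 0 → ∃ X ∈ h, X i = Z ∧ X j = Z') ∨
    ∃ k k' : M2R, k * k' = 1 ∧ k' * k = 1 ∧ ∀ X ∈ h, X i = k * X j * k'

/-- **Rib** (Ribet), from `S_Gou`: classes, representatives, and `h` is everything.
PROOF. `i ~ j` iff the second case of `S_Gou` holds (an equivalence relation); `ρ` chooses
representatives, `k i, k' i` the conjugation from `ρ i` to `i`. For a representative `r`, a finite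
set `S` of representatives `≠ r`, and a traceless `Z` there is `X ∈ h` with `X r = Z`, `X s = 0` for
`s ∈ S`: induction, `Z = ∑ [Y, Y']`, `[X for Y and S, X' for Y' and {s}]`. Sum over the `r`. -/
def S_Rib : Prop :=
  ∀ (I : Type) [Finite I] (h : Submodule ℝ (I → M2R)), Onto h →
    ∃ (ρ : I → I) (k k' : I → M2R), (∀ i, ρ (ρ i) = ρ i) ∧ (∀ i, k i * k' i = 1) ∧
      (∀ i, k' i * k i = 1) ∧ (∀ i, ρ i = i → k i = 1) ∧
      ∀ X : I → M2R, X ∈ h ↔ (∀ i, (X i).trace = 0) ∧ ∀ i, X i = k i * X (ρ i) * k' i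

/-! ## Creation, annihilation, derivations -/

/-- Alternating forms of degree `m`. -/
abbrev Al (W : Type) [AddCommGroup W] [Module ℂ W] (m : ℕ) : Type := W [⋀^Fin m]→ₗ[ℂ] ℂ

variable {W : Type} [AddCommGroup W] [Module ℂ W]

/-- Annihilation. -/
def an {m : ℕ} (w : W) (c : Al W (m + 1)) : Al W m := c.curryLeft w

/-- Creation: `(cr f c)(v) = ∑ (-1)^i f(v_i) c(v without i)`. -/
def cr {m : ℕ} (f : W →ₗ[ℂ] ℂ) (c : Al W m) : Al W (m + 1) :=
  AlternatingMap.alternatizeUncurryFin (f.smulRight c)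

/-- The derivation of the operator `op`: `(lieA op c)(a) = ∑ c(a with op (a_i) at i)`. -/
def lieA (op : Module.End ℂ W) : {m : ℕ} → Al W m → Al W m
  | 0, _ => 0
  | _ + 1, c => AlternatingMap.alternatizeUncurryFin (c.curryLeft ∘ₗ op)

/-- **Cre**. (1) value of `lieA`; (2) value of `cr`; (3) linearity; (4) CAR; (5) contraction of a
derivation; (6) derivation of a creation; (7) commutators.
PROOF. (1), (2): `AlternatingMap.alternatizeUncurryFin_apply`; moving `op (a_i)` from the front to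
place `i`: `AlternatingMap.neg_one_pow_smul_map_insertNth` or `.._removeNth`. (4)-(7): evaluate,
`Fin.sum_univ_succ`, `Fin.cons`. -/
def S_Cre : Prop :=
  ∀ (W : Type) [AddCommGroup W] [Module ℂ W] (m : ℕ),
    (∀ (op : Module.End ℂ W) (c : Al W m) (a : Fin m → W),
      lieA op c a = ∑ i, c (Function.update a i (op (a i)))) ∧
    (∀ (f : W →ₗ[ℂ] ℂ) (c : Al W m) (v : Fin (m + 1) → W),
      cr f c v = ∑ i : Fin (m + 1), (-1) ^ (i : ℕ) * (f (v i) * c (i.removeNth v))) ∧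
    (∀ (op op' : Module.End ℂ W) (x : ℂ) (c c' : Al W m),
      lieA (op + op') c = lieA op c + lieA op' c ∧ lieA (x • op) c = x • lieA op c ∧
      lieA op (c + c') = lieA op c + lieA op c' ∧ lieA op (x • c) = x • lieA op c) ∧
    (∀ (f : W →ₗ[ℂ] ℂ) (w : W) (c : Al W m),
      an w (cr f c) = f w • c - lieA (f.smulRight w) c) ∧
    (∀ (op : Module.End ℂ W) (w : W) (c : Al W (m + 1)),
      an w (lieA op c) = an (op w) c + lieA op (an w c)) ∧
    (∀ (op : Module.End ℂ W) (f : W →ₗ[ℂ] ℂ) (c : Al W m),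
      lieA op (cr f c) = cr (f ∘ₗ op) c + cr f (lieA op c)) ∧
    ∀ (op op' : Module.End ℂ W) (c : Al W m),
      lieA op (lieA op' c) - lieA op' (lieA op c) = lieA (op' * op - op * op') c

/-! ## The dual Casimir formula -/

variable {I : Type} [Fintype I] [DecidableEq I]

/-- The operator of `X` on 1-forms: `ξ_(i,ε) ↦ ∑ X_i ε ε' ξ_(i,ε')` (`= ξ ∘ X`). -/
def opX (ξ : Module.Basis (I × Fin 2) ℂ W) (X : I → M2R) : Module.End ℂ W :=
  ξ.constr ℂ fun s => ∑ e : Fin 2, ((X s.1 s.2 e : ℝ) : ℂ) • ξ (s.1, e)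

/-- `om p q c = cr_(p,0) cr_(q,1) c - cr_(p,1) cr_(q,0) c`. -/
def omA (ξ : Module.Basis (I × Fin 2) ℂ W) (p q : I) {m : ℕ} (c : Al W m) : Al W (m + 2) :=
  cr (ξ.coord (p, 0)) (cr (ξ.coord (q, 1)) c) - cr (ξ.coord (p, 1)) (cr (ξ.coord (q, 0)) c)

/-- `K p q c = c(ξ_(p,0), ξ_(q,1), ..) - c(ξ_(p,1), ξ_(q,0), ..)`. -/
def KA (ξ : Module.Basis (I × Fin 2) ℂ W) (p q : I) {m : ℕ} (c : Al W (m + 2)) : Al W m :=
  an (ξ (q, 1)) (an (ξ (p, 0)) c) - an (ξ (q, 0)) (an (ξ (p, 1)) c)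

/-- The elementary derivation `n s t = lieA (w ↦ ξ*_s(w) ξ_t)`. -/
def nA (ξ : Module.Basis (I × Fin 2) ℂ W) (s t : I × Fin 2) {m : ℕ} (c : Al W m) : Al W m :=
  lieA ((ξ.coord s).smulRight (ξ t)) c

/-- **KO**, from `S_Cre`: the contraction of `om`.
PROOF. `an_u an_v cr_s cr_t c = (δ_vs δ_ut - δ_us δ_vt) c - δ_vs n_tu c + δ_us n_tv c - δ_ut n_sv c
+ n_sv n_tu c` (CAR for `cr_t c`, then (5), then CAR twice); four terms. -/
def S_KO : Prop :=
  ∀ (W : Type) [AddCommGroup W] [Module ℂ W] (I : Type) [Fintype I] [DecidableEq I]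
    (ξ : Module.Basis (I × Fin 2) ℂ W) (p q : I) (m : ℕ) (c : Al W m),
    KA ξ p q (omA ξ p q c) = (2 : ℂ) • c - nA ξ (q, 1) (q, 1) c - nA ξ (p, 0) (p, 0) c
      - nA ξ (q, 0) (q, 0) c - nA ξ (p, 1) (p, 1) c
      + nA ξ (p, 0) (p, 0) (nA ξ (q, 1) (q, 1) c) + nA ξ (p, 1) (p, 1) (nA ξ (q, 0) (q, 0) c)
      - nA ξ (p, 1) (p, 0) (nA ξ (q, 0) (q, 1) c) - nA ξ (p, 0) (p, 1) (nA ξ (q, 1) (q, 0) c)
      + (if p = q then (2 : ℂ) • c - nA ξ (p, 0) (p, 0) c - nA ξ (p, 1) (p, 1) c else 0)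

/-- The traceless matrices on the class of `r`. -/
def cls (ρ : I → I) (r : I) (Z : M2R) : I → M2R := fun i => if ρ i = r then Z else 0

/-- The `r`-degree. -/
def NA (ξ : Module.Basis (I × Fin 2) ℂ W) (ρ : I → I) (r : I) {m : ℕ} (c : Al W m) : Al W m :=
  lieA (opX ξ (cls ρ r 1)) c

/-- `(2 |R| - N) c`. -/
def XA (ξ : Module.Basis (I × Fin 2) ℂ W) (ρ : I → I) (r : I) {m : ℕ} (c : Al W m) : Al W m :=
  (2 * (Finset.univ.filter fun i => ρ i = r).card : ℂ) • c - NA ξ ρ r c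

/-- Killed by all the `sl₂`'s. -/
def Inv (ξ : Module.Basis (I × Fin 2) ℂ W) (ρ : I → I) {m : ℕ} (c : Al W m) : Prop :=
  ∀ (r : I) (Z : M2R), Z.trace = 0 → lieA (opX ξ (cls ρ r Z)) c = 0

/-- **DCas**, from `S_KO`, `S_Cre`: `∑_{p,q ∈ R} K_pq om_pq c = (1/2) X (X + 2) c`.
PROOF. Sum of `S_KO`. `E_εε' = ∑_{p ∈ R} n_(p,ε)(p,ε')` is `lieA` of
`w ↦ ∑ ξ*_(p,ε)(w) ξ_(p,ε')`, which is `opX (cls ρ r Z)` for `Z = single ε ε' 1`. So
`E_01 c = E_10 c = 0`, `E_00 c = E_11 c`, `E_00 + E_11 = N`, `N` commutes with `E_00`, `E_11` (7). The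
sum is `2k² c - 2k N c + E_00 E_11 c + E_11 E_00 c + 2 k c - N c`, and `E_00 c = E_11 c = N c / 2`. -/
def S_DCas : Prop :=
  ∀ (W : Type) [AddCommGroup W] [Module ℂ W] (I : Type) [Fintype I] [DecidableEq I]
    (ξ : Module.Basis (I × Fin 2) ℂ W) (ρ : I → I) (m : ℕ) (c : Al W m), Inv ξ ρ c → ∀ r,
    ∑ p ∈ Finset.univ.filter (fun i => ρ i = r), ∑ q ∈ Finset.univ.filter (fun i => ρ i = r),
      KA ξ p q (omA ξ p q c) = (1 / 2 : ℂ) • XA ξ ρ r (XA ξ ρ r c) + XA ξ ρ r c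

/-- **GenN**, from `S_Cre`, `S_DCas`: the normalised generation theorem.
PROOF. Downward induction on the degree (`m > 2 |I|`: `c = 0`; `m = 2 |I|`: hypothesis). `m < 2 |I|`:
let `V` be the subspace `{c | Inv c}` of the finite dimensional space `Al W m`,
`Q c = ∑_r ((1/2) X_r X_r c + X_r c)` over the representatives `r` (`ρ r = r`; or all `r`, the others
give `0`). `Q` maps `V` to `V` (`N_r` commutes with `opX (cls ρ r' Z)`, (7)). On the values:
`(N_r c)(ξ ∘ s) = #{l : ρ (s l).1 = r} c(ξ ∘ s)`, so `(Q c)(ξ ∘ s) = q(s) c(ξ ∘ s)`, and for injective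
`s` all `X_r(s) ≥ 0` with sum `2 |I| - m > 0`, so `q(s) > 0`; for non-injective `s` the value of `c` is
`0`. So `Q` is injective on `V`, hence onto: `c = Q c'`, `c' ∈ V`, `Q c' = ∑_r ∑_pq K_pq om_pq c'`
(`S_DCas`), `om_pq c' ∈ Inv` of degree `m + 2` ((6): the `cr`-parts cancel by trace 0), so in `G`. -/
def S_GenN : Prop :=
  ∀ (W : Type) [AddCommGroup W] [Module ℂ W] (I : Type) [Fintype I] [DecidableEq I]
    (ξ : Module.Basis (I × Fin 2) ℂ W) (ρ : I → I), (∀ i, ρ (ρ i) = ρ i) →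
    ∀ (G : ∀ m, Submodule ℂ (Al W m)), (∀ c, c ∈ G (2 * Fintype.card I)) →
    (∀ p q, ρ p = ρ q → ∀ m, ∀ c ∈ G (m + 2), KA ξ p q c ∈ G m) →
    ∀ (m : ℕ) (c : Al W m), Inv ξ ρ c → c ∈ G m

/-- The matrix of `opX`. -/
def bigM (X : I → M2R) : Matrix (I × Fin 2) (I × Fin 2) ℂ :=
  Matrix.of fun s t => if s.1 = t.1 then ((X s.1 s.2 t.2 : ℝ) : ℂ) else 0

/-- **Gen**, from `S_GenN`, `S_Rib`: THE GENERATION THEOREM.
PROOF. `ρ, k, k'` from `S_Rib`. New basis `ξ'_(i,ε) = ∑ (k' i) ε ε' ξ_(i,ε')`: in it `X ∈ h` acts on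
the class of `r` by `X r` (`k' X_i k = X_r`), so `c` killed by `h` means `Inv ξ' ρ c`. `K_pq` in the
basis `ξ'` is the contraction with `η = ∑ (ξ'_(p,0) ⊗ ξ'_(q,1) - ξ'_(p,1) ⊗ ξ'_(q,0))`, and for
`ρ p = ρ q` the antisymmetric part of `η` is `h`-invariant (trace 0); the contraction only sees the
antisymmetric part. -/
def S_Gen : Prop :=
  ∀ (W : Type) [AddCommGroup W] [Module ℂ W] (I : Type) [Fintype I] [DecidableEq I]
    (ξ : Module.Basis (I × Fin 2) ℂ W) (h : Submodule ℝ (I → M2R)), Onto h →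
    ∀ (G : ∀ m, Submodule ℂ (Al W m)), (∀ c, c ∈ G (2 * Fintype.card I)) →
    (∀ η : Matrix (I × Fin 2) (I × Fin 2) ℂ, ηᵀ = -η →
      (∀ X ∈ h, (bigM X)ᵀ * η + η * bigM X = 0) → ∀ m, ∀ c ∈ G (m + 2),
      (∑ s, ∑ t, η s t • an (ξ t) (an (ξ s) c)) ∈ G m) →
    ∀ (m : ℕ) (c : Al W m), (∀ X ∈ h, lieA (opX ξ X) c = 0) → c ∈ G m

end HC
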